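import Mathlib

set_option autoImplicit false
set_option linter.all false

/-!
# Quadric bundles and R-equivalence: the definitions
-/

namespace Pool.Agent.K369

open MvPolynomial

universe u

/-- Every finite extension `L` of `k` has at most one quadratic extension: for all `x`, `y` in `L`
one of `x`, `y`, `x y` is a square in `L`. -/
def OneQuadratic (k : Type u) [Field k] : Prop :=
  ∀ (L : Type u) [Field L] [Algebra k L] [FiniteDimensional k L] (x y : L),
    IsSquare x ∨ IsSquare y ∨ IsSquare (x * y)

variable {k : Type*} [Field k] {m N r : ℕ}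

/-- The condition that `A` defines a quadric bundle in the projective bundle over `P^m` with
homogeneous coordinates `x 0, ..., x (N - 1)` of weights `- a 0, ..., - a (N - 1)`: the coefficient
`A i j` is zero or a form of degree `δ + a i + a j` in the coordinates `s 0, ..., s m` of `P^m`. -/
def IsQuadricBundle (A : Fin N → Fin N → MvPolynomial (Fin (m + 1)) k) (a : Fin N → ℤ) (δ : ℤ) :
    Prop :=
  ∀ i j, A i j = 0 ∨ ∃ e : ℕ, (e : ℤ) = δ + a i + a j ∧ (A i j).IsHomogeneous e

/-- The value `∑ i, ∑ j, A i j (s) x i x j`, in a `k`-algebra. -/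
noncomputable def qval (A : Fin N → Fin N → MvPolynomial (Fin (m + 1)) k) {R : Type*} [CommRing R]
    [Algebra k R] (s : Fin (m + 1) → R) (x : Fin N → R) : R :=
  ∑ i, ∑ j, aeval s (A i j) * x i * x j

/-- Two pairs `(s, x)`, `(s', x')` are coordinates of the same point of the projective bundle:
`s' = l s` and `x' i = c l ^ (- a i) x i` with `l, c ∈ k*`. -/
def SamePoint (a : Fin N → ℤ) (p p' : (Fin (m + 1) → k) × (Fin N → k)) : Prop :=
  ∃ l c : k, l ≠ 0 ∧ c ≠ 0 ∧ p'.1 = l • p.1 ∧ ∀ i, p'.2 i = c * l ^ (-(a i)) * p.2 i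

/-- The coordinates of the `k`-rational points of the closed subscheme
`Y : G 0 = ⋯ = G (r - 1) = 0` of `P^m_k`. -/
def YPt (G : Fin r → MvPolynomial (Fin (m + 1)) k) : Type _ :=
  {s : Fin (m + 1) → k // s ≠ 0 ∧ ∀ j, eval s (G j) = 0}

/-- The points with coordinates `s` and `s'` are directly R-linked on `Y`: there is a rational map
from `P^1_k` to `Y`, given by polynomials `σ` in one variable, that is defined at `0` and at `1`
and sends `0` to the first point and `1` to the second one.  (Any two rational points of `P^1` can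
be moved to `0` and `1`.) -/
def YLinked (G : Fin r → MvPolynomial (Fin (m + 1)) k) (s s' : Fin (m + 1) → k) : Prop :=
  ∃ σ : Fin (m + 1) → Polynomial k, (∀ j, aeval σ (G j) = 0) ∧
    (∃ l : k, l ≠ 0 ∧ s = l • fun i => (σ i).eval 0) ∧
    (∃ l : k, l ≠ 0 ∧ s' = l • fun i => (σ i).eval 1)

/-- The set `Y(k)/R`: the coordinates of the `k`-rational points of `Y` modulo the equivalence
relation generated by the direct R-links. -/
def YRClasses (G : Fin r → MvPolynomial (Fin (m + 1)) k) : Type _ :=
  Quot (fun s s' : YPt G => YLinked G s.1 s'.1)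

/-- The coordinates `(s, x)` of the `k`-rational points of the quadric bundle `X` over `Y`: `s` is
a point of `Y`, `x ≠ 0` and `∑ i, ∑ j, A i j (s) x i x j = 0`. -/
def XPt (G : Fin r → MvPolynomial (Fin (m + 1)) k)
    (A : Fin N → Fin N → MvPolynomial (Fin (m + 1)) k) : Type _ :=
  {p : (Fin (m + 1) → k) × (Fin N → k) //
    (p.1 ≠ 0 ∧ ∀ j, eval p.1 (G j) = 0) ∧ p.2 ≠ 0 ∧ qval A p.1 p.2 = 0}

/-- The points with coordinates `p` and `p'` are directly R-linked on `X`: there is a rational map
from `P^1_k` to `X`, given by polynomials `σ`, `x` in one variable, that is defined at `0` and at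
`1` and sends `0` to the first point and `1` to the second one. -/
def XLinked (G : Fin r → MvPolynomial (Fin (m + 1)) k)
    (A : Fin N → Fin N → MvPolynomial (Fin (m + 1)) k) (a : Fin N → ℤ)
    (p p' : (Fin (m + 1) → k) × (Fin N → k)) : Prop :=
  ∃ (σ : Fin (m + 1) → Polynomial k) (x : Fin N → Polynomial k),
    (∀ j, aeval σ (G j) = 0) ∧ qval A σ x = 0 ∧
    SamePoint a (fun i => (σ i).eval 0, fun i => (x i).eval 0) p ∧
    SamePoint a (fun i => (σ i).eval 1, fun i => (x i).eval 1) p'

/-- The set `X(k)/R`: the coordinates of the `k`-rational points of `X` modulo the equivalence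
relation generated by the direct R-links (coordinates of one point are directly R-linked, by a
constant map). -/
def XRClasses (G : Fin r → MvPolynomial (Fin (m + 1)) k)
    (A : Fin N → Fin N → MvPolynomial (Fin (m + 1)) k) (a : Fin N → ℤ) : Type _ :=
  Quot (fun p p' : XPt G A => XLinked G A a p.1 p'.1)

/-- The map `X(k)/R → Y(k)/R` given by `(s, x) ↦ s`. -/
def projR (G : Fin r → MvPolynomial (Fin (m + 1)) k)
    (A : Fin N → Fin N → MvPolynomial (Fin (m + 1)) k) (a : Fin N → ℤ) :
    XRClasses G A a → YRClasses G :=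
  Quot.map (fun p => ⟨p.1.1, p.2.1⟩) fun p p' h => by
    obtain ⟨σ, x, h1, _, ⟨l, _, hl, _, h2, _⟩, ⟨l', _, hl', _, h3, _⟩⟩ := h
    exact ⟨σ, h1, ⟨l, hl, h2⟩, ⟨l', hl', h3⟩⟩

end Pool.Agent.K369
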