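import Mathlib
import Pool.Agent.K369.FibDefs

set_option autoImplicit false
set_option linter.all false

/-!
# Quadric bundles over a projective space and R-equivalence
-/

namespace Pool.Agent.K369

open MvPolynomial

variable {k : Type*} [Field k] {m N : ℕ}

/-- The coordinates `(s, x)` of the `k`-rational points of the quadric bundle `X`:
`s ≠ 0`, `x ≠ 0` and `∑ i, ∑ j, A i j (s) x i x j = 0`. -/
def BPt (A : Fin N → Fin N → MvPolynomial (Fin (m + 1)) k) : Type _ :=
  {p : (Fin (m + 1) → k) × (Fin N → k) // p.1 ≠ 0 ∧ p.2 ≠ 0 ∧ qval A p.1 p.2 = 0}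

/-- The points with coordinates `p` and `p'` are directly R-linked on the quadric bundle: there is
a rational map from `P^1_k` to it, given by polynomials `σ`, `x` in one variable, that is defined
at `0` and at `1` and sends `0` to the first point and `1` to the second one.  (Any two rational
points of `P^1` can be moved to `0` and `1`.) -/
def BLinked (A : Fin N → Fin N → MvPolynomial (Fin (m + 1)) k) (a : Fin N → ℤ)
    (p p' : (Fin (m + 1) → k) × (Fin N → k)) : Prop :=
  ∃ (σ : Fin (m + 1) → Polynomial k) (x : Fin N → Polynomial k), qval A σ x = 0 ∧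
    SamePoint a (fun i => (σ i).eval 0, fun i => (x i).eval 0) p ∧
    SamePoint a (fun i => (σ i).eval 1, fun i => (x i).eval 1) p'

/-- The set `X(k)/R` of R-equivalence classes of the quadric bundle `X`: the coordinates of the
`k`-rational points of `X` modulo the equivalence relation generated by the direct R-links
(coordinates of one point are directly R-linked, by a constant map). -/
def BRClasses (A : Fin N → Fin N → MvPolynomial (Fin (m + 1)) k) (a : Fin N → ℤ) : Type _ :=
  Quot (fun p p' : BPt A => BLinked A a p.1 p'.1)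

/-- R-equivalence of coordinates. -/
def BRE (A : Fin N → Fin N → MvPolynomial (Fin (m + 1)) k) (a : Fin N → ℤ) :
    BPt A → BPt A → Prop :=
  Relation.EqvGen (fun p p' => BLinked A a p.1 p'.1)

theorem qval_smul (A : Fin N → Fin N → MvPolynomial (Fin (m + 1)) k) {R : Type*} [CommRing R]
    [Algebra k R] (s : Fin (m + 1) → R) (c : R) (x : Fin N → R) :
    qval A s (fun i => c * x i) = c ^ 2 * qval A s x := by
  unfold qval
  rw [Finset.mul_sum]
  refine Finset.sum_congr rfl fun i _ => ?_
  rw [Finset.mul_sum]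
  refine Finset.sum_congr rfl fun j _ => ?_
  ring

/-- The polar form. -/
noncomputable def qpol (A : Fin N → Fin N → MvPolynomial (Fin (m + 1)) k) {R : Type*} [CommRing R]
    [Algebra k R] (s : Fin (m + 1) → R) (x y : Fin N → R) : R :=
  ∑ i, ∑ j, aeval s (A i j) * (x i * y j + y i * x j)

theorem qval_comb (A : Fin N → Fin N → MvPolynomial (Fin (m + 1)) k) {R : Type*} [CommRing R]
    [Algebra k R] (s : Fin (m + 1) → R) (c e : R) (x y : Fin N → R) :
    qval A s (fun i => c * x i + e * y i) =
      c ^ 2 * qval A s x + c * e * qpol A s x y + e ^ 2 * qval A s y := by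
  unfold qval qpol
  rw [Finset.mul_sum, Finset.mul_sum, Finset.mul_sum, ← Finset.sum_add_distrib,
    ← Finset.sum_add_distrib]
  refine Finset.sum_congr rfl fun i _ => ?_
  rw [Finset.mul_sum, Finset.mul_sum, Finset.mul_sum, ← Finset.sum_add_distrib,
    ← Finset.sum_add_distrib]
  refine Finset.sum_congr rfl fun j _ => ?_
  ring

theorem qpol_comm (A : Fin N → Fin N → MvPolynomial (Fin (m + 1)) k) {R : Type*} [CommRing R]
    [Algebra k R] (s : Fin (m + 1) → R) (x y : Fin N → R) : qpol A s x y = qpol A s y x := by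
  unfold qpol
  refine Finset.sum_congr rfl fun i _ => Finset.sum_congr rfl fun j _ => ?_
  ring

theorem qpol_comb (A : Fin N → Fin N → MvPolynomial (Fin (m + 1)) k) {R : Type*} [CommRing R]
    [Algebra k R] (s : Fin (m + 1) → R) (c e : R) (x y z : Fin N → R) :
    qpol A s z (fun i => c * x i + e * y i) = c * qpol A s z x + e * qpol A s z y := by
  unfold qpol
  rw [Finset.mul_sum, Finset.mul_sum, ← Finset.sum_add_distrib]
  refine Finset.sum_congr rfl fun i _ => ?_
  rw [Finset.mul_sum, Finset.mul_sum, ← Finset.sum_add_distrib]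
  refine Finset.sum_congr rfl fun j _ => ?_
  ring

theorem qpol_self (A : Fin N → Fin N → MvPolynomial (Fin (m + 1)) k) {R : Type*} [CommRing R]
    [Algebra k R] (s : Fin (m + 1) → R) (x : Fin N → R) : qpol A s x x = 2 * qval A s x := by
  unfold qpol qval
  rw [Finset.mul_sum]
  refine Finset.sum_congr rfl fun i _ => ?_
  rw [Finset.mul_sum]
  refine Finset.sum_congr rfl fun j _ => ?_
  ring

theorem qval_map (A : Fin N → Fin N → MvPolynomial (Fin (m + 1)) k) {R S : Type*} [CommRing R]
    [Algebra k R] [CommRing S] [Algebra k S] (f : R →ₐ[k] S) (s : Fin (m + 1) → R)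
    (x : Fin N → R) : f (qval A s x) = qval A (fun i => f (s i)) (fun i => f (x i)) := by
  unfold qval
  rw [map_sum]
  refine Finset.sum_congr rfl fun i _ => ?_
  rw [map_sum]
  refine Finset.sum_congr rfl fun j _ => ?_
  rw [map_mul, map_mul]
  congr 2
  have h2 : f.comp (aeval s) = aeval (fun i => f (s i)) := by
    apply MvPolynomial.algHom_ext
    intro i
    simp only [AlgHom.comp_apply, aeval_X]
  exact congrArg (fun g => g (A i j)) (congrArg DFunLike.coe h2)

theorem qpol_map (A : Fin N → Fin N → MvPolynomial (Fin (m + 1)) k) {R S : Type*} [CommRing R]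
    [Algebra k R] [CommRing S] [Algebra k S] (f : R →ₐ[k] S) (s : Fin (m + 1) → R)
    (x y : Fin N → R) : f (qpol A s x y) =
      qpol A (fun i => f (s i)) (fun i => f (x i)) (fun i => f (y i)) := by
  unfold qpol
  rw [map_sum]
  refine Finset.sum_congr rfl fun i _ => ?_
  rw [map_sum]
  refine Finset.sum_congr rfl fun j _ => ?_
  rw [map_mul, map_add, map_mul, map_mul]
  congr 1
  have h2 : f.comp (aeval s) = aeval (fun i => f (s i)) := by
    apply MvPolynomial.algHom_ext
    intro i
    simp only [AlgHom.comp_apply, aeval_X]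
  exact congrArg (fun g => g (A i j)) (congrArg DFunLike.coe h2)

/-- Compatibility of the form with the action of the torus. -/
theorem qval_torus {A : Fin N → Fin N → MvPolynomial (Fin (m + 1)) k} {a : Fin N → ℤ} {δ : ℤ}
    (hA : IsQuadricBundle A a δ) {R : Type*} [Field R] [Algebra k R] (s : Fin (m + 1) → R)
    (x : Fin N → R) (l c : R) (hl : l ≠ 0) :
    qval A (l • s) (fun i => c * l ^ (-(a i)) * x i) = c ^ 2 * l ^ δ * qval A s x := by
  unfold qval
  rw [Finset.mul_sum]
  refine Finset.sum_congr rfl fun i _ => ?_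
  rw [Finset.mul_sum]
  refine Finset.sum_congr rfl fun j _ => ?_
  rcases hA i j with h | ⟨e, he, h⟩
  · rw [h]; simp
  · have h1 : aeval (l • s) (A i j) = l ^ e * aeval s (A i j) := by
      rw [aeval_def, aeval_def, eval₂_eq, eval₂_eq, Finset.mul_sum]
      refine Finset.sum_congr rfl fun f hf => ?_
      have h1 : ∏ i ∈ f.support, (l • s) i ^ f i = l ^ e * ∏ i ∈ f.support, s i ^ f i := by
        simp only [Pi.smul_apply, smul_eq_mul, mul_pow]
        rw [Finset.prod_mul_distrib, Finset.prod_pow_eq_pow_sum]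
        congr 2
        have h2 := h (mem_support_iff.1 hf)
        rw [Finsupp.weight_apply, Finsupp.sum] at h2
        simpa using h2
      rw [h1]
      ring
    rw [h1, ← zpow_natCast l e, he]
    beta_reduce
    rw [zpow_add₀ hl, zpow_add₀ hl, zpow_neg, zpow_neg]
    have h3 : l ^ a i ≠ 0 := zpow_ne_zero _ hl
    have h4 : l ^ a j ≠ 0 := zpow_ne_zero _ hl
    field_simp

theorem SamePoint.refl (a : Fin N → ℤ) (p : (Fin (m + 1) → k) × (Fin N → k)) :
    SamePoint a p p :=
  ⟨1, 1, one_ne_zero, one_ne_zero, (one_smul _ _).symm, fun i => by simp⟩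

theorem SamePoint.symm {a : Fin N → ℤ} {p p' : (Fin (m + 1) → k) × (Fin N → k)}
    (h : SamePoint a p p') : SamePoint a p' p := by
  obtain ⟨l, c, hl, hc, h1, h2⟩ := h
  refine ⟨l⁻¹, c⁻¹, inv_ne_zero hl, inv_ne_zero hc, ?_, fun i => ?_⟩
  · rw [h1, smul_smul, inv_mul_cancel₀ hl, one_smul]
  · rw [h2, zpow_neg, zpow_neg, inv_zpow, inv_inv]
    have h3 : l ^ a i ≠ 0 := zpow_ne_zero _ hl
    field_simp

theorem SamePoint.trans {a : Fin N → ℤ} {p p' p'' : (Fin (m + 1) → k) × (Fin N → k)}
    (h : SamePoint a p p') (h' : SamePoint a p' p'') : SamePoint a p p'' := by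
  obtain ⟨l, c, hl, hc, h1, h2⟩ := h
  obtain ⟨l', c', hl', hc', h1', h2'⟩ := h'
  refine ⟨l' * l, c' * c, mul_ne_zero hl' hl, mul_ne_zero hc' hc, ?_, fun i => ?_⟩
  · rw [h1', h1, smul_smul]
  · rw [h2', h2, mul_zpow]
    ring

theorem SamePoint.of_smul (a : Fin N → ℤ) (s : Fin (m + 1) → k) (x : Fin N → k) {c : k}
    (hc : c ≠ 0) : SamePoint a (s, fun i => c * x i) (s, x) :=
  ⟨1, c⁻¹, one_ne_zero, inv_ne_zero hc, (one_smul _ _).symm, fun i => by
    simp only [one_zpow, mul_one]
    rw [inv_mul_cancel_left₀ hc]⟩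

/-- The value of the form at constant polynomials. -/
theorem qval_const (A : Fin N → Fin N → MvPolynomial (Fin (m + 1)) k) (s : Fin (m + 1) → k)
    (x : Fin N → k) : qval A (fun i => Polynomial.C (s i)) (fun i => Polynomial.C (x i)) =
      Polynomial.C (qval A s x) :=
  (qval_map A (Algebra.ofId k (Polynomial k)) s x).symm

theorem qpol_const (A : Fin N → Fin N → MvPolynomial (Fin (m + 1)) k) (s : Fin (m + 1) → k)
    (x y : Fin N → k) : qpol A (fun i => Polynomial.C (s i)) (fun i => Polynomial.C (x i))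
      (fun i => Polynomial.C (y i)) = Polynomial.C (qpol A s x y) :=
  (qpol_map A (Algebra.ofId k (Polynomial k)) s x y).symm

/-- Two orthogonal zeros in one fibre are linked by a line. -/
theorem linked_of_qpol_eq_zero (A : Fin N → Fin N → MvPolynomial (Fin (m + 1)) k) (a : Fin N → ℤ)
    (s : Fin (m + 1) → k) {x y : Fin N → k} (hx : qval A s x = 0) (hy : qval A s y = 0)
    (h : qpol A s x y = 0) : BLinked A a (s, x) (s, y) := by
  refine ⟨fun i => Polynomial.C (s i), fun i => (1 - Polynomial.X) * Polynomial.C (x i) +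
    Polynomial.X * Polynomial.C (y i), ?_, ?_, ?_⟩
  · rw [qval_comb, qval_const, qval_const, qpol_const, hx, hy, h]
    simp
  · simp only [Polynomial.eval_C, Polynomial.eval_add, Polynomial.eval_mul, Polynomial.eval_sub,
      Polynomial.eval_one, Polynomial.eval_X, sub_zero, one_mul, zero_mul, add_zero]
    exact SamePoint.refl _ _
  · simp only [Polynomial.eval_C, Polynomial.eval_add, Polynomial.eval_mul, Polynomial.eval_sub,
      Polynomial.eval_one, Polynomial.eval_X, sub_self, one_mul, zero_mul, zero_add]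
    exact SamePoint.refl _ _

/-- Two zeros in one fibre are linked by a conic through a third, nonisotropic direction. -/
theorem linked_of_conic (A : Fin N → Fin N → MvPolynomial (Fin (m + 1)) k) (a : Fin N → ℤ)
    (s : Fin (m + 1) → k) {x y M : Fin N → k} (hx : qval A s x = 0) (hy : qval A s y = 0)
    (hxy : qpol A s x y ≠ 0) (hM : qpol A s x M = 0) (hM0 : qval A s M ≠ 0) :
    BLinked A a (s, x) (s, y) := by
  let w : Fin N → Polynomial k := fun i => Polynomial.X * Polynomial.C (y i) +
    (1 - Polynomial.X) * Polynomial.C (M i)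
  let σ : Fin (m + 1) → Polynomial k := fun i => Polynomial.C (s i)
  let X' : Fin N → Polynomial k := fun i => Polynomial.C (x i)
  have hq : qval A σ X' = 0 := by
    simp only [σ, X']
    rw [qval_const, hx, Polynomial.C_0]
  refine ⟨σ, fun i => qval A σ w * X' i + (-qpol A σ X' w) * w i, ?_, ?_, ?_⟩
  · rw [qval_comb, hq]
    ring
  · have e1 : (fun i => (w i).eval 0) = M := by
      funext i
      simp [w]
    have e2 : (qval A σ w).eval 0 = qval A s M := by
      have h1 := qval_map A (Polynomial.aeval (0 : k)) σ w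
      simp only [Polynomial.coe_aeval_eq_eval] at h1
      rw [h1, e1]
      simp [σ]
    have e3 : (qpol A σ X' w).eval 0 = 0 := by
      have h1 := qpol_map A (Polynomial.aeval (0 : k)) σ X' w
      simp only [Polynomial.coe_aeval_eq_eval] at h1
      rw [h1, e1]
      simp only [σ, X', Polynomial.eval_C]
      exact hM
    simp only [Polynomial.eval_add, Polynomial.eval_mul, Polynomial.eval_neg, e2, e3, neg_zero,
      zero_mul, add_zero]
    simp only [σ, X', Polynomial.eval_C]
    exact SamePoint.of_smul a s x hM0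
  · have e1 : (fun i => (w i).eval 1) = y := by
      funext i
      simp [w]
    have e2 : (qval A σ w).eval 1 = 0 := by
      have h1 := qval_map A (Polynomial.aeval (1 : k)) σ w
      simp only [Polynomial.coe_aeval_eq_eval] at h1
      rw [h1, e1]
      simp only [σ, Polynomial.eval_C]
      exact hy
    have e3 : (qpol A σ X' w).eval 1 = qpol A s x y := by
      have h1 := qpol_map A (Polynomial.aeval (1 : k)) σ X' w
      simp only [Polynomial.coe_aeval_eq_eval] at h1
      rw [h1, e1]
      simp only [σ, X', Polynomial.eval_C]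
    have e4 : ∀ i, (w i).eval 1 = y i := fun i => congrFun e1 i
    simp only [Polynomial.eval_add, Polynomial.eval_mul, Polynomial.eval_neg, e2, e3, zero_mul,
      zero_add, e4]
    simp only [σ, Polynomial.eval_C]
    exact SamePoint.of_smul a s y (neg_ne_zero.2 hxy)

/-- All points in one fibre are R-equivalent. -/
theorem fibre_re (A : Fin N → Fin N → MvPolynomial (Fin (m + 1)) k) (a : Fin N → ℤ) (hN : 3 ≤ N)
    {s : Fin (m + 1) → k} (hs : s ≠ 0) {x y : Fin N → k} (hx0 : x ≠ 0) (hy0 : y ≠ 0)
    (hx : qval A s x = 0) (hy : qval A s y = 0) :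
    BRE A a ⟨(s, x), hs, hx0, hx⟩ ⟨(s, y), hs, hy0, hy⟩ := by
  by_cases hxy : qpol A s x y = 0
  · exact Relation.EqvGen.rel _ _ (linked_of_qpol_eq_zero A a s hx hy hxy)
  · -- a third vector
    have hspan : ∃ z : Fin N → k, z ∉ Submodule.span k {x, y} := by
      classical
      by_contra hcon
      push Not at hcon
      have h1 : Submodule.span k {x, y} = ⊤ := eq_top_iff.2 fun z _ => hcon z
      have h2 := finrank_span_finset_le_card (R := k) ({x, y} : Finset (Fin N → k))
      rw [Finset.coe_insert, Finset.coe_singleton] at h2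
      have h4 : Module.finrank k (Submodule.span k ({x, y} : Set (Fin N → k))) = N := by
        rw [h1, finrank_top, Module.finrank_fin_fun]
      have h3 : ({x, y} : Finset (Fin N → k)).card ≤ 2 := Finset.card_le_two
      have h5 : Module.finrank k (Submodule.span k ({x, y} : Set (Fin N → k))) ≤
        ({x, y} : Finset (Fin N → k)).card := h2
      omega
    obtain ⟨z, hz⟩ := hspan
    let M : Fin N → k := fun i => 1 * z i + (-(qpol A s x z / qpol A s x y)) * y i
    have hM : qpol A s x M = 0 := by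
      simp only [M]
      rw [qpol_comb]
      field_simp
      ring
    have hMx : ∀ c : k, M ≠ fun i => c * x i := by
      intro c h
      apply hz
      have h1 : z = c • x + (qpol A s x z / qpol A s x y) • y := by
        funext i
        have h2 := congrFun h i
        simp only [M] at h2
        simp only [Pi.add_apply, Pi.smul_apply, smul_eq_mul]
        linear_combination h2
      rw [h1]
      exact Submodule.add_mem _ (Submodule.smul_mem _ _ (Submodule.subset_span (by simp)))
        (Submodule.smul_mem _ _ (Submodule.subset_span (by simp)))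
    by_cases hM0 : qval A s M = 0
    · let M' : Fin N → k := fun i => 1 * M i + (-(qpol A s y M / qpol A s x y)) * x i
      have hxx : qpol A s x x = 0 := by rw [qpol_self, hx, mul_zero]
      have h1 : qval A s M' = 0 := by
        simp only [M']
        rw [qval_comb, hM0, hx, qpol_comm A s M x, hM]
        ring
      have h2 : qpol A s x M' = 0 := by
        simp only [M']
        rw [qpol_comb, hM, hxx]
        ring
      have h3 : qpol A s y M' = 0 := by
        simp only [M']
        rw [qpol_comb, qpol_comm A s y x]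
        field_simp
        ring
      have h4 : M' ≠ 0 := by
        intro h
        apply hMx (qpol A s y M / qpol A s x y)
        funext i
        have h5 := congrFun h i
        simp only [M', Pi.zero_apply] at h5
        linear_combination h5
      have r1 : BRE A a ⟨(s, x), hs, hx0, hx⟩ ⟨(s, M'), hs, h4, h1⟩ :=
        Relation.EqvGen.rel _ _ (linked_of_qpol_eq_zero A a s hx h1 h2)
      have r2 : BRE A a ⟨(s, y), hs, hy0, hy⟩ ⟨(s, M'), hs, h4, h1⟩ :=
        Relation.EqvGen.rel _ _ (linked_of_qpol_eq_zero A a s hy h1 h3)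
      exact Relation.EqvGen.trans _ _ _ r1 (Relation.EqvGen.symm _ _ r2)
    · exact Relation.EqvGen.rel _ _ (linked_of_conic A a s hx hy hxy hM hM0)

/-- Removing common factors. -/
theorem exists_primitive (z : Fin N → Polynomial k) (hz : z ≠ 0) :
    ∃ (f : Polynomial k) (z' : Fin N → Polynomial k), f ≠ 0 ∧ (z = fun i => f * z' i) ∧
      ∀ c : k, (fun i => (z' i).eval c) ≠ 0 := by
  classical
  obtain ⟨i0, hi0⟩ := Function.ne_iff.1 hz
  obtain ⟨g, hg, hg1⟩ := Finset.extract_gcd z (s := Finset.univ) ⟨i0, Finset.mem_univ _⟩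
  refine ⟨Finset.univ.gcd z, g, ?_, funext fun i => hg i (Finset.mem_univ i), fun c hc => ?_⟩
  · intro h
    apply hi0
    have := hg i0 (Finset.mem_univ _)
    rw [h, zero_mul] at this
    exact this
  · have h1 : (Polynomial.X - Polynomial.C c) ∣ Finset.univ.gcd g := by
      refine Finset.dvd_gcd fun i _ => ?_
      rw [Polynomial.dvd_iff_isRoot]
      exact congrFun hc i
    rw [hg1] at h1
    exact Polynomial.not_isUnit_X_sub_C c (isUnit_of_dvd_one h1)

theorem BRE.of_linked {A : Fin N → Fin N → MvPolynomial (Fin (m + 1)) k} {a : Fin N → ℤ}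
    {p p' : BPt A} (h : BLinked A a p.1 p'.1) : BRE A a p p' := Relation.EqvGen.rel _ _ h

/-- If, after a suitable change of the parameter of every line, the form acquires a nontrivial
zero over the field of rational functions, then all points of the bundle are R-equivalent. -/
theorem bundle_re {A : Fin N → Fin N → MvPolynomial (Fin (m + 1)) k} {a : Fin N → ℤ} {δ : ℤ}
    (hN : 3 ≤ N) (hA : IsQuadricBundle A a δ)
    (hiso : ∀ t₀ t₁ : Fin (m + 1) → k, t₀ ≠ 0 → t₁ ≠ 0 → (∀ c : k, t₁ ≠ c • t₀) →
      ∃ (σ : Fin (m + 1) → Polynomial k) (c₀ c₁ : k), c₀ ≠ 0 ∧ c₁ ≠ 0 ∧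
        (∀ i, (σ i).eval 0 = c₀ * t₀ i) ∧ (∀ i, (σ i).eval 1 = c₁ * t₁ i) ∧
        ∃ z : Fin N → Polynomial k, z ≠ 0 ∧ qval A σ z = 0) (p q : BPt A) : BRE A a p q := by
  obtain ⟨⟨t₀, x₀⟩, ht₀, hx₀, hq₀⟩ := p
  obtain ⟨⟨t₁, x₁⟩, ht₁, hx₁, hq₁⟩ := q
  change t₀ ≠ 0 at ht₀
  change t₁ ≠ 0 at ht₁
  change x₀ ≠ 0 at hx₀
  change x₁ ≠ 0 at hx₁
  change qval A t₀ x₀ = 0 at hq₀
  change qval A t₁ x₁ = 0 at hq₁
  -- a point with coordinates proportional to given ones
  have key : ∀ (t t' : Fin (m + 1) → k) (ht : t ≠ 0) (ht' : t' ≠ 0) (c : k) (hc : c ≠ 0)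
      (h : t' = c • t) (x : Fin N → k) (hx : x ≠ 0) (hq : qval A t x = 0),
      ∃ (x' : Fin N → k) (hx' : x' ≠ 0) (hq' : qval A t' x' = 0),
        SamePoint a (t, x) (t', x') := by
    intro t t' ht ht' c hc h x hx hq
    refine ⟨fun i => 1 * c ^ (-(a i)) * x i, ?_, ?_, ⟨c, 1, hc, one_ne_zero, h, fun i => rfl⟩⟩
    · intro h0
      apply hx
      funext i
      have h1 := congrFun h0 i
      simp only [one_mul, Pi.zero_apply] at h1
      exact (mul_eq_zero.1 h1).resolve_left (zpow_ne_zero _ hc)
    · rw [h, qval_torus hA t x c 1 hc, hq, mul_zero]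
  have same : ∀ (p p' : BPt A), SamePoint a p.1 p'.1 → BRE A a p p' := by
    rintro ⟨⟨t, x⟩, ht, hx, hq⟩ p' h
    refine BRE.of_linked ⟨fun i => Polynomial.C (t i), fun i => Polynomial.C (x i), ?_, ?_, ?_⟩
    · rw [qval_const]
      change Polynomial.C (qval A t x) = 0
      rw [show qval A t x = 0 from hq, Polynomial.C_0]
    · simp only [Polynomial.eval_C]
      exact SamePoint.refl _ _
    · simp only [Polynomial.eval_C]
      exact h
  by_cases hprop : ∃ c : k, t₁ = c • t₀
  · obtain ⟨c, hc⟩ := hprop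
    have hc0 : c ≠ 0 := by
      rintro rfl
      exact ht₁ (by rw [hc, zero_smul])
    obtain ⟨x', hx', hq', hs⟩ := key t₀ t₁ ht₀ ht₁ c hc0 hc x₀ hx₀ hq₀
    have r1 := same ⟨(t₀, x₀), ht₀, hx₀, hq₀⟩ ⟨(t₁, x'), ht₁, hx', hq'⟩ hs
    exact Relation.EqvGen.trans _ _ _ r1 (fibre_re A a hN ht₁ hx' hx₁ hq' hq₁)
  · push Not at hprop
    obtain ⟨σ, c₀, c₁, hc₀, hc₁, hσ₀, hσ₁, z, hz, hqz⟩ := hiso t₀ t₁ ht₀ ht₁ hprop
    obtain ⟨f, z', hf, hzf, hz'⟩ := exists_primitive z hz
    have hqz' : qval A σ z' = 0 := by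
      rw [hzf, qval_smul] at hqz
      exact (mul_eq_zero.1 hqz).resolve_left (pow_ne_zero _ hf)
    have hev : ∀ c : k, qval A (fun i => (σ i).eval c) (fun i => (z' i).eval c) = 0 := by
      intro c
      have h1 := qval_map A (Polynomial.aeval c) σ z'
      rw [hqz', map_zero] at h1
      simp only [Polynomial.coe_aeval_eq_eval] at h1
      exact h1.symm
    have hs₀ : (fun i => (σ i).eval 0) = c₀ • t₀ := funext fun i => hσ₀ i
    have hs₁ : (fun i => (σ i).eval 1) = c₁ • t₁ := funext fun i => hσ₁ i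
    have h₀ := hev 0
    have h₁ := hev 1
    rw [hs₀] at h₀
    rw [hs₁] at h₁
    obtain ⟨y₀, hy₀, hqy₀, hsy₀⟩ := key (c₀ • t₀) t₀ (smul_ne_zero hc₀ ht₀) ht₀ c₀⁻¹
      (inv_ne_zero hc₀) (by rw [smul_smul, inv_mul_cancel₀ hc₀, one_smul]) _ (hz' 0) h₀
    obtain ⟨y₁, hy₁, hqy₁, hsy₁⟩ := key (c₁ • t₁) t₁ (smul_ne_zero hc₁ ht₁) ht₁ c₁⁻¹
      (inv_ne_zero hc₁) (by rw [smul_smul, inv_mul_cancel₀ hc₁, one_smul]) _ (hz' 1) h₁
    have r2 : BRE A a ⟨(t₀, y₀), ht₀, hy₀, hqy₀⟩ ⟨(t₁, y₁), ht₁, hy₁, hqy₁⟩ := by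
      refine BRE.of_linked ⟨σ, z', hqz', ?_, ?_⟩
      · rw [hs₀]
        exact hsy₀
      · rw [hs₁]
        exact hsy₁
    exact Relation.EqvGen.trans _ _ _ (fibre_re A a hN ht₀ hx₀ hy₀ hq₀ hqy₀)
      (Relation.EqvGen.trans _ _ _ r2 (fibre_re A a hN ht₁ hy₁ hx₁ hqy₁ hq₁))

theorem card_BRClasses {A : Fin N → Fin N → MvPolynomial (Fin (m + 1)) k} {a : Fin N → ℤ}
    (hne : Nonempty (BPt A)) (h : ∀ p q : BPt A, BRE A a p q) :
    Nat.card (BRClasses A a) = 1 := by
  obtain ⟨p⟩ := hne
  rw [Nat.card_eq_one_iff_exists]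
  refine ⟨Quot.mk _ p, fun c => ?_⟩
  obtain ⟨q, rfl⟩ := Quot.exists_rep c
  exact Quot.eqvGen_sound (h q p)

end Pool.Agent.K369
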