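import Mathlib

set_option autoImplicit false

/-!
# `C₁` fields, projective schemes given by forms, and R-equivalence
-/

namespace Pool.Agent.K369

open MvPolynomial

/-- The field `k` is `C₁`: every form of degree `d ≥ 1` in `n > d` variables over `k` has a
nontrivial zero. -/
def IsC1 (k : Type*) [Field k] : Prop :=
  ∀ (n d : ℕ) (f : MvPolynomial (Fin n) k), 1 ≤ d → d < n → f.IsHomogeneous d →
    ∃ x : Fin n → k, x ≠ 0 ∧ eval x f = 0

/-- The set `X(k)` of `k`-rational points of the closed subscheme `X : F 0 = ⋯ = F (r - 1) = 0` of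
`P^n_k`. -/
def Pt {k : Type*} [Field k] {n r : ℕ} (F : Fin r → MvPolynomial (Fin (n + 1)) k) :
    Set (Projectivization k (Fin (n + 1) → k)) :=
  {x | ∀ j, eval x.rep (F j) = 0}

/-- Points `P`, `Q` of `P^n(k)` are directly R-linked on `X : F 0 = ⋯ = F (r - 1) = 0`: there is a
rational map from `P^1_k` to `P^n_k`, given by forms `φ 0, ..., φ n` of one degree `N` in two
variables over `k`, with image in `X` (that is `F j (φ) = 0` identically for all `j`), and there
are points `s`, `t` of `P^1(k)` at which `φ` does not vanish, with `P = φ(s)` and `Q = φ(t)`. -/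
def DirectlyRLinked {k : Type*} [Field k] {n r : ℕ} (F : Fin r → MvPolynomial (Fin (n + 1)) k)
    (P Q : Projectivization k (Fin (n + 1) → k)) : Prop :=
  ∃ (N : ℕ) (φ : Fin (n + 1) → MvPolynomial (Fin 2) k), (∀ i, (φ i).IsHomogeneous N) ∧
    (∀ j, bind₁ φ (F j) = 0) ∧
    ∃ (s t : Projectivization k (Fin 2 → k)) (hs : (fun i => eval s.rep (φ i)) ≠ 0)
      (ht : (fun i => eval t.rep (φ i)) ≠ 0),
      P = Projectivization.mk k _ hs ∧ Q = Projectivization.mk k _ ht

/-- The set `X(k)/R` of R-equivalence classes: the quotient of `X(k)` by the equivalence relation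
generated by the direct R-links. -/
def RClasses {k : Type*} [Field k] {n r : ℕ} (F : Fin r → MvPolynomial (Fin (n + 1)) k) : Type _ :=
  Quot (fun A B : Pt F => DirectlyRLinked F A.1 B.1)

end Pool.Agent.K369
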