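import Mathlib
import Pool.Agent.K369.Defs
import Pool.Agent.H552R3.Tsen.Zero

set_option autoImplicit false
set_option linter.all false

/-!
# Systems of forms over `C₁` fields: the theorems of Lang and Nagata
-/

namespace Pool.Agent.K369

open MvPolynomial

variable {k : Type*} [Field k]

theorem IsC1.exists_zero (hk : IsC1 k) {ι : Type*} [Fintype ι] {d : ℕ} (f : MvPolynomial ι k)
    (hd : 1 ≤ d) (h : d < Fintype.card ι) (hf : f.IsHomogeneous d) :
    ∃ x : ι → k, x ≠ 0 ∧ eval x f = 0 := by
  classical
  let e := Fintype.equivFin ι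
  obtain ⟨x, hx, hx0⟩ := hk (Fintype.card ι) d (rename e f) hd h hf.rename_isHomogeneous
  refine ⟨x ∘ e, ?_, ?_⟩
  · intro h0
    apply hx
    funext i
    have := congrFun h0 (e.symm i)
    simpa using this
  · rwa [eval_rename] at hx0

/-- There is a normic form of degree `e`: a form of degree `e` in `e` variables with only the
trivial zero. -/
def HasNormic (k : Type*) [Field k] (e : ℕ) : Prop :=
  ∃ N : MvPolynomial (Fin e) k, N.IsHomogeneous e ∧ ∀ x : Fin e → k, eval x N = 0 → x = 0

theorem HasNormic.exists {ι : Type*} [Fintype ι] (h : HasNormic k (Fintype.card ι)) :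
    ∃ N : MvPolynomial ι k, N.IsHomogeneous (Fintype.card ι) ∧ ∀ x : ι → k, eval x N = 0 → x = 0 := by
  classical
  obtain ⟨N, hN, hN0⟩ := h
  let e := Fintype.equivFin ι
  refine ⟨rename e.symm N, hN.rename_isHomogeneous, fun x hx => ?_⟩
  rw [eval_rename] at hx
  have := hN0 _ hx
  funext i
  have h2 := congrFun this (e i)
  simpa using h2

theorem hasNormic_one : HasNormic k 1 :=
  ⟨X 0, isHomogeneous_X _ _, fun x hx => by
    funext i
    rw [Subsingleton.elim i 0]
    simpa using hx⟩

theorem HasNormic.mul {a b : ℕ} (ha : HasNormic k a) (hb : HasNormic k b) :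
    HasNormic k (a * b) := by
  classical
  obtain ⟨A, hA, hA0⟩ := ha
  obtain ⟨B, hB, hB0⟩ := hb
  have key : ∃ N : MvPolynomial (Fin a × Fin b) k, N.IsHomogeneous (a * b) ∧
      ∀ x : Fin a × Fin b → k, eval x N = 0 → x = 0 := by
    refine ⟨aeval (fun i : Fin a => rename (fun j : Fin b => (i, j)) B) A, ?_, ?_⟩
    · have := hA.aeval (fun i : Fin a => rename (fun j : Fin b => (i, j)) B)
        (fun i => hB.rename_isHomogeneous)
      rwa [mul_comm] at this
    · intro x hx
      have h1 : eval x (aeval (fun i : Fin a => rename (fun j : Fin b => (i, j)) B) A) =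
          eval (fun i => eval (fun j => x (i, j)) B) A := by
        rw [← coe_aeval_eq_eval, ← coe_aeval_eq_eval]
        simp only [RingHom.coe_coe]
        have h2 : (aeval x : MvPolynomial (Fin a × Fin b) k →ₐ[k] k).comp
            (aeval (fun i : Fin a => rename (fun j : Fin b => (i, j)) B)) =
            aeval (fun i => eval (fun j => x (i, j)) B) := by
          apply MvPolynomial.algHom_ext
          intro i
          simp only [AlgHom.comp_apply, aeval_X]
          rw [aeval_rename, ← coe_aeval_eq_eval]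
          rfl
        exact congrArg (fun f => f A) (congrArg DFunLike.coe h2)
      rw [h1] at hx
      have h3 := hA0 _ hx
      funext p
      obtain ⟨i, j⟩ := p
      exact congrFun (hB0 _ (congrFun h3 i)) j
  obtain ⟨N, hN, hN0⟩ := key
  refine ⟨rename finProdFinEquiv N, hN.rename_isHomogeneous, fun x hx => ?_⟩
  rw [eval_rename] at hx
  have := hN0 _ hx
  funext i
  have h2 := congrFun this (finProdFinEquiv.symm i)
  rw [Function.comp_apply, Equiv.apply_symm_apply] at h2
  exact h2

theorem HasNormic.pow {a : ℕ} (ha : HasNormic k a) (n : ℕ) : HasNormic k (a ^ n) := by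
  induction n with
  | zero => simpa using hasNormic_one
  | succ n ih => rw [pow_succ]; exact ih.mul ha

theorem hasNormic_of_extension (L : Type*) [Field L] [Algebra k L] [FiniteDimensional k L] :
    HasNormic k (Module.finrank k L) := by
  classical
  let b := Module.finBasis k L
  let φ : L →ₗ[k] Module.End k L := (Algebra.lmul k L).toLinearMap
  refine ⟨(φ.polyCharpoly b).coeff 0,
    LinearMap.polyCharpoly_coeff_isHomogeneous φ b 0 _ (zero_add _), fun x hx => ?_⟩
  let z : L := b.equivFun.symm x
  have hz : (b.repr z : Fin (Module.finrank k L) → k) = x := by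
    have := b.equivFun.apply_symm_apply x
    rw [Module.Basis.equivFun_apply] at this
    exact this
  have h1 := congrArg (fun p => Polynomial.coeff p 0) (LinearMap.polyCharpoly_map_eq_charpoly φ b z)
  simp only [Polynomial.coeff_map] at h1
  rw [hz, hx] at h1
  have h2 : LinearMap.det (φ z) = 0 := by
    rw [LinearMap.det_eq_sign_charpoly_coeff, ← h1, mul_zero]
  have h3 : Algebra.norm k z = 0 := h2
  rw [Algebra.norm_eq_zero_iff] at h3
  have : x = b.equivFun z := (b.equivFun.apply_symm_apply x).symm
  rw [this, h3, map_zero]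

/-- If `k` has an extension of every prime degree, then it has normic forms of all degrees. -/
theorem hasNormic_of_primes
    (h : ∀ ℓ : ℕ, ℓ.Prime → HasNormic k ℓ) (e : ℕ) (he : 1 ≤ e) : HasNormic k e := by
  induction e using Nat.recOnMul with
  | zero => omega
  | one => exact hasNormic_one
  | prime p hp => exact h p hp
  | mul a b iha ihb =>
    have ha : 1 ≤ a := Nat.one_le_iff_ne_zero.2 (fun h => by simp [h] at he)
    have hb : 1 ≤ b := Nat.one_le_iff_ne_zero.2 (fun h => by simp [h] at he)
    exact (iha ha).mul (ihb hb)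

theorem eval_aeval {σ τ : Type*} (y : τ → k) (g : σ → MvPolynomial τ k) (N : MvPolynomial σ k) :
    eval y (aeval g N) = eval (fun i => eval y (g i)) N := by
  rw [← coe_aeval_eq_eval, ← coe_aeval_eq_eval]
  simp only [RingHom.coe_coe]
  have h2 : (aeval y : MvPolynomial τ k →ₐ[k] k).comp (aeval g) =
      aeval (fun i => eval y (g i)) := by
    apply MvPolynomial.algHom_ext
    intro i
    simp only [AlgHom.comp_apply, aeval_X]
    rw [← coe_aeval_eq_eval]
    rfl
  exact congrArg (fun f => f N) (congrArg DFunLike.coe h2)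

/-- The theorem of Lang and Nagata: over a `C₁` field with normic forms of all degrees, a system
of forms of degrees `d j` in more than `∑ d j` variables has a nontrivial common zero. -/
theorem lang_nagata (hk : IsC1 k) (hN : ∀ e, 1 ≤ e → HasNormic k e) {J ι : Type*} [Fintype J]
    [Fintype ι] (d : J → ℕ) (hd : ∀ j, 1 ≤ d j) (f : J → MvPolynomial ι k)
    (hf : ∀ j, (f j).IsHomogeneous (d j)) (h : ∑ j, d j < Fintype.card ι) :
    ∃ x : ι → k, x ≠ 0 ∧ ∀ j, eval x (f j) = 0 := by
  classical
  rcases isEmpty_or_nonempty J with hJ | hJ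
  · have hc : 0 < Fintype.card ι := by omega
    have hι : Nonempty ι := Fintype.card_pos_iff.1 hc
    refine ⟨fun _ => 1, ?_, fun j => hJ.elim j⟩
    intro h0
    exact one_ne_zero (congrFun h0 (Classical.arbitrary ι))
  let D := ∏ j, d j
  have hD : 0 < D := Finset.prod_pos fun j _ => hd j
  have hdvd : ∀ j, d j ∣ D := fun j => Finset.dvd_prod_of_mem _ (Finset.mem_univ j)
  choose e he using hdvd
  have he1 : ∀ j, 1 ≤ e j := by
    intro j
    rcases Nat.eq_zero_or_pos (e j) with h0 | h0
    · have := he j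
      rw [h0, mul_zero] at this
      omega
    · exact h0
  let E : ∀ j, Fin (d j) × Fin (e j) ≃ Fin D := fun j =>
    finProdFinEquiv.trans (finCongr (he j).symm)
  choose N hNh hN0 using fun j => hN (e j) (he1 j)
  let G : (Σ j, Fin (d j)) → MvPolynomial (Fin D × ι) k := fun p =>
    aeval (fun i : Fin (e p.1) => rename (fun v => (E p.1 (p.2, i), v)) (f p.1)) (N p.1)
  have hG : ∀ p, (G p).IsHomogeneous D := by
    intro p
    have := (hNh p.1).aeval
      (fun i : Fin (e p.1) => rename (fun v => (E p.1 (p.2, i), v)) (f p.1))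
      (fun i => (hf p.1).rename_isHomogeneous)
    have h2 : D = d p.1 * e p.1 := he p.1
    rw [show (G p).IsHomogeneous D ↔ (G p).IsHomogeneous (d p.1 * e p.1) from by rw [← h2]]
    exact this
  have hcard : Fintype.card (Σ j, Fin (d j)) = ∑ j, d j := by
    rw [Fintype.card_sigma]
    simp
  have hM : 1 ≤ ∑ j, d j := by
    obtain ⟨j⟩ := hJ
    exact (hd j).trans (Finset.single_le_sum (fun i _ => Nat.zero_le (d i)) (Finset.mem_univ j))
  obtain ⟨M, hMh, hM0⟩ := (hcard.symm ▸ hN _ hM : HasNormic k (Fintype.card (Σ j, Fin (d j)))).exists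
  let Φ : MvPolynomial (Fin D × ι) k := aeval G M
  have hΦ : Φ.IsHomogeneous (D * ∑ j, d j) := by
    have := hMh.aeval G hG
    rwa [hcard] at this
  have hc2 : D * ∑ j, d j < Fintype.card (Fin D × ι) := by
    rw [Fintype.card_prod, Fintype.card_fin]
    exact Nat.mul_lt_mul_of_pos_left h hD
  obtain ⟨y, hy, hy0⟩ := hk.exists_zero Φ (Nat.mul_pos hD hM) hc2 hΦ
  rw [eval_aeval] at hy0
  have h1 := hM0 _ hy0
  have h2 : ∀ (b : Fin D) (j : J), eval (fun v => y (b, v)) (f j) = 0 := by
    intro b j
    obtain ⟨⟨g, i⟩, hgi⟩ := (E j).surjective b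
    have h3 : eval y (G ⟨j, g⟩) = 0 := congrFun h1 ⟨j, g⟩
    rw [eval_aeval] at h3
    have h4 := congrFun (hN0 j _ h3) i
    simp only [Pi.zero_apply] at h4
    rw [eval_rename] at h4
    rw [← hgi]
    exact h4
  obtain ⟨⟨b, v⟩, hbv⟩ := Function.ne_iff.1 hy
  exact ⟨fun v => y (b, v), fun h0 => hbv (congrFun h0 v), fun j => h2 b j⟩

theorem exists_hasNormic_of_not_isAlgClosed (h : ¬ IsAlgClosed k) : ∃ e, 2 ≤ e ∧ HasNormic k e := by
  by_contra hcon
  push Not at hcon
  apply h
  apply IsAlgClosed.of_exists_root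
  intro p hm hp
  by_contra hroot
  push Not at hroot
  haveI : Fact (Irreducible p) := ⟨hp⟩
  have h1 : Module.finrank k (AdjoinRoot p) = p.natDegree := by
    rw [(AdjoinRoot.powerBasis hp.ne_zero).finrank, AdjoinRoot.powerBasis_dim]
  haveI : FiniteDimensional k (AdjoinRoot p) := (AdjoinRoot.powerBasis hp.ne_zero).finite
  have h2 := hasNormic_of_extension (k := k) (AdjoinRoot p)
  rw [h1] at h2
  have h3 : p.natDegree < 2 := by
    by_contra h4
    exact hcon _ (not_lt.1 h4) h2
  have h4 : p.degree = 1 := by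
    have h5 : 0 < p.natDegree := hp.natDegree_pos
    rw [Polynomial.degree_eq_natDegree hp.ne_zero]
    have : p.natDegree = 1 := by omega
    rw [this]
    rfl
  obtain ⟨x, hx⟩ := Polynomial.exists_root_of_degree_eq_one h4
  exact hroot x hx

/-- Lang's theorem: over a `C₁` field, a system of forms of the same degree `d` whose number is
`r` in more than `r d` variables has a nontrivial common zero. -/
theorem lang_equal (hk : IsC1 k) {J ι : Type*} [Fintype J] [Fintype ι] (d : ℕ) (hd : 1 ≤ d)
    (f : J → MvPolynomial ι k) (hf : ∀ j, (f j).IsHomogeneous d)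
    (h : Fintype.card J * d < Fintype.card ι) :
    ∃ x : ι → k, x ≠ 0 ∧ ∀ j, eval x (f j) = 0 := by
  classical
  rcases isEmpty_or_nonempty J with hJ | hJ
  · have hc : 0 < Fintype.card ι := by omega
    have hι : Nonempty ι := Fintype.card_pos_iff.1 hc
    refine ⟨fun _ => 1, ?_, fun j => hJ.elim j⟩
    intro h0
    exact one_ne_zero (congrFun h0 (Classical.arbitrary ι))
  by_cases hac : IsAlgClosed k
  · haveI := hac
    refine H552R3.Tsen.exists_common_zero f (fun j => ?_) ?_
    · have h1 := (hf j).coeff_eq_zero (d := 0) (by simp; omega)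
      rw [← constantCoeff_eq] at h1
      rw [← h1]
      rw [eval_zero]
    · have : Fintype.card J * 1 ≤ Fintype.card J * d := Nat.mul_le_mul_left _ hd
      omega
  obtain ⟨e0, he0, hN0⟩ := exists_hasNormic_of_not_isAlgClosed hac
  set s := Fintype.card J with hs
  set m := Fintype.card ι with hm
  have hs0 : 0 < s := Fintype.card_pos
  obtain ⟨n, hn⟩ : ∃ n, m * s < e0 ^ n := by
    obtain ⟨n, hn⟩ := pow_unbounded_of_one_lt (m * s) (show 1 < e0 by omega)
    exact ⟨n, hn⟩
  obtain ⟨e, he⟩ : ∃ e, e = e0 ^ n := ⟨_, rfl⟩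
  rw [← he] at hn
  have hNe : HasNormic k e := he ▸ hN0.pow n
  obtain ⟨N, hNh, hNz⟩ := hNe
  let q := e / s
  have hq : q * s ≤ e := Nat.div_mul_le_self e s
  have hq2 : e < (q + 1) * s := by
    have := Nat.lt_div_mul_add (a := e) hs0
    calc e < e / s * s + s := this
      _ = (q + 1) * s := by ring
  -- the injection of the arguments
  have hcq : Fintype.card (Fin q × J) ≤ Fintype.card (Fin e) := by
    rw [Fintype.card_prod, Fintype.card_fin, Fintype.card_fin]
    exact hq
  obtain ⟨ψ⟩ := Function.Embedding.nonempty_of_card_le hcq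
  let g : Fin e → MvPolynomial (Fin q × ι) k := fun i =>
    if hi : ∃ p, ψ p = i then rename (fun v => (hi.choose.1, v)) (f hi.choose.2) else 0
  have hg : ∀ i, (g i).IsHomogeneous d := by
    intro i
    by_cases hi : ∃ p, ψ p = i
    · simp only [g, dif_pos hi]
      exact (hf _).rename_isHomogeneous
    · simp only [g, dif_neg hi]
      exact isHomogeneous_zero _ _ _
  have hgψ : ∀ p, g (ψ p) = rename (fun v => (p.1, v)) (f p.2) := by
    intro p
    have hi : ∃ p', ψ p' = ψ p := ⟨p, rfl⟩
    have h1 : hi.choose = p := ψ.injective hi.choose_spec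
    simp only [g, dif_pos hi]
    rw [h1]
  have hΦ : (aeval g N).IsHomogeneous (d * e) := hNh.aeval g hg
  have he1 : 1 ≤ e := by omega
  have hc2 : d * e < Fintype.card (Fin q × ι) := by
    rw [Fintype.card_prod, Fintype.card_fin, ← hm]
    by_contra hcon
    push Not at hcon
    -- q m ≤ d e, e < (q+1) s, s d + 1 ≤ m, m s < e
    have h1 : s * d + 1 ≤ m := h
    have h2 : d * e * s < m * e := by nlinarith
    have h3 : m * e < m * ((q + 1) * s) := by
      apply Nat.mul_lt_mul_of_pos_left hq2
      omega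
    have h4 : (q * m) * s ≤ (d * e) * s := Nat.mul_le_mul_right s hcon
    have h5 : (s * d + 1) * e ≤ m * e := Nat.mul_le_mul_right e h1
    nlinarith
  obtain ⟨y, hy, hy0⟩ := hk.exists_zero (aeval g N) (Nat.mul_pos hd he1) hc2 hΦ
  rw [eval_aeval] at hy0
  have h1 := hNz _ hy0
  have h2 : ∀ (b : Fin q) (j : J), eval (fun v => y (b, v)) (f j) = 0 := by
    intro b j
    have h3 := congrFun h1 (ψ (b, j))
    simp only [Pi.zero_apply] at h3
    rw [hgψ, eval_rename] at h3
    exact h3
  obtain ⟨⟨b, v⟩, hbv⟩ := Function.ne_iff.1 hy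
  exact ⟨fun v => y (b, v), fun h0 => hbv (congrFun h0 v), fun j => h2 b j⟩

end Pool.Agent.K369
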