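import Mathlib
import Pool.Agent.K369.Bundle

set_option autoImplicit false
set_option linter.all false

/-!
# Quadric bundles over perfect fields of characteristic two
-/

namespace Pool.Agent.K369

open MvPolynomial

variable {k : Type*} [Field k] {m N : ℕ}

section Single

variable {R : Type*} [CommRing R] [Algebra k R]

theorem qval_single (A : Fin N → Fin N → MvPolynomial (Fin (m + 1)) k) (s : Fin (m + 1) → R)
    (i : Fin N) : qval A s (Pi.single i 1) = aeval s (A i i) := by
  classical
  unfold qval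
  rw [Finset.sum_eq_single i, Finset.sum_eq_single i]
  · simp
  · intro j _ hj
    rw [Pi.single_eq_of_ne hj, mul_zero]
  · simp
  · intro j _ hj
    refine Finset.sum_eq_zero fun l _ => ?_
    rw [Pi.single_eq_of_ne hj, mul_zero, zero_mul]
  · simp

theorem qpol_single (A : Fin N → Fin N → MvPolynomial (Fin (m + 1)) k) (s : Fin (m + 1) → R)
    (i j : Fin N) : qpol A s (Pi.single i 1) (Pi.single j 1) =
      aeval s (A i j) + aeval s (A j i) := by
  classical
  unfold qpol
  simp only [mul_add, Finset.sum_add_distrib]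
  congr 1
  · rw [Finset.sum_eq_single i, Finset.sum_eq_single j]
    · simp
    · intro l _ hl
      rw [Pi.single_eq_of_ne hl, mul_zero, mul_zero]
    · simp
    · intro l _ hl
      refine Finset.sum_eq_zero fun l' _ => ?_
      rw [Pi.single_eq_of_ne hl, zero_mul, mul_zero]
    · simp
  · rw [Finset.sum_eq_single j, Finset.sum_eq_single i]
    · simp
    · intro l _ hl
      rw [Pi.single_eq_of_ne hl, mul_zero, mul_zero]
    · simp
    · intro l _ hl
      refine Finset.sum_eq_zero fun l' _ => ?_
      rw [Pi.single_eq_of_ne hl, zero_mul, mul_zero]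
    · simp

end Single

/-- A form all whose coefficients are squares, in characteristic two and in at least three
variables, has a nontrivial zero. -/
theorem exists_zero_of_squares (A : Fin N → Fin N → MvPolynomial (Fin (m + 1)) k) (hN : 3 ≤ N)
    (h2 : (2 : Polynomial k) = 0) (σ : Fin (m + 1) → Polynomial k)
    (hsq : ∀ i j, ∃ C : Polynomial k, aeval σ (A i j) = C ^ 2) :
    ∃ z : Fin N → Polynomial k, z ≠ 0 ∧ qval A σ z = 0 := by
  classical
  choose C hC using hsq
  let i0 : Fin N := ⟨0, by omega⟩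
  let i1 : Fin N := ⟨1, by omega⟩
  let i2 : Fin N := ⟨2, by omega⟩
  have h01 : i0 ≠ i1 := by simp [i0, i1, Fin.ext_iff]
  have h02 : i0 ≠ i2 := by simp [i0, i2, Fin.ext_iff]
  have h12 : i1 ≠ i2 := by simp [i1, i2, Fin.ext_iff]
  let e : Fin N → Fin N → Polynomial k := fun i => Pi.single i 1
  have hq : ∀ i, qval A σ (e i) = C i i ^ 2 := fun i => by
    simp only [e]
    rw [qval_single, hC]
  have hb : ∀ i j, qpol A σ (e i) (e j) = (C i j + C j i) ^ 2 := fun i j => by
    simp only [e]
    rw [qpol_single, hC, hC]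
    linear_combination (-(C i j * C j i)) * h2
  by_cases h0 : C i0 i0 = 0
  · refine ⟨e i0, ?_, ?_⟩
    · intro h
      have := congrFun h i0
      simp [e] at this
    · rw [hq, h0]
      ring
  by_cases h1 : C i0 i1 + C i1 i0 = 0
  · refine ⟨fun l => C i1 i1 * e i0 l + C i0 i0 * e i1 l, ?_, ?_⟩
    · intro h
      apply h0
      have := congrFun h i1
      simp only [e, Pi.single_eq_same, Pi.zero_apply, Pi.single_eq_of_ne h01.symm] at this
      linear_combination this
    · rw [qval_comb, hq, hq, hb, h1]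
      linear_combination (C i0 i0 ^ 2 * C i1 i1 ^ 2) * h2
  · let b01 := C i0 i1 + C i1 i0
    let b02 := C i0 i2 + C i2 i0
    let b12 := C i1 i2 + C i2 i1
    let v : Fin N → Polynomial k := fun l => b02 ^ 2 * e i1 l + b01 ^ 2 * e i2 l
    let g : Polynomial k := b02 ^ 2 * C i1 i1 + b02 * b01 * b12 + b01 ^ 2 * C i2 i2
    have hv : qval A σ v = g ^ 2 := by
      simp only [v]
      rw [qval_comb, hq, hq, hb]
      simp only [g, b01, b02, b12]
      linear_combination (-(b02 ^ 3 * C i1 i1 * b01 * b12) - (b02 ^ 2 * C i1 i1 * b01 ^ 2 * C i2 i2)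
        - (b02 * b01 ^ 3 * b12 * C i2 i2)) * h2
    have hv0 : qpol A σ (e i0) v = 0 := by
      simp only [v]
      rw [qpol_comb, hb, hb]
      linear_combination (b01 ^ 2 * b02 ^ 2) * h2
    refine ⟨fun l => g * e i0 l + C i0 i0 * v l, ?_, ?_⟩
    · intro h
      have := congrFun h i2
      simp only [e, v, Pi.single_eq_same, Pi.zero_apply, Pi.single_eq_of_ne h02.symm,
        Pi.single_eq_of_ne h12.symm] at this
      have h3 : C i0 i0 * b01 ^ 2 = 0 := by linear_combination this
      rcases mul_eq_zero.1 h3 with h4 | h4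
      · exact h0 h4
      · exact h1 (pow_eq_zero_iff (two_ne_zero) |>.1 h4)
    · rw [qval_comb, hq, hv, hv0]
      linear_combination (C i0 i0 ^ 2 * g ^ 2) * h2

/-- Over a perfect field of characteristic two, all points of a quadric bundle over a projective
space are R-equivalent. -/
theorem bundle_re_char_two [CharP k 2] [PerfectRing k 2]
    {A : Fin N → Fin N → MvPolynomial (Fin (m + 1)) k} {a : Fin N → ℤ} {δ : ℤ}
    (hN : 3 ≤ N) (hA : IsQuadricBundle A a δ) (p q : BPt A) : BRE A a p q := by
  have h2 : (2 : Polynomial k) = 0 := by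
    have h : (2 : k) = 0 := CharTwo.two_eq_zero
    rw [← map_ofNat (Polynomial.C (R := k)) 2, h, Polynomial.C_0]
  have hroot : ∀ c : k, ∃ r : k, r ^ 2 = c := fun c =>
    ⟨(frobeniusEquiv k 2).symm c, by
      have := (frobeniusEquiv k 2).apply_symm_apply c
      rwa [frobeniusEquiv_apply, frobenius_def] at this⟩
  refine bundle_re hN hA (fun t₀ t₁ _ _ _ => ?_) p q
  choose r₀ hr₀ using fun i => hroot (t₀ i)
  choose r₁ hr₁ using fun i => hroot (t₁ i)
  let ρ : Fin (m + 1) → Polynomial k := fun i =>
    (1 - Polynomial.X) * Polynomial.C (r₀ i) + Polynomial.X * Polynomial.C (r₁ i)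
  refine ⟨fun i => ρ i ^ 2, 1, 1, one_ne_zero, one_ne_zero, ?_, ?_, ?_⟩
  · intro i
    simp [ρ, hr₀]
  · intro i
    simp [ρ, hr₁]
  · refine exists_zero_of_squares A hN h2 _ fun i j => ?_
    induction A i j using MvPolynomial.induction_on with
    | C c =>
      obtain ⟨r, hr⟩ := hroot c
      refine ⟨Polynomial.C r, ?_⟩
      rw [aeval_C, ← hr, map_pow]
      rfl
    | add f g hf hg =>
      obtain ⟨c, hc⟩ := hf
      obtain ⟨e, he⟩ := hg
      refine ⟨c + e, ?_⟩
      rw [map_add, hc, he]
      linear_combination (-(c * e)) * h2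
    | mul_X f l hf =>
      obtain ⟨c, hc⟩ := hf
      refine ⟨c * ρ l, ?_⟩
      rw [map_mul, hc, aeval_X]
      ring

theorem bundle_nonempty_char_two [CharP k 2] [PerfectRing k 2]
    (A : Fin N → Fin N → MvPolynomial (Fin (m + 1)) k) (hN : 3 ≤ N) : Nonempty (BPt A) := by
  have h2 : (2 : Polynomial k) = 0 := by
    have h : (2 : k) = 0 := CharTwo.two_eq_zero
    rw [← map_ofNat (Polynomial.C (R := k)) 2, h, Polynomial.C_0]
  have hroot : ∀ c : k, ∃ r : k, r ^ 2 = c := fun c =>
    ⟨(frobeniusEquiv k 2).symm c, by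
      have := (frobeniusEquiv k 2).apply_symm_apply c
      rwa [frobeniusEquiv_apply, frobenius_def] at this⟩
  obtain ⟨z, hz, hqz⟩ := exists_zero_of_squares A hN h2 (fun _ => Polynomial.C 1) fun i j => by
    obtain ⟨r, hr⟩ := hroot (aeval (fun _ => (1 : k)) (A i j))
    refine ⟨Polynomial.C r, ?_⟩
    rw [← map_pow, hr]
    have h3 : ((Algebra.ofId k (Polynomial k)).comp (aeval fun _ => (1 : k))) =
        aeval (fun _ : Fin (m + 1) => (Polynomial.C 1 : Polynomial k)) := by
      apply MvPolynomial.algHom_ext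
      intro i
      simp only [AlgHom.comp_apply, aeval_X]
      rfl
    exact (congrArg (fun g => g (A i j)) (congrArg DFunLike.coe h3)).symm
  obtain ⟨f, z', hf, hzf, hz'⟩ := exists_primitive z hz
  have hqz' : qval A (fun _ => Polynomial.C 1) z' = 0 := by
    rw [hzf, qval_smul] at hqz
    exact (mul_eq_zero.1 hqz).resolve_left (pow_ne_zero _ hf)
  have h1 := qval_map A (Polynomial.aeval (0 : k)) (fun _ => Polynomial.C 1) z'
  rw [hqz', map_zero] at h1
  simp only [Polynomial.coe_aeval_eq_eval, Polynomial.eval_C] at h1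
  refine ⟨⟨(fun _ => 1, fun i => (z' i).eval 0), ?_, hz' 0, h1.symm⟩⟩
  intro h
  exact one_ne_zero (congrFun h 0)

end Pool.Agent.K369
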