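import Mathlib
import Pool.Agent.K369.Bundle

set_option autoImplicit false
set_option linter.all false

/-!
# Quadric bundles over a closed subscheme of a projective space and R-equivalence
-/

namespace Pool.Agent.K369

open MvPolynomial

variable {k : Type*} [Field k] {m N r : ℕ}

/-- R-equivalence of coordinates. -/
def XRE (G : Fin r → MvPolynomial (Fin (m + 1)) k)
    (A : Fin N → Fin N → MvPolynomial (Fin (m + 1)) k) (a : Fin N → ℤ) :
    XPt G A → XPt G A → Prop :=
  Relation.EqvGen (fun p p' => XLinked G A a p.1 p'.1)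

theorem aeval_const (G : Fin r → MvPolynomial (Fin (m + 1)) k) (s : Fin (m + 1) → k) (j : Fin r) :
    aeval (fun i => (Polynomial.C (s i) : Polynomial k)) (G j) = Polynomial.C (eval s (G j)) := by
  have h2 : (Algebra.ofId k (Polynomial k)).comp (aeval s) =
      aeval (fun i => (Polynomial.C (s i) : Polynomial k)) := by
    apply MvPolynomial.algHom_ext
    intro i
    simp only [AlgHom.comp_apply, aeval_X]
    rfl
  have h3 := congrArg (fun g => g (G j)) (congrArg DFunLike.coe h2)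
  simp only [AlgHom.comp_apply] at h3
  rw [← h3]
  have h4 : aeval s (G j) = eval s (G j) := rfl
  rw [h4]
  rfl

/-- All points in one fibre are R-equivalent. -/
theorem xfibre_re (G : Fin r → MvPolynomial (Fin (m + 1)) k)
    (A : Fin N → Fin N → MvPolynomial (Fin (m + 1)) k) (a : Fin N → ℤ) (hN : 3 ≤ N)
    {s : Fin (m + 1) → k} (hs : s ≠ 0 ∧ ∀ j, eval s (G j) = 0) {x y : Fin N → k} (hx0 : x ≠ 0)
    (hy0 : y ≠ 0) (hx : qval A s x = 0) (hy : qval A s y = 0) :
    XRE G A a ⟨(s, x), hs, hx0, hx⟩ ⟨(s, y), hs, hy0, hy⟩ := by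
  -- the bundle with constant coefficients over a point
  let B : Fin N → Fin N → MvPolynomial (Fin (0 + 1)) k := fun i j => C (aeval s (A i j))
  have hB : ∀ {R : Type _} [CommRing R] [Algebra k R] (t : Fin (0 + 1) → R) (v : Fin N → R),
      qval B t v = qval A (fun i => algebraMap k R (s i)) v := by
    intro R _ _ t v
    unfold qval
    refine Finset.sum_congr rfl fun i _ => Finset.sum_congr rfl fun j _ => ?_
    have h2 : (Algebra.ofId k R).comp (aeval s) = aeval (fun i => algebraMap k R (s i)) := by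
      apply MvPolynomial.algHom_ext
      intro i
      simp only [AlgHom.comp_apply, aeval_X]
      rfl
    have h3 := congrArg (fun g => g (A i j)) (congrArg DFunLike.coe h2)
    simp only [AlgHom.comp_apply] at h3
    rw [← h3]
    simp only [B, aeval_C]
    rfl
  have h1 : (fun _ : Fin (0 + 1) => (1 : k)) ≠ 0 := by
    intro h
    exact one_ne_zero (congrFun h 0)
  have hB' : ∀ (t : Fin (0 + 1) → k) (v : Fin N → k), qval B t v = qval A s v := by
    intro t v
    exact hB t v
  have hfib := fibre_re B (fun _ => 0) hN h1 hx0 hy0 (by rw [hB']; exact hx) (by rw [hB']; exact hy)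
  -- transport
  have key : ∀ p q : BPt B, BRE B (fun _ => 0) p q →
      XRE G A a ⟨(s, p.1.2), hs, p.2.2.1, by rw [← hB' p.1.1]; exact p.2.2.2⟩
        ⟨(s, q.1.2), hs, q.2.2.1, by rw [← hB' q.1.1]; exact q.2.2.2⟩ := by
    intro p q h
    induction h with
    | rel p q h =>
      obtain ⟨σ, v, hq, ⟨l, c, hl, hc, e1, e2⟩, ⟨l', c', hl', hc', e1', e2'⟩⟩ := h
      refine Relation.EqvGen.rel _ _ ⟨fun i => Polynomial.C (s i), v, ?_, ?_, ?_, ?_⟩
      · intro j
        rw [aeval_const, hs.2 j, Polynomial.C_0]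
      · rw [hB] at hq
        exact hq
      · refine ⟨1, c, one_ne_zero, hc, ?_, fun i => ?_⟩
        · simp
        · have := e2 i
          simp only [neg_zero, zpow_zero, mul_one] at this
          simp only [one_zpow, mul_one]
          exact this
      · refine ⟨1, c', one_ne_zero, hc', ?_, fun i => ?_⟩
        · simp
        · have := e2' i
          simp only [neg_zero, zpow_zero, mul_one] at this
          simp only [one_zpow, mul_one]
          exact this
    | refl p => exact Relation.EqvGen.refl _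
    | symm p q _ ih => exact Relation.EqvGen.symm _ _ ih
    | trans p q t _ _ ih1 ih2 => exact Relation.EqvGen.trans _ _ _ ih1 ih2
  exact key _ _ hfib

/-- Two sets of coordinates of one point are R-equivalent. -/
theorem XRE.of_same {G : Fin r → MvPolynomial (Fin (m + 1)) k}
    {A : Fin N → Fin N → MvPolynomial (Fin (m + 1)) k} {a : Fin N → ℤ} (p p' : XPt G A)
    (h : SamePoint a p.1 p'.1) : XRE G A a p p' := by
  obtain ⟨⟨t, x⟩, ht, hx, hq⟩ := p
  refine Relation.EqvGen.rel _ _ ⟨fun i => Polynomial.C (t i), fun i => Polynomial.C (x i),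
    ?_, ?_, ?_, ?_⟩
  · intro j
    rw [aeval_const, ht.2 j, Polynomial.C_0]
  · rw [qval_const]
    change Polynomial.C (qval A t x) = 0
    rw [show qval A t x = 0 from hq, Polynomial.C_0]
  · simp only [Polynomial.eval_C]
    exact SamePoint.refl _ _
  · simp only [Polynomial.eval_C]
    exact h

theorem eval_smul_form {G : MvPolynomial (Fin (m + 1)) k} {e : ℕ} (hG : G.IsHomogeneous e)
    {R : Type*} [CommRing R] [Algebra k R] (l : R) (s : Fin (m + 1) → R) :
    aeval (l • s) G = l ^ e * aeval s G := by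
  rw [aeval_def, aeval_def, eval₂_eq, eval₂_eq, Finset.mul_sum]
  refine Finset.sum_congr rfl fun f hf => ?_
  have h1 : ∏ i ∈ f.support, (l • s) i ^ f i = l ^ e * ∏ i ∈ f.support, s i ^ f i := by
    simp only [Pi.smul_apply, smul_eq_mul, mul_pow]
    rw [Finset.prod_mul_distrib, Finset.prod_pow_eq_pow_sum]
    congr 2
    have h2 := hG (mem_support_iff.1 hf)
    rw [Finsupp.weight_apply, Finsupp.sum] at h2
    simpa using h2
  rw [h1]
  ring

/-- The fibration principle: if every fibre over a rational point has a rational point and every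
direct R-link of the base can be replaced by one over which the quadric bundle has a section, then
the projection is a bijection on R-equivalence classes. -/
theorem projR_bijective {G : Fin r → MvPolynomial (Fin (m + 1)) k}
    (hG : ∀ j, ∃ e, (G j).IsHomogeneous e)
    {A : Fin N → Fin N → MvPolynomial (Fin (m + 1)) k} {a : Fin N → ℤ} {δ : ℤ}
    (hN : 3 ≤ N) (hA : IsQuadricBundle A a δ)
    (hpt : ∀ s : Fin (m + 1) → k, ∃ x : Fin N → k, x ≠ 0 ∧ qval A s x = 0)
    (hiso : ∀ σ : Fin (m + 1) → Polynomial k, (∀ j, aeval σ (G j) = 0) →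
      ∃ (τ : Fin (m + 1) → Polynomial k) (c₀ c₁ : k), c₀ ≠ 0 ∧ c₁ ≠ 0 ∧
        (∀ j, aeval τ (G j) = 0) ∧
        (∀ i, (τ i).eval 0 = c₀ * (σ i).eval 0) ∧ (∀ i, (τ i).eval 1 = c₁ * (σ i).eval 1) ∧
        ∃ z : Fin N → Polynomial k, z ≠ 0 ∧ qval A τ z = 0) :
    Function.Bijective (projR G A a) := by
  -- change of coordinates
  have key : ∀ (t t' : Fin (m + 1) → k) (c : k) (hc : c ≠ 0)
      (h : t' = c • t) (x : Fin N → k) (hx : x ≠ 0) (hq : qval A t x = 0),
      ∃ (x' : Fin N → k), x' ≠ 0 ∧ qval A t' x' = 0 ∧ SamePoint a (t, x) (t', x') := by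
    intro t t' c hc h x hx hq
    refine ⟨fun i => 1 * c ^ (-(a i)) * x i, ?_, ?_, ⟨c, 1, hc, one_ne_zero, h, fun i => rfl⟩⟩
    · intro h0
      apply hx
      funext i
      have h1 := congrFun h0 i
      simp only [one_mul, Pi.zero_apply] at h1
      exact (mul_eq_zero.1 h1).resolve_left (zpow_ne_zero _ hc)
    · rw [h, qval_torus hA t x c 1 hc, hq, mul_zero]
  -- the main step
  have main : ∀ s s' : YPt G, Relation.EqvGen (fun s s' : YPt G => YLinked G s.1 s'.1) s s' →
      ∀ (x x' : Fin N → k) (hx : x ≠ 0) (hx' : x' ≠ 0) (hq : qval A s.1 x = 0)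
        (hq' : qval A s'.1 x' = 0),
        XRE G A a ⟨(s.1, x), s.2, hx, hq⟩ ⟨(s'.1, x'), s'.2, hx', hq'⟩ := by
    intro s s' h
    induction h with
    | rel s s' h =>
      intro x x' hx hx' hq hq'
      obtain ⟨σ, hσ, ⟨l, hl, hs⟩, ⟨l', hl', hs'⟩⟩ := h
      obtain ⟨τ, c₀, c₁, hc₀, hc₁, hτ, hτ₀, hτ₁, z, hz, hqz⟩ := hiso σ hσ
      obtain ⟨f, z', hf, hzf, hz'⟩ := exists_primitive z hz
      have hqz' : qval A τ z' = 0 := by
        rw [hzf, qval_smul] at hqz
        exact (mul_eq_zero.1 hqz).resolve_left (pow_ne_zero _ hf)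
      have hev : ∀ c : k, qval A (fun i => (τ i).eval c) (fun i => (z' i).eval c) = 0 := by
        intro c
        have h1 := qval_map A (Polynomial.aeval c) τ z'
        rw [hqz', map_zero] at h1
        simp only [Polynomial.coe_aeval_eq_eval] at h1
        exact h1.symm
      have hs₀ : s.1 = (l * c₀⁻¹) • fun i => (τ i).eval 0 := by
        rw [hs]
        funext i
        simp only [Pi.smul_apply, smul_eq_mul, hτ₀]
        rw [mul_assoc, inv_mul_cancel_left₀ hc₀]
      have hs₁ : s'.1 = (l' * c₁⁻¹) • fun i => (τ i).eval 1 := by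
        rw [hs']
        funext i
        simp only [Pi.smul_apply, smul_eq_mul, hτ₁]
        rw [mul_assoc, inv_mul_cancel_left₀ hc₁]
      obtain ⟨y₀, hy₀, hqy₀, hsy₀⟩ := key _ s.1 (l * c₀⁻¹) (mul_ne_zero hl (inv_ne_zero hc₀)) hs₀ _
        (hz' 0) (hev 0)
      obtain ⟨y₁, hy₁, hqy₁, hsy₁⟩ := key _ s'.1 (l' * c₁⁻¹) (mul_ne_zero hl' (inv_ne_zero hc₁)) hs₁
        _ (hz' 1) (hev 1)
      have r2 : XRE G A a ⟨(s.1, y₀), s.2, hy₀, hqy₀⟩ ⟨(s'.1, y₁), s'.2, hy₁, hqy₁⟩ :=
        Relation.EqvGen.rel _ _ ⟨τ, z', hτ, hqz', hsy₀, hsy₁⟩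
      exact Relation.EqvGen.trans _ _ _ (xfibre_re G A a hN s.2 hx hy₀ hq hqy₀)
        (Relation.EqvGen.trans _ _ _ r2 (xfibre_re G A a hN s'.2 hy₁ hx' hqy₁ hq'))
    | refl s =>
      intro x x' hx hx' hq hq'
      exact xfibre_re G A a hN s.2 hx hx' hq hq'
    | symm s s' _ ih =>
      intro x x' hx hx' hq hq'
      exact Relation.EqvGen.symm _ _ (ih x' x hx' hx hq' hq)
    | trans s s' s'' _ _ ih1 ih2 =>
      intro x x' hx hx' hq hq'
      obtain ⟨y, hy, hqy⟩ := hpt s'.1
      exact Relation.EqvGen.trans _ _ _ (ih1 x y hx hy hq hqy) (ih2 y x' hy hx' hqy hq')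
  refine ⟨?_, ?_⟩
  · intro c c' hcc
    obtain ⟨p, rfl⟩ := Quot.exists_rep c
    obtain ⟨p', rfl⟩ := Quot.exists_rep c'
    have h1 : Relation.EqvGen (fun s s' : YPt G => YLinked G s.1 s'.1) ⟨p.1.1, p.2.1⟩
      ⟨p'.1.1, p'.2.1⟩ := Quot.eqvGen_exact hcc
    exact Quot.eqvGen_sound (main _ _ h1 p.1.2 p'.1.2 p.2.2.1 p'.2.2.1 p.2.2.2 p'.2.2.2)
  · intro c
    obtain ⟨s, rfl⟩ := Quot.exists_rep c
    obtain ⟨x, hx, hq⟩ := hpt s.1
    exact ⟨Quot.mk _ ⟨(s.1, x), s.2, hx, hq⟩, rfl⟩

end Pool.Agent.K369
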