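import Mathlib
import Pool.Agent.K369.Tower
import Pool.Agent.K369.CharTwo

set_option autoImplicit false
set_option linter.all false

/-!
# Quadric bundles over perfect fields of characteristic two, over an arbitrary base
-/

namespace Pool.Agent.K369

open Polynomial

variable {k : Type*} [Field k] {m N r : ℕ}

theorem exists_root_comp_sq [CharP k 2] [PerfectRing k 2] (P : k[X]) :
    ∃ Q : k[X], P.comp (X ^ 2) = Q ^ 2 := by
  haveI : Fact (Nat.Prime 2) := ⟨Nat.prime_two⟩
  haveI : ExpChar k 2 := ExpChar.prime Nat.prime_two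
  refine ⟨P.map (frobeniusEquiv k 2).symm.toRingHom, ?_⟩
  rw [← map_frobenius_expand (R := k) 2 (P.map (frobeniusEquiv k 2).symm.toRingHom), ← map_expand,
    map_map]
  have h1 : (frobenius k 2).comp (frobeniusEquiv k 2).symm.toRingHom = RingHom.id k := by
    ext x
    exact (frobeniusEquiv k 2).apply_symm_apply x
  rw [h1, Polynomial.map_id, expand_eq_comp_X_pow]

theorem exists_link_section_char_two [CharP k 2] [PerfectRing k 2]
    {G : Fin r → MvPolynomial (Fin (m + 1)) k}
    {A : Fin N → Fin N → MvPolynomial (Fin (m + 1)) k} (hN : 3 ≤ N)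
    (σ : Fin (m + 1) → k[X]) (hσ : ∀ j, MvPolynomial.aeval σ (G j) = 0) :
    ∃ (τ : Fin (m + 1) → k[X]) (c₀ c₁ : k), c₀ ≠ 0 ∧ c₁ ≠ 0 ∧
      (∀ j, MvPolynomial.aeval τ (G j) = 0) ∧
      (∀ i, (τ i).eval 0 = c₀ * (σ i).eval 0) ∧ (∀ i, (τ i).eval 1 = c₁ * (σ i).eval 1) ∧
      ∃ z : Fin N → k[X], z ≠ 0 ∧ qval A τ z = 0 := by
  have h2 : (2 : Polynomial k) = 0 := by
    have h : (2 : k) = 0 := CharTwo.two_eq_zero
    rw [← map_ofNat (Polynomial.C (R := k)) 2, h, Polynomial.C_0]
  have hcomp : ∀ P : MvPolynomial (Fin (m + 1)) k,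
      MvPolynomial.aeval (fun i => (σ i).comp (X ^ 2)) P =
        (MvPolynomial.aeval σ P).comp (X ^ 2) := by
    intro P
    have h1 : (aeval (X ^ 2) : k[X] →ₐ[k] k[X]).comp (MvPolynomial.aeval σ) =
        MvPolynomial.aeval (fun i => (σ i).comp (X ^ 2)) := by
      apply MvPolynomial.algHom_ext
      intro i
      simp only [AlgHom.comp_apply, MvPolynomial.aeval_X, comp_eq_aeval]
    have h2 := congrArg (fun g => g P) (congrArg DFunLike.coe h1)
    simp only [AlgHom.comp_apply] at h2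
    rw [← h2, comp_eq_aeval]
  refine ⟨fun i => (σ i).comp (X ^ 2), 1, 1, one_ne_zero, one_ne_zero, ?_, ?_, ?_, ?_⟩
  · intro j
    rw [hcomp, hσ j, zero_comp]
  · intro i
    simp
  · intro i
    simp
  · refine exists_zero_of_squares A hN h2 _ fun i j => ?_
    rw [hcomp]
    exact exists_root_comp_sq _

theorem exists_fibre_point_char_two [CharP k 2] [PerfectRing k 2]
    (A : Fin N → Fin N → MvPolynomial (Fin (m + 1)) k) (hN : 3 ≤ N)
    (s : Fin (m + 1) → k) : ∃ x : Fin N → k, x ≠ 0 ∧ qval A s x = 0 := by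
  have h2 : (2 : Polynomial k) = 0 := by
    have h : (2 : k) = 0 := CharTwo.two_eq_zero
    rw [← map_ofNat (Polynomial.C (R := k)) 2, h, Polynomial.C_0]
  obtain ⟨z, hz, hqz⟩ := exists_zero_of_squares A hN h2 (fun i => C (s i)) fun i j => by
    refine ⟨C ((frobeniusEquiv k 2).symm (MvPolynomial.aeval s (A i j))), ?_⟩
    rw [← map_pow, frobeniusEquiv_symm_pow_p]
    have h3 : ((Algebra.ofId k (Polynomial k)).comp (MvPolynomial.aeval s)) =
        MvPolynomial.aeval (fun i => (C (s i) : Polynomial k)) := by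
      apply MvPolynomial.algHom_ext
      intro i
      simp only [AlgHom.comp_apply, MvPolynomial.aeval_X]
      rfl
    exact (congrArg (fun g => g (A i j)) (congrArg DFunLike.coe h3)).symm
  obtain ⟨f, z', hf, hzf, hz'⟩ := exists_primitive z hz
  have hqz' : qval A (fun i => C (s i)) z' = 0 := by
    rw [hzf, qval_smul] at hqz
    exact (mul_eq_zero.1 hqz).resolve_left (pow_ne_zero _ hf)
  have h1 := qval_map A (Polynomial.aeval (0 : k)) (fun i => C (s i)) z'
  rw [hqz', map_zero] at h1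
  simp only [coe_aeval_eq_eval, eval_C] at h1
  exact ⟨fun i => (z' i).eval 0, hz' 0, h1.symm⟩

theorem projR_bijective_char_two [CharP k 2] [PerfectRing k 2]
    (G : Fin r → MvPolynomial (Fin (m + 1)) k)
    (hG : ∀ j, ∃ e, (G j).IsHomogeneous e)
    (A : Fin N → Fin N → MvPolynomial (Fin (m + 1)) k) (a : Fin N → ℤ) (δ : ℤ)
    (hN : 3 ≤ N) (hA : IsQuadricBundle A a δ) : Function.Bijective (projR G A a) :=
  projR_bijective hG hN hA (exists_fibre_point_char_two A hN)
    fun σ hσ => exists_link_section_char_two hN σ hσ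

end Pool.Agent.K369
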