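import Mathlib
import Pool.Agent.K369.Defs

set_option autoImplicit false
set_option linter.all false

/-!
# Links between vectors, and R-equivalence
-/

namespace Pool.Agent.K369

open MvPolynomial

variable {k : Type*} [Field k] {m : ℕ} {J : Type*}

theorem eval_one_zero_homogenize (p : Polynomial k) (N : ℕ) :
    eval ![1, 0] (p.homogenize N) = p.coeff N := by
  rw [Polynomial.homogenize, map_sum, Finset.sum_eq_single (N, 0)]
  · simp [eval_monomial, Finsupp.prod_fintype]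
  · rintro ⟨a, b⟩ hab hne
    rw [Finset.HasAntidiagonal.mem_antidiagonal] at hab
    have hb : b ≠ 0 := by
      rintro rfl
      apply hne
      simp at hab
      rw [hab]
    rw [eval_monomial, Finsupp.prod_fintype _ _ (fun _ => pow_zero _), Fin.prod_univ_two]
    simp [hb]
  · intro h
    exact absurd (Finset.HasAntidiagonal.mem_antidiagonal.2 (by simp)) h

/-- Two vectors are linked: the points they define are joined by a rational curve on `F = 0`. -/
def Lk (F : J → MvPolynomial (Fin m) k) (P Q : Fin m → k) : Prop :=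
  ∃ (N : ℕ) (φ : Fin m → MvPolynomial (Fin 2) k), (∀ i, (φ i).IsHomogeneous N) ∧
    (∀ j, bind₁ φ (F j) = 0) ∧
    ∃ s t : Fin 2 → k, s ≠ 0 ∧ t ≠ 0 ∧ ∃ a b : k, a ≠ 0 ∧ b ≠ 0 ∧
      (fun i => eval s (φ i)) = a • P ∧ (fun i => eval t (φ i)) = b • Q

theorem bind₁_homogenize {F : MvPolynomial (Fin m) k} {d : ℕ} (hF : F.IsHomogeneous d)
    (g : Fin m → Polynomial k) (N : ℕ) (hN : ∀ i, (g i).natDegree ≤ N)
    (h : aeval g F = 0) : bind₁ (fun i => (g i).homogenize N) F = 0 := by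
  have h1 : (bind₁ (fun i => (g i).homogenize N) F).IsHomogeneous (N * d) :=
    hF.aeval _ fun i => Polynomial.isHomogeneous_homogenize _
  have h2 : aeval ![Polynomial.X, 1] (bind₁ (fun i => (g i).homogenize N) F) =
      (0 : Polynomial k) := by
    rw [← h, aeval_bind₁]
    congr 2
    funext i
    exact Polynomial.aeval_homogenize_X_one _ (hN i)
  have h3 := Polynomial.homogenize_eq_of_isHomogeneous h1 h2
  rw [← h3, Polynomial.homogenize_zero]

/-- Link between two finite points of a polynomial curve. -/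
theorem Lk.of_poly {F : J → MvPolynomial (Fin m) k} {d : J → ℕ}
    (hF : ∀ j, (F j).IsHomogeneous (d j)) (g : Fin m → Polynomial k)
    (h : ∀ j, aeval g (F j) = 0) (x y : k) {P Q : Fin m → k} {a b : k} (ha : a ≠ 0) (hb : b ≠ 0)
    (hP : (fun i => (g i).eval x) = a • P) (hQ : (fun i => (g i).eval y) = b • Q) : Lk F P Q := by
  classical
  let N := Finset.univ.sup (fun i => (g i).natDegree)
  have hN : ∀ i, (g i).natDegree ≤ N := fun i =>
    Finset.le_sup (f := fun i => (g i).natDegree) (Finset.mem_univ i)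
  refine ⟨N, fun i => (g i).homogenize N, fun i => Polynomial.isHomogeneous_homogenize _,
    fun j => bind₁_homogenize (hF j) g N hN (h j), ![x, 1], ![y, 1], ?_, ?_, a, b, ha, hb, ?_, ?_⟩
  · intro h0
    have := congrFun h0 1
    simp at this
  · intro h0
    have := congrFun h0 1
    simp at this
  · rw [← hP]
    funext i
    rw [Polynomial.eval_homogenize (hN i) _ (by simp)]
    simp
  · rw [← hQ]
    funext i
    rw [Polynomial.eval_homogenize (hN i) _ (by simp)]
    simp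

/-- Link between a finite point of a polynomial curve and its point at infinity. -/
theorem Lk.of_poly_inf {F : J → MvPolynomial (Fin m) k} {d : J → ℕ}
    (hF : ∀ j, (F j).IsHomogeneous (d j)) (g : Fin m → Polynomial k) (N : ℕ)
    (hN : ∀ i, (g i).natDegree ≤ N)
    (h : ∀ j, aeval g (F j) = 0) (x : k) {P Q : Fin m → k} {a b : k} (ha : a ≠ 0) (hb : b ≠ 0)
    (hP : (fun i => (g i).eval x) = a • P) (hQ : (fun i => (g i).coeff N) = b • Q) : Lk F P Q := by
  refine ⟨N, fun i => (g i).homogenize N, fun i => Polynomial.isHomogeneous_homogenize _,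
    fun j => bind₁_homogenize (hF j) g N hN (h j), ![x, 1], ![1, 0], ?_, ?_, a, b, ha, hb, ?_, ?_⟩
  · intro h0
    have := congrFun h0 1
    simp at this
  · intro h0
    have := congrFun h0 0
    simp at this
  · rw [← hP]
    funext i
    rw [Polynomial.eval_homogenize (hN i) _ (by simp)]
    simp
  · rw [← hQ]
    funext i
    exact eval_one_zero_homogenize _ _

theorem Lk.symm {F : J → MvPolynomial (Fin m) k} {P Q : Fin m → k} (h : Lk F P Q) : Lk F Q P := by
  obtain ⟨N, φ, h1, h2, s, t, hs, ht, a, b, ha, hb, e1, e2⟩ := h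
  exact ⟨N, φ, h1, h2, t, s, ht, hs, b, a, hb, ha, e2, e1⟩

/-- The value of a form at a multiple of a vector. -/
theorem eval_smul_of_isHomogeneous {σ : Type*} {F : MvPolynomial σ k} {d : ℕ}
    (hF : F.IsHomogeneous d) (c : k) (x : σ → k) : eval (c • x) F = c ^ d * eval x F := by
  rw [eval_eq, eval_eq, Finset.mul_sum]
  refine Finset.sum_congr rfl fun e he => ?_
  have h1 : ∏ i ∈ e.support, (c • x) i ^ e i = c ^ d * ∏ i ∈ e.support, x i ^ e i := by
    simp only [Pi.smul_apply, smul_eq_mul, mul_pow]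
    rw [Finset.prod_mul_distrib, Finset.prod_pow_eq_pow_sum]
    congr 2
    have h2 := hF (mem_support_iff.1 he)
    rw [Finsupp.weight_apply, Finsupp.sum] at h2
    simpa using h2
  rw [h1]
  ring

theorem Lk.zero_left {F : J → MvPolynomial (Fin m) k} {d : J → ℕ}
    (hF : ∀ j, (F j).IsHomogeneous (d j)) {P Q : Fin m → k} (h : Lk F P Q) (j : J) :
    eval P (F j) = 0 := by
  obtain ⟨N, φ, h1, h2, s, t, hs, ht, a, b, ha, hb, e1, e2⟩ := h
  have h3 : eval (fun i => eval s (φ i)) (F j) = 0 := by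
    have := congrArg (eval s) (h2 j)
    rw [map_zero] at this
    rw [← this, ← coe_aeval_eq_eval, ← coe_aeval_eq_eval]
    simp only [RingHom.coe_coe]
    rw [aeval_bind₁]
  rw [e1, eval_smul_of_isHomogeneous (hF j)] at h3
  exact (mul_eq_zero.1 h3).resolve_left (pow_ne_zero _ ha)

theorem Lk.zero_right {F : J → MvPolynomial (Fin m) k} {d : J → ℕ}
    (hF : ∀ j, (F j).IsHomogeneous (d j)) {P Q : Fin m → k} (h : Lk F P Q) (j : J) :
    eval Q (F j) = 0 := h.symm.zero_left hF j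

/-- R-equivalence of vectors. -/
def RE (F : J → MvPolynomial (Fin m) k) : (Fin m → k) → (Fin m → k) → Prop :=
  Relation.EqvGen (fun A B => A ≠ 0 ∧ B ≠ 0 ∧ Lk F A B)

theorem RE.of_lk {F : J → MvPolynomial (Fin m) k} {P Q : Fin m → k} (hP : P ≠ 0) (hQ : Q ≠ 0)
    (h : Lk F P Q) : RE F P Q := Relation.EqvGen.rel _ _ ⟨hP, hQ, h⟩

theorem RE.refl (F : J → MvPolynomial (Fin m) k) (P : Fin m → k) : RE F P P :=
  Relation.EqvGen.refl _

theorem RE.symm {F : J → MvPolynomial (Fin m) k} {P Q : Fin m → k} (h : RE F P Q) : RE F Q P :=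
  Relation.EqvGen.symm _ _ h

theorem RE.trans {F : J → MvPolynomial (Fin m) k} {P Q S : Fin m → k} (h : RE F P Q)
    (h' : RE F Q S) : RE F P S := Relation.EqvGen.trans _ _ _ h h'

variable {n r : ℕ}

theorem mk_mem_Pt {F : Fin r → MvPolynomial (Fin (n + 1)) k} {d : Fin r → ℕ}
    (hF : ∀ j, (F j).IsHomogeneous (d j)) {P : Fin (n + 1) → k} (hP : P ≠ 0)
    (h : ∀ j, eval P (F j) = 0) : Projectivization.mk k P hP ∈ Pt F := by
  intro j
  obtain ⟨a, ha⟩ := Projectivization.exists_smul_eq_mk_rep k P hP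
  rw [← ha, Units.smul_def, eval_smul_of_isHomogeneous (hF j), h j, mul_zero]

/-- The class of a vector in `X(k)/R`. -/
def cl {F : Fin r → MvPolynomial (Fin (n + 1)) k} {d : Fin r → ℕ}
    (hF : ∀ j, (F j).IsHomogeneous (d j)) {P : Fin (n + 1) → k} (hP : P ≠ 0)
    (h : ∀ j, eval P (F j) = 0) : RClasses F :=
  Quot.mk _ ⟨Projectivization.mk k P hP, mk_mem_Pt hF hP h⟩

theorem directlyRLinked_of_lk {F : Fin r → MvPolynomial (Fin (n + 1)) k} {P Q : Fin (n + 1) → k}
    (hP : P ≠ 0) (hQ : Q ≠ 0) (h : Lk F P Q) :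
    DirectlyRLinked F (Projectivization.mk k P hP) (Projectivization.mk k Q hQ) := by
  obtain ⟨N, φ, h1, h2, s, t, hs, ht, a, b, ha, hb, e1, e2⟩ := h
  have key : ∀ (u : Fin 2 → k) (hu : u ≠ 0) (c : k) (hc : c ≠ 0) (R : Fin (n + 1) → k)
      (hR : R ≠ 0) (e : (fun i => eval u (φ i)) = c • R),
      ∃ hh : (fun i => eval (Projectivization.mk k u hu).rep (φ i)) ≠ 0,
        Projectivization.mk k R hR = Projectivization.mk k _ hh := by
    intro u hu c hc R hR e
    obtain ⟨z, hz⟩ := Projectivization.exists_smul_eq_mk_rep k u hu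
    have h3 : (fun i => eval (Projectivization.mk k u hu).rep (φ i)) = ((z : k) ^ N * c) • R := by
      rw [← hz]
      funext i
      rw [Units.smul_def, eval_smul_of_isHomogeneous (h1 i), mul_smul, ← e]
      rfl
    have h4 : ((z : k) ^ N * c) ≠ 0 := mul_ne_zero (pow_ne_zero _ z.ne_zero) hc
    refine ⟨?_, ?_⟩
    · rw [h3]
      exact smul_ne_zero h4 hR
    · rw [Projectivization.mk_eq_mk_iff']
      exact ⟨((z : k) ^ N * c)⁻¹, by rw [h3, smul_smul, inv_mul_cancel₀ h4, one_smul]⟩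
  obtain ⟨hh1, k1⟩ := key s hs a ha P hP e1
  obtain ⟨hh2, k2⟩ := key t ht b hb Q hQ e2
  exact ⟨N, φ, h1, h2, _, _, hh1, hh2, k1, k2⟩

theorem cl_eq_of_re {F : Fin r → MvPolynomial (Fin (n + 1)) k} {d : Fin r → ℕ}
    (hF : ∀ j, (F j).IsHomogeneous (d j)) {P Q : Fin (n + 1) → k} (h : RE F P Q) :
    ((P ≠ 0 ∧ ∀ j, eval P (F j) = 0) ↔ (Q ≠ 0 ∧ ∀ j, eval Q (F j) = 0)) ∧
      ∀ (hP : P ≠ 0) (hQ : Q ≠ 0) (h1 : ∀ j, eval P (F j) = 0) (h2 : ∀ j, eval Q (F j) = 0),
        cl hF hP h1 = cl hF hQ h2 := by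
  induction h with
  | rel A B h =>
    obtain ⟨hA, hB, h⟩ := h
    refine ⟨⟨fun _ => ⟨hB, h.zero_right hF⟩, fun _ => ⟨hA, h.zero_left hF⟩⟩, ?_⟩
    intro hP hQ h1 h2
    exact Quot.sound (directlyRLinked_of_lk hP hQ h)
  | refl A => exact ⟨Iff.rfl, fun _ _ _ _ => rfl⟩
  | symm A B _ ih => exact ⟨ih.1.symm, fun hP hQ h1 h2 => (ih.2 hQ hP h2 h1).symm⟩
  | trans A B C _ _ ih1 ih2 =>
    refine ⟨ih1.1.trans ih2.1, fun hP hQ h1 h2 => ?_⟩
    obtain ⟨hB, hB0⟩ := ih1.1.1 ⟨hP, h1⟩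
    exact (ih1.2 hP hB h1 hB0).trans (ih2.2 hB hQ hB0 h2)

/-- If all zeros of `F` are R-equivalent then `X(k)/R` has exactly one element. -/
theorem card_RClasses {F : Fin r → MvPolynomial (Fin (n + 1)) k} {d : Fin r → ℕ}
    (hF : ∀ j, (F j).IsHomogeneous (d j)) (hne : (Pt F).Nonempty)
    (h : ∀ P Q : Fin (n + 1) → k, P ≠ 0 → Q ≠ 0 → (∀ j, eval P (F j) = 0) →
      (∀ j, eval Q (F j) = 0) → RE F P Q) : Nat.card (RClasses F) = 1 := by
  obtain ⟨x, hx⟩ := hne
  rw [Nat.card_eq_one_iff_exists]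
  refine ⟨Quot.mk _ ⟨x, hx⟩, fun c => ?_⟩
  obtain ⟨⟨y, hy⟩, rfl⟩ := Quot.exists_rep c
  have h1 := (cl_eq_of_re hF (h y.rep x.rep y.rep_nonzero x.rep_nonzero hy hx)).2
    y.rep_nonzero x.rep_nonzero hy hx
  unfold cl at h1
  simpa only [Projectivization.mk_rep] using h1

end Pool.Agent.K369
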