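import Mathlib
import Pool.Agent.K369.C1
import Pool.Agent.K369.Link

set_option autoImplicit false
set_option linter.all false

/-!
# Linking two points by conics
-/

namespace Pool.Agent.K369

open MvPolynomial

variable {k : Type*} [Field k] {m : ℕ} {J : Type*}

section Graded

variable {R ι : Type*} [CommRing R]

/-- Polynomials in `u` over a polynomial ring whose coefficient of `u ^ i` is a form of degree
`i`. -/
def Gr (p : Polynomial (MvPolynomial ι k)) : Prop := ∀ i, (p.coeff i).IsHomogeneous i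

theorem Gr.zero : Gr (0 : Polynomial (MvPolynomial ι k)) := fun i => by
  rw [Polynomial.coeff_zero]; exact isHomogeneous_zero _ _ _

theorem Gr.add {p q : Polynomial (MvPolynomial ι k)} (hp : Gr p) (hq : Gr q) : Gr (p + q) :=
  fun i => by rw [Polynomial.coeff_add]; exact (hp i).add (hq i)

theorem Gr.mul {p q : Polynomial (MvPolynomial ι k)} (hp : Gr p) (hq : Gr q) : Gr (p * q) :=
  fun i => by
    rw [Polynomial.coeff_mul]
    refine IsHomogeneous.sum _ _ _ fun x hx => ?_
    rw [Finset.HasAntidiagonal.mem_antidiagonal] at hx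
    rw [← hx]
    exact (hp x.1).mul (hq x.2)

theorem Gr.C {a : MvPolynomial ι k} (ha : a.IsHomogeneous 0) : Gr (Polynomial.C a) := fun i => by
  rw [Polynomial.coeff_C]
  split_ifs with h
  · rw [h]; exact ha
  · exact isHomogeneous_zero _ _ _

theorem Gr.X_pow_mul_C {a : MvPolynomial ι k} {n : ℕ} (ha : a.IsHomogeneous n) :
    Gr (Polynomial.X ^ n * Polynomial.C a) := fun i => by
  rw [mul_comm, Polynomial.coeff_C_mul_X_pow]
  split_ifs with h
  · rw [h]; exact ha
  · exact isHomogeneous_zero _ _ _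

theorem Gr.pow {p : Polynomial (MvPolynomial ι k)} (hp : Gr p) (n : ℕ) : Gr (p ^ n) := by
  induction n with
  | zero =>
    rw [pow_zero, ← Polynomial.C_1]
    exact Gr.C (isHomogeneous_one _ _)
  | succ n ih => rw [pow_succ]; exact ih.mul hp

theorem Gr.aeval {σ : Type*} (F : MvPolynomial σ k) (g : σ → Polynomial (MvPolynomial ι k))
    (hg : ∀ i, Gr (g i)) : Gr (MvPolynomial.aeval g F) := by
  induction F using MvPolynomial.induction_on with
  | C a =>
    rw [aeval_C]
    exact Gr.C (isHomogeneous_C _ a)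
  | add p q hp hq => rw [map_add]; exact hp.add hq
  | mul_X p i hp => rw [map_mul, aeval_X]; exact hp.mul (hg i)

end Graded

/-- A binary form of degree `M` vanishes if its coefficients at `X 0 ^ i`, `i ≤ a`, and at
`X 1 ^ i`, `i ≤ b`, vanish, where `M ≤ a + b + 1`. -/
theorem binary_eq_zero {H : MvPolynomial (Fin 2) k} {M : ℕ} (hH : H.IsHomogeneous M) (a b : ℕ)
    (hab : M ≤ a + b + 1) (h1 : ∀ i ≤ a, (aeval ![Polynomial.X, 1] H : Polynomial k).coeff i = 0)
    (h2 : ∀ i ≤ b, (aeval ![1, Polynomial.X] H : Polynomial k).coeff i = 0) : H = 0 := by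
  classical
  have key : ∀ (G : MvPolynomial (Fin 2) k), G.IsHomogeneous M → ∀ e : Fin 2 →₀ ℕ, e 0 + e 1 = M →
      coeff e G = (aeval ![Polynomial.X, 1] G : Polynomial k).coeff (e 0) := by
    intro G hG e he
    have h3 := Polynomial.homogenize_eq_of_isHomogeneous hG (p := aeval ![Polynomial.X, 1] G) rfl
    conv_lhs => rw [← h3]
    rw [Polynomial.coeff_homogenize, if_pos he]
  ext e
  rw [coeff_zero]
  by_cases he : e 0 + e 1 = M
  · by_cases hea : e 0 ≤ a
    · rw [key H hH e he]
      exact h1 _ hea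
    · have heb : e 1 ≤ b := by omega
      have hH' : (rename (Equiv.swap 0 1) H).IsHomogeneous M := hH.rename_isHomogeneous
      have h3 := key _ hH' (e.mapDomain (Equiv.swap (0 : Fin 2) 1)) (by
        have e0 : e.mapDomain (Equiv.swap (0 : Fin 2) 1) 0 = e 1 := by
          have := Finsupp.mapDomain_apply (Equiv.swap (0 : Fin 2) 1).injective e 1
          simpa using this
        have e1 : e.mapDomain (Equiv.swap (0 : Fin 2) 1) 1 = e 0 := by
          have := Finsupp.mapDomain_apply (Equiv.swap (0 : Fin 2) 1).injective e 0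
          simpa using this
        rw [e0, e1]; omega)
      rw [coeff_rename_mapDomain _ (Equiv.injective _)] at h3
      rw [h3]
      have e0 : e.mapDomain (Equiv.swap (0 : Fin 2) 1) 0 = e 1 := by
        have := Finsupp.mapDomain_apply (Equiv.swap (0 : Fin 2) 1).injective e 1
        simpa using this
      rw [e0, aeval_rename]
      have h4 : (![Polynomial.X, 1] ∘ (Equiv.swap (0 : Fin 2) 1) : Fin 2 → Polynomial k) =
          ![1, Polynomial.X] := by
        funext i
        fin_cases i <;> simp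
      rw [h4]
      exact h2 _ heb
  · by_contra hne
    apply he
    have := hH hne
    rw [Finsupp.weight_apply, Finsupp.sum_fintype _ _ (fun _ => by simp), Fin.sum_univ_two] at this
    simpa using this

theorem map_aeval_curve {ι σ : Type*} (x : ι → k) (γ : σ → Polynomial (MvPolynomial ι k))
    (F : MvPolynomial σ k) : Polynomial.map (eval x) (aeval γ F) =
      aeval (fun i => Polynomial.map (eval x) (γ i)) F := by
  have h2 : (Polynomial.mapAlgHom (aeval x : MvPolynomial ι k →ₐ[k] k)).comp (aeval γ) =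
      aeval (fun i => Polynomial.map (eval x) (γ i)) := by
    apply MvPolynomial.algHom_ext
    intro i
    simp only [AlgHom.comp_apply, aeval_X]
    rfl
  exact congrArg (fun f => f F) (congrArg DFunLike.coe h2)

theorem aeval_mul_of_isHomogeneous {σ A : Type*} [CommRing A] [Algebra k A] {F : MvPolynomial σ k}
    {d : ℕ} (hF : F.IsHomogeneous d) (c : A) (g : σ → A) :
    aeval (fun i => c * g i) F = c ^ d * aeval g F := by
  rw [aeval_def, aeval_def, eval₂_eq, eval₂_eq, Finset.mul_sum]
  refine Finset.sum_congr rfl fun e he => ?_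
  have h1 : ∏ i ∈ e.support, (c * g i) ^ e i = c ^ d * ∏ i ∈ e.support, g i ^ e i := by
    simp only [mul_pow]
    rw [Finset.prod_mul_distrib, Finset.prod_pow_eq_pow_sum]
    congr 2
    have h2 := hF (mem_support_iff.1 he)
    rw [Finsupp.weight_apply, Finsupp.sum] at h2
    simpa using h2
  rw [h1]
  ring

/-- The generic curve `A + u M + u ^ 2 Δ B`. -/
noncomputable def gen {ι : Type*} (A B : Fin m → k) (M : Fin m → MvPolynomial ι k)
    (Δ : MvPolynomial ι k) (i : Fin m) : Polynomial (MvPolynomial ι k) :=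
  Polynomial.C (C (A i)) + Polynomial.X ^ 1 * Polynomial.C (M i) +
    Polynomial.X ^ 2 * Polynomial.C (Δ * C (B i))

theorem gr_gen {ι : Type*} (A B : Fin m → k) (M : Fin m → MvPolynomial ι k)
    (Δ : MvPolynomial ι k) (hM : ∀ i, (M i).IsHomogeneous 1) (hΔ : Δ.IsHomogeneous 2)
    (i : Fin m) : Gr (gen A B M Δ i) :=
  ((Gr.C (isHomogeneous_C _ _)).add (Gr.X_pow_mul_C (hM i))).add
    (Gr.X_pow_mul_C (by simpa using hΔ.mul (isHomogeneous_C ι (B i))))

/-- The curve `A + u M + u ^ 2 δ B`. -/
noncomputable def crv (A B M : Fin m → k) (δ : k) (i : Fin m) : Polynomial k :=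
  Polynomial.C (A i) + Polynomial.X ^ 1 * Polynomial.C (M i) +
    Polynomial.X ^ 2 * Polynomial.C (δ * B i)

theorem map_gen {ι : Type*} (A B : Fin m → k) (M : Fin m → MvPolynomial ι k)
    (Δ : MvPolynomial ι k) (x : ι → k) (i : Fin m) :
    Polynomial.map (eval x) (gen A B M Δ i) = crv A B (fun i => eval x (M i)) (eval x Δ) i := by
  simp [gen, crv]

/-- The binary forms `X₁² A + X₀ X₁ M + X₀² δ B`. -/
noncomputable def bin (A B M : Fin m → k) (δ : k) (i : Fin m) : MvPolynomial (Fin 2) k :=
  C (A i) * X 1 ^ 2 + C (M i) * (X 0 * X 1) + C (δ * B i) * X 0 ^ 2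

theorem bin_homog (A B M : Fin m → k) (δ : k) (i : Fin m) : (bin A B M δ i).IsHomogeneous 2 := by
  refine ((?_ : IsHomogeneous _ 2).add ?_).add ?_
  · simpa using (isHomogeneous_C (Fin 2) (A i)).mul ((isHomogeneous_X k (1 : Fin 2)).pow 2)
  · simpa using (isHomogeneous_C (Fin 2) (M i)).mul
      ((isHomogeneous_X k (0 : Fin 2)).mul (isHomogeneous_X k (1 : Fin 2)))
  · simpa using (isHomogeneous_C (Fin 2) (δ * B i)).mul ((isHomogeneous_X k (0 : Fin 2)).pow 2)

theorem aeval_bin (A B M : Fin m → k) (δ : k) (F : MvPolynomial (Fin m) k) :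
    (aeval ![Polynomial.X, 1] (bind₁ (bin A B M δ) F) : Polynomial k) =
      aeval (crv A B M δ) F := by
  rw [aeval_bind₁]
  congr 2
  funext i
  simp only [bin, crv, map_add, map_mul, map_pow, aeval_C, aeval_X, Polynomial.C_eq_algebraMap]
  simp
  ring

theorem aeval_bin' (A B M : Fin m → k) (δ : k) {F : MvPolynomial (Fin m) k} {d : ℕ}
    (hF : F.IsHomogeneous d) :
    (aeval ![1, Polynomial.X] (bind₁ (bin A B M δ) F) : Polynomial k).comp
      (Polynomial.C δ * Polynomial.X) = Polynomial.C δ ^ d * aeval (crv B A M δ) F := by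
  have h1 : (aeval ![1, Polynomial.X] (bind₁ (bin A B M δ) F) : Polynomial k).comp
      (Polynomial.C δ * Polynomial.X) = aeval (fun i => Polynomial.C δ * crv B A M δ i) F := by
    rw [aeval_bind₁]
    have h2 : (Polynomial.aeval (Polynomial.C δ * Polynomial.X) :
        Polynomial k →ₐ[k] Polynomial k).comp
        (aeval fun i => (aeval ![1, Polynomial.X] (bin A B M δ i) : Polynomial k)) =
        aeval (fun i => Polynomial.C δ * crv B A M δ i) := by
      apply MvPolynomial.algHom_ext
      intro i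
      simp only [AlgHom.comp_apply, aeval_X]
      simp only [bin, crv, map_add, map_mul, map_pow, aeval_C, aeval_X,
        Polynomial.C_eq_algebraMap]
      simp
      ring
    exact congrArg (fun f => f F) (congrArg DFunLike.coe h2)
  rw [h1, aeval_mul_of_isHomogeneous hF]

theorem eval_bin_zero (A B M : Fin m → k) (δ : k) :
    (fun i => eval ![0, 1] (bin A B M δ i)) = A := by
  funext i
  simp [bin]

theorem eval_bin_one (A B M : Fin m → k) (δ : k) :
    (fun i => eval ![1, 0] (bin A B M δ i)) = δ • B := by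
  funext i
  simp [bin]

theorem Lk.of_forms {F : J → MvPolynomial (Fin m) k} (N : ℕ)
    (φ : Fin m → MvPolynomial (Fin 2) k) (h1 : ∀ i, (φ i).IsHomogeneous N)
    (h2 : ∀ j, bind₁ φ (F j) = 0) {P Q : Fin m → k} {a b : k} (ha : a ≠ 0) (hb : b ≠ 0)
    (hP : (fun i => eval ![0, 1] (φ i)) = a • P) (hQ : (fun i => eval ![1, 0] (φ i)) = b • Q) :
    Lk F P Q := by
  refine ⟨N, φ, h1, h2, ![0, 1], ![1, 0], ?_, ?_, a, b, ha, hb, hP, hQ⟩
  · intro h0
    have := congrFun h0 1
    simp at this
  · intro h0
    have := congrFun h0 0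
    simp at this

/-- The linear forms `X₁ A + X₀ B`. -/
noncomputable def lin (A B : Fin m → k) (i : Fin m) : MvPolynomial (Fin 2) k :=
  C (A i) * X 1 + C (B i) * X 0

theorem lin_homog (A B : Fin m → k) (i : Fin m) : (lin A B i).IsHomogeneous 1 := by
  refine (?_ : IsHomogeneous _ 1).add ?_
  · simpa using (isHomogeneous_C (Fin 2) (A i)).mul (isHomogeneous_X k (1 : Fin 2))
  · simpa using (isHomogeneous_C (Fin 2) (B i)).mul (isHomogeneous_X k (0 : Fin 2))

/-- A line is in `F = 0` if the form vanishes on it. -/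
theorem Lk.of_line {F : J → MvPolynomial (Fin m) k} {A B : Fin m → k}
    (h : ∀ j, bind₁ (lin A B) (F j) = 0) : Lk F A B :=
  Lk.of_forms 1 (lin A B) (lin_homog A B) h one_ne_zero one_ne_zero
    (by funext i; simp [lin]) (by funext i; simp [lin])

theorem aeval_lin (A B : Fin m → k) (F : MvPolynomial (Fin m) k) :
    (aeval ![Polynomial.X, 1] (bind₁ (lin A B) F) : Polynomial k) =
      aeval (crv A 0 B 0) F := by
  rw [aeval_bind₁]
  congr 2
  funext i
  simp only [lin, crv, map_add, map_mul, map_pow, aeval_C, aeval_X, Polynomial.C_eq_algebraMap]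
  simp

theorem aeval_lin' (A B : Fin m → k) (F : MvPolynomial (Fin m) k) :
    (aeval ![1, Polynomial.X] (bind₁ (lin A B) F) : Polynomial k).coeff 0 = eval B F := by
  rw [Polynomial.coeff_zero_eq_eval_zero, aeval_bind₁, ← coe_aeval_eq_eval]
  have h2 : (Polynomial.aeval (0 : k) : Polynomial k →ₐ[k] k).comp
        (aeval fun i => (aeval ![1, Polynomial.X] (lin A B i) : Polynomial k)) =
        aeval B := by
    apply MvPolynomial.algHom_ext
    intro i
    simp only [AlgHom.comp_apply, aeval_X]
    simp [lin]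
  have h3 := congrArg (fun f => f F) (congrArg DFunLike.coe h2)
  simpa using h3

theorem coeff_zero_crv (A B M : Fin m → k) (δ : k) (F : MvPolynomial (Fin m) k) :
    (aeval (crv A B M δ) F : Polynomial k).coeff 0 = eval A F := by
  rw [Polynomial.coeff_zero_eq_eval_zero, ← coe_aeval_eq_eval]
  have h2 : (Polynomial.aeval (0 : k) : Polynomial k →ₐ[k] k).comp
        (aeval (crv A B M δ)) = aeval A := by
    apply MvPolynomial.algHom_ext
    intro i
    simp only [AlgHom.comp_apply, aeval_X]
    simp [crv]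
  have h3 := congrArg (fun f => f F) (congrArg DFunLike.coe h2)
  simpa using h3

theorem sum_sq (d : ℕ) (hd : 1 ≤ d) :
    ∑ i : Fin d, ((i : ℕ) + 1) + ∑ i : Fin (d - 1), ((i : ℕ) + 1) = d ^ 2 := by
  obtain ⟨e, rfl⟩ : ∃ e, d = e + 1 := ⟨d - 1, by omega⟩
  rw [Fin.sum_univ_eq_sum_range (fun i => i + 1), Fin.sum_univ_eq_sum_range (fun i => i + 1)]
  have h : ∀ n : ℕ, 2 * ∑ i ∈ Finset.range n, (i + 1) = n * (n + 1) := by
    intro n
    induction n with
    | zero => simp
    | succ n ih => rw [Finset.sum_range_succ, mul_add, ih]; ring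
  have h1 := h (e + 1)
  have h2 := h e
  simp only [Nat.add_sub_cancel]
  nlinarith

/-- Over a `C₁` field with normic forms of all degrees, two points of `F = 0` are joined by a
conic or by two lines if `∑ (d j)² ≤ m + 1`, `m` being the number of the variables. -/
theorem re_of_conic (hk : IsC1 k) (hN : ∀ e, 1 ≤ e → HasNormic k e) [Fintype J]
    (F : J → MvPolynomial (Fin m) k) (d : J → ℕ) (hd : ∀ j, 1 ≤ d j)
    (hF : ∀ j, (F j).IsHomogeneous (d j)) (hsum : ∑ j, d j ^ 2 < m + 2) {P Q : Fin m → k}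
    (hP : P ≠ 0) (hQ : Q ≠ 0) (hP0 : ∀ j, eval P (F j) = 0) (hQ0 : ∀ j, eval Q (F j) = 0) :
    RE F P Q := by
  classical
  obtain ⟨N2, hN2h, hN2⟩ := hN 2 (by norm_num)
  let ι := Fin m ⊕ Fin 2
  let M : Fin m → MvPolynomial ι k := fun i => X (Sum.inl i)
  let Δ : MvPolynomial ι k := rename Sum.inr N2
  have hM : ∀ i, (M i).IsHomogeneous 1 := fun i => isHomogeneous_X _ _
  have hΔ : Δ.IsHomogeneous 2 := hN2h.rename_isHomogeneous
  let I := (Σ j, Fin (d j)) ⊕ (Σ j, Fin (d j - 1))
  let e : I → ℕ := Sum.elim (fun p => (p.2 : ℕ) + 1) (fun p => (p.2 : ℕ) + 1)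
  let f : I → MvPolynomial ι k := Sum.elim
    (fun p => (aeval (gen P Q M Δ) (F p.1) : Polynomial (MvPolynomial ι k)).coeff ((p.2 : ℕ) + 1))
    (fun p => (aeval (gen Q P M Δ) (F p.1) : Polynomial (MvPolynomial ι k)).coeff ((p.2 : ℕ) + 1))
  have hf : ∀ i, (f i).IsHomogeneous (e i) := by
    rintro (p | p)
    · exact Gr.aeval (F p.1) _ (gr_gen P Q M Δ hM hΔ) _
    · exact Gr.aeval (F p.1) _ (gr_gen Q P M Δ hM hΔ) _
  have he : ∀ i, 1 ≤ e i := by
    rintro (p | p)
    · exact Nat.le_add_left _ _
    · exact Nat.le_add_left _ _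
  have hse : ∑ i, e i = ∑ j, d j ^ 2 := by
    rw [Fintype.sum_sum_type, Fintype.sum_sigma, Fintype.sum_sigma, ← Finset.sum_add_distrib]
    exact Finset.sum_congr rfl fun j _ => sum_sq (d j) (hd j)
  have hc : ∑ i, e i < Fintype.card ι := by
    rw [hse, Fintype.card_sum, Fintype.card_fin, Fintype.card_fin]
    exact hsum
  obtain ⟨x, hx, hx0⟩ := lang_nagata hk hN e he f hf hc
  set M' : Fin m → k := fun i => x (Sum.inl i) with hM'
  set δ : k := eval (fun i => x (Sum.inr i)) N2 with hδ
  have hΔx : eval x Δ = δ := by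
    rw [show Δ = rename Sum.inr N2 from rfl, eval_rename]
    rfl
  have c1 : ∀ j, ∀ i ≤ d j, (aeval (crv P Q M' δ) (F j) : Polynomial k).coeff i = 0 := by
    intro j i hi
    rcases i with _ | i
    · rw [coeff_zero_crv]; exact hP0 j
    · have h1 := hx0 (Sum.inl ⟨j, ⟨i, hi⟩⟩)
      simp only [f, Sum.elim_inl] at h1
      rw [← Polynomial.coeff_map, map_aeval_curve] at h1
      rw [← h1]
      congr 3
      funext l
      rw [map_gen, hΔx]
      simp [M, hM']
  have c2 : ∀ j, ∀ i ≤ d j - 1, (aeval (crv Q P M' δ) (F j) : Polynomial k).coeff i = 0 := by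
    intro j i hi
    rcases i with _ | i
    · rw [coeff_zero_crv]; exact hQ0 j
    · have h1 := hx0 (Sum.inr ⟨j, ⟨i, hi⟩⟩)
      simp only [f, Sum.elim_inr] at h1
      rw [← Polynomial.coeff_map, map_aeval_curve] at h1
      rw [← h1]
      congr 3
      funext l
      rw [map_gen, hΔx]
      simp [M, hM']
  by_cases hδ0 : δ = 0
  · -- two lines
    have hM0 : M' ≠ 0 := by
      intro h0
      apply hx
      have h1 := hN2 _ (hδ.symm.trans hδ0)
      funext i
      rcases i with i | i
      · exact congrFun h0 i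
      · exact congrFun h1 i
    rw [hδ0] at c1 c2
    have e1 : ∀ A B : Fin m → k, crv A B M' 0 = crv A 0 M' 0 := by
      intro A B
      funext i
      simp [crv]
    rw [e1] at c1 c2
    have l1 : Lk F P M' := by
      refine Lk.of_line fun j => ?_
      refine binary_eq_zero ((hF j).aeval _ (lin_homog P M')) (d j) 0 (by omega) ?_ ?_
      · intro i hi
        rw [aeval_lin]
        exact c1 j i hi
      · intro i hi
        rw [Nat.le_zero.1 hi, aeval_lin']
        have h3 : (aeval (crv P 0 M' 0) (F j) : Polynomial k).coeff (d j) = eval M' (F j) := by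
          have h4 := Polynomial.homogenize_eq_of_isHomogeneous
            ((hF j).aeval _ (lin_homog P M')) (p := aeval (crv P 0 M' 0) (F j)) (aeval_lin _ _ _)
          rw [one_mul] at h4
          rw [← eval_one_zero_homogenize, h4]
          rw [eval_aeval]
          congr 2
          funext i
          simp [lin]
        rw [← h3]
        exact c1 j _ le_rfl
    have l2 : Lk F Q M' := by
      refine Lk.of_line fun j => ?_
      refine binary_eq_zero ((hF j).aeval _ (lin_homog Q M')) (d j - 1) 0 (by have := hd j; omega)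
        ?_ ?_
      · intro i hi
        rw [aeval_lin]
        exact c2 j i hi
      · intro i hi
        rw [Nat.le_zero.1 hi, aeval_lin']
        exact l1.zero_right hF j
    exact (RE.of_lk hP hM0 l1).trans (RE.of_lk hQ hM0 l2).symm
  · -- a conic
    refine RE.of_lk hP hQ ?_
    refine Lk.of_forms 2 (bin P Q M' δ) (bin_homog P Q M' δ) (fun j => ?_) one_ne_zero hδ0
      (by rw [eval_bin_zero, one_smul]) (eval_bin_one _ _ _ _)
    refine binary_eq_zero ((hF j).aeval _ (bin_homog P Q M' δ)) (d j) (d j - 1)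
      (by have := hd j; omega) ?_ ?_
    · intro i hi
      rw [aeval_bin]
      exact c1 j i hi
    · intro i hi
      have h3 := congrArg (fun p => Polynomial.coeff p i) (aeval_bin' P Q M' δ (hF j))
      simp only [Polynomial.comp_C_mul_X_coeff] at h3
      rw [← Polynomial.C_pow, Polynomial.coeff_C_mul, c2 j i hi, mul_zero] at h3
      exact (mul_eq_zero.1 h3).resolve_right (pow_ne_zero _ hδ0)

end Pool.Agent.K369
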