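import Mathlib

set_option autoImplicit false
set_option linter.all false

/-!
# Quadratic characters of polynomial rings over finite fields
-/

namespace Pool.Agent.K369

open Polynomial Finset

section Chi

/-- The quadratic character of a field. -/
noncomputable def chi {K : Type*} [Field K] (x : K) : ℤ :=
  open Classical in if x = 0 then 0 else if IsSquare x then 1 else -1

theorem chi_zero {K : Type*} [Field K] : chi (0 : K) = 0 := by
  unfold chi
  rw [if_pos rfl]

theorem chi_of_sq {K : Type*} [Field K] {x : K} (hx : x ≠ 0) (h : IsSquare x) : chi x = 1 := by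
  unfold chi
  rw [if_neg hx, if_pos h]

theorem chi_of_nsq {K : Type*} [Field K] {x : K} (h : ¬ IsSquare x) : chi x = -1 := by
  unfold chi
  have hx : x ≠ 0 := by
    rintro rfl
    exact h IsSquare.zero
  rw [if_neg hx, if_neg h]

theorem chi_mul {K : Type*} [Field K] [Finite K] (x y : K) : chi (x * y) = chi x * chi y := by
  classical
  haveI := Fintype.ofFinite K
  have h := quadraticCharFun_mul x y
  have e : ∀ z : K, chi z = quadraticCharFun K z := by
    intro z
    unfold chi quadraticCharFun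
    congr
  rw [e, e, e, h]

theorem chi_cases {K : Type*} [Field K] (x : K) : chi x = 0 ∨ chi x = 1 ∨ chi x = -1 := by
  unfold chi
  split_ifs
  · exact Or.inl rfl
  · exact Or.inr (Or.inl rfl)
  · exact Or.inr (Or.inr rfl)

theorem chi_ne_zero {K : Type*} [Field K] {x : K} (hx : x ≠ 0) : chi x = 1 ∨ chi x = -1 := by
  unfold chi
  rw [if_neg hx]
  split_ifs
  · exact Or.inl rfl
  · exact Or.inr rfl

theorem chi_eq_neg_one {K : Type*} [Field K] {x : K} (h : chi x = -1) : ¬ IsSquare x := by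
  intro hs
  by_cases hx : x = 0
  · rw [hx, chi_zero] at h
    omega
  · rw [chi_of_sq hx hs] at h
    omega

end Chi

variable {k : Type*} [Field k] [Finite k]

theorem finite_MS (n : ℕ) : {p : k[X] | p.Monic ∧ p.natDegree = n}.Finite := by
  refine Set.Finite.of_finite_image (f := fun p : k[X] => fun i : Fin n => p.coeff i)
    (Set.toFinite _) ?_
  rintro p ⟨hp, hpn⟩ q ⟨hq, hqn⟩ h
  ext i
  rcases lt_trichotomy i n with hi | hi | hi
  · exact congrFun h ⟨i, hi⟩
  · rw [hi]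
    nth_rewrite 1 [← hpn]
    rw [← hqn, hp.coeff_natDegree, hq.coeff_natDegree]
  · rw [coeff_eq_zero_of_natDegree_lt (by omega), coeff_eq_zero_of_natDegree_lt (by omega)]

variable (k) in
/-- The monic polynomials of degree `n`. -/
noncomputable def MS (n : ℕ) : Finset k[X] := (finite_MS (k := k) n).toFinset

theorem mem_MS {n : ℕ} {p : k[X]} : p ∈ MS k n ↔ p.Monic ∧ p.natDegree = n := by
  unfold MS
  rw [Set.Finite.mem_toFinset]
  rfl

/-- The sum of a nontrivial character over the monic polynomials of a large degree is zero. -/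
theorem sum_MS_eq_zero (G : k[X]) (hG : G.Monic) (ψ : k[X] → ℤ)
    (hmul : ∀ a b, ψ (a * b) = ψ a * ψ b) (hper : ∀ a b, G ∣ a - b → ψ a = ψ b) (c : k[X])
    (hc : IsCoprime c G) (hψc : ψ c = -1) (n : ℕ) (hn : G.natDegree ≤ n) :
    ∑ d ∈ MS k n, ψ d = 0 := by
  classical
  let π : k[X] → k[X] := fun d => d + (-(d %ₘ G) + (c * d) %ₘ G)
  have hdeg : ∀ d ∈ MS k n, (-(d %ₘ G) + (c * d) %ₘ G).degree < d.degree := by
    intro d hd
    obtain ⟨hdm, hdn⟩ := mem_MS.1 hd
    have h1 : (-(d %ₘ G) + (c * d) %ₘ G).degree < G.degree := by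
      refine (degree_add_le _ _).trans_lt (max_lt ?_ ?_)
      · rw [degree_neg]
        exact degree_modByMonic_lt _ hG
      · exact degree_modByMonic_lt _ hG
    refine h1.trans_le ?_
    rw [degree_eq_natDegree hG.ne_zero, degree_eq_natDegree hdm.ne_zero, hdn]
    exact_mod_cast hn
  have hπ : ∀ d ∈ MS k n, π d ∈ MS k n := by
    intro d hd
    obtain ⟨hdm, hdn⟩ := mem_MS.1 hd
    refine mem_MS.2 ⟨hdm.add_of_left (hdeg d hd), ?_⟩
    rw [natDegree_add_eq_left_of_degree_lt (hdeg d hd), hdn]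
  have hdvd : ∀ d, G ∣ π d - c * d := by
    intro d
    refine ⟨d /ₘ G - (c * d) /ₘ G, ?_⟩
    have h1 := modByMonic_add_div d G
    have h2 := modByMonic_add_div (c * d) G
    simp only [π]
    linear_combination h2 - h1
  have hinj : Set.InjOn π (MS k n : Set k[X]) := by
    intro d₁ h₁ d₂ h₂ h
    have h3 : G ∣ c * (d₁ - d₂) := by
      have h4 := dvd_sub (hdvd d₂) (hdvd d₁)
      rw [h] at h4
      have h5 : c * (d₁ - d₂) = π d₂ - c * d₂ - (π d₂ - c * d₁) := by ring
      rw [h5]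
      exact h4
    have h6 : G ∣ d₁ - d₂ := hc.symm.dvd_of_dvd_mul_left h3
    have h7 : d₁ %ₘ G = d₂ %ₘ G := modByMonic_eq_of_dvd_sub hG h6
    have h8 : (c * d₁) %ₘ G = (c * d₂) %ₘ G := modByMonic_eq_of_dvd_sub hG (by
      rw [← mul_sub]
      exact h3)
    simp only [π] at h
    rw [h7, h8] at h
    exact add_right_cancel h
  have himg : (MS k n).image π = MS k n := by
    apply Finset.eq_of_subset_of_card_le
    · intro x hx
      obtain ⟨d, hd, rfl⟩ := Finset.mem_image.1 hx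
      exact hπ d hd
    · rw [Finset.card_image_of_injOn hinj]
  have h1 : ∑ d ∈ MS k n, ψ d = ∑ d ∈ MS k n, ψ (π d) := by
    nth_rewrite 1 [← himg]
    rw [Finset.sum_image hinj]
  have h2 : ∑ d ∈ MS k n, ψ (π d) = -∑ d ∈ MS k n, ψ d := by
    rw [← Finset.sum_neg_distrib]
    refine Finset.sum_congr rfl fun d _ => ?_
    rw [hper _ _ (hdvd d), hmul, hψc]
    ring
  rw [h2] at h1
  omega

variable (k) in
/-- The monic irreducible polynomials of degree at most `n`. -/
noncomputable def IR (n : ℕ) : Finset k[X] :=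
  open Classical in ((Finset.range (n + 1)).biUnion fun i => MS k i).filter Irreducible

theorem mem_IR {n : ℕ} {p : k[X]} : p ∈ IR k n ↔ p.Monic ∧ Irreducible p ∧ p.natDegree ≤ n := by
  classical
  unfold IR
  rw [Finset.mem_filter, Finset.mem_biUnion]
  constructor
  · rintro ⟨⟨i, hi, hp⟩, hirr⟩
    obtain ⟨h1, h2⟩ := mem_MS.1 hp
    rw [Finset.mem_range] at hi
    exact ⟨h1, hirr, by omega⟩
  · rintro ⟨h1, h2, h3⟩
    exact ⟨⟨p.natDegree, by rw [Finset.mem_range]; omega, mem_MS.2 ⟨h1, rfl⟩⟩, h2⟩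

/-- The degree of a monic polynomial counted through its prime power divisors. -/
theorem natDegree_eq_sum {n n' : ℕ} (hn : n' ≤ n) {d : k[X]} (hd : d ∈ MS k n') :
    (n' : ℤ) = ∑ P ∈ IR k n, ∑ j ∈ Finset.Icc 1 n,
      open Classical in if P ^ j ∣ d then (P.natDegree : ℤ) else 0 := by
  classical
  obtain ⟨hdm, hdn⟩ := mem_MS.1 hd
  have hd0 : d ≠ 0 := hdm.ne_zero
  set s := UniqueFactorizationMonoid.normalizedFactors d with hs
  have hsmem : ∀ P ∈ s, Irreducible P ∧ P.Monic ∧ P ∣ d := by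
    intro P hP
    refine ⟨UniqueFactorizationMonoid.irreducible_of_normalized_factor P hP, ?_,
      UniqueFactorizationMonoid.dvd_of_mem_normalizedFactors hP⟩
    have h1 := UniqueFactorizationMonoid.normalize_normalized_factor P hP
    rw [← h1]
    exact monic_normalize (UniqueFactorizationMonoid.irreducible_of_normalized_factor P hP).ne_zero
  have hprod : s.prod = d := by
    rw [hs, UniqueFactorizationMonoid.prod_normalizedFactors_eq hd0, hdm.normalize_eq_self]
  have h1 : n' = ∑ P ∈ s.toFinset, s.count P * P.natDegree := by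
    have h2 := natDegree_multiset_prod_of_monic s fun P hP => (hsmem P hP).2.1
    rw [hprod, hdn] at h2
    rw [h2, Finset.sum_multiset_map_count]
    rfl
  have hsub : s.toFinset ⊆ IR k n := by
    intro P hP
    rw [Multiset.mem_toFinset] at hP
    obtain ⟨h2, h3, h4⟩ := hsmem P hP
    exact mem_IR.2 ⟨h3, h2, (natDegree_le_of_dvd h4 hd0).trans (by omega)⟩
  have h5 : n' = ∑ P ∈ IR k n, s.count P * P.natDegree := by
    rw [h1]
    apply Finset.sum_subset hsub
    intro P _ hP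
    rw [Multiset.mem_toFinset] at hP
    rw [Multiset.count_eq_zero_of_notMem hP, zero_mul]
  have h6 : (n' : ℤ) = ∑ P ∈ IR k n, (s.count P : ℤ) * P.natDegree := by
    nth_rewrite 1 [h5]
    push_cast
    rfl
  rw [h6]
  refine Finset.sum_congr rfl fun P hP => ?_
  obtain ⟨hPm, hPi, hPn⟩ := mem_IR.1 hP
  have hdvd : ∀ j : ℕ, P ^ j ∣ d ↔ j ≤ s.count P := by
    intro j
    rw [pow_dvd_iff_le_emultiplicity,
      UniqueFactorizationMonoid.emultiplicity_eq_count_normalizedFactors hPi hd0,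
      hPm.normalize_eq_self]
    norm_cast
  have hcount : s.count P ≤ n := by
    have h7 : P ^ s.count P ∣ d := (hdvd _).2 le_rfl
    have h8 := natDegree_le_of_dvd h7 hd0
    rw [natDegree_pow] at h8
    have h9 := hPi.natDegree_pos
    have h10 : s.count P * 1 ≤ s.count P * P.natDegree := Nat.mul_le_mul_left _ h9
    omega
  rw [← Finset.sum_filter, Finset.sum_const, nsmul_eq_mul]
  congr 2
  have h11 : (Finset.Icc 1 n).filter (fun j => P ^ j ∣ d) = Finset.Icc 1 (s.count P) := by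
    ext j
    rw [Finset.mem_filter, Finset.mem_Icc, Finset.mem_Icc, hdvd]
    omega
  rw [h11, Nat.card_Icc, Nat.add_sub_cancel]

/-- The sum of a function over the monic polynomials of degree `n`. -/
noncomputable def KS (ψ : k[X] → ℤ) (n : ℕ) : ℤ := ∑ d ∈ MS k n, ψ d

theorem sum_dvd_pow (ψ : k[X] → ℤ) (hmul : ∀ a b, ψ (a * b) = ψ a * ψ b) (h1 : ψ 1 = 1)
    (P : k[X]) (hP : P.Monic) (j n : ℕ) :
    ∑ d ∈ MS k n, (open Classical in if P ^ j ∣ d then ψ d else 0) =
      if j * P.natDegree ≤ n then ψ P ^ j * KS ψ (n - j * P.natDegree) else 0 := by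
  classical
  have hpow : ∀ j : ℕ, ψ (P ^ j) = ψ P ^ j := by
    intro j
    induction j with
    | zero => rw [pow_zero, pow_zero, h1]
    | succ j ih => rw [pow_succ, pow_succ, hmul, ih]
  rw [← Finset.sum_filter]
  split_ifs with hj
  · unfold KS
    rw [Finset.mul_sum]
    symm
    refine Finset.sum_bij (fun d _ => P ^ j * d) ?_ ?_ ?_ ?_
    · intro d hd
      obtain ⟨h2, h3⟩ := mem_MS.1 hd
      rw [Finset.mem_filter, mem_MS]
      refine ⟨⟨(hP.pow j).mul h2, ?_⟩, dvd_mul_right _ _⟩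
      rw [(hP.pow j).natDegree_mul h2, hP.natDegree_pow, h3]
      omega
    · intro d _ d' _ h
      exact mul_left_cancel₀ (hP.pow j).ne_zero h
    · intro d hd
      rw [Finset.mem_filter, mem_MS] at hd
      obtain ⟨⟨h2, h3⟩, d', hd'⟩ := hd
      have h4 : d'.Monic := by
        rw [hd'] at h2
        exact (hP.pow j).of_mul_monic_left h2
      refine ⟨d', ?_, hd'.symm⟩
      rw [mem_MS]
      refine ⟨h4, ?_⟩
      rw [hd', (hP.pow j).natDegree_mul h4, hP.natDegree_pow] at h3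
      omega
    · intro d _
      rw [hmul, hpow]
  · apply Finset.sum_eq_zero
    intro d hd
    rw [Finset.mem_filter, mem_MS] at hd
    obtain ⟨⟨h2, h3⟩, h4⟩ := hd
    exfalso
    have h5 := natDegree_le_of_dvd h4 h2.ne_zero
    rw [hP.natDegree_pow] at h5
    omega

/-- The logarithmic derivative of the generating series of a multiplicative function. -/
theorem mul_KS {n n' : ℕ} (hn : n' ≤ n) (ψ : k[X] → ℤ) (hmul : ∀ a b, ψ (a * b) = ψ a * ψ b)
    (h1 : ψ 1 = 1) :
    (n' : ℤ) * KS ψ n' = ∑ P ∈ IR k n, ∑ j ∈ Finset.Icc 1 n, (P.natDegree : ℤ) * (ψ P ^ j *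
      if j * P.natDegree ≤ n' then KS ψ (n' - j * P.natDegree) else 0) := by
  classical
  have h2 : (n' : ℤ) * KS ψ n' = ∑ d ∈ MS k n', ∑ P ∈ IR k n, ∑ j ∈ Finset.Icc 1 n,
      (P.natDegree : ℤ) * (if P ^ j ∣ d then ψ d else 0) := by
    unfold KS
    rw [Finset.mul_sum]
    refine Finset.sum_congr rfl fun d hd => ?_
    rw [natDegree_eq_sum hn hd, Finset.sum_mul]
    refine Finset.sum_congr rfl fun P _ => ?_
    rw [Finset.sum_mul]
    refine Finset.sum_congr rfl fun j _ => ?_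
    split_ifs <;> ring
  rw [h2, Finset.sum_comm]
  refine Finset.sum_congr rfl fun P hP => ?_
  rw [Finset.sum_comm]
  refine Finset.sum_congr rfl fun j _ => ?_
  obtain ⟨hPm, _, _⟩ := mem_IR.1 hP
  rw [← Finset.mul_sum, sum_dvd_pow ψ hmul h1 P hPm j n']
  split_ifs <;> ring

/-- The coefficients of the product of two generating series. -/
noncomputable def TS (ψ₁ ψ₂ : k[X] → ℤ) (n : ℕ) : ℤ :=
  ∑ x ∈ Finset.HasAntidiagonal.antidiagonal n, KS ψ₁ x.1 * KS ψ₂ x.2

theorem TS_shift_left (ψ₁ ψ₂ : k[X] → ℤ) (n m : ℕ) :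
    ∑ x ∈ Finset.HasAntidiagonal.antidiagonal n, (if m ≤ x.1 then KS ψ₁ (x.1 - m) else 0) * KS ψ₂ x.2 =
      if m ≤ n then TS ψ₁ ψ₂ (n - m) else 0 := by
  classical
  split_ifs with hm
  · unfold TS
    have h1 : ∑ x ∈ Finset.HasAntidiagonal.antidiagonal n, (if m ≤ x.1 then KS ψ₁ (x.1 - m) else 0) * KS ψ₂ x.2 =
        ∑ x ∈ (Finset.HasAntidiagonal.antidiagonal n).filter (fun x => m ≤ x.1), KS ψ₁ (x.1 - m) * KS ψ₂ x.2 := by
      rw [Finset.sum_filter]
      refine Finset.sum_congr rfl fun x _ => ?_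
      split_ifs
      · rfl
      · rw [zero_mul]
    rw [h1]
    refine Finset.sum_bij' (fun x _ => (x.1 - m, x.2)) (fun x _ => (x.1 + m, x.2)) ?_ ?_ ?_ ?_ ?_
    · intro x hx
      rw [Finset.mem_filter, Finset.HasAntidiagonal.mem_antidiagonal] at hx
      rw [Finset.HasAntidiagonal.mem_antidiagonal]
      simp only
      omega
    · intro x hx
      rw [Finset.HasAntidiagonal.mem_antidiagonal] at hx
      rw [Finset.mem_filter, Finset.HasAntidiagonal.mem_antidiagonal]
      simp only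
      omega
    · intro x hx
      rw [Finset.mem_filter, Finset.HasAntidiagonal.mem_antidiagonal] at hx
      simp only
      rw [Nat.sub_add_cancel hx.2]
    · intro x hx
      simp only
      rw [Nat.add_sub_cancel]
    · intro x hx
      rfl
  · apply Finset.sum_eq_zero
    intro x hx
    rw [Finset.HasAntidiagonal.mem_antidiagonal] at hx
    rw [if_neg (by omega), zero_mul]

theorem TS_comm (ψ₁ ψ₂ : k[X] → ℤ) (n : ℕ) : TS ψ₁ ψ₂ n = TS ψ₂ ψ₁ n := by
  unfold TS
  rw [← Finset.Nat.sum_antidiagonal_swap]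
  refine Finset.sum_congr rfl fun x _ => ?_
  rw [Prod.fst_swap, Prod.snd_swap, mul_comm]

theorem TS_shift_right (ψ₁ ψ₂ : k[X] → ℤ) (n m : ℕ) :
    ∑ x ∈ Finset.HasAntidiagonal.antidiagonal n, KS ψ₁ x.1 * (if m ≤ x.2 then KS ψ₂ (x.2 - m) else 0) =
      if m ≤ n then TS ψ₁ ψ₂ (n - m) else 0 := by
  rw [TS_comm, ← TS_shift_left, ← Finset.Nat.sum_antidiagonal_swap]
  refine Finset.sum_congr rfl fun x _ => ?_
  rw [Prod.fst_swap, Prod.snd_swap, mul_comm]

theorem mul_TS (ψ₁ ψ₂ : k[X] → ℤ) (hmul₁ : ∀ a b, ψ₁ (a * b) = ψ₁ a * ψ₁ b) (h1 : ψ₁ 1 = 1)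
    (hmul₂ : ∀ a b, ψ₂ (a * b) = ψ₂ a * ψ₂ b) (h2 : ψ₂ 1 = 1) (n : ℕ) :
    (n : ℤ) * TS ψ₁ ψ₂ n = ∑ P ∈ IR k n, ∑ j ∈ Finset.Icc 1 n, (P.natDegree : ℤ) *
      ((ψ₁ P ^ j + ψ₂ P ^ j) * if j * P.natDegree ≤ n then TS ψ₁ ψ₂ (n - j * P.natDegree) else 0) := by
  classical
  have e1 : (n : ℤ) * TS ψ₁ ψ₂ n = ∑ x ∈ Finset.HasAntidiagonal.antidiagonal n,
      ((x.1 : ℤ) * KS ψ₁ x.1) * KS ψ₂ x.2 + ∑ x ∈ Finset.HasAntidiagonal.antidiagonal n,
      KS ψ₁ x.1 * ((x.2 : ℤ) * KS ψ₂ x.2) := by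
    unfold TS
    rw [Finset.mul_sum, ← Finset.sum_add_distrib]
    refine Finset.sum_congr rfl fun x hx => ?_
    rw [Finset.HasAntidiagonal.mem_antidiagonal] at hx
    rw [← hx]
    push_cast
    ring
  have e2 : ∑ x ∈ Finset.HasAntidiagonal.antidiagonal n, ((x.1 : ℤ) * KS ψ₁ x.1) * KS ψ₂ x.2 =
      ∑ P ∈ IR k n, ∑ j ∈ Finset.Icc 1 n, (P.natDegree : ℤ) *
      (ψ₁ P ^ j * if j * P.natDegree ≤ n then TS ψ₁ ψ₂ (n - j * P.natDegree) else 0) := by
    have e3 : ∑ x ∈ Finset.HasAntidiagonal.antidiagonal n, ((x.1 : ℤ) * KS ψ₁ x.1) * KS ψ₂ x.2 =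
        ∑ x ∈ Finset.HasAntidiagonal.antidiagonal n, ∑ P ∈ IR k n, ∑ j ∈ Finset.Icc 1 n, (P.natDegree : ℤ) *
        (ψ₁ P ^ j * ((if j * P.natDegree ≤ x.1 then KS ψ₁ (x.1 - j * P.natDegree) else 0) *
          KS ψ₂ x.2)) := by
      refine Finset.sum_congr rfl fun x hx => ?_
      rw [Finset.HasAntidiagonal.mem_antidiagonal] at hx
      rw [mul_KS (n := n) (by omega) ψ₁ hmul₁ h1, Finset.sum_mul]
      refine Finset.sum_congr rfl fun P _ => ?_
      rw [Finset.sum_mul]
      refine Finset.sum_congr rfl fun j _ => ?_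
      ring
    rw [e3, Finset.sum_comm]
    refine Finset.sum_congr rfl fun P _ => ?_
    rw [Finset.sum_comm]
    refine Finset.sum_congr rfl fun j _ => ?_
    rw [← TS_shift_left, Finset.mul_sum, Finset.mul_sum]
  have e4 : ∑ x ∈ Finset.HasAntidiagonal.antidiagonal n, KS ψ₁ x.1 * ((x.2 : ℤ) * KS ψ₂ x.2) =
      ∑ P ∈ IR k n, ∑ j ∈ Finset.Icc 1 n, (P.natDegree : ℤ) *
      (ψ₂ P ^ j * if j * P.natDegree ≤ n then TS ψ₁ ψ₂ (n - j * P.natDegree) else 0) := by
    have e3 : ∑ x ∈ Finset.HasAntidiagonal.antidiagonal n, KS ψ₁ x.1 * ((x.2 : ℤ) * KS ψ₂ x.2) =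
        ∑ x ∈ Finset.HasAntidiagonal.antidiagonal n, ∑ P ∈ IR k n, ∑ j ∈ Finset.Icc 1 n, (P.natDegree : ℤ) *
        (ψ₂ P ^ j * (KS ψ₁ x.1 *
          (if j * P.natDegree ≤ x.2 then KS ψ₂ (x.2 - j * P.natDegree) else 0))) := by
      refine Finset.sum_congr rfl fun x hx => ?_
      rw [Finset.HasAntidiagonal.mem_antidiagonal] at hx
      rw [mul_KS (n := n) (by omega) ψ₂ hmul₂ h2, Finset.mul_sum]
      refine Finset.sum_congr rfl fun P _ => ?_
      rw [Finset.mul_sum]
      refine Finset.sum_congr rfl fun j _ => ?_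
      ring
    rw [e3, Finset.sum_comm]
    refine Finset.sum_congr rfl fun P _ => ?_
    rw [Finset.sum_comm]
    refine Finset.sum_congr rfl fun j _ => ?_
    rw [← TS_shift_right, Finset.mul_sum, Finset.mul_sum]
  rw [e1, e2, e4, ← Finset.sum_add_distrib]
  refine Finset.sum_congr rfl fun P _ => ?_
  rw [← Finset.sum_add_distrib]
  refine Finset.sum_congr rfl fun j _ => ?_
  ring

theorem TS_zero (ψ₁ ψ₂ : k[X] → ℤ) (h1 : ψ₁ 1 = 1) (h2 : ψ₂ 1 = 1) : TS ψ₁ ψ₂ 0 = 1 := by
  have hMS : MS k 0 = {1} := by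
    ext p
    rw [mem_MS, Finset.mem_singleton]
    constructor
    · rintro ⟨hp, hp0⟩
      exact hp.natDegree_eq_zero.1 hp0
    · rintro rfl
      exact ⟨monic_one, natDegree_one⟩
  unfold TS KS
  rw [Finset.Nat.antidiagonal_zero, Finset.sum_singleton]
  simp only
  rw [hMS, Finset.sum_singleton, Finset.sum_singleton, h1, h2]
  norm_num

/-- Two characters cannot avoid the pair of values `(-1, -1)` at all irreducible polynomials. -/
theorem exists_irreducible_neg (G : k[X]) (hG : G.Monic) (hG1 : 0 < G.natDegree)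
    (ψ₁ ψ₂ : k[X] → ℤ) (hmul₁ : ∀ a b, ψ₁ (a * b) = ψ₁ a * ψ₁ b) (h1 : ψ₁ 1 = 1)
    (hmul₂ : ∀ a b, ψ₂ (a * b) = ψ₂ a * ψ₂ b) (h2 : ψ₂ 1 = 1)
    (hv₁ : ∀ a, ψ₁ a = 0 ∨ ψ₁ a = 1 ∨ ψ₁ a = -1) (hv₂ : ∀ a, ψ₂ a = 0 ∨ ψ₂ a = 1 ∨ ψ₂ a = -1)
    (hz : ∀ a, ψ₁ a = 0 ↔ ψ₂ a = 0) (hzG : ∀ P, Irreducible P → ¬ P ∣ G → ψ₁ P ≠ 0)
    (hs₁ : ∀ n, G.natDegree ≤ n → KS ψ₁ n = 0) (hs₂ : ∀ n, G.natDegree ≤ n → KS ψ₂ n = 0) :
    ∃ P : k[X], P.Monic ∧ Irreducible P ∧ ψ₁ P = -1 ∧ ψ₂ P = -1 := by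
  classical
  by_contra hcon
  push Not at hcon
  have hT0 : ∀ n, 2 * G.natDegree ≤ n → TS ψ₁ ψ₂ n = 0 := by
    intro n hn
    unfold TS
    apply Finset.sum_eq_zero
    intro x hx
    rw [Finset.HasAntidiagonal.mem_antidiagonal] at hx
    rcases Nat.lt_or_ge x.1 G.natDegree with h3 | h3
    · rw [hs₂ x.2 (by omega), mul_zero]
    · rw [hs₁ x.1 h3, zero_mul]
  have hsum : ∀ P : k[X], P.Monic → Irreducible P → ∀ j : ℕ, 0 ≤ ψ₁ P ^ j + ψ₂ P ^ j := by
    intro P hP hPi j
    rcases hv₁ P with h3 | h3 | h3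
    · rw [h3, (hz P).1 h3]
      positivity
    · rcases hv₂ P with h4 | h4 | h4
      · rw [h3, h4]
        positivity
      · rw [h3, h4]
        positivity
      · rw [h3, h4, one_pow]
        rcases neg_one_pow_eq_or ℤ j with h5 | h5 <;> rw [h5] <;> norm_num
    · rcases hv₂ P with h4 | h4 | h4
      · exfalso
        have := (hz P).2 h4
        omega
      · rw [h3, h4, one_pow]
        rcases neg_one_pow_eq_or ℤ j with h5 | h5 <;> rw [h5] <;> norm_num
      · exact absurd h4 (hcon P hP hPi h3)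
  have hnonneg : ∀ n, 0 ≤ TS ψ₁ ψ₂ n := by
    intro n
    induction n using Nat.strong_induction_on with
    | _ n ih =>
      rcases Nat.eq_zero_or_pos n with h3 | h3
      · rw [h3, TS_zero ψ₁ ψ₂ h1 h2]
        norm_num
      · have h4 := mul_TS ψ₁ ψ₂ hmul₁ h1 hmul₂ h2 n
        have h5 : 0 ≤ (n : ℤ) * TS ψ₁ ψ₂ n := by
          rw [h4]
          refine Finset.sum_nonneg fun P hP => Finset.sum_nonneg fun j hj => ?_
          obtain ⟨hPm, hPi, _⟩ := mem_IR.1 hP
          rw [Finset.mem_Icc] at hj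
          refine mul_nonneg (by positivity) (mul_nonneg (hsum P hPm hPi j) ?_)
          split_ifs with h6
          · apply ih
            have := hPi.natDegree_pos
            have h7 : 1 * 1 ≤ j * P.natDegree := Nat.mul_le_mul hj.1 this
            omega
          · exact le_rfl
        have h6 : (0 : ℤ) < n := by exact_mod_cast h3
        exact nonneg_of_mul_nonneg_right h5 h6
  -- an irreducible polynomial that does not divide `G`
  obtain ⟨P₀, hP₀m, hP₀i, hP₀G⟩ : ∃ P₀ : k[X], P₀.Monic ∧ Irreducible P₀ ∧ ¬ P₀ ∣ G := by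
    have h3 : ¬ IsUnit (G + 1) := by
      intro h
      have h4 := natDegree_eq_zero_of_isUnit h
      rw [← C_1, natDegree_add_C] at h4
      omega
    have h5 : G + 1 ≠ 0 := by
      intro h
      have h6 : G = C (-1) := by
        rw [C_neg, C_1]
        linear_combination h
      rw [h6, natDegree_C] at hG1
      exact lt_irrefl _ hG1
    obtain ⟨g, hg, hgd⟩ := WfDvdMonoid.exists_irreducible_factor h3 h5
    refine ⟨normalize g, monic_normalize hg.ne_zero, ?_, ?_⟩
    · exact (normalize_associated g).symm.irreducible hg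
    · intro h
      have h7 : g ∣ G := (normalize_associated g).dvd_iff_dvd_left.1 h
      have h8 : g ∣ 1 := by
        have := dvd_sub hgd h7
        rwa [add_sub_cancel_left] at this
      exact hg.not_isUnit (isUnit_of_dvd_one h8)
  set δ := P₀.natDegree with hδ
  have hδpos : 0 < δ := hP₀i.natDegree_pos
  have hpos : ∀ i : ℕ, 0 < TS ψ₁ ψ₂ (2 * δ * i) := by
    intro i
    induction i with
    | zero =>
      rw [mul_zero, TS_zero ψ₁ ψ₂ h1 h2]
      norm_num
    | succ i ih =>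
      set n := 2 * δ * (i + 1) with hn
      have hn' : n = 2 * δ * i + 2 * δ := by rw [hn]; ring
      have h4 := mul_TS ψ₁ ψ₂ hmul₁ h1 hmul₂ h2 n
      have h5 : (δ : ℤ) * (2 * TS ψ₁ ψ₂ (2 * δ * i)) ≤ (n : ℤ) * TS ψ₁ ψ₂ n := by
        rw [h4]
        have hmem : P₀ ∈ IR k n := mem_IR.2 ⟨hP₀m, hP₀i, by omega⟩
        have hterm : ∀ P ∈ IR k n, ∀ j ∈ Finset.Icc 1 n, (0 : ℤ) ≤ (P.natDegree : ℤ) *
            ((ψ₁ P ^ j + ψ₂ P ^ j) *
              if j * P.natDegree ≤ n then TS ψ₁ ψ₂ (n - j * P.natDegree) else 0) := by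
          intro P hP j hj
          obtain ⟨hPm, hPi, _⟩ := mem_IR.1 hP
          refine mul_nonneg (by positivity) (mul_nonneg (hsum P hPm hPi j) ?_)
          split_ifs
          · exact hnonneg _
          · exact le_rfl
        refine le_trans ?_ (Finset.single_le_sum (fun P hP => Finset.sum_nonneg fun j hj =>
          hterm P hP j hj) hmem)
        have h2mem : 2 ∈ Finset.Icc 1 n := by
          rw [Finset.mem_Icc]
          omega
        refine le_trans ?_ (Finset.single_le_sum (fun j hj => hterm P₀ hmem j hj) h2mem)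
        rw [← hδ, if_pos (by omega)]
        have h6 : n - 2 * δ = 2 * δ * i := by omega
        rw [h6]
        have h7 : ψ₁ P₀ ^ 2 + ψ₂ P₀ ^ 2 = 2 := by
          have h8 := hzG P₀ hP₀i hP₀G
          have h9 : ψ₂ P₀ ≠ 0 := fun h => h8 ((hz P₀).2 h)
          rcases hv₁ P₀ with h | h | h
          · exact absurd h h8
          · rcases hv₂ P₀ with h' | h' | h'
            · exact absurd h' h9
            · rw [h, h']; norm_num
            · rw [h, h']; norm_num
          · rcases hv₂ P₀ with h' | h' | h'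
            · exact absurd h' h9
            · rw [h, h']; norm_num
            · rw [h, h']; norm_num
        rw [h7]
      have h6 : (0 : ℤ) < (n : ℤ) * TS ψ₁ ψ₂ n := by
        refine lt_of_lt_of_le ?_ h5
        have : (0 : ℤ) < δ := by exact_mod_cast hδpos
        positivity
      have h7 : (0 : ℤ) ≤ n := by positivity
      by_contra h8
      push Not at h8
      have h9 := mul_nonpos_of_nonneg_of_nonpos h7 h8
      linarith
  have h3 := hpos (G.natDegree)
  rw [hT0] at h3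
  · exact lt_irrefl _ h3
  · have h4 : 1 * G.natDegree ≤ δ * G.natDegree := Nat.mul_le_mul_right _ hδpos
    rw [mul_assoc]
    omega

end Pool.Agent.K369
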