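import Mathlib
import Pool.Agent.K369.FinDir

set_option autoImplicit false
set_option linter.all false

/-!
# Polynomials over a finite field with prescribed quadratic characters and without roots of odd
order
-/

namespace Pool.Agent.K369

open Polynomial

theorem ringChar_ne_two {F : Type*} [Field F] (h2 : (2 : F) ≠ 0) : ringChar F ≠ 2 := by
  intro h
  apply h2
  have h1 : ((ringChar F : ℕ) : F) = 0 := ringChar.Nat.cast_ringChar
  rw [h] at h1
  exact_mod_cast h1

section Leg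

variable {k : Type*} [Field k]

open Classical in
/-- The Legendre symbol of polynomials. -/
noncomputable def leg (P g : k[X]) : ℤ :=
  if P ∣ g then 0 else if ∃ h, P ∣ h ^ 2 - g then 1 else -1

theorem leg_eq (P : k[X]) [Fact (Irreducible P)] (g : k[X]) :
    leg P g = chi (AdjoinRoot.mk P g) := by
  classical
  unfold leg chi
  have h1 : AdjoinRoot.mk P g = 0 ↔ P ∣ g := AdjoinRoot.mk_eq_zero
  have h2 : IsSquare (AdjoinRoot.mk P g) ↔ ∃ h, P ∣ h ^ 2 - g := by
    constructor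
    · rintro ⟨r, hr⟩
      obtain ⟨h, rfl⟩ := AdjoinRoot.mk_surjective r
      refine ⟨h, ?_⟩
      rw [← AdjoinRoot.mk_eq_zero, map_sub, map_pow, hr]
      ring
    · rintro ⟨h, hh⟩
      refine ⟨AdjoinRoot.mk P h, ?_⟩
      rw [← AdjoinRoot.mk_eq_zero, map_sub, map_pow] at hh
      linear_combination -hh
  simp only [h1, h2]

theorem leg_congr {P g g' : k[X]} (h : P ∣ g - g') : leg P g = leg P g' := by
  classical
  have h1 : P ∣ g ↔ P ∣ g' := (dvd_iff_dvd_of_dvd_sub h)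
  have h2 : (∃ r, P ∣ r ^ 2 - g) ↔ ∃ r, P ∣ r ^ 2 - g' := by
    constructor
    · rintro ⟨r, hr⟩
      refine ⟨r, ?_⟩
      have := dvd_add hr h
      rwa [sub_add_sub_cancel] at this
    · rintro ⟨r, hr⟩
      refine ⟨r, ?_⟩
      have := dvd_sub hr h
      rwa [sub_sub, add_sub_cancel] at this
  unfold leg
  simp only [h1, h2]

theorem leg_cases (P g : k[X]) : leg P g = 0 ∨ leg P g = 1 ∨ leg P g = -1 := by
  classical
  unfold leg
  split_ifs
  · exact Or.inl rfl
  · exact Or.inr (Or.inl rfl)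
  · exact Or.inr (Or.inr rfl)

theorem leg_eq_zero {P g : k[X]} : leg P g = 0 ↔ P ∣ g := by
  classical
  unfold leg
  split_ifs with h1 h2
  · exact ⟨fun _ => h1, fun _ => rfl⟩
  · exact ⟨fun h => absurd h (by norm_num), fun h => absurd h h1⟩
  · exact ⟨fun h => absurd h (by norm_num), fun h => absurd h h1⟩

theorem finite_adjoinRoot [Finite k] (P : k[X]) (hP : Irreducible P) : Finite (AdjoinRoot P) := by
  haveI : Module.Finite k (AdjoinRoot P) := (AdjoinRoot.powerBasis hP.ne_zero).finite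
  exact Module.finite_of_finite k

theorem leg_mul [Finite k] {P : k[X]} (hP : Irreducible P) (a b : k[X]) :
    leg P (a * b) = leg P a * leg P b := by
  haveI : Fact (Irreducible P) := ⟨hP⟩
  haveI := finite_adjoinRoot P hP
  rw [leg_eq, leg_eq, leg_eq, map_mul, chi_mul]

theorem leg_one {P : k[X]} (hP : Irreducible P) : leg P 1 = 1 := by
  classical
  unfold leg
  rw [if_neg (fun h => hP.not_isUnit (isUnit_of_dvd_one h)), if_pos ⟨1, by simp⟩]

theorem exists_leg_neg [Finite k] (h2 : (2 : k) ≠ 0) {P : k[X]} (hP : Irreducible P) :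
    ∃ c, leg P c = -1 := by
  haveI : Fact (Irreducible P) := ⟨hP⟩
  haveI := finite_adjoinRoot P hP
  have h3 : (2 : AdjoinRoot P) ≠ 0 := by
    intro h
    apply h2
    apply (algebraMap k (AdjoinRoot P)).injective
    rw [map_ofNat, h, map_zero]
  obtain ⟨a, ha⟩ := FiniteField.exists_nonsquare (ringChar_ne_two h3)
  obtain ⟨c, rfl⟩ := AdjoinRoot.mk_surjective a
  exact ⟨c, by rw [leg_eq, chi_of_nsq ha]⟩

end Leg

variable {k : Type*} [Field k] [Finite k]

theorem odd_pow_root (P : k[X]) (hPm : P.Monic) (hP : Irreducible P)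
    (hc : chi ((-1) ^ P.natDegree * P.coeff 0) = -1) (E : ℕ) (hE : Odd E) :
    IsCoprime P (X ^ E - 1) := by
  rw [hP.coprime_iff_not_dvd]
  intro hdvd
  haveI : Fact (Irreducible P) := ⟨hP⟩
  have h1 : (AdjoinRoot.root P) ^ E = 1 := by
    have h2 := AdjoinRoot.mk_eq_zero.2 hdvd
    rw [map_sub, map_pow, AdjoinRoot.mk_X, map_one] at h2
    linear_combination h2
  have h2 := congrArg (Algebra.norm k) h1
  rw [map_pow, map_one] at h2
  have h3 : Algebra.norm k (AdjoinRoot.root P) = (-1) ^ P.natDegree * P.coeff 0 := by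
    have h4 := Algebra.PowerBasis.norm_gen_eq_coeff_zero_minpoly (AdjoinRoot.powerBasis hP.ne_zero)
    rw [AdjoinRoot.powerBasis_gen, AdjoinRoot.powerBasis_dim,
      AdjoinRoot.minpoly_root hP.ne_zero, hPm.leadingCoeff, inv_one, C_1, mul_one] at h4
    exact h4
  rw [h3] at h2
  obtain ⟨l, hl⟩ := hE
  refine chi_eq_neg_one hc ⟨((-1) ^ P.natDegree * P.coeff 0) ^ (l + 1), ?_⟩
  set ν := (-1) ^ P.natDegree * P.coeff 0
  calc ν = ν * ν ^ E := by rw [h2, mul_one]
    _ = ν ^ (l + 1) * ν ^ (l + 1) := by rw [hl]; ring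

/-- The good polynomials: products of irreducible polynomials whose roots have a nonsquare norm. -/
theorem exists_prime_pattern (h2 : (2 : k) ≠ 0) (PP : Finset k[X])
    (hPP : ∀ P ∈ PP, P.Monic ∧ Irreducible P ∧ P ≠ X) (J : Finset k[X]) (hJ : J ⊆ PP)
    (hJne : J.Nonempty) :
    ∃ P : k[X], P.Monic ∧ Irreducible P ∧ chi ((-1) ^ P.natDegree * P.coeff 0) = -1 ∧
      (∀ Q ∈ PP, leg Q P ≠ 0) ∧ ∏ Q ∈ J, leg Q P = -1 := by
  classical
  let G : k[X] := X * ∏ Q ∈ PP, Q
  have hGm : G.Monic := monic_X.mul (monic_prod_of_monic _ _ fun Q hQ => (hPP Q hQ).1)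
  have hG1 : 0 < G.natDegree := by
    have h3 : (X : k[X]).natDegree ≤ G.natDegree := natDegree_le_of_dvd (dvd_mul_right _ _)
      hGm.ne_zero
    rw [natDegree_X] at h3
    exact h3
  have hchi2 : ∀ {K : Type _} [Field K] (x : K), x ≠ 0 → chi x ^ 2 = 1 := by
    intro K _ x hx
    rcases chi_ne_zero hx with h | h <;> rw [h] <;> norm_num
  let s : ℤ := chi (-1 : k)
  have hs : s = 1 ∨ s = -1 := chi_ne_zero (neg_ne_zero.2 one_ne_zero)
  let ψ₁' : k[X] → ℤ := fun g => chi (g.eval 0) * ∏ Q ∈ PP, leg Q g ^ 2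
  let ψ₁ : k[X] → ℤ := fun g => s ^ g.natDegree * ψ₁' g
  let ψ₂ : k[X] → ℤ := fun g => chi (g.eval 0) ^ 2 * ∏ Q ∈ PP, leg Q g ^ (if Q ∈ J then 1 else 2)
  have hmul₁' : ∀ a b, ψ₁' (a * b) = ψ₁' a * ψ₁' b := by
    intro a b
    simp only [ψ₁', eval_mul, chi_mul]
    rw [Finset.prod_congr rfl fun Q hQ => by rw [leg_mul (hPP Q hQ).2.1, mul_pow],
      Finset.prod_mul_distrib]
    ring
  have hzero₁' : ψ₁' 0 = 0 := by
    simp only [ψ₁', eval_zero, chi_zero, zero_mul]
  have hmul₁ : ∀ a b, ψ₁ (a * b) = ψ₁ a * ψ₁ b := by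
    intro a b
    by_cases ha : a = 0
    · simp only [ψ₁]
      rw [ha, zero_mul, hzero₁', mul_zero, zero_mul]
    by_cases hb : b = 0
    · simp only [ψ₁]
      rw [hb, mul_zero, hzero₁', mul_zero, mul_zero]
    simp only [ψ₁]
    rw [natDegree_mul ha hb, hmul₁', pow_add]
    ring
  have hmul₂ : ∀ a b, ψ₂ (a * b) = ψ₂ a * ψ₂ b := by
    intro a b
    simp only [ψ₂, eval_mul, chi_mul]
    rw [Finset.prod_congr rfl fun Q hQ => by rw [leg_mul (hPP Q hQ).2.1, mul_pow],
      Finset.prod_mul_distrib]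
    ring
  have hone : chi (1 : k) = 1 := chi_of_sq one_ne_zero ⟨1, by ring⟩
  have h1' : ψ₁' 1 = 1 := by
    simp only [ψ₁', eval_one, hone]
    rw [Finset.prod_eq_one fun Q hQ => by rw [leg_one (hPP Q hQ).2.1, one_pow], one_mul]
  have h1 : ψ₁ 1 = 1 := by
    simp only [ψ₁]
    rw [h1', natDegree_one, pow_zero, one_mul]
  have h2' : ψ₂ 1 = 1 := by
    simp only [ψ₂, eval_one, hone]
    rw [Finset.prod_eq_one fun Q hQ => by rw [leg_one (hPP Q hQ).2.1, one_pow], one_pow, one_mul]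
  have hper0 : ∀ a b : k[X], G ∣ a - b → a.eval 0 = b.eval 0 ∧ ∀ Q ∈ PP, leg Q a = leg Q b := by
    intro a b h
    constructor
    · have h3 : (X : k[X]) ∣ a - b := (dvd_mul_right _ _).trans h
      rw [X_dvd_iff, coeff_zero_eq_eval_zero, eval_sub, sub_eq_zero] at h3
      exact h3
    · intro Q hQ
      exact leg_congr (((Finset.dvd_prod_of_mem _ hQ).trans (dvd_mul_left _ _)).trans h)
  have hper₁' : ∀ a b, G ∣ a - b → ψ₁' a = ψ₁' b := by
    intro a b h
    obtain ⟨h3, h4⟩ := hper0 a b h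
    simp only [ψ₁', h3]
    rw [Finset.prod_congr rfl fun Q hQ => by rw [h4 Q hQ]]
  have hper₂ : ∀ a b, G ∣ a - b → ψ₂ a = ψ₂ b := by
    intro a b h
    obtain ⟨h3, h4⟩ := hper0 a b h
    simp only [ψ₂, h3]
    rw [Finset.prod_congr rfl fun Q hQ => by rw [h4 Q hQ]]
  -- coprimality
  have hXQ : ∀ Q ∈ PP, IsCoprime X Q := by
    intro Q hQ
    rw [irreducible_X.coprime_iff_not_dvd]
    intro h3
    obtain ⟨hm, hi, hne⟩ := hPP Q hQ
    exact hne (eq_of_monic_of_associated hm monic_X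
      ((irreducible_X.associated_of_dvd hi h3).symm))
  have hQQ : ∀ Q ∈ PP, ∀ Q' ∈ PP, Q ≠ Q' → IsCoprime Q Q' := by
    intro Q hQ Q' hQ' hne
    obtain ⟨hm, hi, _⟩ := hPP Q hQ
    obtain ⟨hm', hi', _⟩ := hPP Q' hQ'
    rw [hi.coprime_iff_not_dvd]
    intro h3
    exact hne (eq_of_monic_of_associated hm hm' (hi.associated_of_dvd hi' h3))
  -- the first character
  obtain ⟨ν, hν⟩ := FiniteField.exists_nonsquare (ringChar_ne_two h2)
  have hs₁' : ∀ n, G.natDegree ≤ n → KS ψ₁' n = 0 := by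
    intro n hn
    have hcop : IsCoprime (X : k[X]) (∏ Q ∈ PP, Q) := IsCoprime.prod_right fun Q hQ => hXQ Q hQ
    obtain ⟨u, v, huv⟩ := hcop
    set R := ∏ Q ∈ PP, Q with hR
    let c : k[X] := u * X + C ν * (v * R)
    have hc0 : X ∣ c - C ν := ⟨u - C ν * u, by
      simp only [c]
      linear_combination C ν * huv⟩
    have hc1 : R ∣ c - 1 := ⟨C ν * v - v, by
      simp only [c]
      linear_combination huv⟩
    have hce : c.eval 0 = ν := by
      rw [X_dvd_iff, coeff_zero_eq_eval_zero, eval_sub, sub_eq_zero, eval_C] at hc0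
      exact hc0
    refine sum_MS_eq_zero G hGm ψ₁' hmul₁' hper₁' c ?_ ?_ n hn
    · refine IsCoprime.mul_right ?_ ?_
      · have h3 : ¬ X ∣ c := by
          rw [X_dvd_iff, coeff_zero_eq_eval_zero, hce]
          rintro rfl
          exact hν IsSquare.zero
        exact (irreducible_X.coprime_iff_not_dvd.2 h3).symm
      · obtain ⟨t, ht⟩ := hc1
        exact ⟨1, -t, by linear_combination ht⟩
    · simp only [ψ₁', hce]
      rw [chi_of_nsq hν, Finset.prod_eq_one, mul_one]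
      intro Q hQ
      have h3 : Q ∣ c - 1 := (Finset.dvd_prod_of_mem _ hQ).trans hc1
      rw [leg_congr h3, leg_one (hPP Q hQ).2.1, one_pow]
  have hs₁ : ∀ n, G.natDegree ≤ n → KS ψ₁ n = 0 := by
    intro n hn
    have h3 : KS ψ₁ n = s ^ n * KS ψ₁' n := by
      unfold KS
      rw [Finset.mul_sum]
      refine Finset.sum_congr rfl fun d hd => ?_
      simp only [ψ₁]
      rw [(mem_MS.1 hd).2]
    rw [h3, hs₁' n hn, mul_zero]
  -- the second character
  obtain ⟨Q₀, hQ₀J⟩ := hJne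
  have hQ₀ := hJ hQ₀J
  have hs₂ : ∀ n, G.natDegree ≤ n → KS ψ₂ n = 0 := by
    intro n hn
    obtain ⟨c₀, hc₀⟩ := exists_leg_neg h2 (hPP Q₀ hQ₀).2.1
    have hcop : IsCoprime Q₀ (X * ∏ Q ∈ PP.erase Q₀, Q) := by
      refine IsCoprime.mul_right (hXQ Q₀ hQ₀).symm (IsCoprime.prod_right fun Q hQ => ?_)
      rw [Finset.mem_erase] at hQ
      exact hQQ Q₀ hQ₀ Q hQ.2 hQ.1.symm
    obtain ⟨u, v, huv⟩ := hcop
    set R := X * ∏ Q ∈ PP.erase Q₀, Q with hR
    let c : k[X] := u * Q₀ + c₀ * (v * R)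
    have hc0 : Q₀ ∣ c - c₀ := ⟨u - c₀ * u, by
      simp only [c]
      linear_combination c₀ * huv⟩
    have hc1 : R ∣ c - 1 := ⟨c₀ * v - v, by
      simp only [c]
      linear_combination huv⟩
    have hGR : G = Q₀ * R := by
      simp only [G, hR]
      rw [← Finset.mul_prod_erase PP (fun Q => Q) hQ₀]
      ring
    refine sum_MS_eq_zero G hGm ψ₂ hmul₂ hper₂ c ?_ ?_ n hn
    · rw [hGR]
      refine IsCoprime.mul_right ?_ ?_
      · have h3 : ¬ Q₀ ∣ c := by
          rw [← leg_eq_zero, leg_congr hc0, hc₀]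
          norm_num
        exact ((hPP Q₀ hQ₀).2.1.coprime_iff_not_dvd.2 h3).symm
      · obtain ⟨t, ht⟩ := hc1
        exact ⟨1, -t, by linear_combination ht⟩
    · have hce : c.eval 0 = 1 := by
        have h3 : X ∣ c - 1 := (dvd_mul_right _ _).trans hc1
        rw [X_dvd_iff, coeff_zero_eq_eval_zero, eval_sub, sub_eq_zero, eval_one] at h3
        exact h3
      simp only [ψ₂, hce]
      rw [hone, one_pow, one_mul, ← Finset.mul_prod_erase PP _ hQ₀, if_pos hQ₀J, pow_one,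
        leg_congr hc0, hc₀, Finset.prod_eq_one, mul_one]
      intro Q hQ
      have h3 : Q ∣ c - 1 := ((Finset.dvd_prod_of_mem _ hQ).trans (dvd_mul_left _ _)).trans hc1
      rw [Finset.mem_erase] at hQ
      rw [leg_congr h3, leg_one (hPP Q hQ.2).2.1, one_pow]
  have hzchar : ∀ (a : k[X]) (e : k[X] → ℕ) (t : ℕ), t ≠ 0 → (∀ Q, e Q ≠ 0) →
      (chi (a.eval 0) ^ t * ∏ Q ∈ PP, leg Q a ^ e Q = 0 ↔ a.eval 0 = 0 ∨ ∃ Q ∈ PP, Q ∣ a) := by
    intro a e t ht he
    rw [mul_eq_zero, Finset.prod_eq_zero_iff, pow_eq_zero_iff ht]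
    constructor
    · rintro (h | ⟨Q, hQ, h⟩)
      · left
        by_contra h3
        rcases chi_ne_zero h3 with h4 | h4 <;> rw [h4] at h <;> norm_num at h
      · exact Or.inr ⟨Q, hQ, leg_eq_zero.1 ((pow_eq_zero_iff (he Q)).1 h)⟩
    · rintro (h | ⟨Q, hQ, h⟩)
      · left
        rw [h, chi_zero]
      · exact Or.inr ⟨Q, hQ, (pow_eq_zero_iff (he Q)).2 (leg_eq_zero.2 h)⟩
  have hz₁ : ∀ a, ψ₁ a = 0 ↔ a.eval 0 = 0 ∨ ∃ Q ∈ PP, Q ∣ a := by
    intro a
    have h3 := hzchar a (fun _ => 2) 1 one_ne_zero (fun _ => two_ne_zero)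
    rw [pow_one] at h3
    rw [← h3]
    simp only [ψ₁, ψ₁']
    rw [mul_eq_zero]
    constructor
    · rintro (h | h)
      · exfalso
        rcases hs with h4 | h4 <;> rw [h4] at h
        · rw [one_pow] at h
          exact one_ne_zero h
        · exact pow_ne_zero _ (by norm_num) h
      · exact h
    · exact fun h => Or.inr h
  have hz₂ : ∀ a, ψ₂ a = 0 ↔ a.eval 0 = 0 ∨ ∃ Q ∈ PP, Q ∣ a := by
    intro a
    exact hzchar a (fun Q => if Q ∈ J then 1 else 2) 2 two_ne_zero (fun Q => by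
      split_ifs <;> norm_num)
  have hsgn : ∀ (x y : ℤ), (x = 0 ∨ x = 1 ∨ x = -1) → (y = 0 ∨ y = 1 ∨ y = -1) →
      (x * y = 0 ∨ x * y = 1 ∨ x * y = -1) := by
    intro x y hx hy
    rcases hx with rfl | rfl | rfl <;> rcases hy with rfl | rfl | rfl <;> norm_num
  have hsgnp : ∀ (x : ℤ) (n : ℕ), (x = 0 ∨ x = 1 ∨ x = -1) →
      (x ^ n = 0 ∨ x ^ n = 1 ∨ x ^ n = -1) := by
    intro x n hx
    induction n with
    | zero => rw [pow_zero]; norm_num
    | succ n ih => rw [pow_succ]; exact hsgn _ _ ih hx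
  have hsgnprod : ∀ (S : Finset k[X]) (f : k[X] → ℤ), (∀ Q, f Q = 0 ∨ f Q = 1 ∨ f Q = -1) →
      (∏ Q ∈ S, f Q = 0 ∨ ∏ Q ∈ S, f Q = 1 ∨ ∏ Q ∈ S, f Q = -1) := by
    intro S f hf
    induction S using Finset.induction_on with
    | empty => rw [Finset.prod_empty]; norm_num
    | insert a S ha ih => rw [Finset.prod_insert ha]; exact hsgn _ _ (hf a) ih
  have hv₁ : ∀ a, ψ₁ a = 0 ∨ ψ₁ a = 1 ∨ ψ₁ a = -1 := by
    intro a
    refine hsgn _ _ (hsgnp _ _ ?_) (hsgn _ _ (chi_cases _) (hsgnprod _ _ fun Q =>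
      hsgnp _ _ (leg_cases _ _)))
    rcases hs with h | h
    · exact Or.inr (Or.inl h)
    · exact Or.inr (Or.inr h)
  have hv₂ : ∀ a, ψ₂ a = 0 ∨ ψ₂ a = 1 ∨ ψ₂ a = -1 := by
    intro a
    exact hsgn _ _ (hsgnp _ _ (chi_cases _)) (hsgnprod _ _ fun Q => hsgnp _ _ (leg_cases _ _))
  obtain ⟨P, hPm, hPi, hP1, hP2⟩ := exists_irreducible_neg G hGm hG1 ψ₁ ψ₂ hmul₁ h1 hmul₂ h2' hv₁
    hv₂ (fun a => (hz₁ a).trans (hz₂ a).symm) (fun P hP hPG h => by
      rcases (hz₁ P).1 h with h3 | ⟨Q, hQ, h3⟩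
      · apply hPG
        have h4 : X ∣ P := by
          rw [X_dvd_iff, coeff_zero_eq_eval_zero]
          exact h3
        exact (irreducible_X.associated_of_dvd hP h4).symm.dvd.trans (dvd_mul_right _ _)
      · apply hPG
        exact (((hPP Q hQ).2.1.associated_of_dvd hP h3).symm.dvd.trans
          (Finset.dvd_prod_of_mem _ hQ)).trans (dvd_mul_left _ _)) hs₁ hs₂
  have hne : ¬ (P.eval 0 = 0 ∨ ∃ Q ∈ PP, Q ∣ P) := by
    rw [← hz₁]
    rw [hP1]
    norm_num
  push Not at hne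
  have hleg : ∀ Q ∈ PP, leg Q P ≠ 0 := fun Q hQ h => hne.2 Q hQ (leg_eq_zero.1 h)
  have hleg2 : ∀ Q ∈ PP, leg Q P ^ 2 = 1 := by
    intro Q hQ
    rcases leg_cases Q P with h | h | h
    · exact absurd h (hleg Q hQ)
    · rw [h]; norm_num
    · rw [h]; norm_num
  refine ⟨P, hPm, hPi, ?_, hleg, ?_⟩
  · simp only [ψ₁, ψ₁'] at hP1
    rw [Finset.prod_eq_one fun Q hQ => hleg2 Q hQ, mul_one] at hP1
    have h3 : ∀ n : ℕ, chi ((-1 : k) ^ n) = s ^ n := by
      intro n
      induction n with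
      | zero => rw [pow_zero, pow_zero, hone]
      | succ n ih => rw [pow_succ, pow_succ, chi_mul, ih]
    rw [chi_mul, h3, coeff_zero_eq_eval_zero]
    exact hP1
  · simp only [ψ₂] at hP2
    rw [hchi2 _ hne.1, one_mul] at hP2
    rw [← hP2, ← Finset.prod_sdiff hJ]
    rw [Finset.prod_eq_one (s := PP \ J), one_mul]
    · refine Finset.prod_congr rfl fun Q hQ => ?_
      rw [if_pos hQ, pow_one]
    · intro Q hQ
      rw [Finset.mem_sdiff] at hQ
      rw [if_neg hQ.2]
      exact hleg2 Q hQ.1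

/-- Prescribed quadratic characters by a polynomial without roots of odd order. -/
theorem exists_ell (h2 : (2 : k) ≠ 0) (PP : Finset k[X])
    (hPP : ∀ P ∈ PP, P.Monic ∧ Irreducible P ∧ P ≠ X) (ε : k[X] → ℤ)
    (hε : ∀ P, ε P = 1 ∨ ε P = -1) :
    ∃ l : k[X], (∀ E : ℕ, Odd E → IsCoprime l (X ^ E - 1)) ∧ ∀ P ∈ PP, leg P l = ε P := by
  classical
  let V := (PP → ZMod 2)
  let sgn : ZMod 2 → ℤ := fun z => if z = 0 then 1 else -1
  have hsgn_add : ∀ x y : ZMod 2, sgn (x + y) = sgn x * sgn y := by decide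
  let good : Set V := {v | ∃ P : k[X], P.Monic ∧ Irreducible P ∧
    chi ((-1) ^ P.natDegree * P.coeff 0) = -1 ∧ ∀ Q : PP, leg Q.1 P = sgn (v Q)}
  have hspan : Submodule.span (ZMod 2) good = ⊤ := by
    by_contra hne
    obtain ⟨f, hf0, hf⟩ := Submodule.exists_le_ker_of_lt_top _ (lt_top_iff_ne_top.2 hne)
    let e : PP → V := fun Q => Pi.single Q 1
    have hfe : ∀ v : V, f v = ∑ Q, v Q * f (e Q) := by
      intro v
      have h1 : v = ∑ Q, v Q • e Q := by
        funext Q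
        rw [Finset.sum_apply, Finset.sum_eq_single Q]
        · simp only [e]
          rw [Pi.smul_apply, Pi.single_eq_same, smul_eq_mul, mul_one]
        · intro Q' _ hQ'
          simp only [e]
          rw [Pi.smul_apply, Pi.single_eq_of_ne hQ'.symm, smul_zero]
        · intro h
          exact absurd (Finset.mem_univ _) h
      nth_rewrite 1 [h1]
      rw [map_sum]
      refine Finset.sum_congr rfl fun Q _ => ?_
      rw [map_smul, smul_eq_mul]
    let J' : Finset PP := Finset.univ.filter fun Q => f (e Q) ≠ 0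
    let J : Finset k[X] := J'.map (Function.Embedding.subtype _)
    have hJ : J ⊆ PP := by
      intro Q hQ
      simp only [J, Finset.mem_map] at hQ
      obtain ⟨Q', _, rfl⟩ := hQ
      exact Q'.2
    have hJne : J.Nonempty := by
      by_contra hcon
      rw [Finset.not_nonempty_iff_eq_empty, Finset.map_eq_empty] at hcon
      apply hf0
      apply LinearMap.ext
      intro v
      rw [hfe, LinearMap.zero_apply]
      apply Finset.sum_eq_zero
      intro Q _
      have h1 : Q ∉ J' := by rw [hcon]; exact Finset.notMem_empty _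
      simp only [J', Finset.mem_filter, Finset.mem_univ, true_and, not_not] at h1
      rw [h1, mul_zero]
    obtain ⟨P, hPm, hPi, hPc, hPl, hPJ⟩ := exists_prime_pattern h2 PP hPP J hJ hJne
    let v : V := fun Q => if leg Q.1 P = 1 then 0 else 1
    have hv : ∀ Q : PP, leg Q.1 P = sgn (v Q) := by
      intro Q
      simp only [v, sgn]
      rcases leg_cases Q.1 P with h | h | h
      · exact absurd h (hPl Q.1 Q.2)
      · rw [h]; simp
      · rw [h]; simp
    have hvgood : v ∈ good := ⟨P, hPm, hPi, hPc, hv⟩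
    have h3 : f v = 0 := hf (Submodule.subset_span hvgood)
    have h4 : sgn (f v) = ∏ Q ∈ J, leg Q P := by
      have h5 : ∀ (S : Finset PP) (g : PP → ZMod 2), sgn (∑ Q ∈ S, g Q) = ∏ Q ∈ S, sgn (g Q) := by
        intro S g
        induction S using Finset.induction_on with
        | empty => rw [Finset.sum_empty, Finset.prod_empty]; rfl
        | insert a S ha ih => rw [Finset.sum_insert ha, Finset.prod_insert ha, hsgn_add, ih]
      rw [hfe, h5, Finset.prod_map]
      simp only [J', Function.Embedding.coe_subtype]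
      rw [Finset.prod_filter]
      refine Finset.prod_congr rfl fun Q _ => ?_
      rw [hv Q]
      have h6 : ∀ x y : ZMod 2, sgn (x * y) = if y ≠ 0 then sgn x else 1 := by decide
      exact h6 _ _
    rw [h3, hPJ] at h4
    have h5 : sgn 0 = 1 := rfl
    rw [h5] at h4
    norm_num at h4
  have hmain : ∀ v : V, ∃ l : k[X], (∀ E : ℕ, Odd E → IsCoprime l (X ^ E - 1)) ∧
      ∀ Q : PP, leg Q.1 l = sgn (v Q) := by
    intro v
    have hv : v ∈ Submodule.span (ZMod 2) good := by rw [hspan]; trivial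
    induction hv using Submodule.span_induction with
    | mem v hv =>
      obtain ⟨P, hPm, hPi, hPc, hPv⟩ := hv
      exact ⟨P, fun E hE => odd_pow_root P hPm hPi hPc E hE, hPv⟩
    | zero =>
      refine ⟨1, fun E _ => isCoprime_one_left, fun Q => ?_⟩
      rw [leg_one (hPP Q.1 Q.2).2.1]
      rfl
    | add v w _ _ ih1 ih2 =>
      obtain ⟨l, hl, hl'⟩ := ih1
      obtain ⟨l', hl1, hl1'⟩ := ih2
      refine ⟨l * l', fun E hE => (hl E hE).mul_left (hl1 E hE), fun Q => ?_⟩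
      rw [leg_mul (hPP Q.1 Q.2).2.1, hl', hl1', Pi.add_apply, hsgn_add]
    | smul a v _ ih =>
      obtain ⟨l, hl, hl'⟩ := ih
      have ha : a = 0 ∨ a = 1 := by
        revert a
        decide
      rcases ha with rfl | rfl
      · refine ⟨1, fun E _ => isCoprime_one_left, fun Q => ?_⟩
        rw [leg_one (hPP Q.1 Q.2).2.1, zero_smul]
        rfl
      · exact ⟨l, hl, fun Q => by rw [hl', one_smul]⟩
  obtain ⟨l, hl, hl'⟩ := hmain fun Q => if ε Q.1 = 1 then 0 else 1
  refine ⟨l, hl, fun P hP => ?_⟩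
  have h1 := hl' ⟨P, hP⟩
  simp only [sgn] at h1
  rw [h1]
  rcases hε P with h | h
  · rw [h]; simp
  · rw [h]; simp

end Pool.Agent.K369
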