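import Mathlib

set_option autoImplicit false
set_option linter.all false

/-!
# Generalised cyclotomic mappings over finite fields

For a power `Q` of the order of the finite field `k`, a factorization `Q - 1 = κ d` and a polynomial
`l` over `k`, the polynomial `X * M (X ^ κ) ^ d` with `M = ∑ l_i X ^ (1 + Q + ⋯ + Q ^ (i - 1))`
has at most one preimage of odd relative degree over every nonzero element of `𝔽_Q`.
-/

namespace Pool.Agent.K369

open Polynomial

variable {k : Type*} [Field k] [Fintype k] {Ω : Type*} [Field Ω] [Algebra k Ω]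

/-- The power of the Frobenius endomorphism. -/
noncomputable def fr (k : Type*) [Field k] [Fintype k] (Ω : Type*) [Field Ω] [Algebra k Ω]
    (N : ℕ) : Ω →ₐ[k] Ω := (FiniteField.frobeniusAlgHom k Ω) ^ N

theorem fr_apply (N : ℕ) (z : Ω) : fr k Ω N z = z ^ (Fintype.card k ^ N) := by
  unfold fr
  rw [AlgHom.coe_pow, FiniteField.coe_frobeniusAlgHom, pow_iterate]

theorem fr_add (N : ℕ) (x y : Ω) : (x + y) ^ (Fintype.card k ^ N) =
    x ^ (Fintype.card k ^ N) + y ^ (Fintype.card k ^ N) := by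
  rw [← fr_apply, ← fr_apply, ← fr_apply, map_add]

theorem fr_sub (N : ℕ) (x y : Ω) : (x - y) ^ (Fintype.card k ^ N) =
    x ^ (Fintype.card k ^ N) - y ^ (Fintype.card k ^ N) := by
  rw [← fr_apply, ← fr_apply, ← fr_apply, map_sub]

theorem fr_aeval (N : ℕ) (x : Ω) (P : k[X]) : (aeval x P) ^ (Fintype.card k ^ N) =
    aeval (x ^ (Fintype.card k ^ N)) P := by
  rw [← fr_apply, ← fr_apply]
  exact (aeval_algHom_apply (fr k Ω N) x P).symm

theorem fr_const (N : ℕ) (c : k) : (algebraMap k Ω c) ^ (Fintype.card k ^ N) =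
    algebraMap k Ω c := by
  rw [← fr_apply, AlgHom.commutes]

/-- Being fixed by a power of the Frobenius is inherited by multiples of the exponent. -/
theorem fix_mul (Q : ℕ) (z : Ω) (h : z ^ Q = z) (j : ℕ) : z ^ (Q ^ j) = z := by
  induction j with
  | zero => rw [pow_zero, pow_one]
  | succ j ih => rw [pow_succ, pow_mul, ih, h]

/-- The additive operator attached to `l`. -/
noncomputable def Lop (N : ℕ) (l : k[X]) (v : Ω) : Ω :=
  aeval ((fr k Ω N).toLinearMap : Module.End k Ω) l v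

theorem T_pow (N i : ℕ) (v : Ω) : (((fr k Ω N).toLinearMap : Module.End k Ω) ^ i) v =
    v ^ ((Fintype.card k ^ N) ^ i) := by
  induction i generalizing v with
  | zero => rw [pow_zero, pow_zero, pow_one]; rfl
  | succ i ih =>
    rw [pow_succ, Module.End.mul_apply, ih, AlgHom.toLinearMap_apply, fr_apply, ← pow_mul, pow_succ,
      mul_comm (Fintype.card k ^ N)]

theorem Lop_eq (N : ℕ) (l : k[X]) (v : Ω) : Lop N l v =
    ∑ i ∈ Finset.range (l.natDegree + 1), algebraMap k Ω (l.coeff i) *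
      v ^ ((Fintype.card k ^ N) ^ i) := by
  unfold Lop
  rw [aeval_eq_sum_range, LinearMap.sum_apply]
  refine Finset.sum_congr rfl fun i _ => ?_
  rw [LinearMap.smul_apply, T_pow, Algebra.smul_def]

/-- The polynomial `∑ l_i X ^ (1 + Q + ⋯ + Q ^ (i - 1))`. -/
noncomputable def Mpoly (Q : ℕ) (l : k[X]) : k[X] :=
  ∑ i ∈ Finset.range (l.natDegree + 1), C (l.coeff i) * X ^ (∑ j ∈ Finset.range i, Q ^ j)

/-- The polynomial `X * M (X ^ κ) ^ d`. -/
noncomputable def phi (Q κ d : ℕ) (l : k[X]) : k[X] := X * ((Mpoly Q l).comp (X ^ κ)) ^ d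

theorem aeval_phi (Q κ d : ℕ) (l : k[X]) (u : Ω) :
    aeval u (phi Q κ d l) = u * (aeval (u ^ κ) (Mpoly Q l)) ^ d := by
  unfold phi
  rw [map_mul, map_pow, aeval_comp, map_pow, aeval_X]

theorem geom_nat (Q i : ℕ) (hQ : 1 ≤ Q) : (Q - 1) * ∑ j ∈ Finset.range i, Q ^ j + 1 = Q ^ i := by
  obtain ⟨Q', rfl⟩ : ∃ Q', Q = Q' + 1 := ⟨Q - 1, by omega⟩
  rw [Nat.add_sub_cancel]
  have h := geom_sum_mul (Q' + 1 : ℤ) i
  zify
  linear_combination h

theorem phi_pow (N κ d : ℕ) (hd : κ * d + 1 = Fintype.card k ^ N) (l : k[X]) (v : Ω) :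
    aeval (v ^ d) (phi (Fintype.card k ^ N) κ d l) = (Lop N l v) ^ d := by
  rw [aeval_phi, ← mul_pow, Lop_eq]
  congr 1
  unfold Mpoly
  rw [map_sum, Finset.mul_sum]
  refine Finset.sum_congr rfl fun i _ => ?_
  rw [map_mul, aeval_C, map_pow, aeval_X, mul_left_comm]
  congr 1
  rw [← pow_mul, ← pow_mul, ← pow_succ']
  congr 1
  rw [← geom_nat (Fintype.card k ^ N) i (by omega)]
  have h : d * κ = Fintype.card k ^ N - 1 := by rw [mul_comm]; omega
  rw [← mul_assoc, h]

theorem phi_fixed (N κ d : ℕ) (l : k[X]) (u : Ω) (hu : u ^ (Fintype.card k ^ N) = u) :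
    aeval u (phi (Fintype.card k ^ N) κ d l) = u * (aeval (u ^ κ) l) ^ d := by
  rw [aeval_phi]
  congr 2
  unfold Mpoly
  have hy : (u ^ κ) ^ (Fintype.card k ^ N) = u ^ κ := by rw [← pow_mul, mul_comm, pow_mul, hu]
  have hgen : ∀ i : ℕ, (u ^ κ) ^ (∑ j ∈ Finset.range i, (Fintype.card k ^ N) ^ j) =
      (u ^ κ) ^ i := by
    intro i
    induction i with
    | zero => simp
    | succ i ih => rw [Finset.sum_range_succ, pow_add, ih, fix_mul _ _ hy, pow_succ]
  rw [map_sum, aeval_eq_sum_range]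
  refine Finset.sum_congr rfl fun i _ => ?_
  rw [map_mul, aeval_C, map_pow, aeval_X, Algebra.smul_def, hgen]

theorem Lop_smul (N : ℕ) (l : k[X]) (c v : Ω) (hc : c ^ (Fintype.card k ^ N) = c) :
    Lop N l (c * v) = c * Lop N l v := by
  rw [Lop_eq, Lop_eq, Finset.mul_sum]
  refine Finset.sum_congr rfl fun i _ => ?_
  rw [mul_pow, fix_mul _ _ hc]
  ring

theorem Lop_fr (N : ℕ) (l : k[X]) (v : Ω) :
    Lop N l (v ^ (Fintype.card k ^ N)) = (Lop N l v) ^ (Fintype.card k ^ N) := by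
  have h1 : ∀ z : Ω, z ^ (Fintype.card k ^ N) = (fr k Ω N).toLinearMap z := fun z => by
    rw [AlgHom.toLinearMap_apply, fr_apply]
  rw [h1, h1]
  unfold Lop
  have h2 : (aeval ((fr k Ω N).toLinearMap : Module.End k Ω) l) * (fr k Ω N).toLinearMap =
      (fr k Ω N).toLinearMap * (aeval ((fr k Ω N).toLinearMap : Module.End k Ω) l) := by
    have h3 := aeval_X (R := k) (x := ((fr k Ω N).toLinearMap : Module.End k Ω))
    have h4 : aeval ((fr k Ω N).toLinearMap : Module.End k Ω) l *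
        aeval ((fr k Ω N).toLinearMap : Module.End k Ω) (X : k[X]) =
        aeval ((fr k Ω N).toLinearMap : Module.End k Ω) (X : k[X]) *
        aeval ((fr k Ω N).toLinearMap : Module.End k Ω) l := by
      rw [← map_mul, ← map_mul, mul_comm]
    rw [h3] at h4
    exact h4
  exact congrArg (fun g => g v) h2

/-- A preimage of odd relative degree of a nonzero element of `𝔽_Q` lies in `𝔽_Q`. -/
theorem phi_unique [IsAlgClosed Ω] (N κ d : ℕ) (hd : κ * d + 1 = Fintype.card k ^ N)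
    (hdodd : Odd d) (l : k[X]) (hl : ∀ E : ℕ, Odd E → IsCoprime l (X ^ E - 1))
    (u : Ω) (hx0 : aeval u (phi (Fintype.card k ^ N) κ d l) ≠ 0)
    (hx : (aeval u (phi (Fintype.card k ^ N) κ d l)) ^ (Fintype.card k ^ N) =
      aeval u (phi (Fintype.card k ^ N) κ d l)) (j : ℕ) (hj : Odd j)
    (hu : u ^ ((Fintype.card k ^ N) ^ j) = u) : u ^ (Fintype.card k ^ N) = u := by
  set Q := Fintype.card k ^ N with hQ
  set x := aeval u (phi Q κ d l) with hxdef
  have hdpos : 0 < d := hdodd.pos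
  obtain ⟨v, hv⟩ := IsAlgClosed.exists_pow_nat_eq u hdpos
  set a := Lop N l v with ha
  have had : a ^ d = x := by
    rw [hxdef, ← hv]
    exact (phi_pow N κ d hd l v).symm
  have ha0 : a ≠ 0 := by
    intro h
    rw [h, zero_pow hdpos.ne'] at had
    exact hx0 had.symm
  have hQ1 : ∀ z : Ω, z ≠ 0 → (z ^ Q = z ↔ z ^ (Q - 1) = 1) := by
    intro z hz
    have h1 : z ^ Q = z * z ^ (Q - 1) := by
      rw [← pow_succ']
      congr 1
      omega
    rw [h1]
    constructor
    · intro h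
      exact mul_left_cancel₀ hz (h.trans (mul_one z).symm)
    · intro h
      rw [h, mul_one]
  have hroot : ∀ z : Ω, z ^ d = 1 → z ^ Q = z := by
    intro z hz
    have hz0 : z ≠ 0 := by
      rintro rfl
      rw [zero_pow hdpos.ne'] at hz
      exact zero_ne_one hz
    rw [hQ1 z hz0]
    have h1 : Q - 1 = d * κ := by rw [mul_comm]; omega
    rw [h1, pow_mul, hz, one_pow]
  -- the first factor
  have hQpos : 1 ≤ Q := by omega
  set ξ₀ := a ^ (Q - 1) with hξ₀
  have hξ₀d : ξ₀ ^ d = 1 := by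
    rw [hξ₀, ← pow_mul, mul_comm, pow_mul, had]
    exact (hQ1 x hx0).1 hx
  have hξ₀Q := hroot ξ₀ hξ₀d
  have haQ : a ^ Q = ξ₀ * a := by
    rw [hξ₀, ← pow_succ]
    congr 1
    omega
  -- the second factor
  have hv0 : v ≠ 0 := by
    rintro h
    apply ha0
    rw [ha, h, Lop_eq]
    apply Finset.sum_eq_zero
    intro i _
    rw [zero_pow, mul_zero]
    exact pow_ne_zero _ (by omega)
  have hQj1 : 1 ≤ Q ^ j := Nat.one_le_pow _ _ hQpos
  set ξ := v ^ (Q ^ j - 1) with hξ
  have hvQ : v ^ (Q ^ j) = ξ * v := by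
    rw [hξ, ← pow_succ]
    congr 1
    omega
  have hξd : ξ ^ d = 1 := by
    have h1 : (ξ * v) ^ d = v ^ d := by
      rw [← hvQ, ← pow_mul, mul_comm, pow_mul, hv, hu]
    rw [mul_pow] at h1
    have h2 : v ^ d ≠ 0 := pow_ne_zero _ hv0
    exact mul_right_cancel₀ h2 (h1.trans (one_mul _).symm)
  have hξQ := hroot ξ hξd
  -- the difference
  set z := v ^ Q - ξ₀ * v with hz
  have hLz : Lop N l z = 0 := by
    have h1 : Lop N l z = Lop N l (v ^ Q) - Lop N l (ξ₀ * v) := by
      unfold Lop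
      rw [hz, map_sub]
    rw [h1, Lop_fr, Lop_smul N l ξ₀ v hξ₀Q, ← ha, haQ, sub_self]
  have hfrj : ∀ y : Ω, (((fr k Ω N).toLinearMap : Module.End k Ω) ^ j) y = y ^ (Q ^ j) := fun y =>
    T_pow N j y
  have hzQ : z ^ (Q ^ j) = ξ * z := by
    have h1 : z ^ (Q ^ j) = (v ^ Q) ^ (Q ^ j) - (ξ₀ * v) ^ (Q ^ j) := by
      rw [← hfrj, ← hfrj, ← hfrj, hz, map_sub]
    rw [h1, ← pow_mul, mul_comm Q, pow_mul, hvQ, mul_pow, mul_pow, hξQ, fix_mul Q ξ₀ hξ₀Q, hvQ, hz]
    ring
  have hzE : z ^ (Q ^ (j * d)) = z := by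
    have h1 : ∀ i : ℕ, z ^ (Q ^ (j * i)) = ξ ^ i * z := by
      intro i
      induction i with
      | zero => rw [mul_zero, pow_zero, pow_one, pow_zero, one_mul]
      | succ i ih =>
        rw [mul_add, mul_one, pow_add, mul_comm (Q ^ (j * i)), pow_mul, hzQ, mul_pow, ih,
          fix_mul Q ξ hξQ]
        ring
    rw [h1, hξd, one_mul]
  obtain ⟨A, B, hAB⟩ := hl (j * d) (hj.mul hdodd)
  have hz0 : z = 0 := by
    have h1 := congrArg (fun P : k[X] => aeval ((fr k Ω N).toLinearMap : Module.End k Ω) P z) hAB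
    simp only [map_add, map_mul, map_one, LinearMap.add_apply, Module.End.mul_apply,
      Module.End.one_apply] at h1
    have h2 : aeval ((fr k Ω N).toLinearMap : Module.End k Ω) l z = 0 := hLz
    have h3 : aeval ((fr k Ω N).toLinearMap : Module.End k Ω) (X ^ (j * d) - 1 : k[X]) z = 0 := by
      have h4 : aeval ((fr k Ω N).toLinearMap : Module.End k Ω) (X ^ (j * d) - 1 : k[X]) =
          ((fr k Ω N).toLinearMap : Module.End k Ω) ^ (j * d) - 1 := by
        rw [map_sub, map_pow, aeval_X, map_one]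
      rw [h4, LinearMap.sub_apply, T_pow, Module.End.one_apply]
      rw [← hQ, hzE, sub_self]
    rw [h2, h3, map_zero, map_zero, add_zero] at h1
    exact h1.symm
  have hvfin : v ^ Q = ξ₀ * v := sub_eq_zero.1 hz0
  rw [← hv, ← pow_mul, mul_comm d, pow_mul, hvfin, mul_pow, hξ₀d, one_mul]

/-- The main property of the polynomial `phi`, composed with `c² X²`. -/
theorem phi_square [IsAlgClosed Ω] (h2 : (2 : Ω) ≠ 0) (N κ d : ℕ)
    (hd : κ * d + 1 = Fintype.card k ^ N) (hdodd : Odd d) (l : k[X])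
    (hl : ∀ E : ℕ, Odd E → IsCoprime l (X ^ E - 1)) (c : k) (w x y : Ω)
    (hx : x = aeval (algebraMap k Ω c ^ 2 * w ^ 2) (phi (Fintype.card k ^ N) κ d l))
    (hy : y = x ^ κ) (hx0 : x ≠ 0) (n n' : ℕ) (hN : N = n * n')
    (hxn : x ^ (Fintype.card k ^ n) = x) (j : ℕ) (hj : Odd j)
    (hw : w ^ ((Fintype.card k ^ n) ^ j) = w) :
    (x * aeval y l) ^ (Fintype.card k ^ n - 1) = 1 ∧
      ∃ z : Ω, z ^ 2 = x * aeval y l ∧ z ^ (Fintype.card k ^ n) = z ∧ z ≠ 0 := by
  set q := Fintype.card k with hq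
  have hQ : q ^ N = (q ^ n) ^ n' := by rw [hN, pow_mul]
  have hxQ : x ^ (q ^ N) = x := by rw [hQ]; exact fix_mul _ _ hxn _
  set u := algebraMap k Ω c ^ 2 * w ^ 2 with hu
  have hcfix : ∀ m : ℕ, (algebraMap k Ω c) ^ (q ^ m) = algebraMap k Ω c := fun m => fr_const m c
  have hwQ : w ^ ((q ^ N) ^ j) = w := by
    rw [hQ, ← pow_mul, mul_comm n', pow_mul]
    exact fix_mul _ _ hw _
  have huQj : u ^ ((q ^ N) ^ j) = u := by
    have hc' : (algebraMap k Ω c) ^ ((q ^ N) ^ j) = algebraMap k Ω c := by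
      rw [← pow_mul q]
      exact hcfix _
    rw [hu, mul_pow, pow_right_comm (algebraMap k Ω c), pow_right_comm w, hc', hwQ]
  have huQ : u ^ (q ^ N) = u := by
    refine phi_unique N κ d hd hdodd l hl u ?_ ?_ j hj huQj
    · rw [← hx]; exact hx0
    · rw [← hx]; exact hxQ
  have hxu : x = u * (aeval (u ^ κ) l) ^ d := by
    rw [hx]
    exact phi_fixed N κ d l u huQ
  set lam := aeval (u ^ κ) l with hlam
  have hdpos : 0 < d := hdodd.pos
  have hlam0 : lam ≠ 0 := by
    intro h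
    rw [h, zero_pow hdpos.ne', mul_zero] at hxu
    exact hx0 hxu
  have hQpos : 1 ≤ q ^ N := by omega
  have hlamQ : lam ^ (q ^ N) = lam := by
    rw [hlam, fr_aeval]
    congr 1
    rw [← pow_mul, mul_comm κ, pow_mul, huQ]
  have hlam1 : lam ^ (q ^ N - 1) = 1 := by
    have h1 : lam ^ (q ^ N) = lam * lam ^ (q ^ N - 1) := by
      rw [← pow_succ']
      congr 1
      omega
    rw [h1] at hlamQ
    exact mul_left_cancel₀ hlam0 (hlamQ.trans (mul_one _).symm)
  have hyu : y = u ^ κ := by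
    rw [hy, hxu, mul_pow, ← pow_mul, mul_comm d, show κ * d = q ^ N - 1 by omega, hlam1, mul_one]
  have hylam : aeval y l = lam := by rw [hyu]
  obtain ⟨e, he⟩ := hdodd
  set z := algebraMap k Ω c * w * lam ^ (e + 1) with hzdef
  have hz2 : z ^ 2 = x * lam := by
    rw [hxu, hzdef, hu, he]
    ring
  have hz0 : z ≠ 0 := by
    intro h
    rw [h, zero_pow two_ne_zero] at hz2
    exact mul_ne_zero hx0 hlam0 hz2.symm
  have hlamn : lam ^ (q ^ n) = lam := by
    rw [← hylam, fr_aeval]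
    congr 1
    rw [hy, ← pow_mul, mul_comm κ, pow_mul, hxn]
  have hzj : z ^ ((q ^ n) ^ j) = z := by
    rw [hzdef, mul_pow, mul_pow, ← pow_mul lam, mul_comm (e + 1), pow_mul, fix_mul _ _ hlamn, hw,
      ← pow_mul q, hcfix]
  have hz2n : (z ^ (q ^ n)) ^ 2 = z ^ 2 := by
    rw [← pow_mul, mul_comm, pow_mul, hz2, mul_pow, hxn, hlamn]
  have hzn : z ^ (q ^ n) = z := by
    have h1 : (z ^ (q ^ n) - z) * (z ^ (q ^ n) + z) = 0 := by linear_combination hz2n
    rcases mul_eq_zero.1 h1 with h3 | h3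
    · exact sub_eq_zero.1 h3
    · exfalso
      have h4 : z ^ (q ^ n) = -z := by linear_combination h3
      have h5 : ∀ i : ℕ, z ^ ((q ^ n) ^ i) = (-1) ^ i * z := by
        intro i
        induction i with
        | zero => rw [pow_zero, pow_one, pow_zero, one_mul]
        | succ i ih =>
          rw [pow_succ, pow_mul, ih, mul_pow, h4]
          have h6 : (((-1 : Ω)) ^ i) ^ (q ^ n) = (-1) ^ i := by
            have h7 := fr_const (Ω := Ω) n ((-1 : k) ^ i)
            rw [map_pow, map_neg, map_one] at h7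
            exact h7
          rw [h6, pow_succ]
          ring
      rw [h5, hj.neg_one_pow] at hzj
      apply hz0
      have h8 : 2 * z = 0 := by linear_combination -hzj
      exact (mul_eq_zero.1 h8).resolve_left h2
  have hqn : 1 ≤ q ^ n := Nat.one_le_pow _ _ (by rw [hq]; exact Fintype.card_pos)
  refine ⟨?_, z, by rw [hylam]; exact hz2, hzn, hz0⟩
  have h1 : z ^ (q ^ n - 1) = 1 := by
    have h3 : z ^ (q ^ n) = z * z ^ (q ^ n - 1) := by
      rw [← pow_succ']
      congr 1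
      omega
    rw [h3] at hzn
    exact mul_left_cancel₀ hz0 (hzn.trans (mul_one _).symm)
  rw [hylam, ← hz2, ← pow_mul, mul_comm, pow_mul, h1, one_pow]

end Pool.Agent.K369
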