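import Mathlib
import Pool.Agent.K369.FinMove
import Pool.Agent.K369.FinEll

set_option autoImplicit false
set_option linter.all false

/-!
# Separation of the pulled back points, and elements of finite fields inside an algebraic closure
-/

namespace Pool.Agent.K369

open Polynomial

variable {k : Type*} [Field k] [Fintype k] {Ω : Type*} [Field Ω] [Algebra k Ω]

section MinPoly

theorem card_adjoinRoot {P : k[X]} (hP : Irreducible P) [Fintype (AdjoinRoot P)] :
    Fintype.card (AdjoinRoot P) = Fintype.card k ^ P.natDegree := by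
  haveI : Fact (Irreducible P) := ⟨hP⟩
  haveI : Module.Finite k (AdjoinRoot P) := (AdjoinRoot.powerBasis hP.ne_zero).finite
  rw [Module.card_eq_pow_finrank (K := k), (AdjoinRoot.powerBasis hP.ne_zero).finrank,
    AdjoinRoot.powerBasis_dim]

/-- The embedding of `k[X]/P` given by a root of `P`. -/
noncomputable def emb (P : k[X]) (y : Ω) (hy : aeval y P = 0) : AdjoinRoot P →ₐ[k] Ω :=
  AdjoinRoot.liftAlgHom P (Algebra.ofId k Ω) y hy

theorem emb_mk (P : k[X]) (y : Ω) (hy : aeval y P = 0) (g : k[X]) :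
    emb P y hy (AdjoinRoot.mk P g) = aeval y g := by
  have h1 : emb P y hy (AdjoinRoot.root P) = y := AdjoinRoot.liftAlgHom_root _ _ _ _
  rw [← AdjoinRoot.aeval_eq, ← aeval_algHom_apply, h1]

/-- An algebraic element is fixed by the power of the Frobenius given by its degree. -/
theorem fix_natDegree {P : k[X]} (hP : Irreducible P) {y : Ω} (hy : aeval y P = 0) :
    y ^ (Fintype.card k ^ P.natDegree) = y := by
  classical
  haveI : Fact (Irreducible P) := ⟨hP⟩
  haveI := finite_adjoinRoot P hP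
  haveI := Fintype.ofFinite (AdjoinRoot P)
  have h1 := FiniteField.pow_card (AdjoinRoot.root P)
  rw [card_adjoinRoot hP] at h1
  have h2 := congrArg (emb P y hy) h1
  have h3 : emb P y hy (AdjoinRoot.root P) = y := AdjoinRoot.liftAlgHom_root _ _ _ _
  rw [map_pow, h3] at h2
  exact h2

/-- If a power of the Frobenius fixes an element then its degree divides the exponent. -/
theorem natDegree_dvd {P : k[X]} (hP : Irreducible P) {y : Ω} (hy : aeval y P = 0) (N : ℕ)
    (h : y ^ (Fintype.card k ^ N) = y) : P.natDegree ∣ N := by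
  classical
  haveI : Fact (Irreducible P) := ⟨hP⟩
  haveI := finite_adjoinRoot P hP
  haveI : Module.Finite k (AdjoinRoot P) := (AdjoinRoot.powerBasis hP.ne_zero).finite
  have h3 : emb P y hy (AdjoinRoot.root P) = y := AdjoinRoot.liftAlgHom_root _ _ _ _
  have hinj : Function.Injective (emb P y hy) := (emb P y hy).toRingHom.injective
  have h1 : (AdjoinRoot.root P) ^ (Fintype.card k ^ N) = AdjoinRoot.root P := by
    apply hinj
    rw [map_pow, h3, h]
  have h4 : (FiniteField.frobeniusAlgEquivOfAlgebraic k (AdjoinRoot P)) ^ N = 1 := by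
    have h5 : ((FiniteField.frobeniusAlgHom k (AdjoinRoot P)) ^ N) = AlgHom.id k _ := by
      apply AdjoinRoot.algHom_ext
      rw [AlgHom.coe_pow, FiniteField.coe_frobeniusAlgHom, pow_iterate]
      exact h1
    apply AlgEquiv.ext
    intro z
    rw [AlgEquiv.coe_pow, FiniteField.coe_frobeniusAlgEquivOfAlgebraic_iterate]
    have h6 := congrArg (fun g => g z) (congrArg DFunLike.coe h5)
    simp only [AlgHom.coe_pow, FiniteField.coe_frobeniusAlgHom, pow_iterate] at h6
    exact h6
  have h5 := orderOf_dvd_of_pow_eq_one h4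
  rw [FiniteField.orderOf_frobeniusAlgEquivOfAlgebraic,
    (AdjoinRoot.powerBasis hP.ne_zero).finrank, AdjoinRoot.powerBasis_dim] at h5
  exact h5

theorem odd_card (h2 : (2 : k) ≠ 0) : Odd (Fintype.card k) := by
  have h1 := FiniteField.odd_card_of_char_ne_two (ringChar_ne_two h2)
  exact Nat.odd_iff.2 h1

/-- Euler's criterion for the Legendre symbol, for the square case. -/
theorem pow_half_of_leg_one (h2 : (2 : k) ≠ 0) {P : k[X]} (hP : Irreducible P) {y : Ω}
    (hy : aeval y P = 0) (g : k[X]) (hg : leg P g = 1) :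
    (aeval y g) ^ (Fintype.card k ^ P.natDegree / 2) = 1 := by
  classical
  haveI : Fact (Irreducible P) := ⟨hP⟩
  haveI := finite_adjoinRoot P hP
  haveI := Fintype.ofFinite (AdjoinRoot P)
  have h3 : (2 : AdjoinRoot P) ≠ 0 := by
    intro h
    apply h2
    apply (algebraMap k (AdjoinRoot P)).injective
    rw [map_ofNat, h, map_zero]
  have hne : AdjoinRoot.mk P g ≠ 0 := by
    intro h
    rw [AdjoinRoot.mk_eq_zero] at h
    rw [leg_eq_zero.2 h] at hg
    norm_num at hg
  have hsq : IsSquare (AdjoinRoot.mk P g) := by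
    by_contra h
    rw [leg_eq, chi_of_nsq h] at hg
    norm_num at hg
  have h4 := (FiniteField.isSquare_iff (ringChar_ne_two h3) hne).1 hsq
  rw [card_adjoinRoot hP] at h4
  have h5 := congrArg (emb P y hy) h4
  rw [map_pow, emb_mk, map_one] at h5
  exact h5

/-- Euler's criterion for the Legendre symbol, for the nonsquare case. -/
theorem pow_half_of_leg_neg (h2 : (2 : k) ≠ 0) {P : k[X]} (hP : Irreducible P) {y : Ω}
    (hy : aeval y P = 0) (g : k[X]) (hg : leg P g = -1) :
    (aeval y g) ^ (Fintype.card k ^ P.natDegree / 2) ≠ 1 := by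
  classical
  haveI : Fact (Irreducible P) := ⟨hP⟩
  haveI := finite_adjoinRoot P hP
  haveI := Fintype.ofFinite (AdjoinRoot P)
  have h3 : (2 : AdjoinRoot P) ≠ 0 := by
    intro h
    apply h2
    apply (algebraMap k (AdjoinRoot P)).injective
    rw [map_ofNat, h, map_zero]
  have hne : AdjoinRoot.mk P g ≠ 0 := by
    intro h
    rw [AdjoinRoot.mk_eq_zero] at h
    rw [leg_eq_zero.2 h] at hg
    norm_num at hg
  intro h4
  have h5 : (AdjoinRoot.mk P g) ^ (Fintype.card k ^ P.natDegree / 2) = 1 := by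
    apply (emb P y hy).toRingHom.injective
    change emb P y hy _ = emb P y hy _
    rw [map_pow, emb_mk, map_one, h4]
  rw [← card_adjoinRoot hP] at h5
  have h6 := (FiniteField.isSquare_iff (ringChar_ne_two h3) hne).2 h5
  rw [leg_eq] at hg
  exact chi_eq_neg_one hg h6

end MinPoly

section Sep

/-- The map `x ↦ u ^ (q ^ M) - u` with `u = x / (1 - x)`. -/
noncomputable def rr (k : Type*) [Field k] [Fintype k] {Ω : Type*} [Field Ω] (M : ℕ) (x : Ω) : Ω :=
  (x / (1 - x)) ^ (Fintype.card k ^ M) - x / (1 - x)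

/-- The points lying over the zeros of `f`. -/
def DD (f : k[X]) (M : ℕ) (x : Ω) : Prop := x ≠ 1 ∧ aeval (rr k M x) f = 0

theorem DD.ne_zero {f : k[X]} (hf : f.eval 0 ≠ 0) {M : ℕ} {x : Ω} (h : DD f M x) : x ≠ 0 := by
  rintro rfl
  have h1 := h.2
  have hq : Fintype.card k ^ M ≠ 0 := pow_ne_zero _ Fintype.card_ne_zero
  rw [rr, zero_div, zero_pow hq, sub_zero] at h1
  have h2 : aeval (0 : Ω) f = algebraMap k Ω (f.eval 0) := by
    rw [← map_zero (algebraMap k Ω), aeval_algebraMap_apply, coe_aeval_eq_eval]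
  rw [h2, map_eq_zero_iff _ (algebraMap k Ω).injective] at h1
  exact hf h1

theorem DD.rr_ne_zero {f : k[X]} (hf : f.eval 0 ≠ 0) {M : ℕ} {x : Ω} (h : DD f M x) :
    rr k M x ≠ 0 := by
  intro h1
  have h3 := h.2
  rw [h1] at h3
  have h2 : aeval (0 : Ω) f = algebraMap k Ω (f.eval 0) := by
    rw [← map_zero (algebraMap k Ω), aeval_algebraMap_apply, coe_aeval_eq_eval]
  rw [h2, map_eq_zero_iff _ (algebraMap k Ω).injective] at h3
  exact hf h3

theorem DD.map {f : k[X]} {M : ℕ} {x : Ω} (h : DD f M x) (σ : Ω →ₐ[k] Ω) : DD f M (σ x) := by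
  refine ⟨?_, ?_⟩
  · intro h1
    apply h.1
    apply σ.toRingHom.injective
    change σ x = σ 1
    rw [h1, map_one]
  · have h1 : rr k M (σ x) = σ (rr k M x) := by
      unfold rr
      rw [map_sub, map_pow, map_div₀, map_sub, map_one]
    rw [h1, aeval_algHom_apply, h.2, map_zero]

theorem DD.fr {f : k[X]} {M : ℕ} {x : Ω} (h : DD f M x) (n : ℕ) :
    DD f M (x ^ (Fintype.card k ^ n)) := by
  rw [← fr_apply]
  exact h.map _

/-- The separation property. -/
theorem DD.sep (h2 : (2 : Ω) ≠ 0) {f : k[X]} (hf : f.eval 0 ≠ 0) {M : ℕ}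
    (hM : ∀ r : Ω, aeval r f = 0 → r ^ (Fintype.card k ^ M) = r) {x x' : Ω} (h : DD f M x)
    (h' : DD f M x') (κ : ℕ) (hκ : κ ∣ Fintype.card k ^ M - 1) (hxx : x' ^ κ = x ^ κ) :
    x' = x := by
  set q := Fintype.card k with hq
  have hx0 := h.ne_zero hf
  have hr0 := h.rr_ne_zero hf
  have hr0' := h'.rr_ne_zero hf
  have hrf := hM _ h.2
  have hrf' := hM _ h'.2
  set r := rr k M x with hr
  set r' := rr k M x' with hr'
  set u := x / (1 - x) with hu
  set u' := x' / (1 - x') with hu'
  have hFu : u ^ (q ^ M) = u + r := by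
    rw [hr, rr]
    ring
  have hFu' : u' ^ (q ^ M) = u' + r' := by
    rw [hr', rr]
    ring
  have hqM : 1 ≤ q ^ M := Nat.one_le_pow _ _ (by rw [hq]; exact Fintype.card_pos)
  set ξ := x' / x with hξ
  have hξκ : ξ ^ κ = 1 := by
    rw [hξ, div_pow, hxx, div_self (pow_ne_zero _ hx0)]
  have hξF : ξ ^ (q ^ M) = ξ := by
    obtain ⟨e, he⟩ := hκ
    have h1 : q ^ M = κ * e + 1 := by omega
    rw [h1, pow_succ, pow_mul, hξκ, one_pow, one_mul]
  have hx' : x' = ξ * x := by rw [hξ, div_mul_cancel₀ _ hx0]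
  have hξ0 : ξ ≠ 0 := by
    intro h0
    rw [h0, zero_mul] at hx'
    exact h'.ne_zero hf hx'
  have hne : 1 - x ≠ 0 := sub_ne_zero.2 (Ne.symm h.1)
  have hne' : 1 - x' ≠ 0 := sub_ne_zero.2 (Ne.symm h'.1)
  set δ := 1 - ξ with hδ
  have hδF : δ ^ (q ^ M) = δ := by
    rw [hδ, fr_sub, hξF, one_pow]
  have hrel : u' * (1 + δ * u) = ξ * u := by
    have h1 : 1 + δ * u = (1 - x') / (1 - x) := by
      rw [hδ, hu, hx']
      field_simp
      ring
    rw [h1, hu', hu, hx']
    rw [hx'] at hne'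
    field_simp
  have hadd : ∀ a b : Ω, (a + b) ^ (q ^ M) = a ^ (q ^ M) + b ^ (q ^ M) := fun a b => fr_add M a b
  have hrelF := congrArg (fun z : Ω => z ^ (q ^ M)) hrel
  simp only [mul_pow, hadd, one_pow, hδF, hξF, hFu, hFu'] at hrelF
  have hE1 : r' * (1 + δ * u + δ * r) * (1 + δ * u) = ξ * r := by
    have e1 : u' * (δ * r) + r' * (1 + δ * u + δ * r) = ξ * r := by
      linear_combination hrelF - hrel
    linear_combination (1 + δ * u) * e1 - (δ * r) * hrel
  have hE2 := congrArg (fun z : Ω => z ^ (q ^ M)) hE1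
  simp only [mul_pow, hadd, one_pow, hδF, hξF, hFu, hrf, hrf'] at hE2
  have h3 : r' * (1 + δ * u + δ * r) * (2 * (δ * r)) = 0 := by
    linear_combination hE2 - hE1
  rcases mul_eq_zero.1 h3 with h4 | h4
  · exfalso
    rw [h4, zero_mul] at hE1
    exact mul_ne_zero hξ0 hr0 hE1.symm
  · have h5 := (mul_eq_zero.1 h4).resolve_left h2
    have h6 := (mul_eq_zero.1 h5).resolve_right hr0
    have h7 : ξ = 1 := by
      rw [hδ] at h6
      linear_combination -h6
    rw [hx', h7, one_mul]

theorem DD.pow_ne_one {f : k[X]} (hf : f.eval 0 ≠ 0) {M : ℕ} {x : Ω} (h : DD f M x) (κ : ℕ)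
    (hκ : κ ∣ Fintype.card k ^ M - 1) : x ^ κ ≠ 1 := by
  intro h1
  have hqM : 1 ≤ Fintype.card k ^ M := Nat.one_le_pow _ _ Fintype.card_pos
  have hxF : x ^ (Fintype.card k ^ M) = x := by
    obtain ⟨e, he⟩ := hκ
    have h3 : Fintype.card k ^ M = κ * e + 1 := by omega
    rw [h3, pow_succ, pow_mul, h1, one_pow, one_mul]
  apply h.rr_ne_zero hf
  unfold rr
  rw [div_pow, fr_sub, hxF, one_pow, sub_self]

theorem DD.fix {f : k[X]} {M : ℕ}
    (hM : ∀ r : Ω, aeval r f = 0 → r ^ (Fintype.card k ^ M) = r) {x : Ω} (h : DD f M x)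
    (p : ℕ) (hp : (p : Ω) = 0) : x ^ (Fintype.card k ^ (M * p)) = x := by
  have hrf := hM _ h.2
  set r := rr k M x with hr
  set u := x / (1 - x) with hu
  have hFu : u ^ (Fintype.card k ^ M) = u + r := by
    rw [hr, rr]
    ring
  have h1 : ∀ i : ℕ, u ^ (Fintype.card k ^ (M * i)) = u + i * r := by
    intro i
    induction i with
    | zero => simp
    | succ i ih =>
      have h3 : ((i : Ω)) ^ (Fintype.card k ^ M) = (i : Ω) := by
        have h4 := fr_const (Ω := Ω) M (i : k)
        rw [map_natCast] at h4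
        exact h4
      rw [mul_add, mul_one, pow_add, pow_mul, ih, fr_add, mul_pow, h3, hFu, hrf]
      push_cast
      ring
  have h3 := h1 p
  rw [hp, zero_mul, add_zero] at h3
  have hne : 1 - x ≠ 0 := sub_ne_zero.2 (Ne.symm h.1)
  have h4 : x = u / (1 + u) := by
    have h5 : 1 + u = 1 / (1 - x) := by
      rw [hu]
      field_simp
      ring
    rw [h5, hu]
    field_simp
  rw [h4, div_pow, fr_add, one_pow, h3]

end Sep

end Pool.Agent.K369
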