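import Mathlib

set_option autoImplicit false
set_option linter.all false

/-!
# Legendre's theorem over a polynomial ring
-/

namespace Pool.Agent.K369

open Polynomial

variable {k : Type*} [Field k]

/-- The local condition at `p` for the equation `x² = a y² + b z²`. -/
def LC (a b p : k[X]) : Prop :=
  (p ∣ b → ¬ p ∣ a → ∃ n, p ∣ n ^ 2 - a) ∧ (p ∣ a → ¬ p ∣ b → ∃ n, p ∣ n ^ 2 - b) ∧
    (∀ a' b', a = p * a' → b = p * b' → ∃ n, p ∣ n ^ 2 + a' * b')

theorem LC.symm {a b p : k[X]} (h : LC a b p) : LC b a p := by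
  refine ⟨h.2.1, h.1, fun a' b' ha hb => ?_⟩
  obtain ⟨n, hn⟩ := h.2.2 b' a' hb ha
  exact ⟨n, by rwa [mul_comm a' b']⟩

/-- The Chinese remainder theorem for squares. -/
theorem exists_sq_mod (a b : k[X]) (hb : Squarefree b)
    (h : ∀ p, Irreducible p → p ∣ b → ∃ n, p ∣ n ^ 2 - a) : ∃ n, b ∣ n ^ 2 - a := by
  induction b using UniqueFactorizationMonoid.induction_on_prime with
  | h₁ => exact absurd hb not_squarefree_zero
  | h₂ u hu => exact ⟨0, hu.dvd⟩
  | h₃ c p hc hp ih =>
    have hsq : Squarefree c := hb.squarefree_of_dvd (Dvd.intro_left p rfl)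
    obtain ⟨n₁, hn₁⟩ := ih hsq fun q hq hqc => h q hq (dvd_mul_of_dvd_right hqc p)
    obtain ⟨n₂, hn₂⟩ := h p hp.irreducible (Dvd.intro c rfl)
    have hcop : IsCoprime p c := by
      rw [hp.irreducible.coprime_iff_not_dvd]
      rintro ⟨d, rfl⟩
      exact hp.not_unit (hb p ⟨d, by ring⟩)
    obtain ⟨u, v, huv⟩ := hcop
    refine ⟨n₂ * (v * c) + n₁ * (u * p), ?_⟩
    refine IsCoprime.mul_dvd ⟨u, v, huv⟩ ?_ ?_
    · have h1 : (n₂ * (v * c) + n₁ * (u * p)) ^ 2 - a = (n₂ ^ 2 - a) +
          p * (u * (n₁ - n₂) * (2 * n₂ + p * u * (n₁ - n₂))) := by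
        have : v * c = 1 - u * p := by linear_combination huv
        rw [this]
        ring
      rw [h1]
      exact dvd_add hn₂ (dvd_mul_right _ _)
    · have h1 : (n₂ * (v * c) + n₁ * (u * p)) ^ 2 - a = (n₁ ^ 2 - a) +
          c * (v * (n₂ - n₁) * (2 * n₁ + c * v * (n₂ - n₁))) := by
        have : u * p = 1 - v * c := by linear_combination huv
        rw [this]
        ring
      rw [h1]
      exact dvd_add hn₁ (dvd_mul_right _ _)

/-- The squarefree part of a polynomial. -/
theorem exists_squarefree_part (a : k[X]) (ha : a ≠ 0) :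
    ∃ c b : k[X], a = c ^ 2 * b ∧ Squarefree b := by
  induction h : a.natDegree using Nat.strong_induction_on generalizing a with
  | _ n ih =>
    by_cases hs : Squarefree a
    · exact ⟨1, a, by ring, hs⟩
    · simp only [Squarefree, not_forall] at hs
      obtain ⟨d, ⟨e, he⟩, hd⟩ := hs
      have he0 : e ≠ 0 := by
        rintro rfl
        rw [mul_zero] at he
        exact ha he
      have hd0 : d ≠ 0 := by
        rintro rfl
        rw [zero_mul, zero_mul] at he
        exact ha he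
      have hdeg : 0 < d.natDegree := by
        rcases Nat.eq_zero_or_pos d.natDegree with h0 | h0
        · exfalso
          apply hd
          rw [Polynomial.isUnit_iff_degree_eq_zero, Polynomial.degree_eq_natDegree hd0, h0]
          rfl
        · exact h0
      have hlt : e.natDegree < n := by
        rw [← h, he, natDegree_mul (mul_ne_zero hd0 hd0) he0, natDegree_mul hd0 hd0]
        omega
      obtain ⟨c, b, hcb, hb⟩ := ih _ hlt e he0 rfl
      exact ⟨d * c, b, by rw [he, hcb]; ring, hb⟩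

theorem exists_inv_mod {p c : k[X]} (hp : Irreducible p) (hc : ¬ p ∣ c) :
    ∃ v, p ∣ v * c - 1 := by
  obtain ⟨u, v, huv⟩ := hp.coprime_iff_not_dvd.2 hc
  exact ⟨v, -u, by linear_combination huv⟩

/-- The local conditions are inherited by the descent. -/
theorem LC.descent {a b b' c m p : k[X]} (hp : Irreducible p) (ha : Squarefree a)
    (hb : Squarefree b) (hb' : Squarefree b') (hm : m ^ 2 - a = b * (c ^ 2 * b'))
    (h : LC a b p) : LC a b' p := by
  have hpp := hp.prime
  have hpa : ¬ p * p ∣ a := fun h => hp.not_isUnit (ha p h)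
  refine ⟨fun h1 _ => ⟨m, ?_⟩, fun h1 h2 => ?_, fun a₁ b₁ h1 h2 => ?_⟩
  · rw [hm]
    exact dvd_mul_of_dvd_right (dvd_mul_of_dvd_right h1 _) _
  · by_cases hpb : p ∣ b
    · -- `p` divides both `a` and `b`
      obtain ⟨a₁, rfl⟩ := h1
      obtain ⟨b₁, rfl⟩ := hpb
      have hpm : p ∣ m := by
        refine hpp.dvd_of_dvd_pow (n := 2) ⟨a₁ + b₁ * (c ^ 2 * b'), ?_⟩
        linear_combination hm
      obtain ⟨m₁, rfl⟩ := hpm
      have e1 : p * m₁ ^ 2 - a₁ = b₁ * (c ^ 2 * b') := by
        apply mul_left_cancel₀ hp.ne_zero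
        linear_combination hm
      have hb₁ : ¬ p ∣ b₁ := fun ⟨d, hd⟩ => hp.not_isUnit (hb p ⟨d, by rw [hd]; ring⟩)
      have ha₁ : ¬ p ∣ a₁ := fun ⟨d, hd⟩ => hp.not_isUnit (ha p ⟨d, by rw [hd]; ring⟩)
      have hc : ¬ p ∣ c := by
        rintro ⟨d, rfl⟩
        exact ha₁ ⟨m₁ ^ 2 - b₁ * (p * d ^ 2 * b'), by linear_combination -e1⟩
      obtain ⟨n, w, hw⟩ := h.2.2 a₁ b₁ rfl rfl
      obtain ⟨v, v', hv⟩ := exists_inv_mod hp (c := b₁ * c)
        (fun h => (hpp.dvd_or_dvd h).elim hb₁ hc)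
      refine ⟨n * v, ?_⟩
      -- modulo `p`: `- a₁ = b₁ c² b'`, `n² = - a₁ b₁`, `v b₁ c = 1`
      refine ⟨v ^ 2 * w - v ^ 2 * b₁ * m₁ ^ 2 * 1 * 1 * 1 + v' * (v * (b₁ * c) + 1) * b', ?_⟩
      linear_combination v ^ 2 * hw + v ^ 2 * b₁ * e1 + (v * (b₁ * c) + 1) * b' * hv
    · obtain ⟨a₁, rfl⟩ := h1
      have hpc : ¬ p ∣ c := by
        intro hc
        obtain ⟨c₁, rfl⟩ := hc
        have hpm : p ∣ m := by
          refine hpp.dvd_of_dvd_pow (n := 2) ⟨a₁ + b * (p * c₁ ^ 2 * b'), ?_⟩
          linear_combination hm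
        obtain ⟨m₁, rfl⟩ := hpm
        exact hpa ⟨m₁ ^ 2 - b * c₁ ^ 2 * b', by linear_combination -hm⟩
      obtain ⟨n, w, hw⟩ := h.2.1 (Dvd.intro _ rfl) hpb
      have hn : ¬ p ∣ n := by
        rintro ⟨d, rfl⟩
        exact hpb ⟨p * d ^ 2 - w, by linear_combination -hw⟩
      obtain ⟨v, v', hv⟩ := exists_inv_mod hp (c := n * c)
        (fun h => (hpp.dvd_or_dvd h).elim hn hpc)
      refine ⟨m * v, ?_⟩
      -- modulo `p`: `m² = b c² b'`, `n² = b`, `v n c = 1`
      refine ⟨v ^ 2 * a₁ - v ^ 2 * c ^ 2 * b' * w + v' * (v * (n * c) + 1) * b', ?_⟩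
      linear_combination v ^ 2 * hm - v ^ 2 * c ^ 2 * b' * hw + (v * (n * c) + 1) * b' * hv
  · subst h1
    subst h2
    have hpm : p ∣ m := by
      refine hpp.dvd_of_dvd_pow (n := 2) ⟨a₁ + b * (c ^ 2 * b₁), ?_⟩
      linear_combination hm
    obtain ⟨m₁, rfl⟩ := hpm
    have e1 : p * m₁ ^ 2 - a₁ = b * (c ^ 2 * b₁) := by
      apply mul_left_cancel₀ hp.ne_zero
      linear_combination hm
    have ha₁ : ¬ p ∣ a₁ := fun ⟨d, hd⟩ => hp.not_isUnit (ha p ⟨d, by rw [hd]; ring⟩)
    have hpb : ¬ p ∣ b := by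
      rintro ⟨d, rfl⟩
      exact ha₁ ⟨m₁ ^ 2 - d * (c ^ 2 * b₁), by linear_combination -e1⟩
    obtain ⟨n, w, hw⟩ := h.2.1 (Dvd.intro _ rfl) hpb
    refine ⟨n * c * b₁, ?_⟩
    -- modulo `p`: `- a₁ = b c² b₁`, `n² = b`
    refine ⟨c ^ 2 * b₁ ^ 2 * w + m₁ ^ 2 * b₁, ?_⟩
    linear_combination c ^ 2 * b₁ ^ 2 * hw - b₁ * e1

/-- Legendre's theorem over `k[u]`: if every equation `x² = a y² + b z²` over `k` has a nontrivial
solution, then an equation `x² = a y² + b z²` with `a`, `b` squarefree polynomials has a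
nontrivial solution when the local conditions hold at all irreducible polynomials. -/
theorem legendre (hk : ∀ a b : k, ∃ x y z : k, (x ≠ 0 ∨ y ≠ 0 ∨ z ≠ 0) ∧
    x ^ 2 = a * y ^ 2 + b * z ^ 2) (n : ℕ) : ∀ a b : k[X], a.natDegree + b.natDegree ≤ n →
    Squarefree a → Squarefree b → (∀ p, Irreducible p → LC a b p) →
    ∃ x y z : k[X], (x ≠ 0 ∨ y ≠ 0 ∨ z ≠ 0) ∧ x ^ 2 = a * y ^ 2 + b * z ^ 2 := by
  induction n using Nat.strong_induction_on with
  | _ n ih =>
    intro a b
    wlog hab : a.natDegree ≤ b.natDegree generalizing a b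
    · intro h1 ha hb h
      obtain ⟨x, y, z, h2, h3⟩ := this b a (by omega) (by omega) hb ha fun p hp => (h p hp).symm
      exact ⟨x, z, y, by tauto, by linear_combination h3⟩
    intro h1 ha hb h
    have ha0 : a ≠ 0 := ha.ne_zero
    have hb0 : b ≠ 0 := hb.ne_zero
    rcases Nat.eq_zero_or_pos b.natDegree with hbd | hbd
    · -- constants
      obtain ⟨a', rfl⟩ : ∃ a', a = C a' := ⟨_, eq_C_of_natDegree_eq_zero (by omega)⟩
      obtain ⟨b', rfl⟩ : ∃ b', b = C b' := ⟨_, eq_C_of_natDegree_eq_zero hbd⟩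
      obtain ⟨x, y, z, h2, h3⟩ := hk a' b'
      refine ⟨C x, C y, C z, by simpa using h2, ?_⟩
      rw [← C_pow, h3]
      simp
    · -- descent
      obtain ⟨m₀, hm₀⟩ := exists_sq_mod a b hb fun p hp hpb => by
        by_cases hpa : p ∣ a
        · refine ⟨0, ?_⟩
          rw [zero_pow two_ne_zero, zero_sub]
          exact hpa.neg_right
        · exact (h p hp).1 hpb hpa
      set m := m₀ % b with hmdef
      have hm : b ∣ m ^ 2 - a := by
        have e : m₀ = b * (m₀ / b) + m := (EuclideanDomain.div_add_mod m₀ b).symm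
        have e1 : m ^ 2 - a = (m₀ ^ 2 - a) - b * ((m₀ / b) * (m₀ + m)) := by
          linear_combination (-(m₀ + m)) * e
        rw [e1]
        exact dvd_sub hm₀ (dvd_mul_right _ _)
      have hmd : m.natDegree < b.natDegree := by
        rw [hmdef]
        exact natDegree_mod_lt m₀ (by omega)
      obtain ⟨q, hq⟩ := hm
      by_cases hq0 : q = 0
      · refine ⟨m, 1, 0, Or.inr (Or.inl one_ne_zero), ?_⟩
        rw [hq0, mul_zero] at hq
        linear_combination hq
      have hqd : q.natDegree < b.natDegree := by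
        have h2 : (m ^ 2 - a).natDegree = b.natDegree + q.natDegree := by
          rw [hq, natDegree_mul hb0 hq0]
        have h3 : (m ^ 2 - a).natDegree ≤ max (2 * m.natDegree) a.natDegree := by
          refine (natDegree_sub_le _ _).trans (max_le_max ?_ le_rfl)
          rw [natDegree_pow]
        rcases le_total (2 * m.natDegree) a.natDegree with h4 | h4
        · rw [max_eq_right h4] at h3
          omega
        · rw [max_eq_left h4] at h3
          omega
      obtain ⟨c, b', hcb, hb'⟩ := exists_squarefree_part q hq0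
      have hc0 : c ≠ 0 := by
        rintro rfl
        apply hq0
        rw [hcb]
        ring
      have hb'0 : b' ≠ 0 := hb'.ne_zero
      have hb'd : b'.natDegree < b.natDegree := by
        refine lt_of_le_of_lt ?_ hqd
        rw [hcb, natDegree_mul (pow_ne_zero _ hc0) hb'0]
        omega
      have hm' : m ^ 2 - a = b * (c ^ 2 * b') := by rw [hq, hcb]
      obtain ⟨x, y, z, hne, hxyz⟩ := ih (a.natDegree + b'.natDegree) (by omega) a b' le_rfl ha hb'
        fun p hp => (h p hp).descent hp ha hb hb' hm'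
      refine ⟨x * m + a * y, x + m * y, b' * c * z, ?_, ?_⟩
      · by_contra hcon
        push Not at hcon
        obtain ⟨e1, e2, e3⟩ := hcon
        have hz : z = 0 := by
          rcases mul_eq_zero.1 e3 with e4 | e4
          · exact absurd e4 (mul_ne_zero hb'0 hc0)
          · exact e4
        have hy : y = 0 := by
          have e4 : (m ^ 2 - a) * y = 0 := by linear_combination m * e2 - e1
          rcases mul_eq_zero.1 e4 with e5 | e5
          · rw [hm'] at e5
            exact absurd e5 (mul_ne_zero hb0 (mul_ne_zero (pow_ne_zero _ hc0) hb'0))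
          · exact e5
        have hx : x = 0 := by rw [hy] at e2; simpa using e2
        rcases hne with h5 | h5 | h5
        · exact h5 hx
        · exact h5 hy
        · exact h5 hz
      · linear_combination (m ^ 2 - a) * hxyz + b' * z ^ 2 * hm'

end Pool.Agent.K369
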