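import Mathlib
import Pool.Agent.Helper165.P1.Pui

set_option autoImplicit false
set_option linter.all false

/-!
# Finite extensions of a field of Laurent series
-/

namespace Pool.Agent.K369

open Polynomial Pool.Agent.Helper165.P1 Pool.Agent.Helper165.P1.NP

section

variable {E : Type*} [Field E]

/-- The endomorphism multiplying the coefficient of `t ^ n` by `ζ ^ n`. -/
noncomputable def tw (ζ : E) (hζ : ζ ≠ 0) : LS E →+* LS E where
  toFun x :=
    { coeff := fun q => ζ ^ q * x.coeff q
      isPWO_support' := x.isPWO_support.mono (by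
        intro q hq hx
        apply hq
        simp only
        rw [hx, mul_zero]) }
  map_one' := by
    ext q
    simp only [HahnSeries.coeff_one]
    split_ifs with h
    · subst h; simp
    · simp
  map_zero' := by
    ext q; simp
  map_add' x y := by
    ext q
    simp only [HahnSeries.coeff_add, mul_add]
  map_mul' x y := by
    ext q
    simp only [HahnSeries.coeff_mul, Finset.mul_sum]
    refine Finset.sum_congr ?_ ?_
    · ext ij
      simp only [Finset.mem_antidiagonal, HahnSeries.mem_support, ne_eq, mul_eq_zero,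
        zpow_ne_zero _ hζ, false_or]
    · intro ij hij
      have h1 : ij.1 + ij.2 = q := (Finset.mem_antidiagonal.1 hij).2.2
      rw [← h1, zpow_add₀ hζ]
      ring

theorem tw_coeff (ζ : E) (hζ : ζ ≠ 0) (x : LS E) (n : ℤ) :
    (tw ζ hζ x).coeff n = ζ ^ n * x.coeff n := rfl

theorem tw_expandHom (n : ℕ) (hn : 0 < n) (ζ : E) (hζ : ζ ≠ 0) (h : ζ ^ n = 1) (x : LS E) :
    tw ζ hζ (expandHom n hn x) = expandHom n hn x := by
  ext l
  rw [tw_coeff]
  by_cases hl : (n : ℤ) ∣ l
  · obtain ⟨j, rfl⟩ := hl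
    rw [zpow_mul, zpow_natCast, h, one_zpow, one_mul]
  · rw [expandHom_coeff_of_not_dvd n hn x l hl, mul_zero]

theorem dec_bdd (n : ℕ) (hn : 0 < n) (i : ℤ) (x : LS E) :
    BddBelow (Function.support fun j : ℤ => x.coeff (n * j + i)) := by
  refine ⟨-(|x.order| + |i|), fun j hj => ?_⟩
  by_contra hlt
  push Not at hlt
  apply hj
  change x.coeff (n * j + i) = 0
  apply HahnSeries.coeff_eq_zero_of_lt_order
  have h1 : (1 : ℤ) ≤ n := by exact_mod_cast hn
  have h2 := neg_abs_le x.order
  have h3 := le_abs_self i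
  have h4 := abs_nonneg x.order
  have h5 := abs_nonneg i
  have h6 : (n : ℤ) * j ≤ 1 * j := mul_le_mul_of_nonpos_right h1 (by omega)
  omega

/-- The series of the coefficients with indices congruent to `i` modulo `n`. -/
noncomputable def dec (n : ℕ) (hn : 0 < n) (i : ℤ) (x : LS E) : LS E :=
  HahnSeries.ofSuppBddBelow (fun j : ℤ => x.coeff (n * j + i)) (dec_bdd n hn i x)

theorem dec_coeff (n : ℕ) (hn : 0 < n) (i : ℤ) (x : LS E) (j : ℤ) :
    (dec n hn i x).coeff j = x.coeff (n * j + i) := by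
  exact congrFun (HahnSeries.coeff_ofSuppBddBelow (f := fun j : ℤ => x.coeff (n * j + i))
    (hf := dec_bdd n hn i x)) j

theorem eq_expandHom_of_support (n : ℕ) (hn : 0 < n) (x : LS E)
    (h : ∀ j : ℤ, ¬ (n : ℤ) ∣ j → x.coeff j = 0) : x = expandHom n hn (dec n hn 0 x) := by
  ext l
  by_cases hl : (n : ℤ) ∣ l
  · obtain ⟨j, rfl⟩ := hl
    rw [expandHom_coeff, dec_coeff, add_zero]
  · rw [expandHom_coeff_of_not_dvd n hn _ l hl, h l hl]

theorem eq_sum_dec (n : ℕ) (hn : 0 < n) (x : LS E) :
    x = ∑ i : Fin n, HahnSeries.single ((i : ℕ) : ℤ) (1 : E) *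
      expandHom n hn (dec n hn ((i : ℕ) : ℤ) x) := by
  ext l
  rw [HahnSeries.coeff_sum]
  have hn0 : (0 : ℤ) < n := by exact_mod_cast hn
  have hterm : ∀ i : Fin n, (HahnSeries.single ((i : ℕ) : ℤ) (1 : E) *
      expandHom n hn (dec n hn ((i : ℕ) : ℤ) x)).coeff l =
      if (n : ℤ) ∣ l - (i : ℕ) then x.coeff l else 0 := by
    intro i
    have h1 : l = (l - (i : ℕ)) + ((i : ℕ) : ℤ) := by ring
    conv_lhs => rw [h1]
    rw [HahnSeries.coeff_single_mul_add, one_mul]
    split_ifs with h
    · obtain ⟨j, hj⟩ := h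
      rw [hj, expandHom_coeff, dec_coeff, ← hj]
      congr 1
      ring
    · exact expandHom_coeff_of_not_dvd n hn _ _ h
  rw [Finset.sum_congr rfl fun i _ => hterm i]
  have hmod := Int.emod_nonneg l hn0.ne'
  have hlt := Int.emod_lt_of_pos l hn0
  let i0 : Fin n := ⟨(l % n).toNat, by omega⟩
  have hi0 : ((i0 : ℕ) : ℤ) = l % n := Int.toNat_of_nonneg hmod
  rw [Finset.sum_eq_single i0]
  · rw [if_pos]
    rw [hi0]
    exact ⟨l / n, by have := Int.emod_add_mul_ediv l n; linarith⟩
  · intro i _ hi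
    rw [if_neg]
    intro hd
    apply hi
    have h2 : l % n = ((i : ℕ) : ℤ) % n :=
      Int.emod_eq_emod_iff_emod_sub_eq_zero.2 (Int.emod_eq_zero_of_dvd hd)
    have h3 : ((i : ℕ) : ℤ) % n = (i : ℕ) :=
      Int.emod_eq_of_lt (by positivity) (by exact_mod_cast i.2)
    apply Fin.ext
    have : ((i : ℕ) : ℤ) = ((i0 : ℕ) : ℤ) := by rw [hi0, h2, h3]
    exact_mod_cast this
  · intro h
    exact absurd (Finset.mem_univ _) h

theorem order_expandHom (d : ℕ) (hd : 0 < d) (x : LS E) (hx : x ≠ 0) :
    (expandHom d hd x).order = d * x.order := by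
  apply le_antisymm
  · apply HahnSeries.order_le_of_coeff_ne_zero
    rw [expandHom_coeff]
    exact (HahnSeries.coeff_order_eq_zero.not.2 hx)
  · by_contra hlt
    push Not at hlt
    have h1 := expandHom_order d hd x _ hlt
    have h2 : expandHom d hd x ≠ 0 := by
      intro h0
      apply hx
      ext j
      rw [← expandHom_coeff d hd x j, h0]
      rfl
    exact (HahnSeries.coeff_order_eq_zero.not.2 h2) h1

/-- A nonzero Laurent series of even order over an algebraically closed field of characteristic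
not two is a square. -/
theorem exists_sqrt [IsAlgClosed E] [CharZero E] (x : LS E) (hx : x ≠ 0) (h : Even x.order) :
    ∃ w : LS E, w ^ 2 = x := by
  obtain ⟨a, ha⟩ := h
  have hps : ∀ f : PowerSeries E, PowerSeries.constantCoeff f ≠ 0 →
      ∃ g : PowerSeries E, g ^ 2 = f := by
    intro f hf
    obtain ⟨c, hc⟩ := IsAlgClosed.exists_pow_nat_eq (PowerSeries.constantCoeff f) two_pos
    have hc0 : c ≠ 0 := by
      rintro rfl
      rw [zero_pow two_ne_zero] at hc
      exact hf hc.symm
    have hmem : ∀ g : PowerSeries E, g ∈ Ideal.span {(PowerSeries.X : PowerSeries E)} ↔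
        PowerSeries.constantCoeff g = 0 := fun g => by
      rw [Ideal.mem_span_singleton, PowerSeries.X_dvd_iff]
    obtain ⟨a, ha, -⟩ := HenselianRing.is_henselian (R := PowerSeries E)
      (I := Ideal.span {(PowerSeries.X : PowerSeries E)})
      (X ^ 2 - C f) (monic_X_pow_sub_C f two_ne_zero) (PowerSeries.C c) (by
        rw [hmem]
        simp [hc]) (by
        apply IsUnit.map
        rw [PowerSeries.isUnit_iff_constantCoeff]
        simp only [derivative_sub, derivative_X_pow, derivative_C, sub_zero, eval_mul, eval_pow,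
          eval_X, map_mul, map_pow, PowerSeries.constantCoeff_C]
        rw [isUnit_iff_ne_zero]
        refine mul_ne_zero ?_ (pow_ne_zero _ hc0)
        simp only [Nat.cast_ofNat, eval_ofNat, map_ofNat]
        exact two_ne_zero)
    refine ⟨a, ?_⟩
    rw [IsRoot.def, eval_sub, eval_pow, eval_X, eval_C, sub_eq_zero] at ha
    exact ha
  have hu : PowerSeries.constantCoeff (LaurentSeries.powerSeriesPart x) ≠ 0 := by
    rw [← PowerSeries.coeff_zero_eq_constantCoeff_apply, LaurentSeries.powerSeriesPart_coeff]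
    simpa using (HahnSeries.coeff_order_eq_zero.not.2 hx)
  obtain ⟨g, hg⟩ := hps _ hu
  have h1 := LaurentSeries.single_order_mul_powerSeriesPart x
  refine ⟨HahnSeries.single a (1 : E) * (HahnSeries.ofPowerSeries ℤ E g), ?_⟩
  rw [mul_pow, HahnSeries.single_pow, ← map_pow, hg, one_pow, two_nsmul, ← ha]
  exact h1

theorem eP_expand (n d : ℕ) (hn : 0 < n) (hd : 0 < d) (x : LS E) :
    eP (d * n) (Nat.mul_pos hd hn) (expandHom d hd x) = eP n hn x :=
  Subtype.ext (eHom_expand n d hn hd x)

theorem eP_one (n : ℕ) (hn : 0 < n) (x : LS E) :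
    eP 1 one_pos x = eP n hn (expandHom n hn x) := by
  rw [← eP_expand 1 n one_pos hn x]
  apply Subtype.ext
  change eHom (n * 1) _ _ = eHom n _ _
  exact eHom_congr (Nat.mul_one n) _ _ _

/-- The field of Puiseux series as an algebra over the field of Laurent series. -/
noncomputable instance algP : Algebra (LS E) (Pui E) := (eP 1 one_pos).toAlgebra

theorem algP_apply (x : LS E) : algebraMap (LS E) (Pui E) x = eP 1 one_pos x := rfl

/-- The field of Laurent series in `t ^ (1 / n)`. -/
noncomputable def RF (E : Type*) [Field E] (n : ℕ) (hn : 0 < n) :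
    IntermediateField (LS E) (Pui E) where
  __ := (eP (E := E) n hn).fieldRange
  algebraMap_mem' x := ⟨expandHom n hn x, by rw [algP_apply, eP_one n hn]⟩

theorem mem_RF (n : ℕ) (hn : 0 < n) (z : Pui E) : z ∈ RF E n hn ↔ ∃ x, eP n hn x = z := Iff.rfl

/-- The spanning map. -/
noncomputable def spanMap (E : Type*) [Field E] (n : ℕ) (hn : 0 < n) :
    (Fin n → LS E) →ₗ[LS E] Pui E where
  toFun c := ∑ i : Fin n, eP n hn (HahnSeries.single ((i : ℕ) : ℤ) (1 : E)) * eP 1 one_pos (c i)
  map_add' c c' := by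
    rw [← Finset.sum_add_distrib]
    refine Finset.sum_congr rfl fun i _ => ?_
    rw [Pi.add_apply, map_add, mul_add]
  map_smul' a c := by
    rw [RingHom.id_apply, Finset.smul_sum]
    refine Finset.sum_congr rfl fun i _ => ?_
    rw [Pi.smul_apply, smul_eq_mul, map_mul, Algebra.smul_def, algP_apply]
    ring

theorem RF_le_span (n : ℕ) (hn : 0 < n) :
    (RF E n hn).toSubalgebra.toSubmodule ≤ LinearMap.range (spanMap E n hn) := by
  rintro z ⟨x, rfl⟩
  refine ⟨fun i => dec n hn ((i : ℕ) : ℤ) x, ?_⟩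
  change ∑ i : Fin n, eP n hn (HahnSeries.single ((i : ℕ) : ℤ) (1 : E)) *
    eP 1 one_pos (dec n hn ((i : ℕ) : ℤ) x) = eP n hn x
  conv_rhs => rw [eq_sum_dec n hn x]
  rw [map_sum]
  refine Finset.sum_congr rfl fun i _ => ?_
  rw [map_mul, eP_one n hn]

instance finRF (n : ℕ) (hn : 0 < n) : FiniteDimensional (LS E) (RF E n hn) := by
  have h : FiniteDimensional (LS E) (RF E n hn).toSubalgebra.toSubmodule :=
    Submodule.finiteDimensional_of_le (RF_le_span n hn)
  exact h

theorem finrank_RF_le (n : ℕ) (hn : 0 < n) : Module.finrank (LS E) (RF E n hn) ≤ n := by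
  have h1 : Module.finrank (LS E) (RF E n hn).toSubalgebra.toSubmodule ≤
      Module.finrank (LS E) (LinearMap.range (spanMap E n hn)) :=
    Submodule.finrank_mono (RF_le_span n hn)
  have h2 := LinearMap.finrank_range_le (spanMap E n hn)
  rw [Module.finrank_fin_fun] at h2
  exact h1.trans h2

theorem aeval_eP (n : ℕ) (hn : 0 < n) (x : LS E) (f : (LS E)[X]) :
    aeval (eP n hn x) f = eP n hn ((f.map (expandHom n hn)).eval x) := by
  rw [aeval_def, eval_map, hom_eval₂]
  congr 1
  ext1 y
  rw [algP_apply, eP_one n hn]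
  rfl

theorem aeval_tw (n : ℕ) (hn : 0 < n) (ζ : E) (hζ : ζ ≠ 0) (h : ζ ^ n = 1) (x : LS E)
    (f : (LS E)[X]) (hf : aeval (eP n hn x) f = 0) : aeval (eP n hn (tw ζ hζ x)) f = 0 := by
  rw [aeval_eP] at hf ⊢
  have h1 : (f.map (expandHom n hn)).eval x = 0 := by
    apply (eP (E := E) n hn).injective
    rw [hf, map_zero]
  have h2 : (f.map (expandHom n hn)).eval (tw ζ hζ x) =
      tw ζ hζ ((f.map (expandHom n hn)).eval x) := by
    rw [eval_map, eval_map, hom_eval₂]
    congr 1
    ext1 y
    exact (tw_expandHom n hn ζ hζ h y).symm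
  rw [h2, h1, map_zero, map_zero]

/-- A simple extension of the field of Laurent series inside the field of Puiseux series is the
field of Laurent series in a root of the variable. -/
theorem exists_adjoin_eq [IsAlgClosed E] [CharZero E] (ξ : Pui E) :
    ∃ (n : ℕ) (hn : 0 < n), IntermediateField.adjoin (LS E) {ξ} = RF E n hn := by
  classical
  have hex : ∃ n : ℕ, ∃ hn : 0 < n, ξ ∈ RF E n hn := by
    obtain ⟨m, hm, y, hy⟩ := ξ.2
    exact ⟨m, hm, y, Subtype.ext hy⟩
  obtain ⟨hn, y, hy⟩ := Nat.find_spec hex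
  set n := Nat.find hex with hndef
  have hmin : ∀ l, l < n → ¬ ∃ hl : 0 < l, ξ ∈ RF E l hl := fun l hl => Nat.find_min hex hl
  refine ⟨n, hn, ?_⟩
  have hle : IntermediateField.adjoin (LS E) {ξ} ≤ RF E n hn := by
    rw [IntermediateField.adjoin_le_iff, Set.singleton_subset_iff]
    exact ⟨y, hy⟩
  have hint : IsIntegral (LS E) ξ := by
    have h1 : IsIntegral (LS E) (⟨ξ, ⟨y, hy⟩⟩ : RF E n hn) := Algebra.IsIntegral.isIntegral _
    exact h1.map (RF E n hn).val
  haveI : NeZero n := ⟨hn.ne'⟩
  obtain ⟨ζ, hζ⟩ := HasEnoughRootsOfUnity.exists_primitiveRoot E n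
  have hζ0 : ζ ≠ 0 := hζ.ne_zero hn.ne'
  have hp0 : ∀ i : ℕ, ζ ^ i ≠ 0 := fun i => pow_ne_zero _ hζ0
  have hp1 : ∀ i : ℕ, (ζ ^ i) ^ n = 1 := fun i => by
    rw [← pow_mul, mul_comm, pow_mul, hζ.pow_eq_one, one_pow]
  let r : Fin n → Pui E := fun i => eP n hn (tw (ζ ^ (i : ℕ)) (hp0 i) y)
  have hroot : ∀ i, aeval (r i) (minpoly (LS E) ξ) = 0 := by
    intro i
    apply aeval_tw n hn _ (hp0 i) (hp1 i)
    change eP n hn y = ξ at hy
    rw [hy]
    exact minpoly.aeval _ _
  have hinj : Function.Injective r := by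
    intro i j hij
    by_contra hne
    have h1 : tw (ζ ^ (i : ℕ)) (hp0 i) y = tw (ζ ^ (j : ℕ)) (hp0 j) y :=
      (eP (E := E) n hn).injective hij
    -- the quotient of the two roots of unity
    have hu : IsUnit ζ := hζ0.isUnit
    let u : Eˣ := Units.mk0 ζ hζ0
    let w : Eˣ := u ^ (i : ℕ) / u ^ (j : ℕ)
    have hw1 : w ≠ 1 := by
      intro h
      apply hne
      apply Fin.ext
      apply hζ.pow_inj i.2 j.2
      have h2 : u ^ (i : ℕ) = u ^ (j : ℕ) := div_eq_one.1 h
      exact congrArg (fun v : Eˣ => (v : E)) h2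
    have hwn : w ^ n = 1 := by
      have h3 : u ^ n = 1 := Units.ext (by
        rw [Units.val_pow_eq_pow_val]
        exact hζ.pow_eq_one)
      simp only [w]
      rw [div_pow, ← pow_mul, ← pow_mul, mul_comm (i : ℕ), mul_comm (j : ℕ), pow_mul, pow_mul,
        h3, one_pow, one_pow, div_one]
    set d := orderOf w with hd
    have hdn : d ∣ n := orderOf_dvd_of_pow_eq_one hwn
    have hd0 : 0 < d := Nat.pos_of_dvd_of_pos hdn hn
    have hd1 : d ≠ 1 := fun h => hw1 (orderOf_eq_one_iff.1 h)
    have hsupp : ∀ l : ℤ, ¬ (d : ℤ) ∣ l → y.coeff l = 0 := by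
      intro l hl
      by_contra hyl
      apply hl
      rw [orderOf_dvd_iff_zpow_eq_one]
      have h2 := congrArg (fun x : LS E => x.coeff l) h1
      simp only [tw_coeff] at h2
      have h3 := mul_right_cancel₀ hyl h2
      have h4 : (u ^ (i : ℕ)) ^ l = (u ^ (j : ℕ)) ^ l := by
        apply Units.ext
        rw [Units.val_zpow_eq_zpow_val, Units.val_zpow_eq_zpow_val, Units.val_pow_eq_pow_val,
          Units.val_pow_eq_pow_val]
        exact h3
      simp only [w]
      rw [div_zpow, h4, div_self']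
    have h5 := eq_expandHom_of_support d hd0 y hsupp
    obtain ⟨e, he⟩ := hdn
    have he0 : 0 < e := Nat.pos_of_ne_zero (by rintro rfl; omega)
    have hlt : e < n := by
      rw [he]
      have : 2 ≤ d := by omega
      nlinarith
    apply hmin e hlt
    refine ⟨he0, dec d hd0 0 y, ?_⟩
    change eP e he0 (dec d hd0 0 y) = ξ
    rw [← eP_expand e d he0 hd0]
    change eP n hn y = ξ at hy
    rw [← hy]
    apply Subtype.ext
    change eHom (d * e) _ _ = eHom n hn y
    rw [← h5]
    exact eHom_congr he.symm _ _ _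
  have hdeg : n ≤ (minpoly (LS E) ξ).natDegree := by
    have hm0 : (minpoly (LS E) ξ).map (algebraMap (LS E) (Pui E)) ≠ 0 :=
      (Polynomial.map_ne_zero_iff (algebraMap (LS E) (Pui E)).injective).2 (minpoly.ne_zero hint)
    have h1 : (Finset.univ.image r) ⊆
        ((minpoly (LS E) ξ).map (algebraMap (LS E) (Pui E))).roots.toFinset := by
      intro z hz
      rw [Finset.mem_image] at hz
      obtain ⟨i, _, rfl⟩ := hz
      rw [Multiset.mem_toFinset, mem_roots hm0, IsRoot.def, eval_map_algebraMap]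
      exact hroot i
    have h2 := Finset.card_le_card h1
    rw [Finset.card_image_of_injective _ hinj, Finset.card_univ, Fintype.card_fin] at h2
    refine h2.trans ((Multiset.toFinset_card_le _).trans ((card_roots' _).trans ?_))
    rw [natDegree_map]
  apply IntermediateField.eq_of_le_of_finrank_le hle
  rw [IntermediateField.adjoin.finrank hint]
  exact (finrank_RF_le n hn).trans hdeg

end

end Pool.Agent.K369
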