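import Mathlib
import Pool.Agent.K369.Puis
import Pool.Agent.K369.Legendre

set_option autoImplicit false
set_option linter.all false

/-!
# A change of variable making residues squares
-/

namespace Pool.Agent.K369

open Polynomial Pool.Agent.Helper165.P1 Pool.Agent.Helper165.P1.NP

section

variable {E : Type*} [Field E]

theorem dvd_of_aeval {k Ω : Type*} [Field k] [Field Ω] [Algebra k Ω] {y : k[X]}
    (hy : Irreducible y) {η : Ω} (hη : aeval η y = 0) {P : k[X]} (hP : aeval η P = 0) :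
    y ∣ P := by
  have h1 := minpoly.eq_of_irreducible hy hη
  exact (Dvd.intro _ h1).trans (minpoly.dvd k η hP)

theorem dvd_of_RF_le (n l : ℕ) (hn : 0 < n) (hl : 0 < l) (h : RF E l hl ≤ RF E n hn) : l ∣ n := by
  have h1 : eP l hl (HahnSeries.single 1 1) ∈ RF E l hl := ⟨_, rfl⟩
  obtain ⟨z, hz⟩ := h h1
  have h2 : (eHom n hn z).coeff ((1 : ℚ) / l) ≠ 0 := by
    have h3 : eHom n hn z = eHom l hl (HahnSeries.single 1 1) := congrArg Subtype.val hz
    rw [h3]
    have h4 := eHom_coeff l hl (HahnSeries.single (1 : ℤ) (1 : E)) 1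
    rw [HahnSeries.coeff_single_same] at h4
    rw [Int.cast_one] at h4
    rw [h4]
    exact one_ne_zero
  by_contra hcon
  apply h2
  apply eHom_coeff_of_ne
  intro j hj
  have hn' : (n : ℚ) ≠ 0 := by exact_mod_cast hn.ne'
  have hl' : (l : ℚ) ≠ 0 := by exact_mod_cast hl.ne'
  rw [div_eq_div_iff hn' hl', one_mul] at hj
  apply hcon
  have h5 : (j : ℤ) * (l : ℤ) = (n : ℤ) := by exact_mod_cast hj
  have h6 : (l : ℤ) ∣ (n : ℤ) := Dvd.intro_left _ h5
  exact_mod_cast h6

theorem exists_twist [IsAlgClosed E] [CharZero E] (a : (LS E)[X]) (h0 : a.eval 0 ≠ 0) :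
    ∃ (γ : LS E) (N : ℕ), γ ≠ 0 ∧ 1 ≤ N ∧ ∀ y, Irreducible y → y ∣ a.comp (C γ * X ^ (2 ^ N)) →
      ∀ g : (LS E)[X], ∃ n, y ∣ n ^ 2 - g.comp (C γ * X ^ (2 ^ N)) := by
  classical
  have ha : a ≠ 0 := by
    rintro rfl
    simp at h0
  choose n hn hadj using fun ξ : Pui E => exists_adjoin_eq ξ
  have hmem : ∀ ξ : Pui E, ∃ x : LS E, eP (n ξ) (hn ξ) x = ξ := by
    intro ξ
    have h1 : ξ ∈ IntermediateField.adjoin (LS E) {ξ} :=
      IntermediateField.mem_adjoin_simple_self _ _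
    rw [hadj] at h1
    exact h1
  choose x hx using hmem
  let R : Finset (Pui E) := (a.map (algebraMap (LS E) (Pui E))).roots.toFinset
  let c : ℤ := 1 + ∑ ξ ∈ R, |(x ξ).order|
  let N : ℕ := 1 + ∑ ξ ∈ R, ((n ξ : ℤ) * c - (x ξ).order).natAbs
  have hc : ∀ ξ ∈ R, (x ξ).order < (n ξ : ℤ) * c := by
    intro ξ hξ
    have h1 : |(x ξ).order| ≤ ∑ ξ ∈ R, |(x ξ).order| :=
      Finset.single_le_sum (f := fun ξ => |(x ξ).order|) (fun _ _ => abs_nonneg _) hξ
    have h2 := le_abs_self (x ξ).order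
    have h3 : (1 : ℤ) ≤ n ξ := by exact_mod_cast hn ξ
    have h4 : 0 ≤ ∑ ξ ∈ R, |(x ξ).order| := Finset.sum_nonneg fun _ _ => abs_nonneg _
    have h5 : c ≤ (n ξ : ℤ) * c := by
      have : (0 : ℤ) ≤ c := by simp only [c]; omega
      nlinarith
    have h6 : c = 1 + ∑ ξ ∈ R, |(x ξ).order| := rfl
    omega
  have hNb : ∀ ξ ∈ R, ((n ξ : ℤ) * c - (x ξ).order).natAbs < 2 ^ N := by
    intro ξ hξ
    have h1 : ((n ξ : ℤ) * c - (x ξ).order).natAbs ≤
        ∑ ξ ∈ R, ((n ξ : ℤ) * c - (x ξ).order).natAbs :=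
      Finset.single_le_sum (f := fun ξ => ((n ξ : ℤ) * c - (x ξ).order).natAbs)
        (fun _ _ => Nat.zero_le _) hξ
    have h2 : N < 2 ^ N := Nat.lt_two_pow_self
    have h3 : N = 1 + ∑ ξ ∈ R, ((n ξ : ℤ) * c - (x ξ).order).natAbs := rfl
    omega
  have hγ0 : (HahnSeries.single c (1 : E) : LS E) ≠ 0 := HahnSeries.single_ne_zero one_ne_zero
  refine ⟨HahnSeries.single c 1, N, hγ0, Nat.le_add_right _ _, fun y hy hya g => ?_⟩
  set γ : LS E := HahnSeries.single c 1 with hγ
  have hyd : 0 < y.natDegree := hy.natDegree_pos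
  obtain ⟨η, hη⟩ := IsAlgClosed.exists_aeval_eq_zero (k := Pui E) y (by
    intro h
    rw [degree_eq_natDegree hy.ne_zero] at h
    have : y.natDegree = 0 := by exact_mod_cast h
    omega)
  set ξ : Pui E := algebraMap (LS E) (Pui E) γ * η ^ (2 ^ N) with hξdef
  have hcomp : ∀ P : (LS E)[X], aeval η (P.comp (C γ * X ^ (2 ^ N))) = aeval ξ P := by
    intro P
    rw [aeval_comp, map_mul, aeval_C, map_pow, aeval_X]
  have haξ : aeval ξ a = 0 := by
    rw [← hcomp]
    obtain ⟨q, hq⟩ := hya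
    rw [hq, map_mul, hη, zero_mul]
  have hξR : ξ ∈ R := by
    have hm0 : a.map (algebraMap (LS E) (Pui E)) ≠ 0 :=
      (Polynomial.map_ne_zero_iff (algebraMap (LS E) (Pui E)).injective).2 ha
    rw [Multiset.mem_toFinset, mem_roots hm0, IsRoot.def, eval_map_algebraMap]
    exact haξ
  have hξ0 : ξ ≠ 0 := by
    intro h
    rw [h] at haξ
    apply h0
    have h1 : aeval (0 : Pui E) a = algebraMap (LS E) (Pui E) (a.eval 0) := by
      rw [← map_zero (algebraMap (LS E) (Pui E)), aeval_algebraMap_apply, coe_aeval_eq_eval]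
    rw [h1] at haξ
    exact (map_eq_zero_iff _ (algebraMap (LS E) (Pui E)).injective).1 haξ
  have hle : IntermediateField.adjoin (LS E) {ξ} ≤ IntermediateField.adjoin (LS E) {η} := by
    rw [IntermediateField.adjoin_le_iff, Set.singleton_subset_iff]
    exact mul_mem (IntermediateField.algebraMap_mem _ _)
      (pow_mem (IntermediateField.mem_adjoin_simple_self _ _) _)
  rw [hadj, hadj] at hle
  obtain ⟨d, hd⟩ := dvd_of_RF_le _ _ _ _ hle
  have hd0 : 0 < d := Nat.pos_of_ne_zero (by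
    rintro rfl
    have := hn η
    omega)
  have hup : ∀ z : LS E, eP (n ξ) (hn ξ) z = eP (n η) (hn η) (expandHom d hd0 z) := by
    intro z
    rw [← eP_expand (n ξ) d (hn ξ) hd0]
    apply Subtype.ext
    change eHom (d * n ξ) _ _ = eHom (n η) _ _
    exact eHom_congr (by rw [hd, mul_comm]) _ _ _
  have hx0 : x ξ ≠ 0 := by
    intro h
    have h1 := hx ξ
    rw [h, map_zero] at h1
    exact hξ0 h1.symm
  have hh0 : x η ≠ 0 := by
    intro h
    have h1 := hx η
    rw [h, map_zero] at h1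
    apply hξ0
    rw [hξdef, ← h1, zero_pow (by positivity), mul_zero]
  have hrel : expandHom d hd0 (x ξ) = expandHom (n η) (hn η) γ * (x η) ^ (2 ^ N) := by
    apply (eP (E := E) (n η) (hn η)).injective
    rw [← hup, hx ξ, map_mul, map_pow, hx η, ← eP_one (n η) (hn η)]
    exact hξdef
  have hord : (d : ℤ) * (x ξ).order = (n η : ℤ) * c + 2 ^ N * (x η).order := by
    have h1 := congrArg HahnSeries.order hrel
    have hγ1 : expandHom (n η) (hn η) γ ≠ 0 := by
      intro h
      apply hγ0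
      apply (expandHom (E := E) (n η) (hn η)).injective
      rw [h, map_zero]
    rw [order_expandHom _ _ _ hx0, HahnSeries.order_mul hγ1 (pow_ne_zero _ hh0),
      order_expandHom _ _ _ hγ0, HahnSeries.order_pow, hγ,
      HahnSeries.order_single one_ne_zero, nsmul_eq_mul] at h1
    rw [h1]
    push_cast
    ring
  have heven : Even d := by
    by_contra hodd
    rw [Nat.not_even_iff_odd] at hodd
    have h1 : (d : ℤ) * ((n ξ : ℤ) * c - (x ξ).order) = 2 ^ N * (-(x η).order) := by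
      have h2 : (n η : ℤ) = (n ξ : ℤ) * (d : ℤ) := by exact_mod_cast hd
      rw [h2] at hord
      linear_combination -hord
    have h2 : (2 ^ N : ℤ) ∣ (d : ℤ) * ((n ξ : ℤ) * c - (x ξ).order) := Dvd.intro _ h1.symm
    have h3 : IsCoprime (2 ^ N : ℤ) (d : ℤ) := by
      have h4 : Nat.Coprime (2 ^ N) d :=
        Nat.Coprime.pow_left _ (Nat.coprime_two_left.2 hodd)
      exact_mod_cast Nat.isCoprime_iff_coprime.2 h4
    have h4 := h3.dvd_of_dvd_mul_left h2
    have h5 := hc ξ hξR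
    have h6 := Int.natAbs_dvd_natAbs.2 h4
    have h7 := Nat.le_of_dvd (by
      apply Int.natAbs_pos.2
      omega) h6
    have h8 := hNb ξ hξR
    rw [Int.natAbs_pow] at h7
    change 2 ^ N ≤ _ at h7
    omega
  -- the value of `g`
  have hz : aeval ξ g ∈ RF E (n ξ) (hn ξ) := by
    rw [← hadj]
    have h1 : aeval ξ g ∈ Algebra.adjoin (LS E) {ξ} := by
      rw [Algebra.adjoin_singleton_eq_range_aeval]
      exact ⟨g, rfl⟩
    exact IntermediateField.algebra_adjoin_le_adjoin _ _ h1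
  obtain ⟨z, hz⟩ := hz
  change eP (n ξ) (hn ξ) z = aeval ξ g at hz
  by_cases hz0 : z = 0
  · refine ⟨0, dvd_of_aeval hy hη ?_⟩
    rw [map_sub, hcomp, ← hz, hz0]
    simp
  · have h1 : Even (expandHom d hd0 z).order := by
      rw [order_expandHom _ _ _ hz0]
      obtain ⟨e, he⟩ := heven
      exact ⟨e * z.order, by rw [he]; push_cast; ring⟩
    have h2 : expandHom d hd0 z ≠ 0 := by
      intro h
      apply hz0
      apply (expandHom (E := E) d hd0).injective
      rw [h, map_zero]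
    obtain ⟨w, hw⟩ := exists_sqrt _ h2 h1
    have hρ : eP (n η) (hn η) w ∈ IntermediateField.adjoin (LS E) {η} := by
      rw [hadj]
      exact ⟨w, rfl⟩
    have hint : IsIntegral (LS E) η := by
      have h3 : IsAlgebraic (LS E) η := ⟨y, hy.ne_zero, hη⟩
      exact h3.isIntegral
    obtain ⟨f, hf⟩ : ∃ f : (LS E)[X], aeval η f = eP (n η) (hn η) w := by
      have h4 : eP (n η) (hn η) w ∈ Algebra.adjoin (LS E) {η} := by
        rw [← IntermediateField.adjoin_simple_toSubalgebra_of_isAlgebraic hint.isAlgebraic]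
        exact hρ
      rw [Algebra.adjoin_singleton_eq_range_aeval] at h4
      obtain ⟨f, hf⟩ := h4
      exact ⟨f, hf⟩
    refine ⟨f, dvd_of_aeval hy hη ?_⟩
    rw [map_sub, map_pow, hcomp, hf, ← map_pow, hw, ← hup, hz, sub_self]

end

end Pool.Agent.K369
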