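import Mathlib
import Pool.Agent.K369.Twist
import Pool.Agent.K369.CharTwo

set_option autoImplicit false
set_option linter.all false

/-!
# Quadric bundles over a field of Laurent series
-/

namespace Pool.Agent.K369

open Polynomial Pool.Agent.Helper165.P1 Pool.Agent.Helper165.P1.NP

section General

variable {k : Type*} [Field k]

theorem sqf_comp [CharZero k] (a : k[X]) (ha : Squarefree a) (h0 : a.eval 0 ≠ 0) (γ : k)
    (hγ : γ ≠ 0) (M : ℕ) (hM : 1 ≤ M) : Squarefree (a.comp (C γ * X ^ M)) := by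
  have hsep : a.Separable := PerfectField.separable_iff_squarefree.2 ha
  apply Polynomial.Separable.squarefree
  rw [Polynomial.separable_def, derivative_comp]
  have h1 : IsCoprime (a.comp (C γ * X ^ M)) (a.derivative.comp (C γ * X ^ M)) := by
    have := (Polynomial.separable_def _).1 hsep
    exact this.map (compRingHom (C γ * X ^ M))
  have h2 : IsCoprime (a.comp (C γ * X ^ M)) (derivative (C γ * X ^ M)) := by
    have h3 : IsCoprime (a.comp (C γ * X ^ M)) X := by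
      have h4 : ¬ X ∣ a.comp (C γ * X ^ M) := by
        rw [X_dvd_iff, coeff_zero_eq_eval_zero, eval_comp]
        simp only [eval_mul, eval_C, eval_pow, eval_X, zero_pow (by omega : M ≠ 0), mul_zero]
        exact h0
      exact (irreducible_X.coprime_iff_not_dvd.2 h4).symm
    have h5 : derivative (C γ * X ^ M) = C (γ * M) * X ^ (M - 1) := by
      rw [derivative_C_mul_X_pow]
    rw [h5]
    refine IsCoprime.mul_right ?_ h3.pow_right
    refine ⟨0, C (γ * M)⁻¹, ?_⟩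
    rw [zero_mul, zero_add, ← C_mul, inv_mul_cancel₀, C_1]
    exact mul_ne_zero hγ (by exact_mod_cast (by omega : M ≠ 0))
  exact h2.mul_right h1

theorem exists_split (a : k[X]) (ha : a ≠ 0) :
    ∃ (j : ℕ) (f b : k[X]), f ≠ 0 ∧ a = X ^ j * f ^ 2 * b ∧ Squarefree b ∧ b.eval 0 ≠ 0 := by
  obtain ⟨q, hq, hX⟩ := exists_eq_pow_rootMultiplicity_mul_and_not_dvd a ha 0
  rw [C_0, sub_zero] at hq hX
  have hq0 : q ≠ 0 := by
    rintro rfl
    rw [mul_zero] at hq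
    exact ha hq
  obtain ⟨f, b, hfb, hb⟩ := exists_squarefree_part q hq0
  refine ⟨rootMultiplicity 0 a, f, b, ?_, ?_, hb, ?_⟩
  · rintro rfl
    apply hq0
    rw [hfb]
    ring
  · conv_lhs => rw [hq, hfb]
    ring
  · intro h
    apply hX
    rw [X_dvd_iff, coeff_zero_eq_eval_zero, hfb, eval_mul, h, mul_zero]

end General

section

variable {E : Type*} [Field E] [IsAlgClosed E] [CharZero E]

/-- Ternary diagonal forms over the field of Laurent series have nontrivial zeros. -/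
theorem ls_conic (a b : LS E) : ∃ x y z : LS E, (x ≠ 0 ∨ y ≠ 0 ∨ z ≠ 0) ∧
    x ^ 2 = a * y ^ 2 + b * z ^ 2 := by
  by_cases ha : a = 0
  · exact ⟨0, 1, 0, Or.inr (Or.inl one_ne_zero), by rw [ha]; ring⟩
  by_cases hb : b = 0
  · exact ⟨0, 0, 1, Or.inr (Or.inr one_ne_zero), by rw [hb]; ring⟩
  by_cases hae : Even a.order
  · obtain ⟨w, hw⟩ := exists_sqrt a ha hae
    exact ⟨w, 1, 0, Or.inr (Or.inl one_ne_zero), by rw [hw]; ring⟩
  by_cases hbe : Even b.order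
  · obtain ⟨w, hw⟩ := exists_sqrt b hb hbe
    exact ⟨w, 0, 1, Or.inr (Or.inr one_ne_zero), by rw [hw]; ring⟩
  have hab : Even (-(a * b)).order := by
    rw [HahnSeries.order_neg, HahnSeries.order_mul ha hb]
    rw [Int.not_even_iff_odd] at hae hbe
    exact hae.add_odd hbe
  obtain ⟨w, hw⟩ := exists_sqrt (-(a * b)) (neg_ne_zero.2 (mul_ne_zero ha hb)) hab
  refine ⟨0, w, a, Or.inr (Or.inr ha), ?_⟩
  rw [hw]
  ring

/-- After a change of variable `X ↦ γ X ^ (2 ^ N)` the equation `x² = a y² + b z²` has a nontrivial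
solution. -/
theorem exists_twist_conic (a b : (LS E)[X]) (ha : a ≠ 0) (hb : b ≠ 0) :
    ∃ (γ : LS E) (N : ℕ), γ ≠ 0 ∧ 1 ≤ N ∧ ∃ x y z : (LS E)[X], (x ≠ 0 ∨ y ≠ 0 ∨ z ≠ 0) ∧
      x ^ 2 = a.comp (C γ * X ^ (2 ^ N)) * y ^ 2 + b.comp (C γ * X ^ (2 ^ N)) * z ^ 2 := by
  classical
  obtain ⟨j, f, a₀, hf, hfa, hsa, ha₀⟩ := exists_split a ha
  obtain ⟨j', f', b₀, hf', hfb, hsb, hb₀⟩ := exists_split b hb
  obtain ⟨γ, N, hγ, hN, htw⟩ := exists_twist (a₀ * b₀) (by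
    rw [eval_mul]; exact mul_ne_zero ha₀ hb₀)
  refine ⟨γ, N, hγ, hN, ?_⟩
  set φ : (LS E)[X] := C γ * X ^ (2 ^ N) with hφ
  have hM : 1 ≤ 2 ^ N := Nat.one_le_two_pow
  have hsa' : Squarefree (a₀.comp φ) := sqf_comp a₀ hsa ha₀ γ hγ _ hM
  have hsb' : Squarefree (b₀.comp φ) := sqf_comp b₀ hsb hb₀ γ hγ _ hM
  have hu : ∀ i : ℕ, IsUnit (C (γ ^ i) : (LS E)[X]) := fun i =>
    isUnit_C.2 (pow_ne_zero _ hγ).isUnit
  have hdvd : ∀ (i : ℕ) (y P : (LS E)[X]), y ∣ C (γ ^ i) * P → y ∣ P := fun i y P h =>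
    (hu i).dvd_mul_left.1 h
  set a₁ : (LS E)[X] := C (γ ^ j) * a₀.comp φ with ha₁
  set b₁ : (LS E)[X] := C (γ ^ j') * b₀.comp φ with hb₁
  have hsa₁ : Squarefree a₁ := fun d hd => hsa' d (hdvd _ _ _ hd)
  have hsb₁ : Squarefree b₁ := fun d hd => hsb' d (hdvd _ _ _ hd)
  have hLC : ∀ y, Irreducible y → LC a₁ b₁ y := by
    intro y hy
    refine ⟨fun h1 _ => ?_, fun h1 _ => ?_, fun a' b' h1 h2 => ?_⟩
    · obtain ⟨n, hn⟩ := htw y hy (by
        rw [mul_comp]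
        exact dvd_mul_of_dvd_right (hdvd _ _ _ h1) _) (C (γ ^ j) * a₀)
      refine ⟨n, ?_⟩
      rwa [mul_comp, C_comp] at hn
    · obtain ⟨n, hn⟩ := htw y hy (by
        rw [mul_comp]
        exact dvd_mul_of_dvd_left (hdvd _ _ _ h1) _) (C (γ ^ j') * b₀)
      refine ⟨n, ?_⟩
      rwa [mul_comp, C_comp] at hn
    · -- the prime divides both
      have hya : y ∣ a₀.comp φ := hdvd _ _ _ (Dvd.intro _ h1.symm)
      have hyb : y ∣ b₀.comp φ := hdvd _ _ _ (Dvd.intro _ h2.symm)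
      obtain ⟨p, a₂, b₂, hp0, hcop, ea, eb⟩ : ∃ p a₂ b₂ : (LS E)[X], p ≠ 0 ∧
          IsCoprime a₂ b₂ ∧ a₀ = p * a₂ ∧ b₀ = p * b₂ := by
        have hg : EuclideanDomain.gcd a₀ b₀ ≠ 0 := fun h =>
          hsa.ne_zero (EuclideanDomain.gcd_eq_zero_iff.1 h).1
        obtain ⟨a₂, ha₂⟩ := EuclideanDomain.gcd_dvd_left a₀ b₀
        obtain ⟨b₂, hb₂⟩ := EuclideanDomain.gcd_dvd_right a₀ b₀
        refine ⟨EuclideanDomain.gcd a₀ b₀, a₂, b₂, hg, ?_, ha₂, hb₂⟩
        refine ⟨EuclideanDomain.gcdA a₀ b₀, EuclideanDomain.gcdB a₀ b₀, ?_⟩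
        apply mul_left_cancel₀ hg
        have h3 := EuclideanDomain.gcd_eq_gcd_ab a₀ b₀
        set g := EuclideanDomain.gcd a₀ b₀
        have h4 : g = a₀ * EuclideanDomain.gcdA a₀ b₀ + b₀ * EuclideanDomain.gcdB a₀ b₀ := h3
        calc g * (EuclideanDomain.gcdA a₀ b₀ * a₂ + EuclideanDomain.gcdB a₀ b₀ * b₂)
            = (g * a₂) * EuclideanDomain.gcdA a₀ b₀ + (g * b₂) * EuclideanDomain.gcdB a₀ b₀ := by
              ring
          _ = a₀ * EuclideanDomain.gcdA a₀ b₀ + b₀ * EuclideanDomain.gcdB a₀ b₀ := by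
              rw [← ha₂, ← hb₂]
          _ = g * 1 := by rw [← h4, mul_one]
      have hcop' : IsCoprime (a₂.comp φ) (b₂.comp φ) := hcop.map (compRingHom φ)
      have hyp : y ∣ p.comp φ := by
        by_contra hyp
        rw [ea, mul_comp] at hya
        rw [eb, mul_comp] at hyb
        have h3 := (hy.prime.dvd_or_dvd hya).resolve_left hyp
        have h4 := (hy.prime.dvd_or_dvd hyb).resolve_left hyp
        exact hy.not_isUnit (hcop'.isUnit_of_dvd' h3 h4)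
      obtain ⟨r, hr⟩ := hyp
      have ea' : a' = C (γ ^ j) * r * a₂.comp φ := by
        apply mul_left_cancel₀ hy.ne_zero
        rw [← h1, ha₁, ea, mul_comp, hr]
        ring
      have eb' : b' = C (γ ^ j') * r * b₂.comp φ := by
        apply mul_left_cancel₀ hy.ne_zero
        rw [← h2, hb₁, eb, mul_comp, hr]
        ring
      obtain ⟨n, hn⟩ := htw y hy (by
        rw [mul_comp]
        exact dvd_mul_of_dvd_left hya _) (-(C (γ ^ j) * C (γ ^ j') * (a₂ * b₂)))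
      refine ⟨r * n, ?_⟩
      have h3 : (r * n) ^ 2 + a' * b' =
          r ^ 2 * (n ^ 2 - (-(C (γ ^ j) * C (γ ^ j') * (a₂ * b₂))).comp φ) := by
        rw [ea', eb', neg_comp, mul_comp, mul_comp, mul_comp, C_comp, C_comp]
        ring
      rw [h3]
      exact dvd_mul_of_dvd_right hn _
  obtain ⟨x, y, z, hne, hxyz⟩ := legendre ls_conic _ a₁ b₁ le_rfl hsa₁ hsb₁ hLC
  obtain ⟨N', rfl⟩ : ∃ N', N = N' + 1 := ⟨N - 1, by omega⟩
  have hF : ∀ (i : ℕ) (h c c₀ : (LS E)[X]), c = X ^ i * h ^ 2 * c₀ →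
      c.comp φ = C (γ ^ i) * c₀.comp φ * (X ^ (2 ^ N' * i) * h.comp φ) ^ 2 := by
    intro i h c c₀ hc
    rw [hc, mul_comp, mul_comp, pow_comp, pow_comp, X_comp, hφ, C_pow]
    ring
  set F : (LS E)[X] := X ^ (2 ^ N' * j) * f.comp φ with hFdef
  set G : (LS E)[X] := X ^ (2 ^ N' * j') * f'.comp φ with hGdef
  have hcomp0 : ∀ h : (LS E)[X], h ≠ 0 → h.comp φ ≠ 0 := by
    intro h hh h0
    rcases comp_eq_zero_iff.1 h0 with h1 | ⟨_, h2⟩
    · exact hh h1
    · have h3 := congrArg natDegree h2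
      rw [hφ, natDegree_C_mul_X_pow _ _ hγ, natDegree_C] at h3
      exact absurd h3 (by positivity)
  have hF0 : F ≠ 0 := mul_ne_zero (pow_ne_zero _ X_ne_zero) (hcomp0 f hf)
  have hG0 : G ≠ 0 := mul_ne_zero (pow_ne_zero _ X_ne_zero) (hcomp0 f' hf')
  refine ⟨x * F * G, y * G, z * F, ?_, ?_⟩
  · rcases hne with h | h | h
    · exact Or.inl (mul_ne_zero (mul_ne_zero h hF0) hG0)
    · exact Or.inr (Or.inl (mul_ne_zero h hG0))
    · exact Or.inr (Or.inr (mul_ne_zero h hF0))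
  · rw [hF j f a a₀ hfa, hF j' f' b b₀ hfb]
    linear_combination (F * G) ^ 2 * hxyz

end

end Pool.Agent.K369
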