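import Mathlib
import Pool.Agent.K369.Laurent

set_option autoImplicit false
set_option linter.all false

/-!
# Quadric bundles over a field of Laurent series, end of the proof
-/

namespace Pool.Agent.K369

open Polynomial Pool.Agent.Helper165.P1 Pool.Agent.Helper165.P1.NP

section Moebius

variable {k : Type*} [Field k] {m N : ℕ}

theorem moebius_aux1 {K : Type*} [Field K] (u : K) (h : 1 - u ≠ 0) :
    (u / (1 - u)) / (1 + u / (1 - u)) = u := by
  have h4 : (1 : K) + u / (1 - u) = 1 / (1 - u) := by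
    field_simp
    ring
  rw [h4]
  field_simp

theorem moebius_aux2 {K : Type*} [Field K] (u a b g : K) (h : 1 - u ≠ 0) (M : ℕ) :
    (1 - u) ^ M * (a + g * (u / (1 - u)) ^ M * b) = (1 - u) ^ M * a + g * u ^ M * b := by
  rw [div_pow]
  field_simp

/-- The change of parameter `X = u / (1 - u)`. -/
theorem exists_zero_moebius {A : Fin N → Fin N → MvPolynomial (Fin (m + 1)) k} {a : Fin N → ℤ}
    {δ : ℤ} (hA : IsQuadricBundle A a δ) (t₀ t₁ : Fin (m + 1) → k) (γ : k) (M : ℕ)
    (z : Fin N → k[X]) (hz : z ≠ 0)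
    (hq : qval A (fun i => C (t₀ i) + C γ * X ^ M * C (t₁ i)) z = 0) :
    ∃ z' : Fin N → k[X], z' ≠ 0 ∧
      qval A (fun i => (1 - X) ^ M * C (t₀ i) + C γ * X ^ M * C (t₁ i)) z' = 0 := by
  classical
  let K := FractionRing k[X]
  let u : K := algebraMap k[X] K X
  have hinj : Function.Injective (algebraMap k[X] K) := IsFractionRing.injective k[X] K
  have hu1 : (1 : K) - u ≠ 0 := by
    intro h
    have h1 : algebraMap k[X] K (1 - X) = 0 := by rw [map_sub, map_one]; exact h
    have h2 : (1 - X : k[X]) = 0 := by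
      apply hinj
      rw [h1, map_zero]
    have h3 := congrArg (eval 0) h2
    simp at h3
  let w : K := u / (1 - u)
  let ψ : k[X] →ₐ[k] K := aeval w
  have hψ : Function.Injective ψ := by
    rw [injective_iff_map_eq_zero]
    intro p hp
    by_contra hp0
    have h1 : IsAlgebraic k w := ⟨p, hp0, hp⟩
    have h2 : IsAlgebraic k (w / (1 + w)) := h1.mul ((isAlgebraic_one.add h1).inv)
    have h3 : w / (1 + w) = u := moebius_aux1 u hu1
    rw [h3] at h2
    have h5 : Transcendental k (X : k[X]) := Polynomial.transcendental_X k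
    exact ((transcendental_algebraMap_iff hinj).2 h5) h2
  -- the equation in `K`
  have h1 := congrArg ψ hq
  rw [map_zero, qval_map] at h1
  set l : K := (1 - u) ^ M with hl
  have hl0 : l ≠ 0 := pow_ne_zero _ hu1
  have h2 := qval_torus hA (fun i => ψ (C (t₀ i) + C γ * X ^ M * C (t₁ i))) (fun i => ψ (z i)) l 1
    hl0
  rw [h1, mul_zero] at h2
  have h3 : l • (fun i => ψ (C (t₀ i) + C γ * X ^ M * C (t₁ i))) =
      fun i => algebraMap k[X] K ((1 - X) ^ M * C (t₀ i) + C γ * X ^ M * C (t₁ i)) := by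
    funext i
    simp only [Pi.smul_apply, smul_eq_mul, ψ, map_add, map_mul, map_pow, aeval_C, aeval_X,
      map_sub, map_one]
    have h4 : ∀ c : k, algebraMap k[X] K (C c) = algebraMap k K c := fun c => by
      rw [C_eq_algebraMap, ← IsScalarTower.algebraMap_apply]
    rw [h4, h4, h4]
    change l * (algebraMap k K (t₀ i) + algebraMap k K γ * w ^ M * algebraMap k K (t₁ i)) =
      (1 - u) ^ M * algebraMap k K (t₀ i) + algebraMap k K γ * u ^ M * algebraMap k K (t₁ i)
    exact moebius_aux2 u _ _ _ hu1 M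
  rw [h3] at h2
  -- clearing denominators
  obtain ⟨⟨D, hD⟩, hDz⟩ := IsLocalization.exist_integer_multiples_of_finset (nonZeroDivisors k[X])
    (Finset.univ.image fun i => 1 * l ^ (-(a i)) * ψ (z i))
  have hD0 : D ≠ 0 := nonZeroDivisors.ne_zero hD
  have hex : ∀ i, ∃ y : k[X], algebraMap k[X] K y =
      algebraMap k[X] K D * (1 * l ^ (-(a i)) * ψ (z i)) := by
    intro i
    obtain ⟨y, hy⟩ := hDz _ (Finset.mem_image_of_mem _ (Finset.mem_univ i))
    refine ⟨y, hy.trans ?_⟩
    exact Algebra.smul_def _ _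
  choose y hy using hex
  refine ⟨y, ?_, ?_⟩
  · intro h0
    apply hz
    funext i
    have h4 := hy i
    rw [h0, Pi.zero_apply, map_zero] at h4
    have h5 : ψ (z i) = 0 := by
      rcases mul_eq_zero.1 h4.symm with h6 | h6
      · exact absurd (hinj (h6.trans (map_zero _).symm)) hD0
      · rcases mul_eq_zero.1 h6 with h7 | h7
        · exact absurd h7 (mul_ne_zero one_ne_zero (zpow_ne_zero _ hl0))
        · exact h7
    exact hψ (h5.trans (map_zero _).symm)
  · apply hinj
    rw [map_zero]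
    have h4 := qval_map A (IsScalarTower.toAlgHom k k[X] K)
      (fun i => (1 - X) ^ M * C (t₀ i) + C γ * X ^ M * C (t₁ i)) y
    simp only [IsScalarTower.coe_toAlgHom'] at h4
    rw [h4]
    have h5 : (fun i => algebraMap k[X] K (y i)) =
        fun i => algebraMap k[X] K D * (1 * l ^ (-(a i)) * ψ (z i)) := funext hy
    rw [h5, qval_smul, h2, mul_zero]

end Moebius

section

variable {E : Type*} [Field E] [IsAlgClosed E] [CharZero E] {m N : ℕ}

theorem qval_comp {k : Type*} [Field k] (A : Fin N → Fin N → MvPolynomial (Fin (m + 1)) k)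
    (σ : Fin (m + 1) → k[X]) (v : Fin N → k[X]) (φ : k[X]) :
    qval A (fun i => (σ i).comp φ) (fun i => (v i).comp φ) = (qval A σ v).comp φ := by
  have h := qval_map A (aeval φ : k[X] →ₐ[k] k[X]) σ v
  rw [comp_eq_aeval, h]
  simp only [comp_eq_aeval]

/-- After a change of variable `X ↦ γ X ^ (2 ^ n)` a family of quadratic forms in at least three
variables has a nontrivial zero. -/
theorem exists_zero_twist (A : Fin N → Fin N → MvPolynomial (Fin (m + 1)) (LS E)) (hN : 3 ≤ N)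
    (σ : Fin (m + 1) → (LS E)[X]) :
    ∃ (γ : LS E) (n : ℕ), γ ≠ 0 ∧ 1 ≤ n ∧ ∃ z : Fin N → (LS E)[X], z ≠ 0 ∧
      qval A (fun i => (σ i).comp (C γ * X ^ (2 ^ n))) z = 0 := by
  classical
  have hcomp0 : ∀ (γ : LS E) (n : ℕ), γ ≠ 0 → ∀ h : (LS E)[X], h ≠ 0 →
      h.comp (C γ * X ^ (2 ^ n)) ≠ 0 := by
    intro γ n hγ h hh h0
    rcases comp_eq_zero_iff.1 h0 with h1 | ⟨_, h2⟩
    · exact hh h1
    · have h3 := congrArg natDegree h2
      rw [natDegree_C_mul_X_pow _ _ hγ, natDegree_C] at h3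
      exact absurd h3 (by positivity)
  have hzero : ∀ v : Fin N → (LS E)[X], v ≠ 0 → qval A σ v = 0 →
      ∃ (γ : LS E) (n : ℕ), γ ≠ 0 ∧ 1 ≤ n ∧ ∃ z : Fin N → (LS E)[X], z ≠ 0 ∧
      qval A (fun i => (σ i).comp (C γ * X ^ (2 ^ n))) z = 0 := by
    intro v hv hq
    refine ⟨1, 1, one_ne_zero, le_rfl, fun i => (v i).comp (C 1 * X ^ (2 ^ 1)), ?_, ?_⟩
    · intro h0
      obtain ⟨i, hi⟩ := Function.ne_iff.1 hv
      exact hcomp0 1 1 one_ne_zero (v i) hi (congrFun h0 i)
    · rw [qval_comp, hq, zero_comp]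
  let i0 : Fin N := ⟨0, by omega⟩
  let i1 : Fin N := ⟨1, by omega⟩
  let i2 : Fin N := ⟨2, by omega⟩
  have h01 : i0 ≠ i1 := by simp [i0, i1, Fin.ext_iff]
  have h02 : i0 ≠ i2 := by simp [i0, i2, Fin.ext_iff]
  have h12 : i1 ≠ i2 := by simp [i1, i2, Fin.ext_iff]
  let e : Fin N → Fin N → (LS E)[X] := fun i => Pi.single i 1
  have e_same : ∀ i, e i i = 1 := fun i => by simp [e]
  have e_ne : ∀ i j, j ≠ i → e i j = 0 := fun i j h => by
    simp only [e]
    rw [Pi.single_eq_of_ne h]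
  have two0 : (2 : (LS E)[X]) ≠ 0 := two_ne_zero
  set d₀ := qval A σ (e i0) with hd₀
  by_cases h0 : d₀ = 0
  · refine hzero (e i0) ?_ h0
    intro h
    have := congrFun h i0
    rw [e_same] at this
    exact one_ne_zero this
  let v₁ : Fin N → (LS E)[X] := fun l => 2 * d₀ * e i1 l + (-qpol A σ (e i0) (e i1)) * e i0 l
  have hv₁1 : v₁ i1 = 2 * d₀ := by
    simp only [v₁]
    rw [e_same, e_ne i0 i1 h01.symm]
    ring
  have hv₁2 : v₁ i2 = 0 := by
    simp only [v₁]
    rw [e_ne i1 i2 h12.symm, e_ne i0 i2 h02.symm]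
    ring
  have o01 : qpol A σ (e i0) v₁ = 0 := by
    simp only [v₁]
    rw [qpol_comb, qpol_self, ← hd₀]
    ring
  set d₁ := qval A σ v₁ with hd₁
  by_cases h1 : d₁ = 0
  · refine hzero v₁ ?_ h1
    intro h
    have := congrFun h i1
    rw [hv₁1] at this
    exact mul_ne_zero two0 h0 this
  let w : Fin N → (LS E)[X] := fun l => 2 * d₀ * e i2 l + (-qpol A σ (e i0) (e i2)) * e i0 l
  have ow : qpol A σ (e i0) w = 0 := by
    simp only [w]
    rw [qpol_comb, qpol_self, ← hd₀]
    ring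
  have hw2 : w i2 = 2 * d₀ := by
    simp only [w]
    rw [e_same, e_ne i0 i2 h02.symm]
    ring
  let v₂ : Fin N → (LS E)[X] := fun l => 2 * d₁ * w l + (-qpol A σ v₁ w) * v₁ l
  have hv₂2 : v₂ i2 = 2 * d₁ * (2 * d₀) := by
    simp only [v₂]
    rw [hw2, hv₁2]
    ring
  have o02 : qpol A σ (e i0) v₂ = 0 := by
    simp only [v₂]
    rw [qpol_comb, ow, o01]
    ring
  have o12 : qpol A σ v₁ v₂ = 0 := by
    simp only [v₂]
    rw [qpol_comb, qpol_self, ← hd₁]
    ring
  set d₂ := qval A σ v₂ with hd₂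
  have hv₂0 : v₂ i2 ≠ 0 := by
    rw [hv₂2]
    exact mul_ne_zero (mul_ne_zero two0 h1) (mul_ne_zero two0 h0)
  by_cases h2 : d₂ = 0
  · refine hzero v₂ ?_ h2
    intro h
    exact hv₂0 (congrFun h i2)
  obtain ⟨γ, n, hγ, hn, x, y, z, hne, hxyz⟩ := exists_twist_conic (-(d₀ * d₁)) (-(d₀ * d₂))
    (neg_ne_zero.2 (mul_ne_zero h0 h1)) (neg_ne_zero.2 (mul_ne_zero h0 h2))
  refine ⟨γ, n, hγ, hn, ?_⟩
  set φ : (LS E)[X] := C γ * X ^ (2 ^ n) with hφ
  have hc0 := hcomp0 γ n hγ
  rw [← hφ] at hc0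
  let v₂' : Fin N → (LS E)[X] := fun l => y * (v₁ l).comp φ + z * (v₂ l).comp φ
  refine ⟨fun l => x * (e i0 l).comp φ + d₀.comp φ * v₂' l, ?_, ?_⟩
  · intro h
    have hz : z = 0 := by
      have h3 := congrFun h i2
      simp only [v₂', Pi.zero_apply] at h3
      rw [e_ne i0 i2 h02.symm, hv₁2, zero_comp, mul_zero, mul_zero, zero_add, zero_add] at h3
      rcases mul_eq_zero.1 h3 with h4 | h4
      · exact absurd h4 (hc0 _ h0)
      · exact (mul_eq_zero.1 h4).resolve_right (hc0 _ hv₂0)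
    have hy : y = 0 := by
      have h3 := congrFun h i1
      simp only [v₂', Pi.zero_apply] at h3
      rw [e_ne i0 i1 h01.symm, hz, zero_comp, mul_zero, zero_mul, zero_add, add_zero] at h3
      rcases mul_eq_zero.1 h3 with h4 | h4
      · exact absurd h4 (hc0 _ h0)
      · refine (mul_eq_zero.1 h4).resolve_right (hc0 _ ?_)
        rw [hv₁1]
        exact mul_ne_zero two0 h0
    have hx : x = 0 := by
      have h3 := congrFun h i0
      simp only [v₂', Pi.zero_apply] at h3
      rw [e_same, hz, hy, one_comp, zero_mul, zero_mul, add_zero, mul_zero, add_zero,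
        mul_one] at h3
      exact h3
    rcases hne with h3 | h3 | h3
    · exact h3 hx
    · exact h3 hy
    · exact h3 hz
  · have hpol : ∀ u v : Fin N → (LS E)[X], qpol A (fun i => (σ i).comp φ)
        (fun i => (u i).comp φ) (fun i => (v i).comp φ) = (qpol A σ u v).comp φ := by
      intro u v
      have h := qpol_map A (aeval φ : (LS E)[X] →ₐ[LS E] (LS E)[X]) σ u v
      rw [comp_eq_aeval, h]
      simp only [comp_eq_aeval]
    rw [qval_comb]
    simp only [v₂']
    rw [qval_comb, qpol_comb, hpol, hpol, hpol, qval_comp, qval_comp, qval_comp, o01, o02, o12,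
      ← hd₀, ← hd₁, ← hd₂]
    rw [neg_comp, neg_comp, mul_comp, mul_comp] at hxyz
    rw [zero_comp]
    linear_combination d₀.comp φ * hxyz

/-- All points of a quadric bundle over a projective space over a field of Laurent series are
R-equivalent. -/
theorem bundle_re_laurent {A : Fin N → Fin N → MvPolynomial (Fin (m + 1)) (LS E)} {a : Fin N → ℤ}
    {δ : ℤ} (hN : 3 ≤ N) (hA : IsQuadricBundle A a δ) (p q : BPt A) : BRE A a p q := by
  refine bundle_re hN hA (fun t₀ t₁ _ _ _ => ?_) p q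
  obtain ⟨γ, n, hγ, hn, z, hz, hqz⟩ :=
    exists_zero_twist A hN (fun i => C (t₀ i) + X * C (t₁ i))
  have h1 : (fun i => ((fun i => C (t₀ i) + X * C (t₁ i)) i : (LS E)[X]).comp
      (C γ * X ^ (2 ^ n))) = fun i => C (t₀ i) + C γ * X ^ (2 ^ n) * C (t₁ i) := by
    funext i
    simp only [add_comp, mul_comp, C_comp, X_comp]
  rw [h1] at hqz
  obtain ⟨z', hz', hqz'⟩ := exists_zero_moebius hA t₀ t₁ γ (2 ^ n) z hz hqz
  have hM : 2 ^ n ≠ 0 := by positivity
  refine ⟨_, 1, γ, one_ne_zero, hγ, ?_, ?_, z', hz', hqz'⟩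
  · intro i
    simp [hM]
  · intro i
    simp [hM]

theorem bundle_nonempty_laurent (A : Fin N → Fin N → MvPolynomial (Fin (m + 1)) (LS E))
    (hN : 3 ≤ N) : Nonempty (BPt A) := by
  obtain ⟨γ, n, hγ, hn, z, hz, hqz⟩ := exists_zero_twist A hN (fun _ => C 1)
  obtain ⟨f, z', hf, hzf, hz'⟩ := exists_primitive z hz
  have hqz' : qval A (fun i => ((fun _ => C 1) i : (LS E)[X]).comp (C γ * X ^ (2 ^ n))) z' = 0 := by
    rw [hzf, qval_smul] at hqz
    exact (mul_eq_zero.1 hqz).resolve_left (pow_ne_zero _ hf)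
  have h1 := qval_map A (Polynomial.aeval (0 : LS E))
    (fun i => ((fun _ => C 1) i : (LS E)[X]).comp (C γ * X ^ (2 ^ n))) z'
  rw [hqz', map_zero] at h1
  simp only [C_comp, coe_aeval_eq_eval, eval_C] at h1
  refine ⟨⟨(fun _ => 1, fun i => (z' i).eval 0), ?_, hz' 0, h1.symm⟩⟩
  intro h
  exact one_ne_zero (congrFun h 0)

end

end Pool.Agent.K369
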