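import Mathlib
import Pool.Agent.K369.FibDefs
import Pool.Agent.K369.Laurent

set_option autoImplicit false
set_option linter.all false

/-!
# The change of variable making residues squares, for a general class of fields
-/

namespace Pool.Agent.K369

open Polynomial

universe u

variable {k : Type u} [Field k]

theorem isSquare_of_pow_two_pow_eq_one (hroots : ∀ n : ℕ, ∃ ζ : k, IsPrimitiveRoot ζ (2 ^ n))
    (e : ℕ) (z : k) (hz : z ^ (2 ^ e) = 1) : IsSquare z := by
  obtain ⟨ω, hω⟩ := hroots (e + 1)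
  have h1 : IsPrimitiveRoot (ω ^ 2) (2 ^ e) := by
    have := hω.pow (by positivity) (show 2 ^ (e + 1) = 2 * 2 ^ e by ring)
    exact this
  haveI : NeZero (2 ^ e) := ⟨by positivity⟩
  obtain ⟨i, _, hi⟩ := h1.eq_pow_of_pow_eq_one hz
  exact ⟨ω ^ i, by rw [← hi]; ring⟩

/-- A nonsquare to a power smaller than `2 ^ N` is not a `2 ^ N`-th power. -/
theorem not_pow_two_pow (hroots : ∀ n : ℕ, ∃ ζ : k, IsPrimitiveRoot ζ (2 ^ n)) {c : k}
    (hc : ¬ IsSquare c) (N m : ℕ) (hm : 0 < m) (hmN : m < 2 ^ N) (w : k) : c ^ m ≠ w ^ (2 ^ N) := by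
  intro h
  obtain ⟨e, m', hm'odd, hm'⟩ := Nat.exists_eq_two_pow_mul_odd hm.ne'
  have hc0 : c ≠ 0 := by
    rintro rfl
    exact hc (IsSquare.zero)
  have heN : e < N := by
    by_contra hcon
    push Not at hcon
    have h1 : 2 ^ N ≤ 2 ^ e := Nat.pow_le_pow_right (by norm_num) hcon
    have h2 : 1 ≤ m' := hm'odd.pos
    have h3 : 2 ^ e * 1 ≤ 2 ^ e * m' := Nat.mul_le_mul_left _ h2
    omega
  obtain ⟨f, rfl⟩ : ∃ f, N = e + 1 + f := ⟨N - (e + 1), by omega⟩
  have hw0 : w ≠ 0 := by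
    rintro rfl
    rw [zero_pow (by positivity)] at h
    exact pow_ne_zero _ hc0 h
  have h1 : (c ^ m' / (w ^ (2 ^ f)) ^ 2) ^ (2 ^ e) = 1 := by
    rw [div_pow, ← pow_mul, mul_comm m', ← hm', h, ← pow_mul, ← pow_mul,
      show 2 ^ f * (2 * 2 ^ e) = 2 ^ (e + 1 + f) by ring]
    exact div_self (pow_ne_zero _ hw0)
  obtain ⟨r, hr⟩ := isSquare_of_pow_two_pow_eq_one hroots e _ h1
  have h2 : c ^ m' = (r * w ^ (2 ^ f)) ^ 2 := by
    have h3 : ((w ^ (2 ^ f)) ^ 2) ≠ 0 := pow_ne_zero _ (pow_ne_zero _ hw0)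
    rw [div_eq_iff h3] at hr
    rw [hr]
    ring
  apply hc
  obtain ⟨l, hl⟩ := hm'odd
  refine ⟨r * w ^ (2 ^ f) / c ^ l, ?_⟩
  have h4 : c ^ l ≠ 0 := pow_ne_zero _ hc0
  rw [div_mul_div_comm, eq_div_iff (mul_ne_zero h4 h4), ← sq (r * w ^ 2 ^ f), ← h2, hl]
  ring

/-- The choice of the twisting constant. -/
theorem exists_twist_const (hroots : ∀ n : ℕ, ∃ ζ : k, IsPrimitiveRoot ζ (2 ^ n))
    (hns : ∃ c : k, ¬ IsSquare c) (R : Finset (k × ℕ)) (hR : ∀ x ∈ R, x.1 ≠ 0 ∧ 0 < x.2) :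
    ∃ (γ : k) (N : ℕ), γ ≠ 0 ∧ 1 ≤ N ∧ ∀ x ∈ R, ∀ w : k, x.1 ≠ γ ^ x.2 * w ^ (2 ^ N) := by
  classical
  obtain ⟨c, hc⟩ := hns
  have hc0 : c ≠ 0 := by
    rintro rfl
    exact hc (IsSquare.zero)
  let D : ℕ := ∑ x ∈ R, x.2
  let N : ℕ := 1 + R.card * D
  have hN : R.card * D < 2 ^ N := by
    have h2 : N < 2 ^ N := Nat.lt_two_pow_self
    have h3 : N = 1 + R.card * D := rfl
    omega
  by_contra hcon
  push Not at hcon
  have h1 : ∀ j : ℕ, ∃ x ∈ R, ∃ w : k, x.1 = (c ^ j) ^ x.2 * w ^ (2 ^ N) := fun j =>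
    hcon (c ^ j) N (pow_ne_zero _ hc0) (Nat.le_add_right _ _)
  choose f hf w hw using h1
  -- pigeonhole
  obtain ⟨j, hj, j', hj', hne, hjj⟩ := Finset.exists_ne_map_eq_of_card_lt_of_maps_to
    (s := Finset.range (R.card + 1)) (t := R) (by simp) (f := f) (fun j _ => hf j)
  wlog hlt : j < j' generalizing j j'
  · exact this j' hj' j hj hne.symm hjj.symm (by omega)
  rw [Finset.mem_range] at hj hj'
  set x := f j with hx
  have e1 := hw j
  have e2 := hw j'
  rw [← hjj] at e2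
  have hx0 := (hR x (hf j)).1
  have hxpos := (hR x (hf j)).2
  have hwj0 : w j' ≠ 0 := by
    intro h0
    rw [h0, zero_pow (by positivity), mul_zero] at e2
    exact hx0 e2
  have e3 : c ^ ((j' - j) * x.2) = (w j / w j') ^ (2 ^ N) := by
    have h3 : (c ^ j) ^ x.2 * w j ^ (2 ^ N) = (c ^ j') ^ x.2 * w j' ^ (2 ^ N) := e1.symm.trans e2
    rw [div_pow, eq_div_iff (pow_ne_zero _ hwj0)]
    have h4 : (c ^ j') ^ x.2 = (c ^ j) ^ x.2 * c ^ ((j' - j) * x.2) := by
      rw [← pow_mul, ← pow_mul, ← pow_add]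
      congr 1
      obtain ⟨i, rfl⟩ : ∃ i, j' = j + i := ⟨j' - j, by omega⟩
      rw [Nat.add_sub_cancel_left]
      ring
    rw [h4] at h3
    have h5 : (c ^ j) ^ x.2 ≠ 0 := pow_ne_zero _ (pow_ne_zero _ hc0)
    apply mul_left_cancel₀ h5
    rw [h3]
    ring
  refine not_pow_two_pow hroots hc N ((j' - j) * x.2) ?_ ?_ _ e3
  · exact Nat.mul_pos (by omega) hxpos
  · have h3 : x.2 ≤ D := Finset.single_le_sum (f := fun x : k × ℕ => x.2)
      (fun _ _ => Nat.zero_le _) (hf j)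
    have h4 : (j' - j) * x.2 ≤ R.card * D := Nat.mul_le_mul (by omega) h3
    omega

/-- The twisting lemma: after `X ↦ γ X ^ (2 ^ N)` everything becomes a square modulo every
irreducible factor of a given polynomial. -/
theorem exists_twist_general (hone : OneQuadratic k)
    (hroots : ∀ n : ℕ, ∃ ζ : k, IsPrimitiveRoot ζ (2 ^ n))
    (hns : ∃ c : k, ¬ IsSquare c) (a : k[X]) (h0 : a.eval 0 ≠ 0) :
    ∃ (γ : k) (N : ℕ), γ ≠ 0 ∧ 1 ≤ N ∧ ∀ y, Irreducible y → y ∣ a.comp (C γ * X ^ (2 ^ N)) →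
      ∀ g : k[X], ∃ n, y ∣ n ^ 2 - g.comp (C γ * X ^ (2 ^ N)) := by
  classical
  have ha : a ≠ 0 := by
    rintro rfl
    simp at h0
  let S : Finset k[X] := (UniqueFactorizationMonoid.normalizedFactors a).toFinset
  let R : Finset (k × ℕ) := S.image fun p => ((-1) ^ p.natDegree * p.coeff 0, p.natDegree)
  have hS : ∀ p ∈ S, Irreducible p ∧ p.Monic ∧ p.coeff 0 ≠ 0 := by
    intro p hp
    rw [Multiset.mem_toFinset] at hp
    refine ⟨UniqueFactorizationMonoid.irreducible_of_normalized_factor p hp, ?_, ?_⟩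
    · have h1 := UniqueFactorizationMonoid.normalize_normalized_factor p hp
      rw [← h1]
      exact monic_normalize (UniqueFactorizationMonoid.irreducible_of_normalized_factor p hp).ne_zero
    · intro h1
      apply h0
      obtain ⟨q, hq⟩ := UniqueFactorizationMonoid.dvd_of_mem_normalizedFactors hp
      rw [hq, eval_mul, ← coeff_zero_eq_eval_zero, h1, zero_mul]
  obtain ⟨γ, N, hγ, hN, hγR⟩ := exists_twist_const hroots hns R (by
    intro x hx
    rw [Finset.mem_image] at hx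
    obtain ⟨p, hp, rfl⟩ := hx
    obtain ⟨h1, h2, h3⟩ := hS p hp
    exact ⟨mul_ne_zero (pow_ne_zero _ (neg_ne_zero.2 one_ne_zero)) h3, h1.natDegree_pos⟩)
  refine ⟨γ, N, hγ, hN, fun y hy hya g => ?_⟩
  set φ : k[X] := C γ * X ^ (2 ^ N) with hφ
  -- an irreducible factor of `a`
  obtain ⟨p, hpS, hyp⟩ : ∃ p ∈ S, y ∣ p.comp φ := by
    have h1 : y ∣ ((UniqueFactorizationMonoid.normalizedFactors a).prod).comp φ := by
      obtain ⟨v, hv⟩ := UniqueFactorizationMonoid.prod_normalizedFactors ha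
      rw [← hv, mul_comp] at hya
      have h2 : IsUnit ((v : k[X]).comp φ) := by
        obtain ⟨r, hr, hr'⟩ := Polynomial.isUnit_iff.1 v.isUnit
        rw [← hr', C_comp]
        exact isUnit_C.2 hr
      exact h2.dvd_mul_right.1 hya
    have h2 : ∀ s : Multiset k[X], y ∣ s.prod.comp φ → ∃ p ∈ s, y ∣ p.comp φ := by
      intro s
      induction s using Multiset.induction_on with
      | empty =>
        intro h
        rw [Multiset.prod_zero, one_comp] at h
        exact absurd (isUnit_of_dvd_one h) hy.not_isUnit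
      | cons p s ih =>
        intro h
        rw [Multiset.prod_cons, mul_comp] at h
        rcases hy.prime.dvd_or_dvd h with h3 | h3
        · exact ⟨p, Multiset.mem_cons_self _ _, h3⟩
        · obtain ⟨q, hq, hq'⟩ := ih h3
          exact ⟨q, Multiset.mem_cons_of_mem hq, hq'⟩
    obtain ⟨p, hp, hp'⟩ := h2 _ h1
    exact ⟨p, Multiset.mem_toFinset.2 hp, hp'⟩
  obtain ⟨hpi, hpm, hp0⟩ := hS p hpS
  haveI : Fact (Irreducible y) := ⟨hy⟩
  haveI : Fact (Irreducible p) := ⟨hpi⟩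
  let L := AdjoinRoot y
  let L₀ := AdjoinRoot p
  let u : L := AdjoinRoot.root y
  let θ : L := algebraMap k L γ * u ^ (2 ^ N)
  have hcomp : ∀ P : k[X], aeval u (P.comp φ) = aeval θ P := by
    intro P
    rw [aeval_comp, hφ, map_mul, aeval_C, map_pow, aeval_X]
  have hzero : ∀ P : k[X], y ∣ P → aeval u P = 0 := by
    intro P hP
    rw [AdjoinRoot.aeval_eq]
    exact AdjoinRoot.mk_eq_zero.2 hP
  have hθ : aeval θ p = 0 := by rw [← hcomp]; exact hzero _ hyp
  let f : L₀ →ₐ[k] L := AdjoinRoot.liftAlgHom p (Algebra.ofId k L) θ (by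
    rw [← hθ]; rfl)
  have hfroot : f (AdjoinRoot.root p) = θ := AdjoinRoot.liftAlgHom_root _ _ _ _
  have hfinj : Function.Injective f := f.toRingHom.injective
  haveI : FiniteDimensional k L₀ := (AdjoinRoot.powerBasis hpi.ne_zero).finite
  have hγL : algebraMap k L γ ≠ 0 := by
    intro h
    exact hγ ((map_eq_zero_iff _ (algebraMap k L).injective).1 h)
  -- `u` is not in the image of `L₀`
  have hu : u ∉ Set.range f := by
    rintro ⟨η, hη⟩
    have h1 : AdjoinRoot.root p = algebraMap k L₀ γ * η ^ (2 ^ N) := by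
      apply hfinj
      rw [hfroot, map_mul, map_pow, hη, AlgHom.commutes]
    have h2 := congrArg (Algebra.norm k) h1
    rw [map_mul, map_pow, Algebra.norm_algebraMap] at h2
    have h3 : Algebra.norm k (AdjoinRoot.root p) = (-1) ^ p.natDegree * p.coeff 0 := by
      have h4 := Algebra.PowerBasis.norm_gen_eq_coeff_zero_minpoly (AdjoinRoot.powerBasis hpi.ne_zero)
      rw [AdjoinRoot.powerBasis_gen, AdjoinRoot.powerBasis_dim,
        AdjoinRoot.minpoly_root hpi.ne_zero, hpm.leadingCoeff, inv_one, C_1, mul_one] at h4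
      exact h4
    have h5 : Module.finrank k L₀ = p.natDegree := by
      rw [(AdjoinRoot.powerBasis hpi.ne_zero).finrank, AdjoinRoot.powerBasis_dim]
    rw [h3, h5] at h2
    exact hγR ((-1) ^ p.natDegree * p.coeff 0, p.natDegree)
      (Finset.mem_image_of_mem (fun p : k[X] => ((-1) ^ p.natDegree * p.coeff 0, p.natDegree)) hpS)
      _ h2
  -- a nonsquare of `L₀` that becomes a square
  have hex : ∃ j : ℕ, u ^ (2 ^ j) ∈ Set.range f := by
    refine ⟨N, AdjoinRoot.root p * algebraMap k L₀ γ⁻¹, ?_⟩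
    rw [map_mul, hfroot, AlgHom.commutes, map_inv₀]
    change algebraMap k L γ * u ^ (2 ^ N) * (algebraMap k L γ)⁻¹ = u ^ (2 ^ N)
    rw [mul_comm (algebraMap k L γ), mul_assoc, mul_inv_cancel₀ hγL, mul_one]
  have hj0 : Nat.find hex ≠ 0 := by
    intro h
    have h1 := Nat.find_spec hex
    rw [h, pow_zero, pow_one] at h1
    exact hu h1
  obtain ⟨j, hj⟩ : ∃ j, Nat.find hex = j + 1 := ⟨Nat.find hex - 1, by omega⟩
  obtain ⟨z, hz⟩ : ∃ z, f z = (u ^ (2 ^ j)) ^ 2 := by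
    obtain ⟨z, hz⟩ := Nat.find_spec hex
    refine ⟨z, ?_⟩
    rw [hz, hj]
    ring
  have hv : u ^ (2 ^ j) ∉ Set.range f := Nat.find_min hex (by omega)
  have hzns : ¬ IsSquare z := by
    rintro ⟨r, hr⟩
    rw [hr, map_mul] at hz
    have h1 : (f r - u ^ (2 ^ j)) * (f r + u ^ (2 ^ j)) = 0 := by linear_combination hz
    rcases mul_eq_zero.1 h1 with h2 | h2
    · exact hv ⟨r, by linear_combination h2⟩
    · exact hv ⟨-r, by rw [map_neg]; linear_combination -h2⟩
  have hz0 : z ≠ 0 := by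
    rintro rfl
    exact hzns (IsSquare.zero)
  have hv0 : u ^ (2 ^ j) ≠ 0 := by
    intro h
    rw [h, zero_pow two_ne_zero] at hz
    exact hz0 (hfinj (by rw [hz, map_zero]))
  -- the value of `g`
  have hc : f (aeval (AdjoinRoot.root p) g) = aeval u (g.comp φ) := by
    rw [hcomp, ← hfroot]
    exact (aeval_algHom_apply f (AdjoinRoot.root p) g).symm
  obtain ⟨w, hw⟩ : ∃ w : L, w ^ 2 = aeval u (g.comp φ) := by
    rcases hone L₀ (aeval (AdjoinRoot.root p) g) z with h1 | h1 | h1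
    · obtain ⟨r, hr⟩ := h1
      refine ⟨f r, ?_⟩
      rw [← hc, hr, map_mul, sq]
    · exact absurd h1 hzns
    · obtain ⟨r, hr⟩ := h1
      refine ⟨f r / u ^ (2 ^ j), ?_⟩
      have h2 := congrArg f hr
      rw [map_mul, map_mul, hz] at h2
      rw [← hc, div_pow, div_eq_iff (pow_ne_zero _ hv0)]
      linear_combination -h2
  obtain ⟨n, hn⟩ := AdjoinRoot.mk_surjective w
  refine ⟨n, ?_⟩
  rw [← AdjoinRoot.mk_eq_zero, map_sub, map_pow, hn, hw, AdjoinRoot.aeval_eq, sub_self]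

end Pool.Agent.K369
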