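import Mathlib
import Pool.Agent.K369.TwistG
import Pool.Agent.K369.LaurentBundle

set_option autoImplicit false
set_option linter.all false

/-!
# Zeros of families of quadratic forms after a change of variable, for a general class of fields
-/

namespace Pool.Agent.K369

open Polynomial

universe u

variable {k : Type u} [Field k] {m N : ℕ}

theorem two_ne_zero_of_roots (hroots : ∀ n : ℕ, ∃ ζ : k, IsPrimitiveRoot ζ (2 ^ n)) :
    (2 : k) ≠ 0 := by
  intro h2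
  obtain ⟨ζ, hζ⟩ := hroots 1
  rw [pow_one] at hζ
  have h1 : ζ ^ 2 = 1 := hζ.pow_eq_one
  have h3 : (ζ - 1) ^ 2 = 0 := by linear_combination h1 + (1 - ζ) * h2
  have h4 : ζ = 1 := by
    have := pow_eq_zero_iff (two_ne_zero) |>.1 h3
    linear_combination this
  have h5 := hζ.dvd_of_pow_eq_one 1 (by rw [h4, one_pow])
  omega

theorem sqf_comp_two_pow [PerfectField k] (h2 : (2 : k) ≠ 0) (a : k[X]) (ha : Squarefree a)
    (h0 : a.eval 0 ≠ 0) (γ : k) (hγ : γ ≠ 0) (N : ℕ) (hN : 1 ≤ N) :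
    Squarefree (a.comp (C γ * X ^ (2 ^ N))) := by
  have hsep : a.Separable := PerfectField.separable_iff_squarefree.2 ha
  have hM : 2 ^ N ≠ 0 := by positivity
  apply Polynomial.Separable.squarefree
  rw [Polynomial.separable_def, derivative_comp]
  have h1 : IsCoprime (a.comp (C γ * X ^ (2 ^ N))) (a.derivative.comp (C γ * X ^ (2 ^ N))) := by
    have := (Polynomial.separable_def _).1 hsep
    exact this.map (compRingHom (C γ * X ^ (2 ^ N)))
  have h2 : IsCoprime (a.comp (C γ * X ^ (2 ^ N))) (derivative (C γ * X ^ (2 ^ N))) := by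
    have h3 : IsCoprime (a.comp (C γ * X ^ (2 ^ N))) X := by
      have h4 : ¬ X ∣ a.comp (C γ * X ^ (2 ^ N)) := by
        rw [X_dvd_iff, coeff_zero_eq_eval_zero, eval_comp]
        simp only [eval_mul, eval_C, eval_pow, eval_X, zero_pow hM, mul_zero]
        exact h0
      exact (irreducible_X.coprime_iff_not_dvd.2 h4).symm
    have h5 : derivative (C γ * X ^ (2 ^ N)) = C (γ * ((2 ^ N : ℕ) : k)) * X ^ (2 ^ N - 1) := by
      rw [derivative_C_mul_X_pow]
    rw [h5]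
    refine IsCoprime.mul_right ?_ h3.pow_right
    refine ⟨0, C (γ * ((2 ^ N : ℕ) : k))⁻¹, ?_⟩
    rw [zero_mul, zero_add, ← C_mul, inv_mul_cancel₀, C_1]
    refine mul_ne_zero hγ ?_
    rw [Nat.cast_pow]
    exact pow_ne_zero _ (by exact_mod_cast h2)
  exact h2.mul_right h1

/-- Ternary diagonal forms have nontrivial zeros. -/
theorem conic_of_oneQuadratic (hone : OneQuadratic k)
    (hroots : ∀ n : ℕ, ∃ ζ : k, IsPrimitiveRoot ζ (2 ^ n)) (a b : k) :
    ∃ x y z : k, (x ≠ 0 ∨ y ≠ 0 ∨ z ≠ 0) ∧ x ^ 2 = a * y ^ 2 + b * z ^ 2 := by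
  rcases hone k a b with h | h | h
  · obtain ⟨w, hw⟩ := h
    exact ⟨w, 1, 0, Or.inr (Or.inl one_ne_zero), by rw [hw]; ring⟩
  · obtain ⟨w, hw⟩ := h
    exact ⟨w, 0, 1, Or.inr (Or.inr one_ne_zero), by rw [hw]; ring⟩
  · by_cases hb : b = 0
    · exact ⟨0, 0, 1, Or.inr (Or.inr one_ne_zero), by rw [hb]; ring⟩
    obtain ⟨w, hw⟩ := h
    obtain ⟨i, hi⟩ := isSquare_of_pow_two_pow_eq_one hroots 1 (-1 : k) (by norm_num)
    refine ⟨0, b, i * w, Or.inr (Or.inl hb), ?_⟩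
    linear_combination b * w ^ 2 * hi - b * hw

/-- After a change of variable `X ↦ γ X ^ (2 ^ N)` the equation `x² = a y² + b z²` has a nontrivial
solution. -/
theorem exists_twist_conic_general (hone : OneQuadratic k)
    (hroots : ∀ n : ℕ, ∃ ζ : k, IsPrimitiveRoot ζ (2 ^ n)) (hns : ∃ c : k, ¬ IsSquare c)
    [PerfectField k] (a b : k[X]) (ha : a ≠ 0) (hb : b ≠ 0) :
    ∃ (γ : k) (N : ℕ), γ ≠ 0 ∧ 1 ≤ N ∧ ∃ x y z : k[X], (x ≠ 0 ∨ y ≠ 0 ∨ z ≠ 0) ∧
      x ^ 2 = a.comp (C γ * X ^ (2 ^ N)) * y ^ 2 + b.comp (C γ * X ^ (2 ^ N)) * z ^ 2 := by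
  classical
  obtain ⟨j, f, a₀, hf, hfa, hsa, ha₀⟩ := exists_split a ha
  obtain ⟨j', f', b₀, hf', hfb, hsb, hb₀⟩ := exists_split b hb
  obtain ⟨γ, N, hγ, hN, htw⟩ := exists_twist_general hone hroots hns (a₀ * b₀) (by
    rw [eval_mul]; exact mul_ne_zero ha₀ hb₀)
  refine ⟨γ, N, hγ, hN, ?_⟩
  set φ : k[X] := C γ * X ^ (2 ^ N) with hφ
  have hM : 1 ≤ 2 ^ N := Nat.one_le_two_pow
  have hsa' : Squarefree (a₀.comp φ) := sqf_comp_two_pow (two_ne_zero_of_roots hroots) a₀ hsa ha₀ γ hγ _ hN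
  have hsb' : Squarefree (b₀.comp φ) := sqf_comp_two_pow (two_ne_zero_of_roots hroots) b₀ hsb hb₀ γ hγ _ hN
  have hu : ∀ i : ℕ, IsUnit (C (γ ^ i) : k[X]) := fun i =>
    isUnit_C.2 (pow_ne_zero _ hγ).isUnit
  have hdvd : ∀ (i : ℕ) (y P : k[X]), y ∣ C (γ ^ i) * P → y ∣ P := fun i y P h =>
    (hu i).dvd_mul_left.1 h
  set a₁ : k[X] := C (γ ^ j) * a₀.comp φ with ha₁
  set b₁ : k[X] := C (γ ^ j') * b₀.comp φ with hb₁
  have hsa₁ : Squarefree a₁ := fun d hd => hsa' d (hdvd _ _ _ hd)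
  have hsb₁ : Squarefree b₁ := fun d hd => hsb' d (hdvd _ _ _ hd)
  have hLC : ∀ y, Irreducible y → LC a₁ b₁ y := by
    intro y hy
    refine ⟨fun h1 _ => ?_, fun h1 _ => ?_, fun a' b' h1 h2 => ?_⟩
    · obtain ⟨n, hn⟩ := htw y hy (by
        rw [mul_comp]
        exact dvd_mul_of_dvd_right (hdvd _ _ _ h1) _) (C (γ ^ j) * a₀)
      refine ⟨n, ?_⟩
      rwa [mul_comp, C_comp] at hn
    · obtain ⟨n, hn⟩ := htw y hy (by
        rw [mul_comp]
        exact dvd_mul_of_dvd_left (hdvd _ _ _ h1) _) (C (γ ^ j') * b₀)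
      refine ⟨n, ?_⟩
      rwa [mul_comp, C_comp] at hn
    · -- the prime divides both
      have hya : y ∣ a₀.comp φ := hdvd _ _ _ (Dvd.intro _ h1.symm)
      have hyb : y ∣ b₀.comp φ := hdvd _ _ _ (Dvd.intro _ h2.symm)
      obtain ⟨p, a₂, b₂, hp0, hcop, ea, eb⟩ : ∃ p a₂ b₂ : k[X], p ≠ 0 ∧
          IsCoprime a₂ b₂ ∧ a₀ = p * a₂ ∧ b₀ = p * b₂ := by
        have hg : EuclideanDomain.gcd a₀ b₀ ≠ 0 := fun h =>
          hsa.ne_zero (EuclideanDomain.gcd_eq_zero_iff.1 h).1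
        obtain ⟨a₂, ha₂⟩ := EuclideanDomain.gcd_dvd_left a₀ b₀
        obtain ⟨b₂, hb₂⟩ := EuclideanDomain.gcd_dvd_right a₀ b₀
        refine ⟨EuclideanDomain.gcd a₀ b₀, a₂, b₂, hg, ?_, ha₂, hb₂⟩
        refine ⟨EuclideanDomain.gcdA a₀ b₀, EuclideanDomain.gcdB a₀ b₀, ?_⟩
        apply mul_left_cancel₀ hg
        have h3 := EuclideanDomain.gcd_eq_gcd_ab a₀ b₀
        set g := EuclideanDomain.gcd a₀ b₀
        have h4 : g = a₀ * EuclideanDomain.gcdA a₀ b₀ + b₀ * EuclideanDomain.gcdB a₀ b₀ := h3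
        calc g * (EuclideanDomain.gcdA a₀ b₀ * a₂ + EuclideanDomain.gcdB a₀ b₀ * b₂)
            = (g * a₂) * EuclideanDomain.gcdA a₀ b₀ + (g * b₂) * EuclideanDomain.gcdB a₀ b₀ := by
              ring
          _ = a₀ * EuclideanDomain.gcdA a₀ b₀ + b₀ * EuclideanDomain.gcdB a₀ b₀ := by
              rw [← ha₂, ← hb₂]
          _ = g * 1 := by rw [← h4, mul_one]
      have hcop' : IsCoprime (a₂.comp φ) (b₂.comp φ) := hcop.map (compRingHom φ)
      have hyp : y ∣ p.comp φ := by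
        by_contra hyp
        rw [ea, mul_comp] at hya
        rw [eb, mul_comp] at hyb
        have h3 := (hy.prime.dvd_or_dvd hya).resolve_left hyp
        have h4 := (hy.prime.dvd_or_dvd hyb).resolve_left hyp
        exact hy.not_isUnit (hcop'.isUnit_of_dvd' h3 h4)
      obtain ⟨r, hr⟩ := hyp
      have ea' : a' = C (γ ^ j) * r * a₂.comp φ := by
        apply mul_left_cancel₀ hy.ne_zero
        rw [← h1, ha₁, ea, mul_comp, hr]
        ring
      have eb' : b' = C (γ ^ j') * r * b₂.comp φ := by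
        apply mul_left_cancel₀ hy.ne_zero
        rw [← h2, hb₁, eb, mul_comp, hr]
        ring
      obtain ⟨n, hn⟩ := htw y hy (by
        rw [mul_comp]
        exact dvd_mul_of_dvd_left hya _) (-(C (γ ^ j) * C (γ ^ j') * (a₂ * b₂)))
      refine ⟨r * n, ?_⟩
      have h3 : (r * n) ^ 2 + a' * b' =
          r ^ 2 * (n ^ 2 - (-(C (γ ^ j) * C (γ ^ j') * (a₂ * b₂))).comp φ) := by
        rw [ea', eb', neg_comp, mul_comp, mul_comp, mul_comp, C_comp, C_comp]
        ring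
      rw [h3]
      exact dvd_mul_of_dvd_right hn _
  obtain ⟨x, y, z, hne, hxyz⟩ := legendre (conic_of_oneQuadratic hone hroots) _ a₁ b₁ le_rfl hsa₁ hsb₁ hLC
  obtain ⟨N', rfl⟩ : ∃ N', N = N' + 1 := ⟨N - 1, by omega⟩
  have hF : ∀ (i : ℕ) (h c c₀ : k[X]), c = X ^ i * h ^ 2 * c₀ →
      c.comp φ = C (γ ^ i) * c₀.comp φ * (X ^ (2 ^ N' * i) * h.comp φ) ^ 2 := by
    intro i h c c₀ hc
    rw [hc, mul_comp, mul_comp, pow_comp, pow_comp, X_comp, hφ, C_pow]
    ring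
  set F : k[X] := X ^ (2 ^ N' * j) * f.comp φ with hFdef
  set G : k[X] := X ^ (2 ^ N' * j') * f'.comp φ with hGdef
  have hcomp0 : ∀ h : k[X], h ≠ 0 → h.comp φ ≠ 0 := by
    intro h hh h0
    rcases comp_eq_zero_iff.1 h0 with h1 | ⟨_, h2⟩
    · exact hh h1
    · have h3 := congrArg natDegree h2
      rw [hφ, natDegree_C_mul_X_pow _ _ hγ, natDegree_C] at h3
      exact absurd h3 (by positivity)
  have hF0 : F ≠ 0 := mul_ne_zero (pow_ne_zero _ X_ne_zero) (hcomp0 f hf)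
  have hG0 : G ≠ 0 := mul_ne_zero (pow_ne_zero _ X_ne_zero) (hcomp0 f' hf')
  refine ⟨x * F * G, y * G, z * F, ?_, ?_⟩
  · rcases hne with h | h | h
    · exact Or.inl (mul_ne_zero (mul_ne_zero h hF0) hG0)
    · exact Or.inr (Or.inl (mul_ne_zero h hG0))
    · exact Or.inr (Or.inr (mul_ne_zero h hF0))
  · rw [hF j f a a₀ hfa, hF j' f' b b₀ hfb]
    linear_combination (F * G) ^ 2 * hxyz

/-- After a change of variable `X ↦ γ X ^ (2 ^ n)` a family of quadratic forms in at least three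
variables has a nontrivial zero. -/
theorem exists_zero_twist_general (hone : OneQuadratic k)
    (hroots : ∀ n : ℕ, ∃ ζ : k, IsPrimitiveRoot ζ (2 ^ n)) (hns : ∃ c : k, ¬ IsSquare c)
    [PerfectField k] (A : Fin N → Fin N → MvPolynomial (Fin (m + 1)) k) (hN : 3 ≤ N)
    (σ : Fin (m + 1) → k[X]) :
    ∃ (γ : k) (n : ℕ), γ ≠ 0 ∧ 1 ≤ n ∧ ∃ z : Fin N → k[X], z ≠ 0 ∧
      qval A (fun i => (σ i).comp (C γ * X ^ (2 ^ n))) z = 0 := by
  classical
  have hcomp0 : ∀ (γ : k) (n : ℕ), γ ≠ 0 → ∀ h : k[X], h ≠ 0 →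
      h.comp (C γ * X ^ (2 ^ n)) ≠ 0 := by
    intro γ n hγ h hh h0
    rcases comp_eq_zero_iff.1 h0 with h1 | ⟨_, h2⟩
    · exact hh h1
    · have h3 := congrArg natDegree h2
      rw [natDegree_C_mul_X_pow _ _ hγ, natDegree_C] at h3
      exact absurd h3 (by positivity)
  have hzero : ∀ v : Fin N → k[X], v ≠ 0 → qval A σ v = 0 →
      ∃ (γ : k) (n : ℕ), γ ≠ 0 ∧ 1 ≤ n ∧ ∃ z : Fin N → k[X], z ≠ 0 ∧
      qval A (fun i => (σ i).comp (C γ * X ^ (2 ^ n))) z = 0 := by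
    intro v hv hq
    refine ⟨1, 1, one_ne_zero, le_rfl, fun i => (v i).comp (C 1 * X ^ (2 ^ 1)), ?_, ?_⟩
    · intro h0
      obtain ⟨i, hi⟩ := Function.ne_iff.1 hv
      exact hcomp0 1 1 one_ne_zero (v i) hi (congrFun h0 i)
    · rw [qval_comp, hq, zero_comp]
  let i0 : Fin N := ⟨0, by omega⟩
  let i1 : Fin N := ⟨1, by omega⟩
  let i2 : Fin N := ⟨2, by omega⟩
  have h01 : i0 ≠ i1 := by simp [i0, i1, Fin.ext_iff]
  have h02 : i0 ≠ i2 := by simp [i0, i2, Fin.ext_iff]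
  have h12 : i1 ≠ i2 := by simp [i1, i2, Fin.ext_iff]
  let e : Fin N → Fin N → k[X] := fun i => Pi.single i 1
  have e_same : ∀ i, e i i = 1 := fun i => by simp [e]
  have e_ne : ∀ i j, j ≠ i → e i j = 0 := fun i j h => by
    simp only [e]
    rw [Pi.single_eq_of_ne h]
  have two0 : (2 : k[X]) ≠ 0 := by
    rw [← map_ofNat (C (R := k)) 2]
    exact C_ne_zero.2 (two_ne_zero_of_roots hroots)
  set d₀ := qval A σ (e i0) with hd₀
  by_cases h0 : d₀ = 0
  · refine hzero (e i0) ?_ h0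
    intro h
    have := congrFun h i0
    rw [e_same] at this
    exact one_ne_zero this
  let v₁ : Fin N → k[X] := fun l => 2 * d₀ * e i1 l + (-qpol A σ (e i0) (e i1)) * e i0 l
  have hv₁1 : v₁ i1 = 2 * d₀ := by
    simp only [v₁]
    rw [e_same, e_ne i0 i1 h01.symm]
    ring
  have hv₁2 : v₁ i2 = 0 := by
    simp only [v₁]
    rw [e_ne i1 i2 h12.symm, e_ne i0 i2 h02.symm]
    ring
  have o01 : qpol A σ (e i0) v₁ = 0 := by
    simp only [v₁]
    rw [qpol_comb, qpol_self, ← hd₀]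
    ring
  set d₁ := qval A σ v₁ with hd₁
  by_cases h1 : d₁ = 0
  · refine hzero v₁ ?_ h1
    intro h
    have := congrFun h i1
    rw [hv₁1] at this
    exact mul_ne_zero two0 h0 this
  let w : Fin N → k[X] := fun l => 2 * d₀ * e i2 l + (-qpol A σ (e i0) (e i2)) * e i0 l
  have ow : qpol A σ (e i0) w = 0 := by
    simp only [w]
    rw [qpol_comb, qpol_self, ← hd₀]
    ring
  have hw2 : w i2 = 2 * d₀ := by
    simp only [w]
    rw [e_same, e_ne i0 i2 h02.symm]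
    ring
  let v₂ : Fin N → k[X] := fun l => 2 * d₁ * w l + (-qpol A σ v₁ w) * v₁ l
  have hv₂2 : v₂ i2 = 2 * d₁ * (2 * d₀) := by
    simp only [v₂]
    rw [hw2, hv₁2]
    ring
  have o02 : qpol A σ (e i0) v₂ = 0 := by
    simp only [v₂]
    rw [qpol_comb, ow, o01]
    ring
  have o12 : qpol A σ v₁ v₂ = 0 := by
    simp only [v₂]
    rw [qpol_comb, qpol_self, ← hd₁]
    ring
  set d₂ := qval A σ v₂ with hd₂
  have hv₂0 : v₂ i2 ≠ 0 := by
    rw [hv₂2]
    exact mul_ne_zero (mul_ne_zero two0 h1) (mul_ne_zero two0 h0)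
  by_cases h2 : d₂ = 0
  · refine hzero v₂ ?_ h2
    intro h
    exact hv₂0 (congrFun h i2)
  obtain ⟨γ, n, hγ, hn, x, y, z, hne, hxyz⟩ := exists_twist_conic_general hone hroots hns (-(d₀ * d₁)) (-(d₀ * d₂))
    (neg_ne_zero.2 (mul_ne_zero h0 h1)) (neg_ne_zero.2 (mul_ne_zero h0 h2))
  refine ⟨γ, n, hγ, hn, ?_⟩
  set φ : k[X] := C γ * X ^ (2 ^ n) with hφ
  have hc0 := hcomp0 γ n hγ
  rw [← hφ] at hc0
  let v₂' : Fin N → k[X] := fun l => y * (v₁ l).comp φ + z * (v₂ l).comp φ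
  refine ⟨fun l => x * (e i0 l).comp φ + d₀.comp φ * v₂' l, ?_, ?_⟩
  · intro h
    have hz : z = 0 := by
      have h3 := congrFun h i2
      simp only [v₂', Pi.zero_apply] at h3
      rw [e_ne i0 i2 h02.symm, hv₁2, zero_comp, mul_zero, mul_zero, zero_add, zero_add] at h3
      rcases mul_eq_zero.1 h3 with h4 | h4
      · exact absurd h4 (hc0 _ h0)
      · exact (mul_eq_zero.1 h4).resolve_right (hc0 _ hv₂0)
    have hy : y = 0 := by
      have h3 := congrFun h i1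
      simp only [v₂', Pi.zero_apply] at h3
      rw [e_ne i0 i1 h01.symm, hz, zero_comp, mul_zero, zero_mul, zero_add, add_zero] at h3
      rcases mul_eq_zero.1 h3 with h4 | h4
      · exact absurd h4 (hc0 _ h0)
      · refine (mul_eq_zero.1 h4).resolve_right (hc0 _ ?_)
        rw [hv₁1]
        exact mul_ne_zero two0 h0
    have hx : x = 0 := by
      have h3 := congrFun h i0
      simp only [v₂', Pi.zero_apply] at h3
      rw [e_same, hz, hy, one_comp, zero_mul, zero_mul, add_zero, mul_zero, add_zero,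
        mul_one] at h3
      exact h3
    rcases hne with h3 | h3 | h3
    · exact h3 hx
    · exact h3 hy
    · exact h3 hz
  · have hpol : ∀ u v : Fin N → k[X], qpol A (fun i => (σ i).comp φ)
        (fun i => (u i).comp φ) (fun i => (v i).comp φ) = (qpol A σ u v).comp φ := by
      intro u v
      have h := qpol_map A (aeval φ : k[X] →ₐ[k] k[X]) σ u v
      rw [comp_eq_aeval, h]
      simp only [comp_eq_aeval]
    rw [qval_comb]
    simp only [v₂']
    rw [qval_comb, qpol_comb, hpol, hpol, hpol, qval_comp, qval_comp, qval_comp, o01, o02, o12,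
      ← hd₀, ← hd₁, ← hd₂]
    rw [neg_comp, neg_comp, mul_comp, mul_comp] at hxyz
    rw [zero_comp]
    linear_combination d₀.comp φ * hxyz


end Pool.Agent.K369
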