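import Mathlib
import Pool.Agent.K369.Tower
import Pool.Agent.K369.ZeroG

set_option autoImplicit false
set_option linter.all false

/-!
# Change of the parameter of a curve
-/

namespace Pool.Agent.K369

open Polynomial

universe u

section Hz

variable {k : Type*} [Field k]

/-- The homogenization of degree `e` of the polynomial `P`, evaluated at `(v, D)`. -/
noncomputable def hz (e : ℕ) (P : k[X]) {R : Type*} [CommRing R] [Algebra k R] (v D : R) : R :=
  ∑ j ∈ Finset.range (e + 1), algebraMap k R (P.coeff j) * v ^ j * D ^ (e - j)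

theorem hz_map (e : ℕ) (P : k[X]) {R S : Type*} [CommRing R] [Algebra k R] [CommRing S]
    [Algebra k S] (f : R →ₐ[k] S) (v D : R) : f (hz e P v D) = hz e P (f v) (f D) := by
  unfold hz
  rw [map_sum]
  refine Finset.sum_congr rfl fun j _ => ?_
  rw [map_mul, map_mul, map_pow, map_pow, AlgHom.commutes]

theorem hz_smul (e : ℕ) (P : k[X]) {R : Type*} [CommRing R] [Algebra k R] (c v D : R) :
    hz e P (c * v) (c * D) = c ^ e * hz e P v D := by
  unfold hz
  rw [Finset.mul_sum]
  refine Finset.sum_congr rfl fun j hj => ?_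
  rw [Finset.mem_range] at hj
  have h1 : c ^ e = c ^ j * c ^ (e - j) := by
    rw [← pow_add]
    congr 1
    omega
  rw [h1, mul_pow, mul_pow]
  ring

theorem hz_one (e : ℕ) (P : k[X]) (hP : P.natDegree ≤ e) {R : Type*} [CommRing R] [Algebra k R]
    (v : R) : hz e P v 1 = aeval v P := by
  unfold hz
  rw [aeval_eq_sum_range' (Nat.lt_succ_of_le hP)]
  refine Finset.sum_congr rfl fun j _ => ?_
  rw [one_pow, mul_one, Algebra.smul_def]

theorem hz_field (e : ℕ) (P : k[X]) (hP : P.natDegree ≤ e) {K : Type*} [Field K] [Algebra k K]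
    (v D : K) (hD : D ≠ 0) : hz e P v D = D ^ e * aeval (v / D) P := by
  rw [← hz_one e P hP, ← hz_smul, mul_one, mul_div_cancel₀ _ hD]

theorem hz_zero (e : ℕ) (P : k[X]) (hP : P.natDegree ≤ e) : hz e P (0 : k) 1 = P.eval 0 := by
  rw [hz_one e P hP, coe_aeval_eq_eval]

theorem hz_same (e : ℕ) (P : k[X]) (hP : P.natDegree ≤ e) (c : k) :
    hz e P c c = c ^ e * P.eval 1 := by
  have h := hz_smul e P c (1 : k) 1
  rw [mul_one, hz_one e P hP, coe_aeval_eq_eval] at h
  exact h

end Hz

section Reparam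

variable {k : Type*} [Field k] {m N r : ℕ}

theorem exists_zero_reparam {A : Fin N → Fin N → MvPolynomial (Fin (m + 1)) k} {a : Fin N → ℤ}
    {δ : ℤ} (hA : IsQuadricBundle A a δ) {K : Type*} [Field K] [Algebra k[X] K]
    [IsFractionRing k[X] K] [Algebra k K] [IsScalarTower k k[X] K] (σ τ : Fin (m + 1) → k[X])
    (w l : K) (hw : Transcendental k w) (hl0 : l ≠ 0)
    (hστ : ∀ i, algebraMap k[X] K (τ i) = l * aeval w (σ i))
    (z : Fin N → k[X]) (hz : z ≠ 0) (hq : qval A σ z = 0) :
    ∃ z' : Fin N → k[X], z' ≠ 0 ∧ qval A τ z' = 0 := by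
  classical
  have hinj : Function.Injective (algebraMap k[X] K) := IsFractionRing.injective k[X] K
  let ψ : k[X] →ₐ[k] K := aeval w
  have hψ : Function.Injective ψ := by
    rw [injective_iff_map_eq_zero]
    intro p hp
    by_contra hp0
    exact hw ⟨p, hp0, hp⟩
  have h1 := congrArg ψ hq
  rw [map_zero, qval_map] at h1
  have h2 := qval_torus hA (fun i => ψ (σ i)) (fun i => ψ (z i)) l 1 hl0
  rw [h1, mul_zero] at h2
  have h3 : l • (fun i => ψ (σ i)) = fun i => algebraMap k[X] K (τ i) := by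
    funext i
    rw [hστ i]
    rfl
  rw [h3] at h2
  obtain ⟨⟨D, hD⟩, hDz⟩ := IsLocalization.exist_integer_multiples_of_finset (nonZeroDivisors k[X])
    (Finset.univ.image fun i => 1 * l ^ (-(a i)) * ψ (z i))
  have hD0 : D ≠ 0 := nonZeroDivisors.ne_zero hD
  have hex : ∀ i, ∃ y : k[X], algebraMap k[X] K y =
      algebraMap k[X] K D * (1 * l ^ (-(a i)) * ψ (z i)) := by
    intro i
    obtain ⟨y, hy⟩ := hDz _ (Finset.mem_image_of_mem _ (Finset.mem_univ i))
    refine ⟨y, hy.trans ?_⟩
    exact Algebra.smul_def _ _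
  choose y hy using hex
  refine ⟨y, ?_, ?_⟩
  · intro h0
    apply hz
    funext i
    have h4 := hy i
    rw [h0, Pi.zero_apply, map_zero] at h4
    have h5 : ψ (z i) = 0 := by
      rcases mul_eq_zero.1 h4.symm with h6 | h6
      · exact absurd (hinj (h6.trans (map_zero _).symm)) hD0
      · rcases mul_eq_zero.1 h6 with h7 | h7
        · exact absurd h7 (mul_ne_zero one_ne_zero (zpow_ne_zero _ hl0))
        · exact h7
    exact hψ (h5.trans (map_zero _).symm)
  · apply hinj
    rw [map_zero]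
    have h4 := qval_map A (IsScalarTower.toAlgHom k k[X] K) τ y
    simp only [IsScalarTower.coe_toAlgHom'] at h4
    rw [h4]
    have h5 : (fun i => algebraMap k[X] K (y i)) =
        fun i => algebraMap k[X] K D * (1 * l ^ (-(a i)) * ψ (z i)) := funext hy
    rw [h5, qval_smul, h2, mul_zero]

theorem forms_reparam {G : MvPolynomial (Fin (m + 1)) k} {e : ℕ} (hG : G.IsHomogeneous e)
    {K : Type*} [Field K] [Algebra k[X] K]
    [IsFractionRing k[X] K] [Algebra k K] [IsScalarTower k k[X] K] (σ τ : Fin (m + 1) → k[X])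
    (w l : K) (hστ : ∀ i, algebraMap k[X] K (τ i) = l * aeval w (σ i))
    (hσ : MvPolynomial.aeval σ G = 0) : MvPolynomial.aeval τ G = 0 := by
  have hinj : Function.Injective (algebraMap k[X] K) := IsFractionRing.injective k[X] K
  apply hinj
  rw [map_zero]
  have h1 : (IsScalarTower.toAlgHom k k[X] K).comp (MvPolynomial.aeval τ) =
      MvPolynomial.aeval (fun i => algebraMap k[X] K (τ i)) := by
    apply MvPolynomial.algHom_ext
    intro i
    simp only [AlgHom.comp_apply, MvPolynomial.aeval_X]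
    rfl
  have h2 := congrArg (fun g => g G) (congrArg DFunLike.coe h1)
  simp only [AlgHom.comp_apply, IsScalarTower.coe_toAlgHom'] at h2
  rw [h2]
  have h3 : (fun i => algebraMap k[X] K (τ i)) = l • fun i => aeval w (σ i) := by
    funext i
    exact hστ i
  rw [h3, eval_smul_form hG]
  have h4 : (aeval w : k[X] →ₐ[k] K).comp (MvPolynomial.aeval σ) =
      MvPolynomial.aeval (fun i => aeval w (σ i)) := by
    apply MvPolynomial.algHom_ext
    intro i
    simp only [AlgHom.comp_apply, MvPolynomial.aeval_X]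
  have h5 := congrArg (fun g => g G) (congrArg DFunLike.coe h4)
  simp only [AlgHom.comp_apply] at h5
  rw [← h5, hσ, map_zero, mul_zero]

end Reparam

section Main

variable {k : Type u} [Field k] {m N r : ℕ}

/-- Every direct R-link of the base can be changed into one over which the quadric bundle has a
section. -/
theorem exists_link_section (hone : OneQuadratic k)
    (hroots : ∀ n : ℕ, ∃ ζ : k, IsPrimitiveRoot ζ (2 ^ n)) (hns : ∃ c : k, ¬ IsSquare c)
    [PerfectField k] {G : Fin r → MvPolynomial (Fin (m + 1)) k}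
    (hG : ∀ j, ∃ e, (G j).IsHomogeneous e)
    {A : Fin N → Fin N → MvPolynomial (Fin (m + 1)) k} {a : Fin N → ℤ} {δ : ℤ}
    (hN : 3 ≤ N) (hA : IsQuadricBundle A a δ) (σ : Fin (m + 1) → k[X])
    (hσ : ∀ j, MvPolynomial.aeval σ (G j) = 0) :
    ∃ (τ : Fin (m + 1) → k[X]) (c₀ c₁ : k), c₀ ≠ 0 ∧ c₁ ≠ 0 ∧
      (∀ j, MvPolynomial.aeval τ (G j) = 0) ∧
      (∀ i, (τ i).eval 0 = c₀ * (σ i).eval 0) ∧ (∀ i, (τ i).eval 1 = c₁ * (σ i).eval 1) ∧
      ∃ z : Fin N → k[X], z ≠ 0 ∧ qval A τ z = 0 := by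
  classical
  let e : ℕ := Finset.univ.sup fun i => (σ i).natDegree
  have he : ∀ i, (σ i).natDegree ≤ e := fun i =>
    Finset.le_sup (f := fun i => (σ i).natDegree) (Finset.mem_univ i)
  let K := FractionRing k[X]
  let x : K := algebraMap k[X] K X
  have hinj : Function.Injective (algebraMap k[X] K) := IsFractionRing.injective k[X] K
  have hx1 : (1 : K) - x ≠ 0 := by
    intro h
    have h1 : algebraMap k[X] K (1 - X) = 0 := by rw [map_sub, map_one]; exact h
    have h2 : (1 - X : k[X]) = 0 := by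
      apply hinj
      rw [h1, map_zero]
    have h3 := congrArg (eval 0) h2
    simp at h3
  have hx2 : (1 : K) + x ≠ 0 := by
    intro h
    have h1 : algebraMap k[X] K (1 + X) = 0 := by rw [map_add, map_one]; exact h
    have h2 : (1 + X : k[X]) = 0 := by
      apply hinj
      rw [h1, map_zero]
    have h3 := congrArg (eval 0) h2
    simp at h3
  -- first change of parameter
  let σ₁ : Fin (m + 1) → k[X] := fun i => hz e (σ i) X (1 + X)
  have hσ₁ : ∀ i, algebraMap k[X] K (σ₁ i) = (1 + x) ^ e * aeval (x / (1 + x)) (σ i) := by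
    intro i
    have h1 := hz_map e (σ i) (IsScalarTower.toAlgHom k k[X] K) X (1 + X)
    simp only [IsScalarTower.coe_toAlgHom', map_add, map_one] at h1
    rw [← hz_field e (σ i) (he i) x (1 + x) hx2]
    exact h1
  have hGσ₁ : ∀ j, MvPolynomial.aeval σ₁ (G j) = 0 := by
    intro j
    obtain ⟨d, hd⟩ := hG j
    exact forms_reparam (K := K) hd σ σ₁ _ _ hσ₁ (hσ j)
  obtain ⟨γ, n, hγ, hn, z, hz0, hqz⟩ := exists_zero_twist_general hone hroots hns A hN σ₁
  set M : ℕ := 2 ^ n with hM
  have hM0 : M ≠ 0 := by positivity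
  let w : K := x / (1 - x)
  have hw : Transcendental k w := by
    intro h1
    have h2 : IsAlgebraic k (w / (1 + w)) := h1.mul ((isAlgebraic_one.add h1).inv)
    have h3 : w / (1 + w) = x := moebius_aux1 x hx1
    rw [h3] at h2
    have h5 : Transcendental k (X : k[X]) := Polynomial.transcendental_X k
    exact ((transcendental_algebraMap_iff hinj).2 h5) h2
  let τ : Fin (m + 1) → k[X] := fun i => hz e (σ i) (C γ * X ^ M) ((1 - X) ^ M + C γ * X ^ M)
  have hτ : ∀ i, algebraMap k[X] K (τ i) =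
      ((1 - x) ^ M) ^ e * aeval w ((σ₁ i).comp (C γ * X ^ M)) := by
    intro i
    have h1 := hz_map e (σ i) (IsScalarTower.toAlgHom k k[X] K) (C γ * X ^ M)
      ((1 - X) ^ M + C γ * X ^ M)
    simp only [IsScalarTower.coe_toAlgHom', map_add, map_one, map_mul, map_pow, map_sub] at h1
    have h2 : aeval w ((σ₁ i).comp (C γ * X ^ M)) = hz e (σ i) (algebraMap k K γ * w ^ M)
        (1 + algebraMap k K γ * w ^ M) := by
      rw [aeval_comp, map_mul, aeval_C, map_pow, aeval_X]
      have h3 := hz_map e (σ i) (aeval (algebraMap k K γ * w ^ M) : k[X] →ₐ[k] K) X (1 + X)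
      rw [map_add, map_one, aeval_X] at h3
      exact h3
    rw [h2, ← hz_smul]
    refine h1.trans ?_
    have h4 : algebraMap k[X] K (C γ) = algebraMap k K γ := by
      rw [C_eq_algebraMap, ← IsScalarTower.algebraMap_apply]
    have h5 : (1 - x) ^ M * (algebraMap k K γ * w ^ M) = algebraMap k K γ * x ^ M := by
      simp only [w]
      rw [div_pow, mul_left_comm, mul_div_cancel₀ _ (pow_ne_zero M hx1)]
    rw [mul_add, h5, mul_one, h4]
  have hGτ : ∀ j, MvPolynomial.aeval τ (G j) = 0 := by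
    intro j
    obtain ⟨d, hd⟩ := hG j
    refine forms_reparam (K := K) hd _ τ w _ hτ ?_
    have h1 : (aeval (C γ * X ^ M) : k[X] →ₐ[k] k[X]).comp (MvPolynomial.aeval σ₁) =
        MvPolynomial.aeval (fun i => (σ₁ i).comp (C γ * X ^ M)) := by
      apply MvPolynomial.algHom_ext
      intro i
      simp only [AlgHom.comp_apply, MvPolynomial.aeval_X, comp_eq_aeval]
    have h2 := congrArg (fun g => g (G j)) (congrArg DFunLike.coe h1)
    simp only [AlgHom.comp_apply] at h2
    rw [← h2, hGσ₁ j, map_zero]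
  obtain ⟨z', hz', hqz'⟩ := exists_zero_reparam (K := K) hA _ τ w _ hw
    (pow_ne_zero _ (pow_ne_zero _ hx1)) hτ z hz0 hqz
  have hev : ∀ (c : k) (i), (τ i).eval c = hz e (σ i) (γ * c ^ M) ((1 - c) ^ M + γ * c ^ M) := by
    intro c i
    have h1 := hz_map e (σ i) (aeval c : k[X] →ₐ[k] k) (C γ * X ^ M) ((1 - X) ^ M + C γ * X ^ M)
    simp only [coe_aeval_eq_eval, eval_add, eval_mul, eval_pow, eval_sub, eval_one, eval_X,
      eval_C] at h1
    exact h1
  refine ⟨τ, 1, γ ^ e, one_ne_zero, pow_ne_zero _ hγ, hGτ, ?_, ?_, z', hz', hqz'⟩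
  · intro i
    rw [hev, zero_pow hM0, mul_zero, sub_zero, one_pow, add_zero, hz_zero e _ (he i), one_mul]
  · intro i
    rw [hev, one_pow, mul_one, sub_self, zero_pow hM0, zero_add, hz_same e _ (he i)]

/-- Every fibre over a rational point has a rational point. -/
theorem exists_fibre_point (hone : OneQuadratic k)
    (hroots : ∀ n : ℕ, ∃ ζ : k, IsPrimitiveRoot ζ (2 ^ n)) (hns : ∃ c : k, ¬ IsSquare c)
    [PerfectField k] (A : Fin N → Fin N → MvPolynomial (Fin (m + 1)) k) (hN : 3 ≤ N)
    (s : Fin (m + 1) → k) : ∃ x : Fin N → k, x ≠ 0 ∧ qval A s x = 0 := by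
  obtain ⟨γ, n, hγ, hn, z, hz, hqz⟩ := exists_zero_twist_general hone hroots hns A hN
    (fun i => C (s i))
  obtain ⟨f, z', hf, hzf, hz'⟩ := exists_primitive z hz
  have hqz' : qval A (fun i => ((fun i => C (s i)) i : k[X]).comp (C γ * X ^ (2 ^ n))) z' = 0 := by
    rw [hzf, qval_smul] at hqz
    exact (mul_eq_zero.1 hqz).resolve_left (pow_ne_zero _ hf)
  have h1 := qval_map A (Polynomial.aeval (0 : k))
    (fun i => ((fun i => C (s i)) i : k[X]).comp (C γ * X ^ (2 ^ n))) z'
  rw [hqz', map_zero] at h1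
  simp only [C_comp, coe_aeval_eq_eval, eval_C] at h1
  exact ⟨fun i => (z' i).eval 0, hz' 0, h1.symm⟩

theorem projR_bijective_general (hone : OneQuadratic k)
    (hroots : ∀ n : ℕ, ∃ ζ : k, IsPrimitiveRoot ζ (2 ^ n)) (hns : ∃ c : k, ¬ IsSquare c)
    [PerfectField k] (G : Fin r → MvPolynomial (Fin (m + 1)) k)
    (hG : ∀ j, ∃ e, (G j).IsHomogeneous e)
    (A : Fin N → Fin N → MvPolynomial (Fin (m + 1)) k) (a : Fin N → ℤ) (δ : ℤ)
    (hN : 3 ≤ N) (hA : IsQuadricBundle A a δ) : Function.Bijective (projR G A a) :=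
  projR_bijective hG hN hA (exists_fibre_point hone hroots hns A hN)
    fun σ hσ => exists_link_section hone hroots hns hG hN hA σ hσ

end Main

end Pool.Agent.K369
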