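import Mathlib
import Pool.Agent.K369.FinSep
import Pool.Agent.K369.Reparam

set_option autoImplicit false
set_option linter.all false

/-!
# A change of variable over a finite field after which all residues are squares
-/

namespace Pool.Agent.K369

open Polynomial

section Numbers

theorem exists_M {k : Type*} [Field k] [Fintype k] {Ω : Type*} [Field Ω] [Algebra k Ω]
    [Algebra.IsAlgebraic k Ω] (f : k[X]) (hf : f ≠ 0) :
    ∃ M : ℕ, 1 ≤ M ∧ ∀ r : Ω, aeval r f = 0 → r ^ (Fintype.card k ^ M) = r := by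
  classical
  let S : Finset Ω := (f.map (algebraMap k Ω)).roots.toFinset
  have hint : ∀ r : Ω, IsIntegral k r := fun r =>
    (Algebra.IsAlgebraic.isAlgebraic (R := k) r).isIntegral
  refine ⟨∏ r ∈ S, (minpoly k r).natDegree, ?_, ?_⟩
  · exact Finset.prod_pos fun r _ => minpoly.natDegree_pos (hint r)
  · intro r hr
    have hrS : r ∈ S := by
      rw [Multiset.mem_toFinset, mem_roots (map_ne_zero hf), IsRoot.def, eval_map_algebraMap]
      exact hr
    obtain ⟨e, he⟩ := Finset.dvd_prod_of_mem (fun r : Ω => (minpoly k r).natDegree) hrS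
    rw [he, pow_mul]
    exact fix_mul _ _ (fix_natDegree (minpoly.irreducible (hint r)) (minpoly.aeval k r)) e

theorem exists_numbers (q M p : ℕ) (hq : Odd q) (hq1 : 1 < q) (hM : 1 ≤ M) (hp : Odd p) :
    ∃ κ d : ℕ, κ ∣ q ^ M - 1 ∧ κ * d + 1 = q ^ (M * p) ∧ Odd d ∧ κ ≠ 0 := by
  have hqM : 1 < q ^ M := Nat.one_lt_pow (by omega) hq1
  obtain ⟨v, dM, hdM, hv⟩ := Nat.exists_eq_two_pow_mul_odd (n := q ^ M - 1) (by omega)
  have hgeom := geom_nat (q ^ M) p (by omega)
  refine ⟨2 ^ v, dM * ∑ j ∈ Finset.range p, (q ^ M) ^ j, ⟨dM, hv⟩, ?_, ?_, by positivity⟩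
  · rw [← mul_assoc, ← hv, hgeom, ← pow_mul]
  · refine hdM.mul ?_
    rw [Finset.odd_sum_iff_odd_card_odd]
    have h1 : (Finset.range p).filter (fun j => Odd ((q ^ M) ^ j)) = Finset.range p := by
      apply Finset.filter_true_of_mem
      intro j _
      exact (hq.pow).pow
    rw [h1, Finset.card_range]
    exact hp

/-- An element of a finite field of even degree over the field fixed by `z ↦ z ^ Q` is a square if
it is fixed. -/
theorem isSquare_of_fixed {K : Type*} [Field K] [Fintype K] (h2 : (2 : K) ≠ 0) (Q h : ℕ)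
    (hQ : Odd Q) (hcard : Fintype.card K = Q ^ (2 * h)) (b : K) (hb : b ^ Q = b) : IsSquare b := by
  by_cases hb0 : b = 0
  · rw [hb0]
    exact IsSquare.zero
  rw [FiniteField.isSquare_iff (ringChar_ne_two h2) hb0, hcard]
  have hQpos : 1 ≤ Q := hQ.pos
  have h1 : b ^ (Q - 1) = 1 := by
    have h3 : b ^ Q = b * b ^ (Q - 1) := by
      rw [← pow_succ']
      congr 1
      omega
    rw [h3] at hb
    exact mul_left_cancel₀ hb0 (hb.trans (mul_one _).symm)
  have hgeom := geom_nat Q (2 * h) hQpos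
  have heven : Even (∑ j ∈ Finset.range (2 * h), Q ^ j) := by
    rw [← Nat.not_odd_iff_even, Finset.odd_sum_iff_odd_card_odd]
    have h3 : (Finset.range (2 * h)).filter (fun j => Odd (Q ^ j)) = Finset.range (2 * h) := by
      apply Finset.filter_true_of_mem
      intro j _
      exact hQ.pow
    rw [h3, Finset.card_range, Nat.not_odd_iff_even]
    exact even_two_mul h
  obtain ⟨s, hs⟩ := heven
  have h4 : Q ^ (2 * h) / 2 = (Q - 1) * s := by
    rw [← hgeom, hs, mul_add]
    omega
  rw [h4, pow_mul, h1, one_pow]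

end Numbers

section Kill

variable {k : Type*} [Field k] [Fintype k]

/-- The numerator. -/
noncomputable def Nx (k : Type*) [Field k] (Q : ℕ) : k[X] := X ^ Q - X * (1 - X) ^ (Q - 1)

/-- The denominator. -/
noncomputable def Dx (k : Type*) [Field k] (Q : ℕ) : k[X] := (1 - X) ^ Q

theorem Nx_div_Dx {K : Type*} [Field K] [Algebra k K] (M : ℕ) (x : K) (hx : x ≠ 1) :
    aeval x (Nx k (Fintype.card k ^ M)) / aeval x (Dx k (Fintype.card k ^ M)) = rr k M x := by
  have hne : 1 - x ≠ 0 := sub_ne_zero.2 (Ne.symm hx)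
  have hQ : 1 ≤ Fintype.card k ^ M := Nat.one_le_pow _ _ Fintype.card_pos
  obtain ⟨Q', hQ'⟩ : ∃ Q', Fintype.card k ^ M = Q' + 1 := ⟨Fintype.card k ^ M - 1, by omega⟩
  unfold Nx Dx rr
  rw [hQ']
  simp only [map_sub, map_mul, map_pow, map_one, aeval_X, Nat.add_sub_cancel]
  rw [div_pow, sub_div]
  congr 1
  rw [pow_succ (1 - x)]
  have : (1 - x) ^ Q' ≠ 0 := pow_ne_zero _ hne
  field_simp

theorem exists_kill (h2 : (2 : k) ≠ 0) (f₀ : k[X]) (hf₀ : f₀.eval 0 ≠ 0) :
    ∃ Nw Dw : k[X], Nw.eval 0 = 0 ∧ Dw.eval 0 ≠ 0 ∧ Nw.eval 1 ≠ 0 ∧ Dw.eval 1 = 0 ∧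
      IsCoprime Nw Dw ∧ ∀ (p : k[X]) [Fact (Irreducible p)], ¬ p ∣ Dw →
        p ∣ hz f₀.natDegree f₀ (Nw ^ 2) (Dw ^ 2) → ∀ g : k[X],
        IsSquare (aeval ((AdjoinRoot.mk p Nw / AdjoinRoot.mk p Dw) ^ 2) g) := by
  classical
  let Ω := AlgebraicClosure k
  set q := Fintype.card k with hqdef
  have h2Ω : (2 : Ω) ≠ 0 := by
    intro h
    apply h2
    apply (algebraMap k Ω).injective
    rw [map_ofNat, h, map_zero]
  have hqodd : Odd q := odd_card h2
  have hq1 : 1 < q := Fintype.one_lt_card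
  -- the polynomial in the square root of the parameter
  let f : k[X] := f₀.comp (X ^ 2)
  have hf : f.eval 0 ≠ 0 := by
    simp only [f, eval_comp, eval_pow, eval_X]
    rw [zero_pow two_ne_zero]
    exact hf₀
  have hfne : f ≠ 0 := by
    intro h
    rw [h, eval_zero] at hf
    exact hf rfl
  obtain ⟨M, hM1, hM⟩ := exists_M (Ω := Ω) f hfne
  -- the characteristic
  obtain ⟨p₀, hp₀⟩ := CharP.exists k
  have hp₀prime : p₀.Prime := CharP.char_is_prime k p₀
  have hp₀odd : Odd p₀ := by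
    rcases hp₀prime.eq_two_or_odd' with h | h
    · exfalso
      apply h2
      have h3 := CharP.cast_eq_zero k p₀
      rw [h] at h3
      exact_mod_cast h3
    · exact h
  have hp₀Ω : (p₀ : Ω) = 0 := by
    have h3 := congrArg (algebraMap k Ω) (CharP.cast_eq_zero k p₀)
    rw [map_natCast, map_zero] at h3
    exact h3
  obtain ⟨κ, d, hκ, hd, hdodd, hκ0⟩ := exists_numbers q M p₀ hqodd hq1 hM1 hp₀odd
  set N := M * p₀ with hN
  have hfixN : ∀ x : Ω, DD f M x → x ^ (q ^ N) = x := fun x hx => hx.fix hM p₀ hp₀Ω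
  -- the finite set of points
  let SD : Finset Ω := ((X ^ (q ^ N) - X : Polynomial Ω).roots.toFinset).filter (DD f M)
  have hqN1 : 1 < q ^ N := Nat.one_lt_pow (by
    rw [hN]
    exact Nat.mul_ne_zero (by omega) hp₀prime.ne_zero) hq1
  have hSD : ∀ x : Ω, x ∈ SD ↔ DD f M x := by
    intro x
    rw [Finset.mem_filter]
    refine ⟨fun h => h.2, fun h => ⟨?_, h⟩⟩
    rw [Multiset.mem_toFinset, mem_roots (FiniteField.X_pow_card_sub_X_ne_zero Ω hqN1), IsRoot.def]
    simp only [eval_sub, eval_pow, eval_X]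
    rw [hfixN x h, sub_self]
  have hint : ∀ r : Ω, IsIntegral k r := fun r =>
    (Algebra.IsAlgebraic.isAlgebraic (R := k) r).isIntegral
  let PP : Finset k[X] := insert (X - C 1) (SD.image fun x => minpoly k (x ^ κ))
  have hPP : ∀ P ∈ PP, P.Monic ∧ Irreducible P ∧ P ≠ X := by
    intro P hP
    rw [Finset.mem_insert, Finset.mem_image] at hP
    rcases hP with rfl | ⟨x, hx, rfl⟩
    · refine ⟨monic_X_sub_C 1, irreducible_X_sub_C 1, ?_⟩
      intro h
      have h3 := congrArg (eval 0) h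
      simp at h3
    · refine ⟨minpoly.monic (hint _), minpoly.irreducible (hint _), ?_⟩
      intro h
      have h3 := minpoly.aeval k (x ^ κ)
      rw [h, aeval_X] at h3
      exact pow_ne_zero _ (((hSD x).1 hx).ne_zero hf) h3
  let ε : k[X] → ℤ := fun P => if ∃ x ∈ SD, minpoly k (x ^ κ) = P ∧
    x ^ (q ^ P.natDegree / 2) = 1 then -1 else 1
  have hε : ∀ P, ε P = 1 ∨ ε P = -1 := by
    intro P
    simp only [ε]
    split_ifs
    · exact Or.inr rfl
    · exact Or.inl rfl
  obtain ⟨l, hl, hlP⟩ := exists_ell h2 PP hPP ε hε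
  -- the value of `l` at `1`
  have hl1 : ∃ b : k, b ≠ 0 ∧ l.eval 1 = b ^ 2 := by
    have h3 : ε (X - C 1) = 1 := by
      simp only [ε]
      rw [if_neg]
      rintro ⟨x, hx, hx1, _⟩
      have h4 := minpoly.aeval k (x ^ κ)
      rw [hx1, map_sub, aeval_X, map_one, map_one, sub_eq_zero] at h4
      exact ((hSD x).1 hx).pow_ne_one hf κ hκ h4
    have h4 := hlP (X - C 1) (Finset.mem_insert_self _ _)
    rw [h3] at h4
    unfold leg at h4
    split_ifs at h4 with h5 h6
    · norm_num at h4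
    · obtain ⟨h, hh⟩ := h6
      rw [dvd_iff_isRoot, IsRoot.def] at h5 hh
      rw [eval_sub, eval_pow, sub_eq_zero] at hh
      refine ⟨h.eval 1, ?_, hh.symm⟩
      intro h7
      rw [h7, zero_pow two_ne_zero] at hh
      exact h5 hh.symm
  obtain ⟨b, hb0, hb⟩ := hl1
  obtain ⟨c, hc2⟩ : ∃ c : k, c ^ 2 = ((b ^ 2) ^ d)⁻¹ := by
    refine ⟨(b⁻¹) ^ d, ?_⟩
    rw [inv_pow, inv_pow, ← pow_mul, ← pow_mul, mul_comm d]
  have hkfix : ∀ z : k, z ^ (q ^ N) = z := fun z => FiniteField.pow_card_pow N z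
  have hk1 : ∀ z : k, z ≠ 0 → z ^ (κ * d) = 1 := by
    intro z hz
    have h3 := hkfix z
    rw [← hd, pow_succ] at h3
    exact mul_right_cancel₀ hz (h3.trans (one_mul _).symm)
  let θ : k[X] := (phi (q ^ N) κ d l).comp (C (c ^ 2) * X ^ 2)
  have hθ0 : θ.eval 0 = 0 := by
    simp only [θ, eval_comp, eval_mul, eval_C, eval_pow, eval_X]
    rw [zero_pow two_ne_zero, mul_zero]
    unfold phi
    rw [eval_mul, eval_X, zero_mul]
  have hθ1 : θ.eval 1 = 1 := by
    simp only [θ, eval_comp, eval_mul, eval_C, eval_pow, eval_X]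
    rw [one_pow, mul_one]
    have h3 := phi_fixed (Ω := k) N κ d l (c ^ 2) (hkfix _)
    rw [coe_aeval_eq_eval, coe_aeval_eq_eval] at h3
    rw [hqdef, h3]
    have h4 : (c ^ 2) ^ κ = 1 := by
      rw [hc2, inv_pow, ← pow_mul, mul_comm d, hk1 _ (pow_ne_zero _ hb0), inv_one]
    rw [h4, hb, hc2, inv_mul_cancel₀ (pow_ne_zero _ (pow_ne_zero _ hb0))]
  have hqM1 : 1 < q ^ M := Nat.one_lt_pow (by omega) hq1
  refine ⟨(Nx k (q ^ M)).comp θ, (Dx k (q ^ M)).comp θ, ?_, ?_, ?_, ?_, ?_, ?_⟩
  · rw [eval_comp, hθ0]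
    simp only [Nx, eval_sub, eval_pow, eval_X, eval_mul]
    rw [zero_pow (by omega), zero_mul, sub_zero]
  · rw [eval_comp, hθ0]
    simp only [Dx, eval_sub, eval_pow, eval_X, eval_one]
    rw [sub_zero, one_pow]
    exact one_ne_zero
  · rw [eval_comp, hθ1]
    simp only [Nx, eval_sub, eval_pow, eval_X, eval_mul, eval_one]
    rw [sub_self, zero_pow (by omega), one_pow, mul_zero, sub_zero]
    exact one_ne_zero
  · rw [eval_comp, hθ1]
    simp only [Dx, eval_sub, eval_pow, eval_X, eval_one]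
    rw [sub_self, zero_pow (by omega)]
  · have h3 : IsCoprime (Nx k (q ^ M)) (Dx k (q ^ M)) := by
      unfold Nx Dx
      refine IsCoprime.pow_right ?_
      have h4 : IsCoprime (X ^ (q ^ M) : k[X]) (1 - X) :=
        IsCoprime.pow_left ⟨1, 1, by ring⟩
      obtain ⟨Q', hQ'⟩ : ∃ Q', q ^ M = Q' + 2 := ⟨q ^ M - 2, by omega⟩
      rw [hQ'] at h4 ⊢
      obtain ⟨u, v, huv⟩ := h4
      refine ⟨u, v + u * X * (1 - X) ^ Q', ?_⟩
      rw [show Q' + 2 - 1 = Q' + 1 by omega]
      linear_combination huv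
    exact h3.map (compRingHom θ)
  · intro p hpfact hpD hpf g
    have hp := hpfact.out
    set Nw := (Nx k (q ^ M)).comp θ with hNw
    set Dw := (Dx k (q ^ M)).comp θ with hDw
    obtain ⟨w, hw⟩ := IsAlgClosed.exists_aeval_eq_zero Ω p (by
      intro h
      exact hp.not_isUnit (isUnit_iff_degree_eq_zero.2 h))
    have hembinj : Function.Injective (emb p w hw) := (emb p w hw).toRingHom.injective
    set x : Ω := aeval w θ with hx
    have hDwv : aeval w Dw = aeval x (Dx k (q ^ M)) := by rw [hDw, aeval_comp]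
    have hNwv : aeval w Nw = aeval x (Nx k (q ^ M)) := by rw [hNw, aeval_comp]
    have hD0 : aeval w Dw ≠ 0 := by
      rw [← emb_mk p w hw]
      intro h
      apply hpD
      rw [← AdjoinRoot.mk_eq_zero]
      exact hembinj (h.trans (map_zero _).symm)
    have hx1 : x ≠ 1 := by
      intro h
      apply hD0
      rw [hDwv, h]
      simp only [Dx, map_pow, map_sub, map_one, aeval_X]
      rw [sub_self, zero_pow (by omega)]
    have hratio : aeval w Nw / aeval w Dw = rr k M x := by
      rw [hNwv, hDwv]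
      exact Nx_div_Dx M x hx1
    have hτ : emb p w hw ((AdjoinRoot.mk p Nw / AdjoinRoot.mk p Dw) ^ 2) = (rr k M x) ^ 2 := by
      rw [map_pow, map_div₀, emb_mk, emb_mk, hratio]
    have hDDx : DD f M x := by
      refine ⟨hx1, ?_⟩
      have h3 := hz_map f₀.natDegree f₀ (aeval w : k[X] →ₐ[k] Ω) (Nw ^ 2) (Dw ^ 2)
      obtain ⟨g', hg'⟩ := hpf
      have h4 : aeval w (hz f₀.natDegree f₀ (Nw ^ 2) (Dw ^ 2)) = 0 := by
        rw [hg', map_mul, hw, zero_mul]
      rw [h4, map_pow, map_pow, hz_field _ _ le_rfl _ _ (pow_ne_zero _ hD0), ← div_pow,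
        hratio] at h3
      have h5 := (mul_eq_zero.1 h3.symm).resolve_left (pow_ne_zero _ (pow_ne_zero _ hD0))
      simp only [f]
      rw [aeval_comp, map_pow, aeval_X]
      exact h5
    have hx0 := hDDx.ne_zero hf
    set y := x ^ κ with hy
    set P := minpoly k y with hP
    have hPi : Irreducible P := minpoly.irreducible (hint y)
    have hPy : aeval y P = 0 := minpoly.aeval k y
    set n := P.natDegree with hn
    have hyn : y ^ (q ^ n) = y := fix_natDegree hPi hPy
    have hxn : x ^ (q ^ n) = x := by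
      refine hDDx.sep h2Ω hf hM (hDDx.fr n) κ hκ ?_
      rw [← pow_mul, mul_comm, pow_mul]
      exact hyn
    obtain ⟨n', hn'⟩ := natDegree_dvd hPi hPy N (by
      rw [hy, ← pow_mul, mul_comm, pow_mul]
      congr 1
      exact hfixN x hDDx)
    have hwm : w ^ (q ^ p.natDegree) = w := fix_natDegree hp hw
    obtain ⟨h, hh⟩ := natDegree_dvd hPi hPy p.natDegree (by
      have h3 : x ^ (q ^ p.natDegree) = x := by
        rw [hx, fr_aeval, ← hqdef, hwm]
      rw [hy, ← pow_mul, mul_comm, pow_mul]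
      congr 1)
    have hqn1 : 1 ≤ q ^ n := Nat.one_le_pow _ _ (by omega)
    have hqnodd : Odd (q ^ n) := hqodd.pow
    have heven : Even h := by
      rw [← Nat.not_odd_iff_even]
      intro hodd
      obtain ⟨_, z, hz2, hzn, hz0⟩ := phi_square h2Ω N κ d hd hdodd l hl c w x y (by
          rw [hx]
          simp only [θ]
          rw [aeval_comp, map_mul, aeval_C]
          simp only [map_pow, aeval_X]
          rfl) hy hx0 n n' hn' hxn h hodd
        (by rw [← pow_mul, ← hh]; exact hwm)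
      have hprod : x ^ (q ^ n / 2) * (aeval y l) ^ (q ^ n / 2) = 1 := by
        rw [← mul_pow, ← hz2, ← pow_mul]
        have h3 : 2 * (q ^ n / 2) = q ^ n - 1 := by
          obtain ⟨s, hs⟩ := hqnodd
          omega
        rw [h3]
        have h4 : z ^ (q ^ n) = z * z ^ (q ^ n - 1) := by
          rw [← pow_succ']
          congr 1
          omega
        rw [h4] at hzn
        exact mul_left_cancel₀ hz0 (hzn.trans (mul_one _).symm)
      have hPmem : P ∈ PP := Finset.mem_insert_of_mem (Finset.mem_image.2 ⟨x, (hSD x).2 hDDx, rfl⟩)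
      have hlP' := hlP P hPmem
      by_cases hcase : x ^ (q ^ n / 2) = 1
      · have h3 : ε P = -1 := by
          simp only [ε]
          rw [if_pos]
          exact ⟨x, (hSD x).2 hDDx, rfl, hcase⟩
        rw [h3] at hlP'
        have h4 := pow_half_of_leg_neg h2 hPi hPy l hlP'
        rw [hcase, one_mul] at hprod
        exact h4 hprod
      · have h3 : ε P = 1 := by
          simp only [ε]
          rw [if_neg]
          rintro ⟨x', hx', hx'P, hx'1⟩
          have hconj : IsConjRoot k (x' ^ κ) (x ^ κ) := hx'P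
          obtain ⟨σ, hσ⟩ := isConjRoot_iff_exists_algEquiv.1 hconj
          have h5 : DD f M (σ x) := hDDx.map σ.toAlgHom
          have h6 : x' = σ x := by
            refine h5.sep h2Ω hf hM ((hSD x').1 hx') κ hκ ?_
            rw [← map_pow, hσ]
          rw [h6, ← map_pow, ← map_one σ] at hx'1
          exact hcase (σ.injective hx'1)
        rw [h3] at hlP'
        have h4 := pow_half_of_leg_one h2 hPi hPy l hlP'
        rw [hn] at hprod hcase
        rw [h4, mul_one] at hprod
        exact hcase hprod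
    obtain ⟨h', hh'⟩ := heven
    haveI := finite_adjoinRoot p hp
    haveI := Fintype.ofFinite (AdjoinRoot p)
    have h2K : (2 : AdjoinRoot p) ≠ 0 := by
      intro h
      apply h2
      apply (algebraMap k (AdjoinRoot p)).injective
      rw [map_ofNat, h, map_zero]
    refine isSquare_of_fixed h2K (q ^ n) h' hqnodd ?_ _ ?_
    · rw [card_adjoinRoot hp, hh, hh', ← two_mul, pow_mul]
    · apply hembinj
      rw [map_pow, ← aeval_algHom_apply, hτ, fr_aeval]
      congr 1
      rw [← pow_mul, mul_comm, pow_mul]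
      congr 1
      unfold rr
      rw [fr_sub, ← pow_mul, mul_comm (q ^ M), pow_mul, div_pow, fr_sub, one_pow, hxn]

end Kill

end Pool.Agent.K369
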