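import Mathlib
import Pool.Agent.K369.FinKill
import Pool.Agent.K369.Legendre
import Pool.Agent.K369.Laurent

set_option autoImplicit false
set_option linter.all false

/-!
# Conics over the field of rational functions of a finite field after a change of variable
-/

namespace Pool.Agent.K369

open Polynomial

section Hat

variable {k : Type*} [Field k]

theorem hz_zero_right (e : ℕ) (P : k[X]) {R : Type*} [CommRing R] [Algebra k R] (v : R) :
    hz e P v 0 = algebraMap k R (P.coeff e) * v ^ e := by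
  unfold hz
  rw [Finset.sum_eq_single e]
  · rw [Nat.sub_self, pow_zero, mul_one]
  · intro j hj hje
    rw [Finset.mem_range] at hj
    rw [zero_pow (by omega), mul_zero]
  · intro h
    exact absurd (Finset.mem_range.2 (Nat.lt_succ_self e)) h

theorem hz_zero_left (e : ℕ) (P : k[X]) {R : Type*} [CommRing R] [Algebra k R] (D : R) :
    hz e P 0 D = algebraMap k R (P.coeff 0) * D ^ e := by
  unfold hz
  rw [Finset.sum_eq_single 0]
  · rw [Nat.sub_zero, pow_zero, mul_one]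
  · intro j hj hje
    rw [zero_pow hje, mul_zero, zero_mul]
  · intro h
    exact absurd (Finset.mem_range.2 (Nat.succ_pos e)) h

/-- The numerator of `P ((N / D)²)`. -/
noncomputable def hat (N D P : k[X]) : k[X] := hz P.natDegree P (N ^ 2) (D ^ 2)

theorem map_hat {F : Type*} [Field F] [Algebra k F] (f : k[X] →ₐ[k] F) (N D P : k[X])
    (hD : f D ≠ 0) :
    f (hat N D P) = (f D ^ P.natDegree) ^ 2 * aeval ((f N / f D) ^ 2) P := by
  unfold hat
  rw [hz_map, map_pow, map_pow, hz_field _ _ le_rfl _ _ (pow_ne_zero _ hD), ← div_pow,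
    ← pow_mul, ← pow_mul, mul_comm 2]

theorem hat_ne_zero {N D P : k[X]} (hN : N.eval 0 = 0) (hD : D.eval 0 ≠ 0) (hP : P.eval 0 ≠ 0) :
    hat N D P ≠ 0 := by
  intro h
  have h1 := hz_map P.natDegree P (aeval (0 : k) : k[X] →ₐ[k] k) (N ^ 2) (D ^ 2)
  unfold hat at h
  rw [h, map_zero, map_pow, map_pow, coe_aeval_eq_eval, hN, zero_pow two_ne_zero, hz_zero_left]
    at h1
  rw [coeff_zero_eq_eval_zero] at h1
  exact mul_ne_zero hP (pow_ne_zero _ (pow_ne_zero _ hD)) h1.symm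

theorem not_dvd_of_dvd_hat {N D P p : k[X]} (hcop : IsCoprime N D) (hP : P ≠ 0)
    (hp : Irreducible p) (h : p ∣ hat N D P) : ¬ p ∣ D := by
  intro hD
  haveI : Fact (Irreducible p) := ⟨hp⟩
  have h1 := hz_map P.natDegree P (AdjoinRoot.mkₐ p) (N ^ 2) (D ^ 2)
  simp only [AdjoinRoot.coe_mkₐ] at h1
  unfold hat at h
  rw [AdjoinRoot.mk_eq_zero.2 h, map_pow, map_pow, AdjoinRoot.mk_eq_zero.2 hD,
    zero_pow two_ne_zero, hz_zero_right] at h1
  rcases mul_eq_zero.1 h1.symm with h3 | h3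
  · rw [map_eq_zero] at h3
    exact hP (leadingCoeff_eq_zero.1 h3)
  · have h4 : AdjoinRoot.mk p N = 0 := by
      have h5 : AdjoinRoot.mk p N ^ 2 = 0 := by
        by_contra h6
        exact pow_ne_zero _ h6 h3
      exact (pow_eq_zero_iff two_ne_zero).1 h5
    rw [AdjoinRoot.mk_eq_zero] at h4
    exact hp.not_isUnit (hcop.isUnit_of_dvd' h4 hD)

/-- The quotient map. -/
noncomputable def mkA (p : k[X]) : k[X] →ₐ[k] AdjoinRoot p :=
  AdjoinRoot.mkₐ p

theorem mkA_apply (p g : k[X]) : mkA p g = AdjoinRoot.mk p g := rfl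

theorem mkA_ne_zero {p g : k[X]} (h : ¬ p ∣ g) : mkA p g ≠ 0 := by
  rw [mkA_apply]
  intro h1
  exact h (AdjoinRoot.mk_eq_zero.1 h1)

theorem aeval_eq_zero_of_dvd_hat {N D P p : k[X]} [hp : Fact (Irreducible p)] (hD : ¬ p ∣ D)
    (h : p ∣ hat N D P) : aeval ((mkA p N / mkA p D) ^ 2) P = 0 := by
  have h1 := map_hat (mkA p) N D P (mkA_ne_zero hD)
  rw [mkA_apply, AdjoinRoot.mk_eq_zero.2 h] at h1
  exact (mul_eq_zero.1 h1.symm).resolve_left (pow_ne_zero _ (pow_ne_zero _ (mkA_ne_zero hD)))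

theorem dvd_hat_iff {N D P p : k[X]} [hp : Fact (Irreducible p)] (hD : ¬ p ∣ D) :
    p ∣ hat N D P ↔ aeval ((mkA p N / mkA p D) ^ 2) P = 0 := by
  refine ⟨aeval_eq_zero_of_dvd_hat hD, fun h => ?_⟩
  rw [← AdjoinRoot.mk_eq_zero, ← mkA_apply, map_hat (mkA p) N D P (mkA_ne_zero hD), h, mul_zero]

theorem not_dvd_hat_of_coprime {N D P Q p : k[X]} (hcop : IsCoprime N D) (hP : P ≠ 0)
    (hp : Irreducible p) (hPQ : IsCoprime P Q) (h : p ∣ hat N D P) : ¬ p ∣ hat N D Q := by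
  intro h'
  haveI : Fact (Irreducible p) := ⟨hp⟩
  have hD := not_dvd_of_dvd_hat hcop hP hp h
  have h1 := aeval_eq_zero_of_dvd_hat hD h
  have h2 := aeval_eq_zero_of_dvd_hat hD h'
  obtain ⟨u, v, huv⟩ := hPQ
  have h3 := congrArg (aeval ((mkA p N / mkA p D) ^ 2)) huv
  rw [map_add, map_mul, map_mul, h1, h2, mul_zero, mul_zero, add_zero, map_one] at h3
  exact zero_ne_one h3

theorem exists_sq_mod_of_kill {N D p : k[X]} [hp : Fact (Irreducible p)] (hD : ¬ p ∣ D)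
    (hsq : ∀ g : k[X], IsSquare (aeval ((mkA p N / mkA p D) ^ 2) g)) {P Q u v R S : k[X]}
    (hP : hat N D P = u ^ 2 * R) (hQ : hat N D Q = v ^ 2 * S) (hu : ¬ p ∣ u) (hv : ¬ p ∣ v)
    (ε : k) : ∃ n, p ∣ n ^ 2 - C ε * (R * S) := by
  obtain ⟨w, hw⟩ := hsq (C ε * (P * Q))
  have hD0 := mkA_ne_zero hD
  have hu0 := mkA_ne_zero hu
  have hv0 := mkA_ne_zero hv
  have h1 := map_hat (mkA p) N D P hD0
  have h2 := map_hat (mkA p) N D Q hD0
  rw [hP, map_mul, map_pow] at h1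
  rw [hQ, map_mul, map_pow] at h2
  rw [map_mul, map_mul] at hw
  have h3 : aeval ((mkA p N / mkA p D) ^ 2) (C ε) = mkA p (C ε) := by
    rw [aeval_C]
    exact ((mkA p).commutes ε).symm
  rw [h3] at hw
  obtain ⟨n, hn⟩ := AdjoinRoot.mk_surjective
    (mkA p D ^ P.natDegree * mkA p D ^ Q.natDegree * w / (mkA p u * mkA p v))
  refine ⟨n, ?_⟩
  rw [← AdjoinRoot.mk_eq_zero, map_sub, map_pow, hn, sub_eq_zero, div_pow,
    div_eq_iff (pow_ne_zero _ (mul_ne_zero hu0 hv0)), ← mkA_apply, map_mul, map_mul]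
  have h4 : (mkA p D ^ P.natDegree * mkA p D ^ Q.natDegree * w) ^ 2 =
      (mkA p D ^ P.natDegree) ^ 2 * (mkA p D ^ Q.natDegree) ^ 2 * (w * w) := by ring
  rw [h4, ← hw]
  linear_combination (-(mkA p (C ε)) * (mkA p D ^ Q.natDegree) ^ 2 *
    aeval ((mkA p N / mkA p D) ^ 2) Q) * h1 - mkA p (C ε) * (mkA p u) ^ 2 * mkA p R * h2

theorem exists_gcd_split (a b : k[X]) (ha : a ≠ 0) : ∃ g a₁ b₁ : k[X], g ≠ 0 ∧
    IsCoprime a₁ b₁ ∧ a = g * a₁ ∧ b = g * b₁ := by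
  classical
  have hg : EuclideanDomain.gcd a b ≠ 0 := fun h => ha (EuclideanDomain.gcd_eq_zero_iff.1 h).1
  obtain ⟨a₂, ha₂⟩ := EuclideanDomain.gcd_dvd_left a b
  obtain ⟨b₂, hb₂⟩ := EuclideanDomain.gcd_dvd_right a b
  refine ⟨EuclideanDomain.gcd a b, a₂, b₂, hg, ?_, ha₂, hb₂⟩
  refine ⟨EuclideanDomain.gcdA a b, EuclideanDomain.gcdB a b, ?_⟩
  apply mul_left_cancel₀ hg
  have h3 := EuclideanDomain.gcd_eq_gcd_ab a b
  set g := EuclideanDomain.gcd a b
  have h4 : g = a * EuclideanDomain.gcdA a b + b * EuclideanDomain.gcdB a b := h3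
  calc g * (EuclideanDomain.gcdA a b * a₂ + EuclideanDomain.gcdB a b * b₂)
      = (g * a₂) * EuclideanDomain.gcdA a b + (g * b₂) * EuclideanDomain.gcdB a b := by
        ring
    _ = a * EuclideanDomain.gcdA a b + b * EuclideanDomain.gcdB a b := by
        rw [← ha₂, ← hb₂]
    _ = g * 1 := by rw [← h4, mul_one]

theorem conic_of_finite [Fintype k] (h2 : (2 : k) ≠ 0) (a b : k) :
    ∃ x y z : k, (x ≠ 0 ∨ y ≠ 0 ∨ z ≠ 0) ∧ x ^ 2 = a * y ^ 2 + b * z ^ 2 := by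
  by_cases ha : a = 0
  · exact ⟨0, 1, 0, Or.inr (Or.inl one_ne_zero), by rw [ha]; ring⟩
  obtain ⟨x, y, hxy⟩ := FiniteField.exists_root_sum_quadratic (f := (X : k[X]) ^ 2)
    (g := C (-a) * X ^ 2 + C 0 * X + C (-b)) (degree_X_pow 2)
    (degree_quadratic (neg_ne_zero.2 ha)) (Nat.odd_iff.1 (odd_card h2))
  refine ⟨x, y, 1, Or.inr (Or.inr one_ne_zero), ?_⟩
  simp only [eval_pow, eval_X, eval_add, eval_mul, eval_C] at hxy
  linear_combination hxy

end Hat

section Main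

variable {k : Type*} [Field k] [Fintype k]

theorem exists_conic_kill (h2 : (2 : k) ≠ 0) (a b : k[X]) (ha : a ≠ 0) (hb : b ≠ 0) :
    ∃ Nw Dw : k[X], Nw.eval 0 = 0 ∧ Dw.eval 0 ≠ 0 ∧ Nw.eval 1 ≠ 0 ∧ Dw.eval 1 = 0 ∧
      ∀ (K : Type*) [Field K] [Algebra k K] (f : k[X] →ₐ[k] K), Function.Injective f →
        ∃ x y z : K, (x ≠ 0 ∨ y ≠ 0 ∨ z ≠ 0) ∧
          x ^ 2 = aeval ((f Nw / f Dw) ^ 2) a * y ^ 2 + aeval ((f Nw / f Dw) ^ 2) b * z ^ 2 := by
  classical
  obtain ⟨j, fa, a₀, hfa, hfa', hsa, ha₀⟩ := exists_split a ha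
  obtain ⟨j', fb, b₀, hfb, hfb', hsb, hb₀⟩ := exists_split b hb
  obtain ⟨g, a₁, b₁, hg0, hcop, rfl, rfl⟩ := exists_gcd_split a₀ b₀ hsa.ne_zero
  rw [squarefree_mul_iff] at hsa hsb
  have hga : IsCoprime g a₁ := hsa.1.isCoprime
  have hgb : IsCoprime g b₁ := hsb.1.isCoprime
  rw [eval_mul] at ha₀ hb₀
  have hg00 : g.eval 0 ≠ 0 := left_ne_zero_of_mul ha₀
  have ha00 : a₁.eval 0 ≠ 0 := right_ne_zero_of_mul ha₀
  have hb00 : b₁.eval 0 ≠ 0 := right_ne_zero_of_mul hb₀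
  have hne : ∀ P : k[X], P.eval 0 ≠ 0 → P ≠ 0 := by
    intro P hP h
    rw [h, eval_zero] at hP
    exact hP rfl
  have ha10 := hne _ ha00
  have hb10 := hne _ hb00
  obtain ⟨N, D, hN0, hD0, hN1, hD1, hND, hkill⟩ := exists_kill h2 (g * a₁ * b₁) (by
    rw [eval_mul, eval_mul]
    exact mul_ne_zero ha₀ hb00)
  refine ⟨N, D, hN0, hD0, hN1, hD1, ?_⟩
  obtain ⟨u, G, hG, hGs⟩ := exists_squarefree_part _ (hat_ne_zero hN0 hD0 hg00)
  obtain ⟨v, A, hA, hAs⟩ := exists_squarefree_part _ (hat_ne_zero hN0 hD0 ha00)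
  obtain ⟨w, B, hB, hBs⟩ := exists_squarefree_part _ (hat_ne_zero hN0 hD0 hb00)
  have hdG : ∀ p, p ∣ G → p ∣ hat N D g := fun p h => by rw [hG]; exact dvd_mul_of_dvd_right h _
  have hdA : ∀ p, p ∣ A → p ∣ hat N D a₁ := fun p h => by rw [hA]; exact dvd_mul_of_dvd_right h _
  have hdB : ∀ p, p ∣ B → p ∣ hat N D b₁ := fun p h => by rw [hB]; exact dvd_mul_of_dvd_right h _
  have hdu : ∀ p, p ∣ u → p ∣ hat N D g := fun p h => by
    rw [hG]; exact dvd_mul_of_dvd_left (dvd_pow h two_ne_zero) _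
  have hdv : ∀ p, p ∣ v → p ∣ hat N D a₁ := fun p h => by
    rw [hA]; exact dvd_mul_of_dvd_left (dvd_pow h two_ne_zero) _
  have hdw : ∀ p, p ∣ w → p ∣ hat N D b₁ := fun p h => by
    rw [hB]; exact dvd_mul_of_dvd_left (dvd_pow h two_ne_zero) _
  have cGA : ∀ p, Irreducible p → p ∣ hat N D g → ¬ p ∣ hat N D a₁ := fun p hp h =>
    not_dvd_hat_of_coprime hND hg0 hp hga h
  have cGB : ∀ p, Irreducible p → p ∣ hat N D g → ¬ p ∣ hat N D b₁ := fun p hp h =>
    not_dvd_hat_of_coprime hND hg0 hp hgb h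
  have cAB : ∀ p, Irreducible p → p ∣ hat N D a₁ → ¬ p ∣ hat N D b₁ := fun p hp h =>
    not_dvd_hat_of_coprime hND ha10 hp hcop h
  have hrp : ∀ P Q : k[X], P ≠ 0 → (∀ p, Irreducible p → p ∣ P → ¬ p ∣ Q) → IsRelPrime P Q := by
    intro P Q hP h
    exact (isCoprime_of_irreducible_dvd (fun h0 => hP h0.1) fun p hp h1 h2 =>
      h p hp h1 h2).isRelPrime
  have hsGA : Squarefree (G * A) := by
    rw [squarefree_mul_iff]
    exact ⟨hrp G A hGs.ne_zero fun p hp h1 h2 => cGA p hp (hdG p h1) (hdA p h2), hGs, hAs⟩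
  have hsGB : Squarefree (G * B) := by
    rw [squarefree_mul_iff]
    exact ⟨hrp G B hGs.ne_zero fun p hp h1 h2 => cGB p hp (hdG p h1) (hdB p h2), hGs, hBs⟩
  -- the local conditions
  have hprod : ∀ (p : k[X]) [Fact (Irreducible p)], ¬ p ∣ D →
      (p ∣ hat N D g ∨ p ∣ hat N D a₁ ∨ p ∣ hat N D b₁) →
      ∀ h : k[X], IsSquare (aeval ((mkA p N / mkA p D) ^ 2) h) := by
    intro p hp hD h
    refine hkill p hD ?_
    change p ∣ hat N D (g * a₁ * b₁)
    rw [dvd_hat_iff hD, map_mul, map_mul]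
    rcases h with h | h | h
    · rw [(dvd_hat_iff hD).1 h, zero_mul, zero_mul]
    · rw [(dvd_hat_iff hD).1 h, mul_zero, zero_mul]
    · rw [(dvd_hat_iff hD).1 h, mul_zero]
  have hLC : ∀ p, Irreducible p → LC (G * A) (G * B) p := by
    intro p hp
    haveI : Fact (Irreducible p) := ⟨hp⟩
    refine ⟨fun h1 h2 => ?_, fun h1 h2 => ?_, fun a' b' h1 h2 => ?_⟩
    · have h3 : p ∣ B := (hp.prime.dvd_or_dvd h1).resolve_left fun h =>
        h2 (dvd_mul_of_dvd_left h _)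
      have h4 := hdB p h3
      have hD := not_dvd_of_dvd_hat hND hb10 hp h4
      obtain ⟨n, hn⟩ := exists_sq_mod_of_kill hD (hprod p hD (Or.inr (Or.inr h4))) hG hA
        (fun h => cGB p hp (hdu p h) h4) (fun h => cAB p hp (hdv p h) h4) 1
      exact ⟨n, by simpa using hn⟩
    · have h3 : p ∣ A := (hp.prime.dvd_or_dvd h1).resolve_left fun h =>
        h2 (dvd_mul_of_dvd_left h _)
      have h4 := hdA p h3
      have hD := not_dvd_of_dvd_hat hND ha10 hp h4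
      obtain ⟨n, hn⟩ := exists_sq_mod_of_kill hD (hprod p hD (Or.inr (Or.inl h4))) hG hB
        (fun h => cGA p hp (hdu p h) h4) (fun h => cAB p hp h4 (hdw p h)) 1
      exact ⟨n, by simpa using hn⟩
    · have h3 : p ∣ G := by
        by_contra h3
        have h4 : p ∣ A := (hp.prime.dvd_or_dvd (Dvd.intro _ h1.symm)).resolve_left h3
        have h5 : p ∣ B := (hp.prime.dvd_or_dvd (Dvd.intro _ h2.symm)).resolve_left h3
        exact cAB p hp (hdA p h4) (hdB p h5)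
      have h4 := hdG p h3
      have hD := not_dvd_of_dvd_hat hND hg0 hp h4
      obtain ⟨n, hn⟩ := exists_sq_mod_of_kill hD (hprod p hD (Or.inl h4)) hA hB
        (fun h => cGA p hp h4 (hdv p h)) (fun h => cGB p hp h4 (hdw p h)) (-1)
      obtain ⟨G', rfl⟩ := h3
      have ea : a' = G' * A := by
        apply mul_left_cancel₀ hp.ne_zero
        rw [← h1]
        ring
      have eb : b' = G' * B := by
        apply mul_left_cancel₀ hp.ne_zero
        rw [← h2]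
        ring
      refine ⟨G' * n, ?_⟩
      rw [ea, eb]
      have h5 : (G' * n) ^ 2 + G' * A * (G' * B) = G' ^ 2 * (n ^ 2 - C (-1) * (A * B)) := by
        rw [C_neg, C_1]
        ring
      rw [h5]
      exact dvd_mul_of_dvd_right hn _
  obtain ⟨x, y, z, hxyz0, hxyz⟩ := legendre (conic_of_finite h2) _ _ _ le_rfl hsGA hsGB hLC
  intro K _ _ f hf
  have hD : f D ≠ 0 := by
    intro h
    have h1 : D = 0 := hf (h.trans (map_zero f).symm)
    rw [h1, eval_zero] at hD0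
    exact hD0 rfl
  have h1 := map_hat f N D g hD
  have h2 := map_hat f N D a₁ hD
  have h3 := map_hat f N D b₁ hD
  rw [hG, map_mul, map_pow] at h1
  rw [hA, map_mul, map_pow] at h2
  rw [hB, map_mul, map_pow] at h3
  set T : K := (f N / f D) ^ 2 with hT
  by_cases hTa : aeval T a = 0
  · exact ⟨0, 1, 0, Or.inr (Or.inl one_ne_zero), by rw [hTa]; ring⟩
  by_cases hTb : aeval T b = 0
  · exact ⟨0, 0, 1, Or.inr (Or.inr one_ne_zero), by rw [hTb]; ring⟩
  have hDn : ∀ n : ℕ, f D ^ n ≠ 0 := fun n => pow_ne_zero _ hD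
  have key : ∀ (c : k[X]) (i : ℕ) (h P Q u v R S : k[X]), c = X ^ i * h ^ 2 * (P * Q) →
      f u ^ 2 * f R = (f D ^ P.natDegree) ^ 2 * aeval T P →
      f v ^ 2 * f S = (f D ^ Q.natDegree) ^ 2 * aeval T Q →
      aeval T c = ((f N / f D) ^ i * aeval T h * (f u * f v) /
        (f D ^ P.natDegree * f D ^ Q.natDegree)) ^ 2 * f (R * S) := by
    intro c i h P Q u v R S hc e1 e2
    have hP0 := hDn P.natDegree
    have hQ0 := hDn Q.natDegree
    rw [hc, map_mul, map_mul, map_mul, map_pow, map_pow, aeval_X, map_mul, div_pow]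
    have e3 : aeval T P * aeval T Q = (f u * f v) ^ 2 * (f R * f S) /
        (f D ^ P.natDegree * f D ^ Q.natDegree) ^ 2 := by
      rw [eq_div_iff (pow_ne_zero _ (mul_ne_zero hP0 hQ0))]
      linear_combination (-(f v ^ 2 * f S)) * e1 - (f D ^ P.natDegree) ^ 2 * aeval T P * e2
    rw [e3, hT]
    ring
  obtain ⟨α, hα⟩ : ∃ α : K, aeval T a = α ^ 2 * f (G * A) :=
    ⟨_, key _ _ _ _ _ _ _ _ _ hfa' h1 h2⟩
  obtain ⟨β, hβ⟩ : ∃ β : K, aeval T b = β ^ 2 * f (G * B) :=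
    ⟨_, key _ _ _ _ _ _ _ _ _ hfb' h1 h3⟩
  have hα0 : α ≠ 0 := by
    intro h
    rw [h] at hα
    exact hTa (by rw [hα]; ring)
  have hβ0 : β ≠ 0 := by
    intro h
    rw [h] at hβ
    exact hTb (by rw [hβ]; ring)
  have hf0 : ∀ g : k[X], g ≠ 0 → f g ≠ 0 := fun g hg h => hg (hf (h.trans (map_zero f).symm))
  refine ⟨α * β * f x, β * f y, α * f z, ?_, ?_⟩
  · rcases hxyz0 with h | h | h
    · exact Or.inl (mul_ne_zero (mul_ne_zero hα0 hβ0) (hf0 _ h))
    · exact Or.inr (Or.inl (mul_ne_zero hβ0 (hf0 _ h)))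
    · exact Or.inr (Or.inr (mul_ne_zero hα0 (hf0 _ h)))
  · have h4 := congrArg f hxyz
    rw [map_pow, map_add, map_mul f (G * A), map_mul f (G * B), map_pow, map_pow] at h4
    rw [hα, hβ]
    linear_combination (α * β) ^ 2 * h4

end Main

end Pool.Agent.K369
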