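import Mathlib
import Pool.Agent.K369.FinConic
import Pool.Agent.K369.CharTwoTower

set_option autoImplicit false
set_option linter.all false

/-!
# Quadric bundles over finite fields
-/

namespace Pool.Agent.K369

open Polynomial

universe u v

section Diag

variable {k : Type u} [Field k] {m N : ℕ}

/-- A family of quadratic forms in at least three variables along a curve acquires a zero when a
suitable conic does. -/
theorem exists_zero_of_conic (h2 : (2 : k) ≠ 0)
    (A : Fin N → Fin N → MvPolynomial (Fin (m + 1)) k) (hN : 3 ≤ N)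
    (σ : Fin (m + 1) → k[X]) :
    ∃ a b : k[X], a ≠ 0 ∧ b ≠ 0 ∧ ∀ (K : Type v) [Field K] [Algebra k K] (ψ : k[X] →ₐ[k] K),
      Function.Injective ψ →
      (∃ x y z : K, (x ≠ 0 ∨ y ≠ 0 ∨ z ≠ 0) ∧ x ^ 2 = ψ a * y ^ 2 + ψ b * z ^ 2) →
      ∃ w : Fin N → K, w ≠ 0 ∧ qval A (fun i => ψ (σ i)) w = 0 := by
  classical
  have hzero : ∀ w : Fin N → k[X], w ≠ 0 → qval A σ w = 0 →
      ∃ a b : k[X], a ≠ 0 ∧ b ≠ 0 ∧ ∀ (K : Type v) [Field K] [Algebra k K] (ψ : k[X] →ₐ[k] K),
        Function.Injective ψ →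
        (∃ x y z : K, (x ≠ 0 ∨ y ≠ 0 ∨ z ≠ 0) ∧ x ^ 2 = ψ a * y ^ 2 + ψ b * z ^ 2) →
        ∃ w : Fin N → K, w ≠ 0 ∧ qval A (fun i => ψ (σ i)) w = 0 := by
    intro w hw hq
    refine ⟨1, 1, one_ne_zero, one_ne_zero, ?_⟩
    intro K _ _ ψ hψ _
    refine ⟨fun i => ψ (w i), ?_, ?_⟩
    · intro h0
      obtain ⟨i, hi⟩ := Function.ne_iff.1 hw
      exact hi (hψ ((congrFun h0 i).trans (map_zero ψ).symm))
    · rw [← qval_map, hq, map_zero]
  let i0 : Fin N := ⟨0, by omega⟩
  let i1 : Fin N := ⟨1, by omega⟩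
  let i2 : Fin N := ⟨2, by omega⟩
  have h01 : i0 ≠ i1 := by simp [i0, i1, Fin.ext_iff]
  have h02 : i0 ≠ i2 := by simp [i0, i2, Fin.ext_iff]
  have h12 : i1 ≠ i2 := by simp [i1, i2, Fin.ext_iff]
  let e : Fin N → Fin N → k[X] := fun i => Pi.single i 1
  have e_same : ∀ i, e i i = 1 := fun i => by simp [e]
  have e_ne : ∀ i j, j ≠ i → e i j = 0 := fun i j h => by
    simp only [e]
    rw [Pi.single_eq_of_ne h]
  have two0 : (2 : k[X]) ≠ 0 := by
    rw [← map_ofNat (C (R := k)) 2]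
    exact C_ne_zero.2 h2
  set d₀ := qval A σ (e i0) with hd₀
  by_cases h0 : d₀ = 0
  · refine hzero (e i0) ?_ h0
    intro h
    have := congrFun h i0
    rw [e_same] at this
    exact one_ne_zero this
  let v₁ : Fin N → k[X] := fun l => 2 * d₀ * e i1 l + (-qpol A σ (e i0) (e i1)) * e i0 l
  have hv₁1 : v₁ i1 = 2 * d₀ := by
    simp only [v₁]
    rw [e_same, e_ne i0 i1 h01.symm]
    ring
  have hv₁2 : v₁ i2 = 0 := by
    simp only [v₁]
    rw [e_ne i1 i2 h12.symm, e_ne i0 i2 h02.symm]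
    ring
  have o01 : qpol A σ (e i0) v₁ = 0 := by
    simp only [v₁]
    rw [qpol_comb, qpol_self, ← hd₀]
    ring
  set d₁ := qval A σ v₁ with hd₁
  by_cases h1 : d₁ = 0
  · refine hzero v₁ ?_ h1
    intro h
    have := congrFun h i1
    rw [hv₁1] at this
    exact mul_ne_zero two0 h0 this
  let w : Fin N → k[X] := fun l => 2 * d₀ * e i2 l + (-qpol A σ (e i0) (e i2)) * e i0 l
  have ow : qpol A σ (e i0) w = 0 := by
    simp only [w]
    rw [qpol_comb, qpol_self, ← hd₀]
    ring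
  have hw2 : w i2 = 2 * d₀ := by
    simp only [w]
    rw [e_same, e_ne i0 i2 h02.symm]
    ring
  let v₂ : Fin N → k[X] := fun l => 2 * d₁ * w l + (-qpol A σ v₁ w) * v₁ l
  have hv₂2 : v₂ i2 = 2 * d₁ * (2 * d₀) := by
    simp only [v₂]
    rw [hw2, hv₁2]
    ring
  have o02 : qpol A σ (e i0) v₂ = 0 := by
    simp only [v₂]
    rw [qpol_comb, ow, o01]
    ring
  have o12 : qpol A σ v₁ v₂ = 0 := by
    simp only [v₂]
    rw [qpol_comb, qpol_self, ← hd₁]
    ring
  set d₂ := qval A σ v₂ with hd₂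
  have hv₂0 : v₂ i2 ≠ 0 := by
    rw [hv₂2]
    exact mul_ne_zero (mul_ne_zero two0 h1) (mul_ne_zero two0 h0)
  by_cases h3 : d₂ = 0
  · refine hzero v₂ ?_ h3
    intro h
    exact hv₂0 (congrFun h i2)
  refine ⟨-(d₀ * d₁), -(d₀ * d₂), neg_ne_zero.2 (mul_ne_zero h0 h1),
    neg_ne_zero.2 (mul_ne_zero h0 h3), ?_⟩
  intro K _ _ ψ hψ hxyz'
  obtain ⟨x, y, z, hne, hxyz⟩ := hxyz'
  have hc0 : ∀ g : k[X], g ≠ 0 → ψ g ≠ 0 := fun g hg h => hg (hψ (h.trans (map_zero ψ).symm))
  let v₂' : Fin N → K := fun l => y * ψ (v₁ l) + z * ψ (v₂ l)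
  refine ⟨fun l => x * ψ (e i0 l) + ψ d₀ * v₂' l, ?_, ?_⟩
  · intro h
    have hz : z = 0 := by
      have h3 := congrFun h i2
      simp only [v₂', Pi.zero_apply] at h3
      rw [e_ne i0 i2 h02.symm, hv₁2, map_zero, mul_zero, mul_zero, zero_add, zero_add] at h3
      rcases mul_eq_zero.1 h3 with h4 | h4
      · exact absurd h4 (hc0 _ h0)
      · exact (mul_eq_zero.1 h4).resolve_right (hc0 _ hv₂0)
    have hy : y = 0 := by
      have h3 := congrFun h i1
      simp only [v₂', Pi.zero_apply] at h3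
      rw [e_ne i0 i1 h01.symm, hz, map_zero, mul_zero, zero_mul, zero_add, add_zero] at h3
      rcases mul_eq_zero.1 h3 with h4 | h4
      · exact absurd h4 (hc0 _ h0)
      · refine (mul_eq_zero.1 h4).resolve_right (hc0 _ ?_)
        rw [hv₁1]
        exact mul_ne_zero two0 h0
    have hx : x = 0 := by
      have h3 := congrFun h i0
      simp only [v₂', Pi.zero_apply] at h3
      rw [e_same, hz, hy, map_one, zero_mul, zero_mul, add_zero, mul_zero, add_zero,
        mul_one] at h3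
      exact h3
    rcases hne with h3 | h3 | h3
    · exact h3 hx
    · exact h3 hy
    · exact h3 hz
  · have hpol : ∀ u v : Fin N → k[X], qpol A (fun i => ψ (σ i))
        (fun i => ψ (u i)) (fun i => ψ (v i)) = ψ (qpol A σ u v) := by
      intro u v
      exact (qpol_map A ψ σ u v).symm
    have hval : ∀ u : Fin N → k[X], qval A (fun i => ψ (σ i))
        (fun i => ψ (u i)) = ψ (qval A σ u) := by
      intro u
      exact (qval_map A ψ σ u).symm
    rw [qval_comb]
    simp only [v₂']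
    rw [qval_comb, qpol_comb, hpol, hpol, hpol, hval, hval, hval, o01, o02, o12,
      ← hd₀, ← hd₁, ← hd₂]
    rw [map_neg, map_neg, map_mul, map_mul] at hxyz
    rw [map_zero]
    linear_combination ψ d₀ * hxyz

end Diag

section Section

variable {k : Type u} [Field k] {m N r : ℕ}

/-- Conics over the field of rational functions acquire points after a change of variable that
fixes two rational points. -/
def ConicKill (k : Type u) [Field k] : Prop :=
  ∀ a b : k[X], a ≠ 0 → b ≠ 0 →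
    ∃ Nw Dw : k[X], Nw.eval 0 = 0 ∧ Dw.eval 0 ≠ 0 ∧ Nw.eval 1 ≠ 0 ∧ Dw.eval 1 = 0 ∧
      ∀ (K : Type u) [Field K] [Algebra k K] (f : k[X] →ₐ[k] K), Function.Injective f →
        ∃ x y z : K, (x ≠ 0 ∨ y ≠ 0 ∨ z ≠ 0) ∧
          x ^ 2 = aeval ((f Nw / f Dw) ^ 2) a * y ^ 2 + aeval ((f Nw / f Dw) ^ 2) b * z ^ 2

theorem exists_zero_of_field {A : Fin N → Fin N → MvPolynomial (Fin (m + 1)) k} {a : Fin N → ℤ}
    {δ : ℤ} (hA : IsQuadricBundle A a δ) {K : Type*} [Field K] [Algebra k[X] K]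
    [IsFractionRing k[X] K] [Algebra k K] [IsScalarTower k k[X] K] (s : Fin (m + 1) → K)
    (τ : Fin (m + 1) → k[X]) (l : K) (hl0 : l ≠ 0)
    (hστ : ∀ i, algebraMap k[X] K (τ i) = l * s i)
    (z : Fin N → K) (hz : z ≠ 0) (hq : qval A s z = 0) :
    ∃ z' : Fin N → k[X], z' ≠ 0 ∧ qval A τ z' = 0 := by
  classical
  have hinj : Function.Injective (algebraMap k[X] K) := IsFractionRing.injective k[X] K
  have h2 := qval_torus hA s z l 1 hl0
  rw [hq, mul_zero] at h2
  have h3 : l • s = fun i => algebraMap k[X] K (τ i) := by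
    funext i
    rw [hστ i]
    rfl
  rw [h3] at h2
  obtain ⟨⟨D, hD⟩, hDz⟩ := IsLocalization.exist_integer_multiples_of_finset (nonZeroDivisors k[X])
    (Finset.univ.image fun i => 1 * l ^ (-(a i)) * z i)
  have hD0 : D ≠ 0 := nonZeroDivisors.ne_zero hD
  have hex : ∀ i, ∃ y : k[X], algebraMap k[X] K y =
      algebraMap k[X] K D * (1 * l ^ (-(a i)) * z i) := by
    intro i
    obtain ⟨y, hy⟩ := hDz _ (Finset.mem_image_of_mem _ (Finset.mem_univ i))
    refine ⟨y, hy.trans ?_⟩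
    exact Algebra.smul_def _ _
  choose y hy using hex
  refine ⟨y, ?_, ?_⟩
  · intro h0
    apply hz
    funext i
    have h4 := hy i
    rw [h0, Pi.zero_apply, map_zero] at h4
    rcases mul_eq_zero.1 h4.symm with h6 | h6
    · exact absurd (hinj (h6.trans (map_zero _).symm)) hD0
    · rcases mul_eq_zero.1 h6 with h7 | h7
      · exact absurd h7 (mul_ne_zero one_ne_zero (zpow_ne_zero _ hl0))
      · exact h7
  · apply hinj
    rw [map_zero]
    have h4 := qval_map A (IsScalarTower.toAlgHom k k[X] K) τ y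
    simp only [IsScalarTower.coe_toAlgHom'] at h4
    rw [h4]
    have h5 : (fun i => algebraMap k[X] K (y i)) =
        fun i => algebraMap k[X] K D * (1 * l ^ (-(a i)) * z i) := funext hy
    rw [h5, qval_smul, h2, mul_zero]

/-- The parameter `(N / D)²` is transcendental. -/
theorem injective_aeval_ratio {K : Type*} [Field K] [Algebra k K] (f : k[X] →ₐ[k] K)
    (hf : Function.Injective f) (Nw Dw : k[X]) (hN1 : Nw.eval 1 ≠ 0) (hD1 : Dw.eval 1 = 0)
    (hD0 : Dw.eval 0 ≠ 0) :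
    Function.Injective (aeval ((f Nw / f Dw) ^ 2) : k[X] →ₐ[k] K) := by
  have hD : f Dw ≠ 0 := by
    intro h
    have h1 : Dw = 0 := hf (h.trans (map_zero f).symm)
    rw [h1, eval_zero] at hD0
    exact hD0 rfl
  rw [injective_iff_map_eq_zero]
  intro P hP
  by_contra hP0
  have h1 := map_hat f Nw Dw P hD
  rw [hP, mul_zero] at h1
  have h2 : hat Nw Dw P = 0 := hf (h1.trans (map_zero f).symm)
  have h3 := hz_map P.natDegree P (aeval (1 : k) : k[X] →ₐ[k] k) (Nw ^ 2) (Dw ^ 2)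
  unfold hat at h2
  rw [h2, map_zero, map_pow, map_pow, coe_aeval_eq_eval, hD1, zero_pow two_ne_zero,
    hz_zero_right] at h3
  refine mul_ne_zero ?_ (pow_ne_zero _ (pow_ne_zero _ hN1)) h3.symm
  exact leadingCoeff_ne_zero.2 hP0

/-- Every direct R-link of the base can be changed into one over which the quadric bundle has a
section. -/
theorem exists_link_section_of_conicKill (h2 : (2 : k) ≠ 0) (hk : ConicKill k)
    {G : Fin r → MvPolynomial (Fin (m + 1)) k}
    (hG : ∀ j, ∃ e, (G j).IsHomogeneous e)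
    {A : Fin N → Fin N → MvPolynomial (Fin (m + 1)) k} {a : Fin N → ℤ} {δ : ℤ}
    (hN : 3 ≤ N) (hA : IsQuadricBundle A a δ) (σ : Fin (m + 1) → k[X])
    (hσ : ∀ j, MvPolynomial.aeval σ (G j) = 0) :
    ∃ (τ : Fin (m + 1) → k[X]) (c₀ c₁ : k), c₀ ≠ 0 ∧ c₁ ≠ 0 ∧
      (∀ j, MvPolynomial.aeval τ (G j) = 0) ∧
      (∀ i, (τ i).eval 0 = c₀ * (σ i).eval 0) ∧ (∀ i, (τ i).eval 1 = c₁ * (σ i).eval 1) ∧
      ∃ z : Fin N → k[X], z ≠ 0 ∧ qval A τ z = 0 := by
  classical
  let e : ℕ := Finset.univ.sup fun i => (σ i).natDegree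
  have he : ∀ i, (σ i).natDegree ≤ e := fun i =>
    Finset.le_sup (f := fun i => (σ i).natDegree) (Finset.mem_univ i)
  let K := FractionRing k[X]
  let x : K := algebraMap k[X] K X
  have hinj : Function.Injective (algebraMap k[X] K) := IsFractionRing.injective k[X] K
  have hx2 : (1 : K) + x ≠ 0 := by
    intro h
    have h1 : algebraMap k[X] K (1 + X) = 0 := by rw [map_add, map_one]; exact h
    have h2 : (1 + X : k[X]) = 0 := by
      apply hinj
      rw [h1, map_zero]
    have h3 := congrArg (eval 0) h2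
    simp at h3
  -- first change of parameter
  let σ₁ : Fin (m + 1) → k[X] := fun i => hz e (σ i) X (1 + X)
  have hσ₁ : ∀ i, algebraMap k[X] K (σ₁ i) = (1 + x) ^ e * aeval (x / (1 + x)) (σ i) := by
    intro i
    have h1 := hz_map e (σ i) (IsScalarTower.toAlgHom k k[X] K) X (1 + X)
    simp only [IsScalarTower.coe_toAlgHom', map_add, map_one] at h1
    rw [← hz_field e (σ i) (he i) x (1 + x) hx2]
    exact h1
  have hGσ₁ : ∀ j, MvPolynomial.aeval σ₁ (G j) = 0 := by
    intro j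
    obtain ⟨d, hd⟩ := hG j
    exact forms_reparam (K := K) hd σ σ₁ _ _ hσ₁ (hσ j)
  obtain ⟨α, β, hα, hβ, hzero⟩ := exists_zero_of_conic h2 A hN σ₁
  obtain ⟨Nw, Dw, hN0, hD0, hN1, hD1, hconic⟩ := hk α β hα hβ
  let f : k[X] →ₐ[k] K := IsScalarTower.toAlgHom k k[X] K
  have hf : Function.Injective f := hinj
  have hD : f Dw ≠ 0 := by
    intro h
    have h1 : Dw = 0 := hf (h.trans (map_zero f).symm)
    rw [h1, eval_zero] at hD0
    exact hD0 rfl
  set T : K := (f Nw / f Dw) ^ 2 with hT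
  obtain ⟨v, hv, hqv⟩ := hzero K (aeval T)
    (injective_aeval_ratio f hf Nw Dw hN1 hD1 hD0) (hconic K f hf)
  let τ : Fin (m + 1) → k[X] := fun i => hz e (σ i) (Nw ^ 2) (Nw ^ 2 + Dw ^ 2)
  have hτ : ∀ i, algebraMap k[X] K (τ i) = (f Dw ^ 2) ^ e * aeval T (σ₁ i) := by
    intro i
    have h1 := hz_map e (σ i) f (Nw ^ 2) (Nw ^ 2 + Dw ^ 2)
    rw [map_add, map_pow, map_pow] at h1
    have h2 : aeval T (σ₁ i) = hz e (σ i) T (1 + T) := by
      have h3 := hz_map e (σ i) (aeval T : k[X] →ₐ[k] K) X (1 + X)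
      rw [map_add, map_one, aeval_X] at h3
      exact h3
    rw [h2, ← hz_smul]
    refine h1.trans ?_
    have h5 : f Dw ^ 2 * T = f Nw ^ 2 := by
      rw [hT, div_pow, mul_div_cancel₀ _ (pow_ne_zero 2 hD)]
    rw [mul_add, h5, mul_one, add_comm]
  have hGτ : ∀ j, MvPolynomial.aeval τ (G j) = 0 := by
    intro j
    obtain ⟨d, hd⟩ := hG j
    exact forms_reparam (K := K) hd σ₁ τ T _ hτ (hGσ₁ j)
  obtain ⟨z', hz', hqz'⟩ := exists_zero_of_field (K := K) hA _ τ _
    (pow_ne_zero _ (pow_ne_zero _ hD)) hτ v hv hqv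
  have hev : ∀ (c : k) (i), (τ i).eval c =
      hz e (σ i) (Nw.eval c ^ 2) (Nw.eval c ^ 2 + Dw.eval c ^ 2) := by
    intro c i
    have h1 := hz_map e (σ i) (aeval c : k[X] →ₐ[k] k) (Nw ^ 2) (Nw ^ 2 + Dw ^ 2)
    simp only [coe_aeval_eq_eval, eval_add, eval_pow] at h1
    exact h1
  refine ⟨τ, (Dw.eval 0 ^ 2) ^ e, (Nw.eval 1 ^ 2) ^ e, pow_ne_zero _ (pow_ne_zero _ hD0),
    pow_ne_zero _ (pow_ne_zero _ hN1), hGτ, ?_, ?_, z', hz', hqz'⟩
  · intro i
    rw [hev, hN0, zero_pow two_ne_zero, zero_add, hz_zero_left, coeff_zero_eq_eval_zero, mul_comm]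
    rfl
  · intro i
    rw [hev, hD1, zero_pow two_ne_zero, add_zero, hz_same e _ (he i)]

/-- Every fibre over a rational point has a rational point. -/
theorem exists_fibre_point_of_conicKill (h2 : (2 : k) ≠ 0) (hk : ConicKill k)
    {A : Fin N → Fin N → MvPolynomial (Fin (m + 1)) k} {a : Fin N → ℤ} {δ : ℤ}
    (hN : 3 ≤ N) (hA : IsQuadricBundle A a δ)
    (s : Fin (m + 1) → k) : ∃ x : Fin N → k, x ≠ 0 ∧ qval A s x = 0 := by
  obtain ⟨τ, c₀, c₁, hc₀, -, -, hτ₀, -, z, hz, hqz⟩ := exists_link_section_of_conicKill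
    (r := 0) (G := Fin.elim0) h2 hk (fun j => j.elim0) hN hA (fun i => C (s i))
    (fun j => j.elim0)
  obtain ⟨f, z', hf, hzf, hz'⟩ := exists_primitive z hz
  have hqz' : qval A τ z' = 0 := by
    rw [hzf, qval_smul] at hqz
    exact (mul_eq_zero.1 hqz).resolve_left (pow_ne_zero _ hf)
  have h1 := qval_map A (Polynomial.aeval (0 : k)) τ z'
  rw [hqz', map_zero] at h1
  simp only [coe_aeval_eq_eval, hτ₀, eval_C] at h1
  have h3 := qval_torus hA (fun i => c₀ * s i) (fun i => (z' i).eval 0) c₀⁻¹ 1 (inv_ne_zero hc₀)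
  rw [← h1, mul_zero] at h3
  have h4 : (c₀⁻¹ • fun i => c₀ * s i) = s := by
    funext i
    simp only [Pi.smul_apply, smul_eq_mul]
    rw [inv_mul_cancel_left₀ hc₀]
  rw [h4] at h3
  refine ⟨_, ?_, h3⟩
  intro h0
  apply hz' 0
  funext i
  have h5 := congrFun h0 i
  simp only [one_mul, Pi.zero_apply] at h5
  exact (mul_eq_zero.1 h5).resolve_left (zpow_ne_zero _ (inv_ne_zero hc₀))

theorem projR_bijective_of_conicKill (h2 : (2 : k) ≠ 0) (hk : ConicKill k)
    (G : Fin r → MvPolynomial (Fin (m + 1)) k)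
    (hG : ∀ j, ∃ e, (G j).IsHomogeneous e)
    (A : Fin N → Fin N → MvPolynomial (Fin (m + 1)) k) (a : Fin N → ℤ) (δ : ℤ)
    (hN : 3 ≤ N) (hA : IsQuadricBundle A a δ) : Function.Bijective (projR G A a) :=
  projR_bijective hG hN hA (exists_fibre_point_of_conicKill h2 hk hN hA)
    fun σ hσ => exists_link_section_of_conicKill h2 hk hG hN hA σ hσ

end Section

section Finite

theorem conicKill_of_finite {k : Type u} [Field k] [Finite k] (h2 : (2 : k) ≠ 0) :
    ConicKill k := by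
  haveI := Fintype.ofFinite k
  intro a b ha hb
  exact exists_conic_kill h2 a b ha hb

/-- Fields algebraic over a finite field. -/
theorem conicKill_of_algebraic {F : Type v} [Field F] [Finite F] {k : Type u} [Field k]
    [Algebra F k] [Algebra.IsAlgebraic F k] (h2 : (2 : k) ≠ 0) : ConicKill k := by
  classical
  intro a b ha hb
  let S : Finset k := a.coeffs ∪ b.coeffs
  let k₀ := IntermediateField.adjoin F (S : Set k)
  haveI : FiniteDimensional F k₀ := IntermediateField.finiteDimensional_adjoin fun x _ =>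
    (Algebra.IsAlgebraic.isAlgebraic (R := F) x).isIntegral
  haveI : Finite k₀ := Module.finite_of_finite F
  haveI := Fintype.ofFinite k₀
  have hS : ∀ x ∈ S, x ∈ k₀ := fun x hx => IntermediateField.subset_adjoin F (S : Set k) hx
  have hlift : ∀ c : k[X], (∀ n, c.coeff n ∈ k₀) → ∃ c₀ : (Polynomial k₀),
      c₀.map (algebraMap k₀ k) = c := by
    intro c hc
    have h1 : c ∈ Polynomial.lifts (algebraMap k₀ k) := by
      rw [Polynomial.lifts_iff_coeff_lifts]
      intro n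
      exact ⟨⟨c.coeff n, hc n⟩, rfl⟩
    exact (Polynomial.mem_lifts c).1 h1
  have hcoeff : ∀ c : k[X], c.coeffs ⊆ S → ∀ n, c.coeff n ∈ k₀ := by
    intro c hc n
    by_cases h : c.coeff n = 0
    · rw [h]
      exact zero_mem k₀
    · exact hS _ (hc (Polynomial.coeff_mem_coeffs h))
  obtain ⟨a₀, ha₀⟩ := hlift a (hcoeff a Finset.subset_union_left)
  obtain ⟨b₀, hb₀⟩ := hlift b (hcoeff b Finset.subset_union_right)
  have h20 : (2 : k₀) ≠ 0 := by
    intro h
    apply h2
    have h3 := congrArg (algebraMap k₀ k) h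
    rwa [map_ofNat, map_zero] at h3
  obtain ⟨N₀, D₀, hN0, hD0, hN1, hD1, hconic⟩ := exists_conic_kill h20 a₀ b₀
    (fun h => ha (by rw [← ha₀, h, Polynomial.map_zero]))
    (fun h => hb (by rw [← hb₀, h, Polynomial.map_zero]))
  have hev : ∀ (c : (Polynomial k₀)) (x : k₀), (c.map (algebraMap k₀ k)).eval (algebraMap k₀ k x) =
      algebraMap k₀ k (c.eval x) := fun c x => by rw [eval_map_algebraMap, aeval_algebraMap_apply,
        coe_aeval_eq_eval]
  have hinj : Function.Injective (algebraMap k₀ k) := (algebraMap k₀ k).injective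
  refine ⟨N₀.map (algebraMap k₀ k), D₀.map (algebraMap k₀ k), ?_, ?_, ?_, ?_, ?_⟩
  · have := hev N₀ 0
    rwa [map_zero, hN0, map_zero] at this
  · have := hev D₀ 0
    rw [map_zero] at this
    rw [this]
    exact fun h => hD0 (hinj (h.trans (map_zero _).symm))
  · have := hev N₀ 1
    rw [map_one] at this
    rw [this]
    exact fun h => hN1 (hinj (h.trans (map_zero _).symm))
  · have := hev D₀ 1
    rwa [map_one, hD1, map_zero] at this
  · intro K _ _ f hf
    let f₀ : (Polynomial k₀) →ₐ[k₀] K := (f.restrictScalars k₀).comp (Polynomial.mapAlgHom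
      (IsScalarTower.toAlgHom k₀ k₀ k))
    have hf₀ : Function.Injective f₀ := by
      intro x y hxy
      exact Polynomial.map_injective _ hinj (hf hxy)
    obtain ⟨x, y, z, hne, hxyz⟩ := hconic K f₀ hf₀
    refine ⟨x, y, z, hne, ?_⟩
    rw [← ha₀, ← hb₀, Polynomial.aeval_map_algebraMap, Polynomial.aeval_map_algebraMap]
    exact hxyz

theorem projR_bijective_of_algebraic {F : Type v} [Field F] [Finite F] {k : Type u} [Field k]
    [Algebra F k] [Algebra.IsAlgebraic F k] {m N r : ℕ}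
    (G : Fin r → MvPolynomial (Fin (m + 1)) k)
    (hG : ∀ j, ∃ e, (G j).IsHomogeneous e)
    (A : Fin N → Fin N → MvPolynomial (Fin (m + 1)) k) (a : Fin N → ℤ) (δ : ℤ)
    (hN : 3 ≤ N) (hA : IsQuadricBundle A a δ) : Function.Bijective (projR G A a) := by
  by_cases h2 : (2 : k) = 0
  · haveI : CharP k 2 := CharTwo.of_one_ne_zero_of_two_eq_zero one_ne_zero h2
    haveI : PerfectField k := Algebra.IsAlgebraic.perfectField (K := F)
    haveI : Fact (Nat.Prime 2) := ⟨Nat.prime_two⟩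
    haveI : ExpChar k 2 := ExpChar.prime Nat.prime_two
    haveI : PerfectRing k 2 := PerfectField.toPerfectRing 2
    exact projR_bijective_char_two G hG A a δ hN hA
  · exact projR_bijective_of_conicKill h2 (conicKill_of_algebraic (F := F) h2) G hG A a δ hN hA

end Finite

end Pool.Agent.K369
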