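import Mathlib
import Pool.Agent.K369.Reparam

set_option autoImplicit false
set_option linter.all false

/-!
# The field of Laurent series over an algebraically closed field of characteristic zero has exactly
one quadratic extension, and so do all its finite extensions
-/

namespace Pool.Agent.K369

open Polynomial Pool.Agent.Helper165.P1 Pool.Agent.Helper165.P1.NP

universe u

variable {E : Type u} [Field E]

theorem ls_square [IsAlgClosed E] [CharZero E] (x y : LS E) :
    IsSquare x ∨ IsSquare y ∨ IsSquare (x * y) := by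
  have key : ∀ z : LS E, (z = 0 ∨ Even z.order) → IsSquare z := by
    intro z hz
    rcases eq_or_ne z 0 with h | h
    · rw [h]
      exact IsSquare.zero
    · obtain ⟨w, hw⟩ := exists_sqrt z h (hz.resolve_left h)
      exact ⟨w, by rw [← hw, sq]⟩
  rcases eq_or_ne x 0 with hx | hx
  · exact Or.inl (key x (Or.inl hx))
  rcases eq_or_ne y 0 with hy | hy
  · exact Or.inr (Or.inl (key y (Or.inl hy)))
  by_cases hxe : Even x.order
  · exact Or.inl (key x (Or.inr hxe))
  by_cases hye : Even y.order
  · exact Or.inr (Or.inl (key y (Or.inr hye)))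
  refine Or.inr (Or.inr (key _ (Or.inr ?_)))
  rw [HahnSeries.order_mul hx hy]
  rw [Int.not_even_iff_odd] at hxe hye
  exact hxe.add_odd hye

set_option synthInstance.maxHeartbeats 400000 in
theorem oneQuadratic_laurent [IsAlgClosed E] [CharZero E] : OneQuadratic (LS E) := by
  intro L _ _ _ x y
  haveI : CharZero (LS E) := charZero_of_injective_algebraMap (algebraMap E (LS E)).injective
  haveI hT : Module.IsTorsionFree (LS E) (Pui E) := inferInstance
  let ι : L →ₐ[LS E] Pui E := IsAlgClosed.lift
  have hinj : Function.Injective ι := ι.toRingHom.injective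
  obtain ⟨α, hα⟩ := Field.exists_primitive_element (LS E) L
  obtain ⟨n, hn, hadj⟩ := exists_adjoin_eq (ι α)
  have hrange : ι.fieldRange = RF E n hn := by
    rw [← hadj, AlgHom.fieldRange_eq_map, ← hα, IntermediateField.adjoin_map, Set.image_singleton]
  have hmem : ∀ z : L, ∃ w : LS E, eP n hn w = ι z := by
    intro z
    have h1 : ι z ∈ ι.fieldRange := ⟨z, rfl⟩
    rw [hrange] at h1
    exact h1
  have hsq : ∀ (z : L) (w : LS E), eP n hn w = ι z → IsSquare w → IsSquare z := by
    rintro z w hw ⟨v, hv⟩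
    have h1 : eP n hn v ∈ ι.fieldRange := by
      rw [hrange]
      exact ⟨v, rfl⟩
    obtain ⟨t, ht⟩ := h1
    change ι t = eP n hn v at ht
    refine ⟨t, hinj ?_⟩
    rw [map_mul, ht, ← map_mul, ← hv, hw]
  obtain ⟨w, hw⟩ := hmem x
  obtain ⟨v, hv⟩ := hmem y
  rcases ls_square w v with h | h | h
  · exact Or.inl (hsq x w hw h)
  · exact Or.inr (Or.inl (hsq y v hv h))
  · refine Or.inr (Or.inr (hsq _ (w * v) ?_ h))
    rw [map_mul, map_mul, hw, hv]

theorem roots_laurent [IsAlgClosed E] [CharZero E] (n : ℕ) :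
    ∃ ζ : LS E, IsPrimitiveRoot ζ (2 ^ n) := by
  haveI : NeZero (2 ^ n) := ⟨by positivity⟩
  obtain ⟨ζ, hζ⟩ := HasEnoughRootsOfUnity.exists_primitiveRoot E (2 ^ n)
  exact ⟨algebraMap E (LS E) ζ, hζ.map_of_injective (algebraMap E (LS E)).injective⟩

theorem exists_nonsquare_laurent : ∃ c : LS E, ¬ IsSquare c := by
  refine ⟨HahnSeries.single 1 1, ?_⟩
  rintro ⟨w, hw⟩
  have h1 : (HahnSeries.single (1 : ℤ) (1 : E)) ≠ 0 := HahnSeries.single_ne_zero one_ne_zero
  have hw0 : w ≠ 0 := by
    rintro rfl
    rw [mul_zero] at hw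
    exact h1 hw
  have h2 := congrArg HahnSeries.order hw
  rw [HahnSeries.order_single one_ne_zero, HahnSeries.order_mul hw0 hw0] at h2
  omega

end Pool.Agent.K369
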