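import Mathlib
import Pool.Agent.K369.Conic

set_option autoImplicit false
set_option linter.all false

/-!
# Linking two points by rational plane curves with a point of high multiplicity
-/

namespace Pool.Agent.K369

open MvPolynomial

variable {k : Type*} [Field k] {m : ℕ} {J : Type*}

section Plane

variable {ι : Type*}

/-- The generic point of the plane through three points. -/
noncomputable def pln {A : Type*} [CommSemiring A] (P w R : Fin m → A) (i : Fin m) :
    MvPolynomial (Fin 3) A :=
  C (P i) * X 0 + C (w i) * X 1 + C (R i) * X 2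

/-- Polynomials in three variables over a polynomial ring whose coefficient at `e` is a form of
degree `e 1`. -/
def GrW (p : MvPolynomial (Fin 3) (MvPolynomial ι k)) : Prop :=
  ∀ e, (coeff e p).IsHomogeneous (e 1)

theorem GrW.add {p q : MvPolynomial (Fin 3) (MvPolynomial ι k)} (hp : GrW p) (hq : GrW q) :
    GrW (p + q) := fun e => by rw [coeff_add]; exact (hp e).add (hq e)

theorem GrW.mul {p q : MvPolynomial (Fin 3) (MvPolynomial ι k)} (hp : GrW p) (hq : GrW q) :
    GrW (p * q) := fun e => by
  rw [coeff_mul]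
  refine IsHomogeneous.sum _ _ _ fun x hx => ?_
  rw [Finset.HasAntidiagonal.mem_antidiagonal] at hx
  rw [← hx, Finsupp.add_apply]
  exact (hp x.1).mul (hq x.2)

theorem GrW.C {a : MvPolynomial ι k} (ha : a.IsHomogeneous 0) :
    GrW (MvPolynomial.C a : MvPolynomial (Fin 3) (MvPolynomial ι k)) := fun e => by
  rw [coeff_C]
  split_ifs with h
  · rw [← h]; exact ha
  · exact isHomogeneous_zero _ _ _

theorem GrW.X_other {i : Fin 3} (hi : i ≠ 1) :
    GrW (X i : MvPolynomial (Fin 3) (MvPolynomial ι k)) := fun e => by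
  rw [coeff_X']
  split_ifs with h
  · rw [← h, Finsupp.single_eq_of_ne (fun h => hi h.symm)]
    exact isHomogeneous_one _ _
  · exact isHomogeneous_zero _ _ _

theorem GrW.X_one {a : MvPolynomial ι k} (ha : a.IsHomogeneous 1) :
    GrW (MvPolynomial.C a * X 1 : MvPolynomial (Fin 3) (MvPolynomial ι k)) := fun e => by
  rw [coeff_C_mul, coeff_X']
  split_ifs with h
  · rw [← h, Finsupp.single_eq_same, mul_one]
    exact ha
  · rw [mul_zero]; exact isHomogeneous_zero _ _ _

theorem GrW.aeval {σ : Type*} (F : MvPolynomial σ k)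
    (g : σ → MvPolynomial (Fin 3) (MvPolynomial ι k)) (hg : ∀ i, GrW (g i)) :
    GrW (MvPolynomial.aeval g F) := by
  induction F using MvPolynomial.induction_on with
  | C a =>
    rw [aeval_C]
    exact GrW.C (isHomogeneous_C _ a)
  | add p q hp hq => rw [map_add]; exact hp.add hq
  | mul_X p i hp => rw [map_mul, aeval_X]; exact hp.mul (hg i)

theorem grW_pln (P R : Fin m → k) (W : Fin m → MvPolynomial ι k)
    (hW : ∀ i, (W i).IsHomogeneous 1) (i : Fin m) :
    GrW (pln (fun i => C (P i)) W (fun i => C (R i)) i) :=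
  (((GrW.C (isHomogeneous_C _ _)).mul (GrW.X_other (by decide))).add (GrW.X_one (hW i))).add
    ((GrW.C (isHomogeneous_C _ _)).mul (GrW.X_other (by decide)))

theorem map_aeval_pln {σ : Type*} (x : ι → k) (γ : σ → MvPolynomial (Fin 3) (MvPolynomial ι k))
    (F : MvPolynomial σ k) : map (eval x) (aeval γ F) =
      aeval (fun i => map (eval x) (γ i)) F := by
  have h2 : (mapAlgHom (aeval x : MvPolynomial ι k →ₐ[k] k)).comp (aeval γ) =
      aeval (fun i => map (eval x) (γ i)) := by
    apply MvPolynomial.algHom_ext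
    intro i
    simp only [AlgHom.comp_apply, aeval_X]
    rfl
  exact congrArg (fun f => f F) (congrArg DFunLike.coe h2)

theorem map_pln (P R : Fin m → k) (W : Fin m → MvPolynomial ι k) (x : ι → k) (i : Fin m) :
    map (eval x) (pln (fun i => C (P i)) W (fun i => C (R i)) i) =
      pln P (fun i => eval x (W i)) R i := by
  simp [pln]

theorem pln_homog (P w R : Fin m → k) (i : Fin m) : (pln P w R i).IsHomogeneous 1 := by
  refine ((?_ : IsHomogeneous _ 1).add ?_).add ?_
  · simpa using (isHomogeneous_C (Fin 3) (P i)).mul (isHomogeneous_X k (0 : Fin 3))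
  · simpa using (isHomogeneous_C (Fin 3) (w i)).mul (isHomogeneous_X k (1 : Fin 3))
  · simpa using (isHomogeneous_C (Fin 3) (R i)).mul (isHomogeneous_X k (2 : Fin 3))

theorem aeval_bind_pln {A : Type*} [CommRing A] [Algebra k A] (P w R : Fin m → k) (x : Fin 3 → A)
    (F : MvPolynomial (Fin m) k) :
    aeval x (bind₁ (pln P w R) F) = aeval
      (fun i => algebraMap k A (P i) * x 0 + algebraMap k A (w i) * x 1 +
        algebraMap k A (R i) * x 2) F := by
  rw [aeval_bind₁]
  congr 2
  funext i
  simp [pln]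

end Plane

/-- The exponent `(a, b, c)`. -/
noncomputable def e3 (a b c : ℕ) : Fin 3 →₀ ℕ := Finsupp.cons a (Finsupp.cons b (Finsupp.cons c 0))

@[simp] theorem e3_zero (a b c : ℕ) : e3 a b c 0 = a := rfl
@[simp] theorem e3_one (a b c : ℕ) : e3 a b c 1 = b := rfl
@[simp] theorem e3_two (a b c : ℕ) : e3 a b c 2 = c := rfl

theorem eq_e3 (e : Fin 3 →₀ ℕ) : e = e3 (e 0) (e 1) (e 2) := by
  ext i
  fin_cases i <;> simp

theorem sum_eq_of_coeff_ne_zero {H : MvPolynomial (Fin 3) k} {d : ℕ} (hH : H.IsHomogeneous d)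
    {e : Fin 3 →₀ ℕ} (he : coeff e H ≠ 0) : e 0 + e 1 + e 2 = d := by
  have := hH he
  rw [Finsupp.weight_apply, Finsupp.sum_fintype _ _ (fun _ => by simp), Fin.sum_univ_three] at this
  simpa using this

theorem coeff_line {H : MvPolynomial (Fin 3) k} {d : ℕ} (hH : H.IsHomogeneous d) (i : ℕ)
    (hi : i ≤ d) : (aeval ![1, 0, Polynomial.X] H : Polynomial k).coeff i =
      coeff (e3 (d - i) 0 i) H := by
  classical
  rw [aeval_def, eval₂_eq', Polynomial.finset_sum_coeff]
  have key : ∀ e : Fin 3 →₀ ℕ, ((algebraMap k (Polynomial k)) (coeff e H) *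
      ∏ j, (![1, 0, Polynomial.X] : Fin 3 → Polynomial k) j ^ e j).coeff i =
      if e 1 = 0 ∧ e 2 = i then coeff e H else 0 := by
    intro e
    rw [Fin.prod_univ_three]
    by_cases h1 : e 1 = 0
    · simp [h1, Polynomial.coeff_X_pow, eq_comm]
    · simp [h1]
  rw [Finset.sum_congr rfl fun e _ => key e]
  by_cases h0 : coeff (e3 (d - i) 0 i) H = 0
  · rw [h0]
    refine Finset.sum_eq_zero fun e he => ?_
    split_ifs with h
    · rw [mem_support_iff] at he
      have := sum_eq_of_coeff_ne_zero hH he
      have h2 : e = e3 (d - i) 0 i := by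
        rw [eq_e3 e, h.1, h.2]
        congr 1
        omega
      rw [h2, h0]
    · rfl
  · rw [Finset.sum_eq_single (e3 (d - i) 0 i)]
    · simp
    · intro e he hne
      split_ifs with h
      · rw [mem_support_iff] at he
        have := sum_eq_of_coeff_ne_zero hH he
        exfalso
        apply hne
        rw [eq_e3 e, h.1, h.2]
        congr 1
        omega
      · rfl
    · intro h
      rw [mem_support_iff, not_not] at h
      simp [h]

theorem sum_choose_three (a : ℕ) :
    ∑ l : Fin a, ∑ _i : Fin (a - l), ((l : ℕ) + 1) = (a + 2).choose 3 := by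
  simp only [Finset.sum_const, Finset.card_univ, Fintype.card_fin, smul_eq_mul]
  rw [Fin.sum_univ_eq_sum_range (fun l => (a - l) * (l + 1))]
  induction a with
  | zero => rfl
  | succ a ih =>
    have h1 : ∀ l ∈ Finset.range a, (a + 1 - l) * (l + 1) = (a - l) * (l + 1) + (l + 1) := by
      intro l hl
      rw [Finset.mem_range] at hl
      have : a + 1 - l = (a - l) + 1 := by omega
      rw [this]
      ring
    rw [Finset.sum_range_succ, Finset.sum_congr rfl h1, Finset.sum_add_distrib, ih]
    have h2 : ∑ l ∈ Finset.range a, (l + 1) + (a + 1 - a) * (a + 1) = (a + 2).choose 2 := by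
      have h3 := Finset.sum_range_id_mul_two (a + 2)
      rw [Finset.sum_range_succ', Finset.sum_range_succ] at h3
      rw [Nat.choose_two_right]
      have : a + 1 - a = 1 := by omega
      rw [this]
      omega
    rw [add_assoc, h2, show a + 1 + 2 = (a + 2) + 1 from rfl, Nat.choose_succ_succ' (a + 2) 2]
    ring

theorem aeval_fin_three {A : Type*} [CommRing A] [Algebra k A] (x : Fin 3 → A)
    (H : MvPolynomial (Fin 3) k) : aeval x H =
      Polynomial.eval₂ (aeval (fun i : Fin 2 => x i.succ) : MvPolynomial (Fin 2) k →ₐ[k] A).toRingHom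
        (x 0) (MvPolynomial.finSuccEquiv k 2 H) := by
  induction H using MvPolynomial.induction_on with
  | C a => simp [finSuccEquiv_apply]
  | add p q hp hq => rw [map_add, map_add, Polynomial.eval₂_add, hp, hq]
  | mul_X p i hp =>
    rw [map_mul, map_mul, Polynomial.eval₂_mul, hp, aeval_X]
    congr 1
    refine Fin.cases ?_ (fun j => ?_) i
    · rw [finSuccEquiv_X_zero, Polynomial.eval₂_X]
    · rw [finSuccEquiv_X_succ, Polynomial.eval₂_C]
      simp

/-- The coefficient of `(X 0) ^ i`. -/
noncomputable def cf (i : ℕ) (H : MvPolynomial (Fin 3) k) : MvPolynomial (Fin 2) k :=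
  (MvPolynomial.finSuccEquiv k 2 H).coeff i

theorem cf_homog {H : MvPolynomial (Fin 3) k} {d : ℕ} (hH : H.IsHomogeneous d) (i j : ℕ)
    (h : i + j = d) : (cf i H).IsHomogeneous j :=
  IsHomogeneous.finSuccEquiv_coeff_isHomogeneous hH i j h

theorem decomp {H : MvPolynomial (Fin 3) k} (hH : ∀ e : Fin 3 →₀ ℕ, 2 ≤ e 0 → coeff e H = 0)
    {A : Type*} [CommRing A] [Algebra k A] (x : Fin 3 → A) :
    aeval x H = aeval (fun i : Fin 2 => x i.succ) (cf 1 H) * x 0 +
      aeval (fun i : Fin 2 => x i.succ) (cf 0 H) := by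
  rw [aeval_fin_three]
  have h1 : (MvPolynomial.finSuccEquiv k 2 H).natDegree ≤ 1 := by
    rw [Polynomial.natDegree_le_iff_coeff_eq_zero]
    intro i hi
    ext e
    rw [finSuccEquiv_coeff_coeff, coeff_zero]
    apply hH
    rw [Finsupp.cons_zero]
    exact hi
  conv_lhs => rw [Polynomial.eq_X_add_C_of_natDegree_le_one h1]
  rw [Polynomial.eval₂_add, Polynomial.eval₂_mul, Polynomial.eval₂_C, Polynomial.eval₂_C,
    Polynomial.eval₂_X]
  rfl

/-- A binary form evaluated at `(u, 1)` has degree at most the degree of the form. -/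
theorem natDegree_aeval_le {G : MvPolynomial (Fin 2) k} {d : ℕ} (hG : G.IsHomogeneous d) :
    (aeval ![Polynomial.X, 1] G : Polynomial k).natDegree ≤ d := by
  rw [aeval_def, eval₂_eq']
  refine Polynomial.natDegree_sum_le_of_forall_le _ _ fun e he => ?_
  rw [mem_support_iff] at he
  have h1 := hG he
  rw [Finsupp.weight_apply, Finsupp.sum_fintype _ _ (fun _ => by simp), Fin.sum_univ_two] at h1
  simp only [Pi.one_apply, smul_eq_mul, mul_one] at h1
  rw [Fin.prod_univ_two]
  simp only [Matrix.cons_val_zero, Matrix.cons_val_one, one_pow, mul_one]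
  rw [← Polynomial.C_eq_algebraMap]
  refine (Polynomial.natDegree_C_mul_X_pow_le _ _).trans ?_
  omega

theorem coeff_aeval_top {G : MvPolynomial (Fin 2) k} {d : ℕ} (hG : G.IsHomogeneous d) :
    (aeval ![Polynomial.X, 1] G : Polynomial k).coeff d = eval ![1, 0] G := by
  have h := Polynomial.homogenize_eq_of_isHomogeneous hG (p := aeval ![Polynomial.X, 1] G) rfl
  rw [← eval_one_zero_homogenize, h]

theorem coeff_aeval_zero (G : MvPolynomial (Fin 2) k) :
    (aeval ![Polynomial.X, 1] G : Polynomial k).coeff 0 = eval ![0, 1] G := by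
  rw [Polynomial.coeff_zero_eq_eval_zero, ← coe_aeval_eq_eval]
  have h2 : (Polynomial.aeval (0 : k) : Polynomial k →ₐ[k] k).comp
        (aeval ![Polynomial.X, 1]) = aeval ![0, 1] := by
    apply MvPolynomial.algHom_ext
    intro i
    fin_cases i <;> simp
  have h3 := congrArg (fun f => f G) (congrArg DFunLike.coe h2)
  simpa using h3

/-- The curve `z(u) = - g(u) P + c(u) (R + u w)`. -/
noncomputable def mcv (P w R : Fin m → k) (g c : Polynomial k) (i : Fin m) : Polynomial k :=
  Polynomial.C (P i) * (-g) + Polynomial.C (w i) * (c * Polynomial.X) + Polynomial.C (R i) * c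

theorem aeval_mul_const {G : MvPolynomial (Fin 2) k} {d : ℕ} (hG : G.IsHomogeneous d)
    {A : Type*} [CommRing A] [Algebra k A] (t : A) (v x : Fin 2 → k) (y : Fin 2 → A)
    (hy : ∀ i, y i = t * algebraMap k A (v i)) :
    aeval y G = t ^ d * algebraMap k A (eval v G) := by
  have h1 : y = fun i => t * algebraMap k A (v i) := funext hy
  rw [h1, aeval_mul_of_isHomogeneous hG]
  congr 1
  rw [← coe_aeval_eq_eval]
  exact aeval_algebraMap_apply A v G

theorem coeff_eq_eval_one_zero {G : MvPolynomial (Fin 2) k} {d : ℕ} (hG : G.IsHomogeneous d)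
    (e : Fin 2 →₀ ℕ) (h0 : e 0 = d) (h1 : e 1 = 0) : eval ![1, 0] G = coeff e G := by
  have h := Polynomial.homogenize_eq_of_isHomogeneous hG (p := aeval ![Polynomial.X, 1] G) rfl
  rw [← coeff_aeval_top hG]
  conv_rhs => rw [← h]
  rw [Polynomial.coeff_homogenize, if_pos (by omega), h0]

/-- The plane construction. -/
theorem re_of_plane {F : J → MvPolynomial (Fin m) k} {d : J → ℕ}
    (hF : ∀ j, (F j).IsHomogeneous (d j)) (s : J) (hd : 1 ≤ d s) {P w R : Fin m → k}
    (hP : P ≠ 0) (hR : R ≠ 0) (hw : ∀ a : k, w ≠ a • P)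
    (hplane : ∀ j, j ≠ s → bind₁ (pln P w R) (F j) = 0)
    (hs : ∀ e : Fin 3 →₀ ℕ, 2 ≤ e 0 → coeff e (bind₁ (pln P w R) (F s)) = 0)
    (hc : coeff (e3 1 (d s - 1) 0) (bind₁ (pln P w R) (F s)) = 0)
    (hR0 : eval R (F s) = 0) : RE F P R := by
  classical
  set H := bind₁ (pln P w R) (F s) with hHdef
  have hH : H.IsHomogeneous (d s) := by
    have := (hF s).aeval _ (pln_homog P w R)
    rwa [one_mul] at this
  have hC : (cf 1 H).IsHomogeneous (d s - 1) := cf_homog hH 1 (d s - 1) (by omega)
  have hG : (cf 0 H).IsHomogeneous (d s) := cf_homog hH 0 (d s) (by omega)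
  have hG01 : eval ![0, 1] (cf 0 H) = 0 := by
    have h1 := decomp hs (![0, 0, 1] : Fin 3 → k)
    have h2 : (aeval (![0, 0, 1] : Fin 3 → k)) H = eval R (F s) := by
      rw [hHdef, aeval_bind_pln, ← coe_aeval_eq_eval]
      simp
    rw [h2, hR0] at h1
    have h3 : (fun i : Fin 2 => (![0, 0, 1] : Fin 3 → k) i.succ) = ![0, 1] := by
      funext i; fin_cases i <;> rfl
    rw [h3] at h1
    simp only [Matrix.cons_val_zero, mul_zero, zero_add] at h1
    rw [← coe_aeval_eq_eval]
    exact h1.symm
  have hC10 : eval ![1, 0] (cf 1 H) = 0 := by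
    rw [coeff_eq_eval_one_zero hC (Finsupp.cons (d s - 1) (Finsupp.cons 0 0)) rfl rfl, cf,
      finSuccEquiv_coeff_coeff]
    exact hc
  set c : Polynomial k := aeval ![Polynomial.X, 1] (cf 1 H) with hcdef
  set g : Polynomial k := aeval ![Polynomial.X, 1] (cf 0 H) with hgdef
  by_cases hc0 : c.coeff 0 = 0
  · -- the line `P R` lies on the variety
    have hC01 : eval ![0, 1] (cf 1 H) = 0 := by rw [← coeff_aeval_zero]; exact hc0
    refine RE.of_lk hP hR (Lk.of_line fun j => ?_)
    have h1 : ∀ j, bind₁ (lin P R) (F j) =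
        aeval (![X 1, 0, X 0] : Fin 3 → MvPolynomial (Fin 2) k) (bind₁ (pln P w R) (F j)) := by
      intro j
      rw [aeval_bind_pln]
      change aeval (lin P R) (F j) = _
      congr 2
      funext i
      simp [lin]
    rw [h1]
    by_cases hj : j = s
    · rw [hj, ← hHdef, decomp hs, aeval_mul_const hC (X 0) ![0, 1] ![0, 1] _ (by
        intro i; fin_cases i <;> simp), aeval_mul_const hG (X 0) ![0, 1] ![0, 1] _ (by
        intro i; fin_cases i <;> simp), hC01, hG01]
      simp
    · rw [hplane j hj, map_zero]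
  · have hcne : c ≠ 0 := by
      rintro h
      rw [h, Polynomial.coeff_zero] at hc0
      exact hc0 rfl
    set N := max g.natDegree (c.natDegree + 1) with hN
    have hN1 : 1 ≤ N := le_trans (by omega) (le_max_right _ _)
    have hgN : g.natDegree ≤ N := le_max_left _ _
    have hcN : c.natDegree + 1 ≤ N := le_max_right _ _
    set z : Fin m → k := (-g.coeff N) • P + (c.coeff (N - 1)) • w with hz
    have hβ : c.coeff (N - 1) ≠ 0 → eval ![1, 0] (cf 0 H) = 0 := by
      intro hb
      have h1 : N - 1 ≤ c.natDegree := Polynomial.le_natDegree_of_ne_zero hb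
      have h2 : c.natDegree ≤ d s - 1 := natDegree_aeval_le hC
      have h3 : c.natDegree ≠ d s - 1 := by
        intro h
        apply Polynomial.leadingCoeff_ne_zero.2 hcne
        rw [Polynomial.leadingCoeff, h, hcdef, coeff_aeval_top hC, hC10]
      rw [← coeff_aeval_top hG]
      apply Polynomial.coeff_eq_zero_of_natDegree_lt
      change g.natDegree < d s
      omega
    have hz0 : z ≠ 0 := by
      intro h0
      by_cases hb : c.coeff (N - 1) = 0
      · rw [hz, hb, zero_smul, add_zero] at h0
        rcases smul_eq_zero.1 h0 with h1 | h1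
        · rw [neg_eq_zero] at h1
          have h2 : N ≠ c.natDegree + 1 := by
            intro h
            rw [h, Nat.add_sub_cancel] at hb
            exact Polynomial.leadingCoeff_ne_zero.2 hcne hb
          have h3 : N = g.natDegree := by omega
          rw [h3] at h1
          have h4 : g = 0 := Polynomial.leadingCoeff_eq_zero.1 h1
          rw [h4, Polynomial.natDegree_zero] at h3
          omega
        · exact hP h1
      · apply hw (g.coeff N / c.coeff (N - 1))
        funext i
        have h1 := congrFun h0 i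
        simp only [hz, Pi.add_apply, Pi.smul_apply, smul_eq_mul, Pi.zero_apply] at h1 ⊢
        field_simp
        linear_combination h1
    have l1 : Lk F R z := by
      refine Lk.of_poly_inf hF (mcv P w R g c) N ?_ ?_ 0 (a := c.coeff 0) (b := 1) hc0 one_ne_zero
        ?_ ?_
      · intro i
        refine (Polynomial.natDegree_add_le _ _).trans (max_le ?_ ?_)
        · refine (Polynomial.natDegree_add_le _ _).trans (max_le ?_ ?_)
          · refine (Polynomial.natDegree_C_mul_le _ _).trans ?_
            rw [Polynomial.natDegree_neg]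
            exact hgN
          · refine (Polynomial.natDegree_C_mul_le _ _).trans ?_
            refine Polynomial.natDegree_mul_le.trans ?_
            rw [Polynomial.natDegree_X]
            exact hcN
        · refine (Polynomial.natDegree_C_mul_le _ _).trans ?_
          omega
      · intro j
        have h1 : aeval (mcv P w R g c) (F j) =
            aeval (![-g, c * Polynomial.X, c] : Fin 3 → Polynomial k)
              (bind₁ (pln P w R) (F j)) := by
          rw [aeval_bind_pln]
          congr 2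
        rw [h1]
        by_cases hj : j = s
        · rw [hj, ← hHdef, decomp hs]
          have h2 : (fun i : Fin 2 => (![-g, c * Polynomial.X, c] : Fin 3 → Polynomial k) i.succ) =
              fun i => c * (![Polynomial.X, 1] : Fin 2 → Polynomial k) i := by
            funext i; fin_cases i <;> simp
          rw [h2, aeval_mul_of_isHomogeneous hC, aeval_mul_of_isHomogeneous hG, ← hcdef, ← hgdef]
          simp only [Matrix.cons_val_zero]
          obtain ⟨e, he⟩ : ∃ e, d s = e + 1 := ⟨d s - 1, by omega⟩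
          rw [he, Nat.add_sub_cancel]
          ring
        · rw [hplane j hj, map_zero]
      · funext i
        have hg0 : g.coeff 0 = 0 := by rw [hgdef, coeff_aeval_zero, hG01]
        rw [Polynomial.coeff_zero_eq_eval_zero] at hg0
        simp only [mcv, Polynomial.eval_add, Polynomial.eval_mul, Polynomial.eval_C,
          Polynomial.eval_neg, hg0, Polynomial.eval_X, Pi.smul_apply, smul_eq_mul,
          Polynomial.coeff_zero_eq_eval_zero]
        ring
      · funext i
        have h1 : c.coeff N = 0 := Polynomial.coeff_eq_zero_of_natDegree_lt (by omega)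
        obtain ⟨e, he⟩ : ∃ e, N = e + 1 := ⟨N - 1, by omega⟩
        simp only [mcv, Polynomial.coeff_add, Polynomial.coeff_C_mul, Polynomial.coeff_neg, h1,
          one_smul, hz, Pi.add_apply, Pi.smul_apply, smul_eq_mul]
        rw [he, Polynomial.coeff_mul_X, Nat.add_sub_cancel]
        ring
    have l2 : Lk F P z := by
      refine Lk.of_line fun j => ?_
      have h1 : ∀ j, bind₁ (lin P z) (F j) =
          aeval (![X 1 - C (g.coeff N) * X 0, C (c.coeff (N - 1)) * X 0, 0] :
            Fin 3 → MvPolynomial (Fin 2) k) (bind₁ (pln P w R) (F j)) := by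
        intro j
        rw [aeval_bind_pln]
        change aeval (lin P z) (F j) = _
        congr 2
        funext i
        simp [lin, hz]
        ring
      rw [h1]
      by_cases hj : j = s
      · rw [hj, ← hHdef, decomp hs,
          aeval_mul_const hC (C (c.coeff (N - 1)) * X 0) ![1, 0] ![1, 0] _ (by
            intro i; fin_cases i <;> simp),
          aeval_mul_const hG (C (c.coeff (N - 1)) * X 0) ![1, 0] ![1, 0] _ (by
            intro i; fin_cases i <;> simp), hC10]
        by_cases hb : c.coeff (N - 1) = 0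
        · rw [hb]
          have hds : d s ≠ 0 := by omega
          simp [hds]
        · rw [hβ hb]
          simp
      · rw [hplane j hj, map_zero]
    exact (RE.of_lk hP hz0 l2).trans (RE.of_lk hR hz0 l1).symm

/-- Two points `P`, `R` such that the line `P R` has a high contact with `F s = 0` at `P` and is
in `F j = 0` for the other `j` are R-equivalent. -/
theorem re_of_monoid (hk : IsC1 k) (hN : ∀ e, 1 ≤ e → HasNormic k e) [Fintype J] [DecidableEq J]
    (F : J → MvPolynomial (Fin m) k) (d : J → ℕ)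
    (hF : ∀ j, (F j).IsHomogeneous (d j)) (s : J) (hs : 2 ≤ d s)
    (hsum : ∑ j ∈ Finset.univ.erase s, (d j + 2).choose 3 + (d s).choose 3 + d s < m)
    {P R : Fin m → k} (hP : P ≠ 0) (hR : R ≠ 0)
    (hline : ∀ j, j ≠ s → (aeval (crv P 0 R 0) (F j) : Polynomial k) = 0)
    (hPs : eval P (F s) = 0) (hRs : eval R (F s) = 0)
    (hc : ∀ i, 1 ≤ i → i ≤ d s - 2 → (aeval (crv P 0 R 0) (F s) : Polynomial k).coeff i = 0) :
    RE F P R := by
  classical
  obtain ⟨i0, hi0⟩ := Function.ne_iff.1 hP
  let a : J → ℕ := fun j => if j = s then d s - 2 else d j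
  let I := (Σ j, Σ l : Fin (a j), Fin (a j - l)) ⊕ (Unit ⊕ Unit)
  let W : Fin m → MvPolynomial (Fin m) k := X
  let gp : Fin m → MvPolynomial (Fin 3) (MvPolynomial (Fin m) k) :=
    pln (fun i => C (P i)) W (fun i => C (R i))
  have hgp : ∀ i, GrW (gp i) := grW_pln P R W fun i => isHomogeneous_X _ _
  let e : I → ℕ := Sum.elim (fun p => (p.2.1 : ℕ) + 1) (Sum.elim (fun _ => d s - 1) (fun _ => 1))
  let f : I → MvPolynomial (Fin m) k := Sum.elim
    (fun p => coeff (e3 (d p.1 - ((p.2.1 : ℕ) + 1) - (p.2.2 : ℕ)) ((p.2.1 : ℕ) + 1) (p.2.2 : ℕ))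
      (aeval gp (F p.1)))
    (Sum.elim (fun _ => coeff (e3 1 (d s - 1) 0) (aeval gp (F s))) (fun _ => X i0))
  have hf : ∀ i, (f i).IsHomogeneous (e i) := by
    rintro (p | p | p)
    · exact GrW.aeval (F p.1) gp hgp _
    · exact GrW.aeval (F s) gp hgp _
    · exact isHomogeneous_X _ _
  have he : ∀ i, 1 ≤ e i := by
    rintro (p | p | p)
    · exact Nat.le_add_left _ _
    · change 1 ≤ d s - 1
      omega
    · exact le_rfl
  have hse : ∑ i, e i =
      ∑ j ∈ Finset.univ.erase s, (d j + 2).choose 3 + (d s).choose 3 + d s := by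
    rw [Fintype.sum_sum_type, Fintype.sum_sum_type, Fintype.sum_sigma]
    have h1 : ∀ j, ∑ p : (Σ l : Fin (a j), Fin (a j - l)), e (Sum.inl ⟨j, p⟩) =
        (a j + 2).choose 3 := by
      intro j
      rw [Fintype.sum_sigma]
      exact sum_choose_three (a j)
    rw [Finset.sum_congr rfl fun j _ => h1 j]
    rw [← Finset.sum_erase_add _ _ (Finset.mem_univ s)]
    have h2 : ∑ j ∈ Finset.univ.erase s, (a j + 2).choose 3 =
        ∑ j ∈ Finset.univ.erase s, (d j + 2).choose 3 := by
      refine Finset.sum_congr rfl fun j hj => ?_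
      rw [Finset.mem_erase] at hj
      simp only [a, if_neg hj.1]
    have h3 : a s + 2 = d s := by
      simp only [a, if_true]
      omega
    rw [h2, h3]
    simp only [e, Sum.elim_inr, Sum.elim_inl, Finset.univ_unique, Finset.sum_const,
      Finset.card_singleton, one_smul]
    omega
  have hcard : ∑ i, e i < Fintype.card (Fin m) := by
    rw [hse, Fintype.card_fin]
    exact hsum
  obtain ⟨w, hw, hw0⟩ := lang_nagata hk hN e he f hf hcard
  have hev : ∀ j, map (eval w) (aeval gp (F j)) = bind₁ (pln P w R) (F j) := by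
    intro j
    rw [map_aeval_pln]
    change _ = aeval (pln P w R) (F j)
    congr 2
    funext i
    rw [map_pln]
    simp [W]
  have hH : ∀ j, (bind₁ (pln P w R) (F j)).IsHomogeneous (d j) := by
    intro j
    have := (hF j).aeval _ (pln_homog P w R)
    rwa [one_mul] at this
  have hbase : ∀ j (e : Fin 3 →₀ ℕ), e 1 = 0 → e 0 + e 1 + e 2 = d j →
      coeff e (bind₁ (pln P w R) (F j)) =
        (aeval (crv P 0 R 0) (F j) : Polynomial k).coeff (e 2) := by
    intro j e h1 h2
    have h3 : (aeval (crv P 0 R 0) (F j) : Polynomial k) =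
        aeval ![1, 0, Polynomial.X] (bind₁ (pln P w R) (F j)) := by
      rw [aeval_bind_pln]
      congr 2
      funext i
      simp [crv]
    rw [h3, coeff_line (hH j) (e 2) (by omega)]
    congr 1
    rw [eq_e3 e]
    simp only [e3_zero, e3_one, e3_two]
    rw [h1]
    congr 1
    omega
  have hcf : ∀ j (e : Fin 3 →₀ ℕ), 1 ≤ e 1 → e 0 + e 1 + e 2 = d j → e 1 + e 2 ≤ a j →
      coeff e (bind₁ (pln P w R) (F j)) = 0 := by
    intro j e h1 h2 h3
    have h4 := hw0 (Sum.inl ⟨j, ⟨e 1 - 1, by omega⟩, ⟨e 2, by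
      change e 2 < a j - (e 1 - 1)
      omega⟩⟩)
    simp only [f, Sum.elim_inl] at h4
    rw [← coeff_map, hev] at h4
    rw [← h4]
    congr 1
    rw [eq_e3 e]
    simp only [e3_zero, e3_one, e3_two]
    congr 1 <;> omega
  refine re_of_plane hF s (by omega) hP hR (w := w) ?_ ?_ ?_ ?_ hRs
  · intro b hb
    have h1 := hw0 (Sum.inr (Sum.inr ()))
    simp only [f, Sum.elim_inr, eval_X] at h1
    rw [hb] at h1
    simp only [Pi.smul_apply, smul_eq_mul] at h1
    rcases mul_eq_zero.1 h1 with h2 | h2
    · apply hw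
      rw [hb, h2, zero_smul]
    · exact hi0 h2
  · intro j hj
    ext e
    rw [coeff_zero]
    by_contra hne
    have h1 := sum_eq_of_coeff_ne_zero (hH j) hne
    apply hne
    by_cases h2 : e 1 = 0
    · rw [hbase j e h2 h1, hline j hj, Polynomial.coeff_zero]
    · refine hcf j e (by omega) h1 ?_
      simp only [a, if_neg hj]
      omega
  · intro e he2
    by_contra hne
    have h1 := sum_eq_of_coeff_ne_zero (hH s) hne
    apply hne
    by_cases h2 : e 1 = 0
    · rw [hbase s e h2 h1]
      by_cases h3 : e 2 = 0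
      · rw [h3, coeff_zero_crv, hPs]
      · exact hc _ (by omega) (by omega)
    · refine hcf s e (by omega) h1 ?_
      simp only [a, if_true]
      omega
  · have h1 := hw0 (Sum.inr (Sum.inl ()))
    simp only [f, Sum.elim_inr, Sum.elim_inl] at h1
    rw [← coeff_map, hev] at h1
    exact h1

theorem coeff_crv_top {F : MvPolynomial (Fin m) k} {d : ℕ} (hF : F.IsHomogeneous d)
    (P M : Fin m → k) : (aeval (crv P 0 M 0) F : Polynomial k).coeff d = eval M F := by
  have h4 := Polynomial.homogenize_eq_of_isHomogeneous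
    (hF.aeval _ (lin_homog P M)) (p := aeval (crv P 0 M 0) F) (aeval_lin _ _ _)
  rw [one_mul] at h4
  rw [← eval_one_zero_homogenize, h4]
  rw [eval_aeval]
  congr 2
  funext i
  simp [lin]

theorem crv_eq_zero {F : MvPolynomial (Fin m) k} {d : ℕ} (hF : F.IsHomogeneous d)
    (P M : Fin m → k) (h : ∀ i ≤ d, (aeval (crv P 0 M 0) F : Polynomial k).coeff i = 0) :
    (aeval (crv P 0 M 0) F : Polynomial k) = 0 := by
  have h1 : bind₁ (lin P M) F = 0 := by
    refine binary_eq_zero (hF.aeval _ (lin_homog P M)) d 0 (by omega) ?_ ?_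
    · intro i hi
      rw [aeval_lin]
      exact h i hi
    · intro i hi
      rw [Nat.le_zero.1 hi, aeval_lin', ← coeff_crv_top hF P M]
      exact h _ le_rfl
  rw [← aeval_lin, h1, map_zero]

theorem sum_succ_two (a : ℕ) : 2 * ∑ l : Fin a, ((l : ℕ) + 1) = a * (a + 1) := by
  rw [Fin.sum_univ_eq_sum_range (fun i => i + 1)]
  induction a with
  | zero => simp
  | succ n ih => rw [Finset.sum_range_succ, mul_add, ih]; ring

/-- Over a `C₁` field with normic forms of all degrees, all points of `F = 0` are R-equivalent if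
`∑_{j ≠ s} (d j)² + (d s - 1)² + 1 < m` and `∑_{j ≠ s} C(d j + 2, 3) + C(d s, 3) + d s < m`,
`m` being the number of the variables. -/
theorem re_of_two_monoids (hk : IsC1 k) (hN : ∀ e, 1 ≤ e → HasNormic k e) [Fintype J]
    [DecidableEq J] (F : J → MvPolynomial (Fin m) k) (d : J → ℕ) (hd : ∀ j, 1 ≤ d j)
    (hF : ∀ j, (F j).IsHomogeneous (d j)) (s : J) (hs : 2 ≤ d s)
    (hsum1 : ∑ j ∈ Finset.univ.erase s, d j ^ 2 + (d s - 1) ^ 2 + 1 < m)
    (hsum2 : ∑ j ∈ Finset.univ.erase s, (d j + 2).choose 3 + (d s).choose 3 + d s < m)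
    {P Q : Fin m → k} (hP : P ≠ 0) (hQ : Q ≠ 0) (hP0 : ∀ j, eval P (F j) = 0)
    (hQ0 : ∀ j, eval Q (F j) = 0) : RE F P Q := by
  classical
  let a : J → ℕ := fun j => if j = s then d s - 2 else d j
  let b : J → ℕ := fun j => if j = s then d s - 2 else d j - 1
  let I := ((Σ j, Fin (a j)) ⊕ (Σ j, Fin (b j))) ⊕ Unit
  let M : Fin m → MvPolynomial (Fin m) k := X
  have hM : ∀ i, (M i).IsHomogeneous 1 := fun i => isHomogeneous_X _ _
  let e : I → ℕ := Sum.elim (Sum.elim (fun p => (p.2 : ℕ) + 1) (fun p => (p.2 : ℕ) + 1))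
    (fun _ => d s)
  let f : I → MvPolynomial (Fin m) k := Sum.elim (Sum.elim
    (fun p => (aeval (gen P 0 M 0) (F p.1) :
      Polynomial (MvPolynomial (Fin m) k)).coeff ((p.2 : ℕ) + 1))
    (fun p => (aeval (gen Q 0 M 0) (F p.1) :
      Polynomial (MvPolynomial (Fin m) k)).coeff ((p.2 : ℕ) + 1)))
    (fun _ => F s)
  have hf : ∀ i, (f i).IsHomogeneous (e i) := by
    rintro ((p | p) | p)
    · exact Gr.aeval (F p.1) _ (gr_gen P 0 M 0 hM (isHomogeneous_zero _ _ _)) _
    · exact Gr.aeval (F p.1) _ (gr_gen Q 0 M 0 hM (isHomogeneous_zero _ _ _)) _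
    · exact hF s
  have he : ∀ i, 1 ≤ e i := by
    rintro ((p | p) | p)
    · exact Nat.le_add_left _ _
    · exact Nat.le_add_left _ _
    · exact hd s
  have hse : ∑ i, e i = ∑ j ∈ Finset.univ.erase s, d j ^ 2 + (d s - 1) ^ 2 + 1 := by
    rw [Fintype.sum_sum_type, Fintype.sum_sum_type, Fintype.sum_sigma, Fintype.sum_sigma,
      ← Finset.sum_add_distrib, ← Finset.sum_erase_add _ _ (Finset.mem_univ s)]
    have h1 : ∀ j ∈ Finset.univ.erase s, (∑ l : Fin (a j), e (Sum.inl (Sum.inl ⟨j, l⟩)) +
        ∑ l : Fin (b j), e (Sum.inl (Sum.inr ⟨j, l⟩))) = d j ^ 2 := by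
      intro j hj
      rw [Finset.mem_erase] at hj
      simp only [e, Sum.elim_inl, Sum.elim_inr]
      have h2 := sum_succ_two (a j)
      have h3 := sum_succ_two (b j)
      have h4 : a j = d j := by simp only [a, if_neg hj.1]
      have h5 : b j = d j - 1 := by simp only [b, if_neg hj.1]
      obtain ⟨c, hc⟩ : ∃ c, d j = c + 1 := ⟨d j - 1, by have := hd j; omega⟩
      rw [h4, hc] at h2
      rw [h5, hc, Nat.add_sub_cancel] at h3
      rw [h4, h5, hc, Nat.add_sub_cancel]
      nlinarith
    rw [Finset.sum_congr rfl h1, add_assoc, add_assoc, add_assoc]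
    congr 1
    simp only [e, Sum.elim_inl, Sum.elim_inr]
    have h2 := sum_succ_two (a s)
    have h3 := sum_succ_two (b s)
    have h4 : a s = d s - 2 := by simp only [a, if_true]
    have h5 : b s = d s - 2 := by simp only [b, if_true]
    obtain ⟨c, hc⟩ : ∃ c, d s = c + 2 := ⟨d s - 2, by omega⟩
    rw [h4, hc, Nat.add_sub_cancel] at h2
    rw [h5, hc, Nat.add_sub_cancel] at h3
    rw [h4, h5, hc, Nat.add_sub_cancel]
    have h6 : c + 2 - 1 = c + 1 := by omega
    rw [h6]
    simp only [Finset.univ_unique, Finset.sum_const, Finset.card_singleton, one_smul]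
    nlinarith
  have hcard : ∑ i, e i < Fintype.card (Fin m) := by
    rw [hse, Fintype.card_fin]
    exact hsum1
  obtain ⟨R, hR, hR0⟩ := lang_nagata hk hN e he f hf hcard
  have hev : ∀ (A : Fin m → k) j, Polynomial.map (eval R) (aeval (gen A 0 M 0) (F j)) =
      aeval (crv A 0 R 0) (F j) := by
    intro A j
    rw [map_aeval_curve]
    congr 2
    funext i
    rw [map_gen, map_zero]
    congr 1
    funext l
    simp [M]
  have hRs : eval R (F s) = 0 := hR0 (Sum.inr ())
  have c1 : ∀ j i, 1 ≤ i → i ≤ a j → (aeval (crv P 0 R 0) (F j) : Polynomial k).coeff i = 0 := by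
    intro j i h1 h2
    obtain ⟨i, rfl⟩ : ∃ i', i = i' + 1 := ⟨i - 1, by omega⟩
    have h3 := hR0 (Sum.inl (Sum.inl ⟨j, ⟨i, by omega⟩⟩))
    simp only [f, Sum.elim_inl] at h3
    rw [← Polynomial.coeff_map, hev] at h3
    exact h3
  have c2 : ∀ j i, 1 ≤ i → i ≤ b j → (aeval (crv Q 0 R 0) (F j) : Polynomial k).coeff i = 0 := by
    intro j i h1 h2
    obtain ⟨i, rfl⟩ : ∃ i', i = i' + 1 := ⟨i - 1, by omega⟩
    have h3 := hR0 (Sum.inl (Sum.inr ⟨j, ⟨i, by omega⟩⟩))
    simp only [f, Sum.elim_inl, Sum.elim_inr] at h3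
    rw [← Polynomial.coeff_map, hev] at h3
    exact h3
  have hRj : ∀ j, eval R (F j) = 0 := by
    intro j
    by_cases hj : j = s
    · rw [hj]; exact hRs
    · rw [← coeff_crv_top (hF j) P R]
      refine c1 j _ (hd j) ?_
      simp only [a, if_neg hj]
      exact le_rfl
  have r1 : RE F P R := by
    refine re_of_monoid hk hN F d hF s hs hsum2 hP hR ?_ (hP0 s) hRs ?_
    · intro j hj
      refine crv_eq_zero (hF j) P R fun i hi => ?_
      rcases i with _ | i
      · rw [coeff_zero_crv]; exact hP0 j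
      · refine c1 j _ (Nat.le_add_left _ _) ?_
        simp only [a, if_neg hj]
        exact hi
    · intro i h1 h2
      refine c1 s i h1 ?_
      simp only [a, if_true]
      exact h2
  have r2 : RE F Q R := by
    refine re_of_monoid hk hN F d hF s hs hsum2 hQ hR ?_ (hQ0 s) hRs ?_
    · intro j hj
      refine crv_eq_zero (hF j) Q R fun i hi => ?_
      rcases i with _ | i
      · rw [coeff_zero_crv]; exact hQ0 j
      · by_cases h4 : i + 1 = d j
        · rw [h4, coeff_crv_top (hF j)]
          exact hRj j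
        · refine c2 j _ (Nat.le_add_left _ _) ?_
          simp only [b, if_neg hj]
          omega
    · intro i h1 h2
      refine c2 s i h1 ?_
      simp only [b, if_true]
      exact h2
  exact r1.trans r2.symm

end Pool.Agent.K369
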